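import Pool.Agent.Dess4.Defs

/-!
# The zero-cycle of Faber and Pandharipande: definitions
-/

set_option autoImplicit false

noncomputable section

namespace Pool.Agent.FPZ

open Pool.Agent.ZCyc Pool.Agent.Dess

section

variable {k F : Type} [Field k] [Field F] [Algebra k F]

/-- `K` is the divisor of the differential `dx` on the curve with function field `F` (the
characteristic is zero): if `x` has the value `a` at the point `v` and `x - a` has a zero of order
`n`, then the order of `dx` at `v` is `n - 1`; if `x` has a pole of order `m`, i.e. `x - a` has the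
order `n = -m`, then the order of `dx` is also `n - 1`. -/
def IsCan (x : F) (K : Place k F →₀ ℤ) : Prop :=
  ∀ (v : Place k F) (a : k) (n : ℤ), n ≠ 0 → HasOrd v (x - algebraMap k F a) n → K v = n - 1

/-- `K` is a canonical divisor: the divisor of the differential `dx` of a function `x` which is not
constant. -/
def Canonical (K : Place k F →₀ ℤ) : Prop := ∃ x : F, Transcendental k x ∧ IsCan x K

/-- The zero-cycle `K × K - deg(K) Δ_*(K)` on the product of the curve `D` with itself, where `K` is
a divisor on `D` and `Δ` is the diagonal map. If `K` is a canonical divisor this is the cycle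
of Faber and Pandharipande. -/
def fp (K : Place k F →₀ ℤ) : (Bool → Place k F) →₀ ℤ :=
  (K.sum fun p m => K.sum fun q n => Finsupp.single (pair (L := fun _ => F) p q) (m * n)) -
    (K.sum fun _ n => n) • K.mapDomain fun p : Place k F => pair (L := fun _ => F) p p

/-- The zero-cycle of Faber and Pandharipande is torsion in the Chow group of `D × D`, where `D` is
the curve with function field `F`. -/
def FPTor (k F : Type) [Field k] [Field F] [Algebra k F] : Prop :=
  ∀ K : Place k F →₀ ℤ, Canonical K → RatTor (fun _ : Bool => F) (fp K)

end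

/-- The zero-cycle of Faber and Pandharipande is torsion for all smooth projective curves over the
algebraic numbers. -/
def FPConj : Prop := ∀ (F : Type) [Field F] [Algebra QQ F], IsCurve QQ F → FPTor QQ F

/-- The zero-cycle of Faber and Pandharipande is torsion for arbitrarily large Galois étale
coverings of Fermat curves. -/
def FPCofinalConj {Ω : Type} [Field Ω] [Algebra QQ Ω] (t : Ω) : Prop :=
  ∀ F : IntermediateField QQ Ω, Belyi t F →
    ∃ F' : IntermediateField QQ Ω, F ≤ F' ∧ Fermat t F' ∧ FPTor QQ F'

/-- The zero-cycle `w` is the image, under a morphism, of the zero-cycle of Faber and Pandharipande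
of a curve which is a Galois étale covering of a Fermat curve, and whose function field contains
`E`. -/
def FPCycle {Ω : Type} [Field Ω] [Algebra QQ Ω] (t : Ω) (E : IntermediateField QQ Ω) {ι : Type}
    (L : ι → Type) [∀ i, Field (L i)] [∀ i, Algebra QQ (L i)]
    (w : (∀ i, Place QQ (L i)) →₀ ℤ) : Prop :=
  ∃ (F : IntermediateField QQ Ω) (K : Place QQ F →₀ ℤ)
    (Φ : (Bool → Place QQ F) → ∀ i, Place QQ (L i)),
    E ≤ F ∧ Fermat t F ∧ Canonical K ∧ IsMor Φ ∧ w = (fp K).mapDomain Φ

section

variable {k F : Type} [Field k] [Field F] [Algebra k F]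

/-- The exchange of the two factors of `C × C`. -/
def swap (a : Bool → Place k F) : Bool → Place k F := fun b => a (!b)

/-- The zero-cycle `z` on the product of the curves with function fields `L i` is spanned by the
zero-cycles with the property `C`: a multiple `m z`, `m > 0`, is rationally equivalent to a
combination of such zero-cycles with integral coefficients. -/
def Spanned {ι : Type} (L : ι → Type) [∀ i, Field (L i)] [∀ i, Algebra k (L i)]
    (C : ((∀ i, Place k (L i)) →₀ ℤ) → Prop) (z : (∀ i, Place k (L i)) →₀ ℤ) : Prop :=
  ∃ m : ℕ, 0 < m ∧ m • z ∈ RatEq L ⊔ AddSubgroup.closure {w | C w}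

/-- The zero-cycle `w` on the product of the curves with function fields `L i` is the image, under a
morphism, of the zero-cycle of Faber and Pandharipande of a curve. -/
def FPImage {ι : Type} (L : ι → Type) [∀ i, Field (L i)] [∀ i, Algebra k (L i)]
    (w : (∀ i, Place k (L i)) →₀ ℤ) : Prop :=
  ∃ (M : Type) (_ : Field M) (_ : Algebra k M) (K : Place k M →₀ ℤ)
    (Φ : (Bool → Place k M) → ∀ i, Place k (L i)),
    IsCurve k M ∧ Canonical K ∧ IsMor Φ ∧ w = (fp K).mapDomain Φ

/-- The zero-cycle `w` on the product `C × C` of the curve with function field `F` is the image of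
the zero-cycle of Faber and Pandharipande under `D × D → C × C`, for a double covering `D → C`:
the function field `M` of `D` is a quadratic extension of `F`. -/
def DoubleFP (k F : Type) [Field k] [Field F] [Algebra k F] (w : (Bool → Place k F) →₀ ℤ) :
    Prop :=
  ∃ (M : Type) (_ : Field M) (_ : Algebra k M) (φ : F →ₐ[k] M) (Ψ : Place k M → Place k F)
    (K : Place k M →₀ ℤ), IsCurve k M ∧ Module.finrank φ.fieldRange M = 2 ∧
      (∀ V, (Ψ V).ring = V.ring.comap (φ : F →+* M)) ∧ Canonical K ∧
      w = (fp K).mapDomain fun a b => Ψ (a b)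

/-- The zero-cycle `w` on the product `C × C` of the curve with function field `F` is the image of
the zero-cycle of Faber and Pandharipande under `D × D → C × C`, for a double covering `D → C`
which is branched over exactly two points, such that the canonical divisors of `D` have degree `n`
(the genus of `D` is `n / 2 + 1`). -/
def TwoPointFP (k F : Type) [Field k] [Field F] [Algebra k F] (n : ℤ)
    (w : (Bool → Place k F) →₀ ℤ) : Prop :=
  ∃ (M : Type) (_ : Field M) (_ : Algebra k M) (φ : F →ₐ[k] M) (Ψ : Place k M → Place k F)
    (K : Place k M →₀ ℤ) (p q : Place k F), IsCurve k M ∧ Module.finrank φ.fieldRange M = 2 ∧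
      (∀ V, (Ψ V).ring = V.ring.comap (φ : F →+* M)) ∧ p ≠ q ∧
      (∀ v, (∃! V, Ψ V = v) ↔ v = p ∨ v = q) ∧ Canonical K ∧ (K.sum fun _ m => m) = n ∧
      w = (fp K).mapDomain fun a b => Ψ (a b)

/-- The zero-cycle of Faber and Pandharipande is torsion for all curves of genus `g`: a canonical
divisor has degree `2 g - 2`. -/
def FPGenus (k : Type) [Field k] (g : ℤ) : Prop :=
  ∀ (M : Type) [Field M] [Algebra k M], IsCurve k M → ∀ K : Place k M →₀ ℤ, Canonical K →
    (K.sum fun _ m => m) = 2 * g - 2 → RatTor (fun _ : Bool => M) (fp K)

open Polynomial in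
/-- `F` is the function field of the curve `y ^ 2 = f(x)`. -/
structure HypField (f : k[X]) (x y : F) : Prop where
  curve : IsCurve k F
  transc : Transcendental k x
  eq : y ^ 2 = aeval x f
  gen : IntermediateField.adjoin k {x, y} = ⊤

open Polynomial in
/-- `F` is the function field of an elliptic curve: `y ^ 2 = f(x)` with a separable polynomial `f`
of degree three. -/
def Elliptic (k F : Type) [Field k] [Field F] [Algebra k F] : Prop :=
  ∃ (f : k[X]) (x y : F), f.natDegree = 3 ∧ f.Separable ∧ HypField f x y

/-- The zero-cycle `w` on the product of the curves with function fields `L i` is the image, under a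
morphism, of the zero-cycle of Faber and Pandharipande of a curve of genus `g` (the canonical
divisors have degree `2 g - 2`). -/
def GenusFP {k : Type} [Field k] (g : ℤ) {ι : Type} (L : ι → Type) [∀ i, Field (L i)]
    [∀ i, Algebra k (L i)] (w : (∀ i, Place k (L i)) →₀ ℤ) : Prop :=
  ∃ (M : Type) (_ : Field M) (_ : Algebra k M) (K : Place k M →₀ ℤ)
    (Φ : (Bool → Place k M) → ∀ i, Place k (L i)),
    IsCurve k M ∧ Canonical K ∧ (K.sum fun _ m => m) = 2 * g - 2 ∧ IsMor Φ ∧
      w = (fp K).mapDomain Φ

end

/-- The curve with function field `F` is defined over the rational numbers: `F` is generated over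
the algebraic numbers by the subfield `F₀`, and all constants in `F₀` are rational. -/
structure OverQ {F : Type} [Field F] [Algebra QQ F] (F₀ : Subfield F) : Prop where
  gen : IntermediateField.adjoin QQ (F₀ : Set F) = ⊤
  const : ∀ c : QQ, algebraMap QQ F c ∈ F₀ → c ∈ Set.range (algebraMap ℚ QQ)

/-- The zero-cycle of Faber and Pandharipande is torsion for all smooth projective curves over the
rational numbers. -/
def FPConjQ : Prop :=
  ∀ (F : Type) [Field F] [Algebra QQ F] (F₀ : Subfield F), IsCurve QQ F → OverQ F₀ → FPTor QQ F

/-- The zero-cycle `w` is the image, under a morphism, of the zero-cycle of Faber and Pandharipande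
of a curve over the rational numbers. -/
def FPCycleQ {ι : Type} (L : ι → Type) [∀ i, Field (L i)] [∀ i, Algebra QQ (L i)]
    (w : (∀ i, Place QQ (L i)) →₀ ℤ) : Prop :=
  ∃ (F : Type) (_ : Field F) (_ : Algebra QQ F) (F₀ : Subfield F) (K : Place QQ F →₀ ℤ)
    (Φ : (Bool → Place QQ F) → ∀ i, Place QQ (L i)),
    IsCurve QQ F ∧ OverQ F₀ ∧ Canonical K ∧ IsMor Φ ∧ w = (fp K).mapDomain Φ

end Pool.Agent.FPZ
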