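import Pool.Agent.FPZ.Push
import Pool.Agent.FPZ.Defs
import Pool.Agent.Dess.Crit

/-!
# The canonical divisor of a double covering
-/

set_option autoImplicit false

noncomputable section

namespace Pool.Agent.FPZ

open Pool.Agent.ZCyc Pool.Agent.Dess Pool.Agent.Dess4 Polynomial Module
open scoped Classical

variable {k F M : Type} [Field k] [Field F] [Algebra k F] [Field M] [Algebra k M]

/-! ### values and canonical divisors -/

/-- a function has a value or a pole -/
theorem at_or_pole [IsAlgClosed k] [CharZero k] (hF : IsCurve k F) (v : Place k F) (x : F) :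
    (∃ a, v.At x a) ∨ x ∉ v.ring := by
  by_cases h : x ∈ v.ring
  · exact Or.inl (exists_at hF v h)
  · exact Or.inr h

theorem transc_sub {x : F} (hx : Transcendental k x) (a : k) :
    Transcendental k (x - algebraMap k F a) := by
  intro h
  apply hx
  simpa using h.add (isAlgebraic_algebraMap (R := k) (A := F) a)

theorem transc_ne {x : F} (hx : Transcendental k x) : x ≠ 0 := by
  rintro rfl
  exact hx isAlgebraic_zero

/-- the order at a zero is positive -/
theorem ord_pos_of_vanishes {v : Place k F} {g : F} (hg : g ≠ 0) {n : ℤ} (h : HasOrd v g n)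
    (hv : v.Vanishes g) : 0 < n := by
  rw [ord_pos_iff hg h]
  rcases (v.vanishes_iff_or g).1 hv with h1 | h1
  · exact absurd h1 hg
  · exact h1

/-- the order at a pole is negative -/
theorem ord_neg_of_notMem {v : Place k F} {g : F} {n : ℤ} (h : HasOrd v g n)
    (hv : g ∉ v.ring) : n < 0 := by
  have hg : g ≠ 0 := by
    rintro rfl
    exact hv (zero_mem _)
  have h1 := (ord_pos_iff (inv_ne_zero hg) (hasOrd_inv h)).2 (by rwa [inv_inv])
  omega

/-- a function with a positive order vanishes -/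
theorem vanishes_of_ord {v : Place k F} {g : F} (hg : g ≠ 0) {n : ℤ} (h : HasOrd v g n)
    (hn : 0 < n) : v.Vanishes g := by
  rw [v.vanishes_iff_or]
  exact Or.inr ((ord_pos_iff hg h).1 hn)

/-- a uniformizer has order one -/
theorem dc_ord_unif {v : Place k F} {g : F} (h : IsUnif v g) : HasOrd v g 1 := by
  refine ⟨g, h, ?_, ?_⟩
  · rw [zpow_one, div_self h.1]
    exact one_mem _
  · rw [zpow_one, div_self h.1, inv_one]
    exact one_mem _

/-- a unit does not change the order -/
theorem dc_ord_mul {v : Place k F} {g u : F} {n : ℤ} {c : k} (h : HasOrd v g n)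
    (hu : v.At u c) (hc : c ≠ 0) : HasOrd v (g * u) n := by
  obtain ⟨π, hπ, h1, h2⟩ := h
  have e1 : g * u / π ^ n = g / π ^ n * u := by ring
  refine ⟨π, hπ, ?_, ?_⟩
  · rw [e1]
    exact mul_mem h1 hu.mem
  · rw [e1, mul_inv]
    exact mul_mem h2 (hu.inv hc).mem

/-- a constant does not change the order of a pole -/
theorem pole_sub {v : Place k F} {x : F} {a : k} {n : ℤ}
    (h : HasOrd v (x - algebraMap k F a) n) (hx : x ∉ v.ring) : HasOrd v x n := by
  have h1 : x - algebraMap k F a ∉ v.ring := by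
    intro h2
    apply hx
    have := add_mem h2 (v.const_mem a)
    rwa [sub_add_cancel] at this
  have h0 : x - algebraMap k F a ≠ 0 := by
    intro h2
    rw [h2] at h1
    exact h1 (zero_mem _)
  have h2 : v.Vanishes (x - algebraMap k F a)⁻¹ := by
    rw [v.vanishes_iff_or, inv_inv]
    exact Or.inr h1
  have h3 : v.At (1 + algebraMap k F a * (x - algebraMap k F a)⁻¹) 1 := by
    have h4 := (Place.at_const (v := v) (1 : k)).add
      ((Place.at_const (v := v) a).mul (Place.at_zero_iff.2 h2))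
    rw [map_one] at h4
    simpa using h4
  have h4 := dc_ord_mul h h3 one_ne_zero
  have e1 : (x - algebraMap k F a) * (1 + algebraMap k F a * (x - algebraMap k F a)⁻¹) = x := by
    rw [mul_add, mul_one, mul_left_comm, mul_inv_cancel₀ h0, mul_one, sub_add_cancel]
  rwa [e1] at h4

/-- the order of `x - a` at a point is zero, or determined by the point -/
theorem can_aux [IsAlgClosed k] [CharZero k] (hF : IsCurve k F) {x : F}
    (hx : Transcendental k x) (v : Place k F) :
    ∃ m : ℤ, m ≠ 0 ∧ (∀ (a : k) (n : ℤ), n ≠ 0 → HasOrd v (x - algebraMap k F a) n → n = m) ∧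
      ((∃ a, v.At x a ∧ HasOrd v (x - algebraMap k F a) m ∧ 0 < m) ∨
        (x ∉ v.ring ∧ (∀ a, HasOrd v (x - algebraMap k F a) m) ∧ m < 0)) := by
  rcases at_or_pole hF v x with ⟨a₀, ha₀⟩ | hp
  · have h0 := transc_ne (transc_sub hx a₀)
    obtain ⟨m, hm⟩ := exists_hasOrd hF v h0
    have hpos := ord_pos_of_vanishes h0 hm ha₀
    refine ⟨m, hpos.ne', fun a n hn h => ?_, Or.inl ⟨a₀, ha₀, hm, hpos⟩⟩
    by_cases ha : a = a₀
    · rw [ha] at h
      exact hasOrd_unique hF h0 h hm
    · exfalso
      apply hn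
      have h1 : v.At (x - algebraMap k F a) (a₀ - a) := ha₀.sub (Place.at_const a)
      have h2 : a₀ - a ≠ 0 := sub_ne_zero.2 (Ne.symm ha)
      exact hasOrd_unique hF (transc_ne (transc_sub hx a)) h
        (ord_unit_of_mem hF h1.mem (h1.inv h2).mem)
  · obtain ⟨m, hm⟩ := exists_hasOrd hF v (transc_ne hx)
    have hneg := ord_neg_of_notMem hm hp
    have key : ∀ a, HasOrd v (x - algebraMap k F a) m := by
      intro a
      obtain ⟨n, hn⟩ := exists_hasOrd hF v (transc_ne (transc_sub hx a))
      have h1 := pole_sub hn hp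
      rwa [← hasOrd_unique hF (transc_ne hx) h1 hm]
    refine ⟨m, hneg.ne, fun a n _ h => ?_, Or.inr ⟨hp, key, hneg⟩⟩
    exact hasOrd_unique hF (transc_ne (transc_sub hx a)) h (key a)

/-- every nonconstant function has a canonical divisor -/
theorem exists_can [IsAlgClosed k] [CharZero k] (hF : IsCurve k F) {x : F}
    (hx : Transcendental k x) : ∃ K : Place k F →₀ ℤ, IsCan x K := by
  choose m hm0 hm hm' using can_aux hF hx
  have hfin : {v : Place k F | m v - 1 ≠ 0}.Finite := by
    have h1 : (⋃ c ∈ {c : k | ∃ v : Place k F, v.At x c ∧ ¬ IsUnif v (x - algebraMap k F c)},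
        {v : Place k F | v.At x c}).Finite :=
      (finite_crit hF hx).biUnion fun c _ => finite_at hF hx c
    refine (h1.union (finite_pole hF hx)).subset ?_
    intro v hv
    rcases hm' v with ⟨a, ha, hma, -⟩ | ⟨hp, -, -⟩
    · left
      rw [Set.mem_iUnion₂]
      refine ⟨a, ⟨v, ha, fun hu => hv ?_⟩, ha⟩
      have h2 := hasOrd_unique hF (transc_ne (transc_sub hx a)) hma (dc_ord_unif hu)
      rw [h2, sub_self]
    · exact Or.inr hp
  refine ⟨Finsupp.ofSupportFinite (fun v => m v - 1) hfin, ?_⟩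
  intro v a n hn h
  rw [hm v a n hn h]
  rfl

/-- the canonical divisor at a point -/
theorem can_value [IsAlgClosed k] [CharZero k] (hF : IsCurve k F) {x : F}
    (hx : Transcendental k x) {K : Place k F →₀ ℤ} (hK : IsCan x K) (v : Place k F) :
    ∃ (a : k) (m : ℤ), m ≠ 0 ∧ HasOrd v (x - algebraMap k F a) m ∧ K v = m - 1 := by
  obtain ⟨m, hm0, hm, hm'⟩ := can_aux hF hx v
  rcases hm' with ⟨a, -, h, -⟩ | ⟨-, h, -⟩
  · exact ⟨a, m, hm0, h, hK v a m hm0 h⟩
  · exact ⟨0, m, hm0, h 0, hK v 0 m hm0 (h 0)⟩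

/-- the canonical divisor is unique -/
theorem can_unique [IsAlgClosed k] [CharZero k] (hF : IsCurve k F) {x : F}
    (hx : Transcendental k x) {K K' : Place k F →₀ ℤ} (hK : IsCan x K) (hK' : IsCan x K') :
    K = K' := by
  ext v
  obtain ⟨a, m, hm, h, h1⟩ := can_value hF hx hK v
  rw [h1, hK' v a m hm h]

/-! ### the points above a point -/

/-- the canonical divisor above a point -/
theorem can_above [IsAlgClosed k] [CharZero k] (hF : IsCurve k F) {x : F}
    (hx : Transcendental k x) {K : Place k F →₀ ℤ} (hK : IsCan x K) {φ : F →ₐ[k] M}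
    {K' : Place k M →₀ ℤ} (hK' : IsCan (φ x) K') {v : Place k F} {V : Place k M}
    (hV : V.ring.comap (φ : F →+* M) = v.ring) {ϖ : F} (hϖ : IsUnif v ϖ) {e : ℤ} (he0 : e ≠ 0)
    (he : HasOrd V (φ ϖ) e) : K' V = (K v + 1) * e - 1 := by
  obtain ⟨a, m, hm, h, h1⟩ := can_value hF hx hK v
  have h2 := ord_pull hV hϖ he h
  rw [map_sub, AlgHom.commutes] at h2
  rw [hK' V a (m * e) (mul_ne_zero hm he0) h2, h1]
  ring

/-- the degree of a double covering -/
theorem dbl_finrank [CharZero k] {φ : F →ₐ[k] M} {d : F} {s : M} (h : Dbl φ d s) (hd : d ≠ 0) :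
    @finrank F M _ _ (φ : F →+* M).toAlgebra.toModule = 2 := by
  letI : Algebra F M := (φ : F →+* M).toAlgebra
  have hsmul : ∀ (a : F) (m : M), a • m = φ a * m := fun a m => rfl
  have hs0 : s ≠ 0 := by
    rintro rfl
    have := h.sq
    rw [zero_pow two_ne_zero] at this
    exact hd ((map_eq_zero φ).1 this.symm)
  have hch : CharZero M := charZero_of_injective_algebraMap (algebraMap k M).injective
  obtain ⟨σ, hσ, hσs⟩ := h.conj
  have hli : LinearIndependent F ![(1 : M), s] := by
    rw [LinearIndependent.pair_iff]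
    intro a b hab
    rw [hsmul, hsmul, mul_one] at hab
    have h1 := congrArg σ hab
    rw [map_add, map_mul, hσ, hσ, hσs, map_zero] at h1
    have h2 : (2 : M) * φ a = 0 := by linear_combination hab + h1
    have h3 : φ a = 0 := (mul_eq_zero.1 h2).resolve_left two_ne_zero
    rw [h3, zero_add] at hab
    have h4 : φ b = 0 := (mul_eq_zero.1 hab).resolve_right hs0
    exact ⟨(map_eq_zero φ).1 h3, (map_eq_zero φ).1 h4⟩
  have hspan : ⊤ ≤ Submodule.span F (Set.range ![(1 : M), s]) := by
    intro m _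
    obtain ⟨a, b, rfl⟩ := h.span m
    have h1 : φ a + φ b * s = a • (1 : M) + b • s := by
      rw [hsmul, hsmul, mul_one]
    rw [h1]
    exact add_mem (Submodule.smul_mem _ _ (Submodule.subset_span ⟨0, rfl⟩))
      (Submodule.smul_mem _ _ (Submodule.subset_span ⟨1, rfl⟩))
  rw [Module.finrank_eq_card_basis (Basis.mk hli hspan), Fintype.card_fin]

/-- the push-forward of a divisor at a point -/
theorem mapDomain_fibre (Ψ : Place k M → Place k F) (A : Place k M →₀ ℤ) {v : Place k F}
    {S : Finset (Place k M)} (hS : ∀ V, V ∈ S ↔ Ψ V = v) :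
    (A.mapDomain Ψ) v = ∑ V ∈ S, A V := by
  induction A using Finsupp.induction_linear with
  | zero => simp
  | add a b ha hb =>
    rw [Finsupp.mapDomain_add, Finsupp.add_apply, ha, hb, ← Finset.sum_add_distrib]
    rfl
  | single V n =>
    rw [Finsupp.mapDomain_single]
    by_cases hV : Ψ V = v
    · rw [hV, Finsupp.single_eq_same, Finset.sum_eq_single V, Finsupp.single_eq_same]
      · intro W _ hW
        exact Finsupp.single_eq_of_ne hW
      · intro h
        exact absurd ((hS V).2 hV) h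
    · rw [Finsupp.single_eq_of_ne (Ne.symm hV)]
      symm
      apply Finset.sum_eq_zero
      intro W hW
      apply Finsupp.single_eq_of_ne
      rintro rfl
      exact hV ((hS W).1 hW)

/-- the number of points above a point, for a double covering -/
theorem dbl_fibre [IsAlgClosed k] [CharZero k] (hF : IsCurve k F) (hM : IsCurve k M)
    {φ : F →ₐ[k] M} {d : F} {s : M} (h : Dbl φ d s) (hd : d ≠ 0)
    {Ψ : Place k M → Place k F} (hΨ : ∀ V, V.ring.comap (φ : F →+* M) = (Ψ V).ring)
    (v : Place k F) {n : ℤ} (hn : HasOrd v d n) {ϖ : F} (hϖ : IsUnif v ϖ) :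
    ∃ (S : Finset (Place k M)) (e : Place k M → ℤ), (∀ V, V ∈ S ↔ Ψ V = v) ∧
      (∀ V ∈ S, HasOrd V (φ ϖ) (e V) ∧ 0 < e V) ∧ ∑ V ∈ S, e V = 2 ∧
      (S.card : ℤ) = if Odd n then 1 else 2 := by
  obtain ⟨S, hS, hsum⟩ := fibre_sum hF hM φ Ψ hΨ v
  rw [dbl_finrank h hd] at hsum
  have hφϖ : φ ϖ ≠ 0 := (map_ne_zero φ).2 hϖ.1
  choose e he using fun V => exists_hasOrd hM V hφϖ
  have hab : ∀ V ∈ S, V.ring.comap (φ : F →+* M) = v.ring := by
    intro V hV
    rw [hΨ, (hS V).1 hV]
  have hepos : ∀ V ∈ S, 0 < e V := by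
    intro V hV
    refine ord_pos_of_vanishes hφϖ (he V) ?_
    rw [comap_vanishes (hab V hV)]
    exact hϖ.2.1
  have hsum2 := hsum ϖ e hϖ fun V _ => he V
  have hs0 : s ≠ 0 := by
    rintro rfl
    have := h.sq
    rw [zero_pow two_ne_zero] at this
    exact hd ((map_eq_zero φ).1 this.symm)
  have hcard : (S.card : ℤ) ≤ 2 := by
    have h2 : (∑ V ∈ S, e V : ℤ) = 2 := hsum2
    have h1 : ∑ V ∈ S, (1 : ℤ) ≤ ∑ V ∈ S, e V := Finset.sum_le_sum fun V hV => hepos V hV
    rw [h2] at h1
    simpa using h1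
  refine ⟨S, e, hS, fun V hV => ⟨he V, hepos V hV⟩, hsum2, ?_⟩
  have hne : S.Nonempty := by
    rw [Finset.nonempty_iff_ne_empty]
    rintro rfl
    rw [Finset.sum_empty] at hsum2
    norm_num at hsum2
  split_ifs with hodd
  · -- the order is odd
    have heven : ∀ V ∈ S, 2 ≤ e V := by
      intro V hV
      obtain ⟨m, hm⟩ := exists_hasOrd hM V hs0
      have h1 : HasOrd V (s ^ 2) (2 * m) := by
        obtain ⟨π, hπ, h2, h3⟩ := hm
        have e1 : s ^ 2 / π ^ (2 * m) = (s / π ^ m) ^ 2 := by
          rw [div_pow, mul_comm 2 m, zpow_mul]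
          norm_cast
        refine ⟨π, hπ, ?_, ?_⟩
        · rw [e1]
          exact pow_mem h2 2
        · rw [e1, ← inv_pow]
          exact pow_mem h3 2
      rw [h.sq] at h1
      have h2 := ord_pull (hab V hV) hϖ (he V) hn
      have h3 := hasOrd_unique hM ((map_ne_zero φ).2 hd) h1 h2
      have h4 := hepos V hV
      have h5 : Even (e V) := by
        have h6 : Even (n * e V) := ⟨m, by omega⟩
        rcases Int.even_mul.1 h6 with h7 | h7
        · exact absurd h7 (Int.not_even_iff_odd.2 hodd)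
        · exact h7
      obtain ⟨l, hl⟩ := h5
      omega
    have h1 : ∑ V ∈ S, (2 : ℤ) ≤ ∑ V ∈ S, e V := Finset.sum_le_sum heven
    rw [hsum2, Finset.sum_const, nsmul_eq_mul] at h1
    have h2 := hne.card_pos
    push_cast at h1
    omega
  · -- the order is even
    have h2 : 1 < S.card := by
      by_contra hlt
      have h3 : S.card = 1 := by
        have := hne.card_pos
        omega
      obtain ⟨V, hV⟩ := Finset.card_eq_one.1 h3
      have hVS : V ∈ S := by
        rw [hV]
        exact Finset.mem_singleton_self V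
      obtain ⟨j, hj⟩ := Int.not_odd_iff_even.1 hodd
      obtain ⟨h4, h5⟩ := deg_ord hϖ hn
      obtain ⟨c, hc⟩ := exists_at hF v h4
      have hϖj : ϖ ^ j ≠ 0 := zpow_ne_zero _ hϖ.1
      have hc0 : c ≠ 0 := by
        rintro rfl
        rw [Place.at_zero_iff] at hc
        have h6 := Place.Vanishes.mul v hc h5
        rw [mul_inv_cancel₀ (div_ne_zero hd (zpow_ne_zero _ hϖ.1))] at h6
        apply v.const_unit (one_ne_zero (α := k))
        rwa [map_one]
      have hVc : V.At ((s / φ (ϖ ^ j)) ^ 2) c := by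
        have e1 : (s / φ (ϖ ^ j)) ^ 2 = φ (d / ϖ ^ n) := by
          rw [div_pow, h.sq, map_div₀, ← map_pow, hj, zpow_add₀ hϖ.1, ← sq]
        rw [e1, comap_at (hab V hVS)]
        exact hc
      have h6 : s / φ (ϖ ^ j) ∈ V.ring := mem_of_sq hVc.mem
      obtain ⟨b, hb⟩ := exists_at hM V h6
      have hbc : b ^ 2 = c := (hb.pow 2).unique hVc
      have hb0 : b ≠ 0 := by
        rintro rfl
        rw [zero_pow two_ne_zero] at hbc
        exact hc0 hbc.symm
      obtain ⟨σ, hσ, hσs⟩ := h.conj
      have hσ' : ∀ f, σ.symm (φ f) = φ f := by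
        intro f
        rw [AlgEquiv.symm_apply_eq, hσ]
      have hVσ : V.map σ ∈ S := by
        rw [hS]
        apply Place.ext
        rw [← hΨ, ← hab V hVS]
        ext f
        rw [ValuationSubring.mem_comap, ValuationSubring.mem_comap, Place.mem_map]
        change σ.symm (φ f) ∈ _ ↔ φ f ∈ _
        rw [hσ']
      rw [hV, Finset.mem_singleton] at hVσ
      have h7 : V.At (σ (s / φ (ϖ ^ j))) b := by
        rw [← hVσ, Place.at_map, AlgEquiv.symm_apply_apply]
        exact hb
      rw [map_div₀, hσ, hσs, neg_div] at h7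
      have h8 := h7.unique hb.neg
      have h9 : b = 0 := by
        have : (2 : k) * b = 0 := by linear_combination h8
        exact (mul_eq_zero.1 this).resolve_left two_ne_zero
      exact hb0 h9
    omega

/-- **The canonical divisor of a double covering.** The push-forward of the canonical divisor is
twice the canonical divisor plus the branch divisor. -/
theorem push_can [IsAlgClosed k] [CharZero k] (hF : IsCurve k F) (hM : IsCurve k M)
    {φ : F →ₐ[k] M} {d : F} {s : M} (h : Dbl φ d s) (hd : d ≠ 0)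
    {Ψ : Place k M → Place k F} (hΨ : ∀ V, V.ring.comap (φ : F →+* M) = (Ψ V).ring)
    {x : F} (hx : Transcendental k x) {K B : Place k F →₀ ℤ} (hK : IsCan x K)
    (hB : ∀ (v : Place k F) (n : ℤ), HasOrd v d n → B v = if Odd n then 1 else 0)
    {K' : Place k M →₀ ℤ} (hK' : IsCan (φ x) K') :
    K'.mapDomain Ψ = (2 : ℤ) • K + B := by
  ext v
  obtain ⟨n, hn⟩ := exists_hasOrd hF v hd
  obtain ⟨ϖ, hϖ⟩ := exists_unif hF v
  obtain ⟨S, e, hS, he, hsum, hcard⟩ := dbl_fibre hF hM h hd hΨ v hn hϖ
  rw [mapDomain_fibre Ψ K' hS]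
  have h1 : ∀ V ∈ S, K' V = (K v + 1) * e V - 1 := by
    intro V hV
    exact can_above hF hx hK hK' (by rw [hΨ, (hS V).1 hV]) hϖ (he V hV).2.ne' (he V hV).1
  rw [Finset.sum_congr rfl h1, Finset.sum_sub_distrib, ← Finset.mul_sum, hsum, Finset.sum_const,
    nsmul_eq_mul, mul_one, hcard, Finsupp.add_apply, Finsupp.smul_apply, hB v n hn, smul_eq_mul]
  split_ifs
  · ring
  · ring

/-- the branch divisor -/
theorem exists_branch [IsAlgClosed k] [CharZero k] (hF : IsCurve k F) {d : F} (hd : d ≠ 0) :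
    ∃ B : Place k F →₀ ℤ, ∀ (v : Place k F) (n : ℤ), HasOrd v d n →
      B v = if Odd n then 1 else 0 := by
  obtain ⟨D, hD⟩ := exists_div hF hd
  refine ⟨D.mapRange (fun n => if Odd n then 1 else 0) (by simp), fun v n hn => ?_⟩
  rw [Finsupp.mapRange_apply, hasOrd_unique hF hd (hD v) hn]

/-- the canonical divisor and the branch divisor of a double covering -/
theorem exists_dcov [IsAlgClosed k] [CharZero k] (hF : IsCurve k F) {φ : F →ₐ[k] M} {d : F}
    {s : M} (h : Dbl φ d s) (hd : d ≠ 0) {Ψ : Place k M → Place k F}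
    (hΨ : ∀ V, V.ring.comap (φ : F →+* M) = (Ψ V).ring) {x : F} (hx : Transcendental k x)
    {K : Place k F →₀ ℤ} (hK : IsCan x K) :
    ∃ (K' : Place k M →₀ ℤ) (B : Place k F →₀ ℤ), IsCan (φ x) K' ∧
      K'.mapDomain Ψ = (2 : ℤ) • K + B ∧
        ∀ (v : Place k F) (n : ℤ), HasOrd v d n → B v = if Odd n then 1 else 0 := by
  have hM := h.isCurve hF
  have hx' : Transcendental k (φ x) := by
    intro h1
    exact hx ((isAlgebraic_algHom_iff φ φ.injective).mp h1)
  obtain ⟨K', hK'⟩ := exists_can hM hx'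
  obtain ⟨B, hB⟩ := exists_branch hF hd
  exact ⟨K', B, hK', push_can hF hM h hd hΨ hx hK hB hK', hB⟩

/-- the projection of a double covering -/
theorem exists_proj [IsAlgClosed k] [CharZero k] (hF : IsCurve k F) (hM : IsCurve k M)
    (φ : F →ₐ[k] M) : ∃ Ψ : Place k M → Place k F,
      ∀ V, V.ring.comap (φ : F →+* M) = (Ψ V).ring := by
  have h := fun V => exists_pull hF hM (RingEquiv.refl k) (φ : F →+* M) (fun c => φ.commutes c) V
  choose Ψ hΨ using h
  exact ⟨Ψ, hΨ⟩

end Pool.Agent.FPZ
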