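import Pool.Agent.FPZ.Defs
import Pool.Agent.ZCyc.Places

/-!
# The projective line
-/

set_option autoImplicit false

noncomputable section

namespace Pool.Agent.FPZ

open Pool.Agent.ZCyc Pool.Agent.Dess Polynomial IntermediateField
open scoped Classical

variable {Om : Type} [Field Om] [Algebra QQ Om] {tt : Om}

/-- the field of rational functions of `t` is unramified outside `0`, `1` and `∞` -/
theorem belyi_base (hΩ : IsAlgFun tt) : Belyi tt (adjoin QQ {tt}) := by
  have htE : tt ∈ adjoin QQ {tt} := mem_adjoin_simple_self QQ tt
  set t : adjoin QQ {tt} := ⟨tt, htE⟩ with ht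
  have htt : Transcendental QQ t := by
    intro h
    apply hΩ.transc
    exact (isAlgebraic_algebraMap_iff (algebraMap (adjoin QQ {tt}) Om).injective).2 h
  have htop : adjoin QQ {t} = ⊤ := by
    apply lift_injective
    rw [lift_adjoin_simple, lift_top]
  refine ⟨⟨t, htt, ?_⟩, htE, ?_⟩
  · rw [htop]
    exact Module.Finite.of_surjective
      ((Algebra.linearMap (⊤ : IntermediateField QQ (adjoin QQ {tt})) (adjoin QQ {tt})))
      (fun y => ⟨⟨y, mem_top⟩, rfl⟩)
  · intro v c hv _ _
    have hne : t - algebraMap QQ _ c ≠ 0 := by
      intro h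
      apply htt
      rw [sub_eq_zero.1 h]
      exact isAlgebraic_algebraMap c
    refine ⟨hne, hv, fun g hg => ?_⟩
    have hgmem : g ∈ adjoin QQ {t} := by
      rw [htop]
      exact mem_top
    by_cases hg0 : g = 0
    · rw [hg0, zero_div]
      exact v.ring.zero_mem
    obtain ⟨x, hx⟩ := (RatFunc.algEquivOfTranscendental t htt).surjective ⟨g, hgmem⟩
    have hgx : g = aeval t x.num / aeval t x.denom := by
      have := RatFunc.algEquivOfTranscendental_apply t htt x
      rw [← this, hx]
    have hcop := x.isCoprime_num_denom
    have hnum : v.At (aeval t x.num) (eval c x.num) := hv.aeval _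
    have hden : v.At (aeval t x.denom) (eval c x.denom) := hv.aeval _
    have hn0 : aeval t x.num ≠ 0 := by
      intro h
      rw [hgx, h, zero_div] at hg0
      exact hg0 rfl
    have hd0 : aeval t x.denom ≠ 0 := by
      intro h
      rw [hgx, h, div_zero] at hg0
      exact hg0 rfl
    -- the numerator vanishes
    have h1 : eval c x.num = 0 := by
      by_contra h1
      have h2 : ¬ v.Vanishes (aeval t x.num) := by
        intro h3
        exact h1 (hnum.unique (Place.at_zero_iff.2 h3))
      apply h2
      have h3 : aeval t x.num = g * aeval t x.denom := by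
        rw [hgx, div_mul_cancel₀ _ hd0]
      rw [h3]
      exact hg.mul v hden.mem
    have h2 : eval c x.denom ≠ 0 := by
      intro h2
      obtain ⟨a, b, hab⟩ := hcop
      have h3 := congrArg (eval c) hab
      rw [eval_add, eval_mul, eval_mul, h1, h2, mul_zero, mul_zero, add_zero, eval_one] at h3
      exact zero_ne_one h3
    obtain ⟨r, hr⟩ := dvd_iff_isRoot.2 (show IsRoot x.num c from h1)
    have h3 : g / (t - algebraMap QQ _ c) = aeval t r * (aeval t x.denom)⁻¹ := by
      rw [hgx, hr, map_mul, map_sub, aeval_X, aeval_C]
      field_simp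
    rw [h3]
    refine mul_mem (hv.aeval r).mem ?_
    by_contra h4
    have h5 : v.Vanishes (aeval t x.denom) := (v.vanishes_iff_or _).2 (Or.inr h4)
    exact h2 (hden.unique (Place.at_zero_iff.2 h5))

end Pool.Agent.FPZ
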