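import Pool.Agent.FPZ.Sup
import Pool.Agent.FPZ.Defs
import Pool.Agent.Dess4.Deg
import Pool.Agent.Dess4.Local
import Pool.Agent.Dess4.Two
import Pool.Agent.Dess.Belyi

/-!
# Embedding of a curve with a function with four zeros and poles into étale coverings of Fermat curves
-/

set_option autoImplicit false

noncomputable section

namespace Pool.Agent.FPZ

open Pool.Agent.ZCyc Pool.Agent.Dess Pool.Agent.Dess4 Polynomial
open scoped Classical

/-! ### the fifth power -/

section five

variable {k K : Type} [Field k] [IsAlgClosed k] [CharZero k] [Field K] [Algebra k K]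

omit [IsAlgClosed k] [CharZero k] in
theorem emb_mem_of_pow (V : Place k K) {f : K} {n : ℕ} (hn : 0 < n) (h : f ^ n ∈ V.ring) :
    f ∈ V.ring := by
  by_contra hcon
  have h1 : V.Vanishes f⁻¹ := by
    rw [V.vanishes_iff_or, inv_inv]
    exact Or.inr hcon
  have h2 : V.Vanishes (f⁻¹ ^ n) := Place.Vanishes.pow V h1 hn.ne'
  have h3 := Place.Vanishes.mul V h2 h
  have hf0 : f ≠ 0 := by
    rintro rfl
    exact hcon (zero_mem _)
  have h4 : f⁻¹ ^ n * f ^ n = algebraMap k K 1 := by
    rw [map_one, ← mul_pow, inv_mul_cancel₀ hf0, one_pow]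
  rw [h4] at h3
  exact V.const_unit one_ne_zero h3

/-- the fifth power is unramified outside `0`, `1`, `∞` -/
theorem unram_five (hK : IsCurve k K) {h : K} (hh : Unram (k := k) h) :
    Unram (k := k) (h ^ 5) := by
  intro v c hv hc0 hc1
  obtain ⟨b, hb⟩ := exists_at hK v (emb_mem_of_pow v (by norm_num) hv.mem)
  have hbc : b ^ 5 = c := (hb.pow 5).unique hv
  have hb0 : b ≠ 0 := by
    rintro rfl
    exact hc0 (by rw [← hbc]; norm_num)
  have hb1 : b ≠ 1 := by
    rintro rfl
    exact hc1 (by rw [← hbc]; norm_num)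
  have h1 := hh v b hb hb0 hb1
  set B : K := algebraMap k K b with hB
  have hBat : v.At B b := Place.at_const b
  have h2 : v.At (h ^ 4 + h ^ 3 * B + h ^ 2 * B ^ 2 + h * B ^ 3 + B ^ 4)
      (b ^ 4 + b ^ 3 * b + b ^ 2 * b ^ 2 + b * b ^ 3 + b ^ 4) :=
    ((((hb.pow 4).add ((hb.pow 3).mul hBat)).add ((hb.pow 2).mul (hBat.pow 2))).add
      (hb.mul (hBat.pow 3))).add (hBat.pow 4)
  have h3 : b ^ 4 + b ^ 3 * b + b ^ 2 * b ^ 2 + b * b ^ 3 + b ^ 4 ≠ 0 := by
    have : b ^ 4 + b ^ 3 * b + b ^ 2 * b ^ 2 + b * b ^ 3 + b ^ 4 = 5 * b ^ 4 := by ring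
    rw [this]
    exact mul_ne_zero (by norm_num) (pow_ne_zero _ hb0)
  have h4 := belyi_unif h1 h2 h3
  have h5 : (h - B) * (h ^ 4 + h ^ 3 * B + h ^ 2 * B ^ 2 + h * B ^ 3 + B ^ 4) =
      h ^ 5 - algebraMap k K c := by
    rw [← hbc, map_pow, ← hB]
    ring
  rwa [h5] at h4

end five

/-! ### the embedding -/

variable {Om : Type} [Field Om] [Algebra QQ Om] {tt : Om}

private lemma emb_embed (hΩ : IsAlgFun tt) {M : Type} [Field M] [Algebra QQ M] {t : M}
    (ht : Transcendental QQ t) (hfin : FiniteDimensional (IntermediateField.adjoin QQ {t}) M) :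
    ∃ ψ : M →ₐ[QQ] Om, ψ t = tt := by
  have hclosed := hΩ.closed
  let e := RatFunc.algEquivOfTranscendental t ht
  let e' := RatFunc.algEquivOfTranscendental tt hΩ.transc
  let j : IntermediateField.adjoin QQ {t} →+* Om :=
    (algebraMap (IntermediateField.adjoin QQ {tt}) Om).comp
      ((e.symm.trans e' : IntermediateField.adjoin QQ {t} ≃ₐ[QQ]
        IntermediateField.adjoin QQ {tt}) : IntermediateField.adjoin QQ {t} →+*
          IntermediateField.adjoin QQ {tt})
  let _ : Algebra (IntermediateField.adjoin QQ {t}) Om := j.toAlgebra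
  let ψ : M →ₐ[IntermediateField.adjoin QQ {t}] Om := IsAlgClosed.lift
  have hψ : ∀ x : IntermediateField.adjoin QQ {t}, ψ (x : M) = (e' (e.symm x) : Om) :=
    fun x => ψ.commutes x
  refine ⟨{ (ψ : M →+* Om) with commutes' := ?_ }, ?_⟩
  · intro c
    have h1 := hψ (algebraMap QQ (IntermediateField.adjoin QQ {t}) c)
    rw [AlgEquiv.commutes, AlgEquiv.commutes] at h1
    exact h1
  · have h1 := hψ (IntermediateField.AdjoinSimple.gen QQ t)
    rw [RatFunc.algEquivOfTranscendental_symm_gen] at h1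
    have h2 : ((e' RatFunc.X : IntermediateField.adjoin QQ {tt}) : Om) = tt :=
      RatFunc.algEquivOfTranscendental_X tt hΩ.transc
    rw [h2] at h1
    exact h1

private lemma emb_unif {F F' : Type} [Field F] [Algebra QQ F] [Field F'] [Algebra QQ F']
    (e : F ≃ₐ[QQ] F') (v : Place QQ F') (x : F) (h : IsUnif (v.map e.symm) x) :
    IsUnif v (e x) := by
  obtain ⟨h1, h2, h3⟩ := h
  refine ⟨?_, ?_, ?_⟩
  · intro h
    exact h1 (e.injective (by rw [h, map_zero]))
  · rw [Place.vanishes_map] at h2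
    exact h2
  · intro g hg
    have h4 := h3 (e.symm g) (by
      rw [Place.vanishes_map]
      have : e.symm.symm (e.symm g) = g := e.apply_symm_apply g
      rw [this]
      exact hg)
    rw [Place.mem_map] at h4
    have h5 : e.symm.symm (e.symm g / x) = g / e x := by
      have : e (e.symm g / x) = g / e x := by
        rw [map_div₀, e.apply_symm_apply]
      exact this
    rw [h5] at h4
    exact h4

private lemma emb_curve {F F' : Type} [Field F] [Algebra QQ F] [Field F'] [Algebra QQ F']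
    (e : F ≃ₐ[QQ] F') (h : IsCurve QQ F) : IsCurve QQ F' := by
  obtain ⟨t, ht, hfin⟩ := h
  refine ⟨e t, ?_, ?_⟩
  · intro h
    exact ht ((isAlgebraic_algHom_iff (e : F →ₐ[QQ] F') e.injective).mp h)
  · let E := IntermediateField.adjoin QQ {t}
    have h1 : E.map (e : F →ₐ[QQ] F') = IntermediateField.adjoin QQ {e t} := by
      rw [IntermediateField.adjoin_map, Set.image_singleton]
      rfl
    rw [← h1]
    let e₁ : E ≃+* E.map (e : F →ₐ[QQ] F') :=
      (IntermediateField.equivMap E (e : F →ₐ[QQ] F')).toRingEquiv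
    exact Module.Finite.of_equiv_equiv e₁ (e : F ≃+* F') (by
      ext x
      rfl)

/-- a curve with a function which is unramified outside `0`, `1`, `∞` can be embedded into the
field of algebraic functions -/
theorem embed_belyi (hΩ : IsAlgFun tt) {F : Type} [Field F] [Algebra QQ F] (hF : IsCurve QQ F)
    {x : F} (hx : Transcendental QQ x) (hun : Unram (k := QQ) x) :
    ∃ (F' : IntermediateField QQ Om) (e : F ≃ₐ[QQ] F'), Belyi tt F' ∧ ((e x : F') : Om) = tt := by
  obtain ⟨f, hf⟩ := emb_embed hΩ hx (fin_adjoin hF hx)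
  let F' : IntermediateField QQ Om := f.fieldRange
  let e : F ≃ₐ[QQ] F' := AlgEquiv.ofInjectiveField f
  have he : ∀ x, ((e x : F') : Om) = f x := fun x => rfl
  have hmem : tt ∈ F' := ⟨x, hf⟩
  have hex : e x = ⟨tt, hmem⟩ := by
    apply Subtype.ext
    rw [he, hf]
  refine ⟨F', e, ⟨emb_curve e hF, hmem, ?_⟩, by rw [hex]⟩
  intro v c hv h0 h1
  rw [← hex] at hv ⊢
  have h2 : (v.map e.symm).At x c := by
    rw [Place.at_map]
    exact hv
  have h3 := emb_unif e v _ (hun _ c h2 h0 h1)
  rw [map_sub, AlgEquiv.commutes] at h3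
  exact h3

/-! ### four points -/

section four

variable {F : Type} [Field F] [Algebra QQ F] {F₀ : Subfield F} {h : F} {N : ℕ}
  {p q r s : Place QQ F}

private lemma emb_transc (hf : FourPoints F₀ h N p q r s) : Transcendental QQ h := by
  intro ha
  apply two_notMem hf.ne_zero hf.pos hf.pole_r
  have h1 : IsIntegral QQ h := ha.isIntegral
  obtain ⟨c, hc⟩ := minpoly.mem_range_of_degree_eq_one QQ h
    (IsAlgClosed.degree_eq_one_of_irreducible QQ (minpoly.irreducible h1))
  rw [← hc]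
  exact r.const_mem c

/-- the zeros -/
private lemma emb_zero (hf : FourPoints F₀ h N p q r s) {v : Place QQ F} (hv : v.Vanishes h) :
    v = p ∨ v = q := by
  by_contra hcon
  push Not at hcon
  have h1 : h ∈ v.ring := hv.mem
  have h2 : h⁻¹ ∉ v.ring := by
    rcases (v.vanishes_iff_or h).1 hv with h3 | h3
    · exact absurd h3 hf.ne_zero
    · exact h3
  by_cases hr : v = r
  · rw [hr] at h1
    exact two_notMem hf.ne_zero hf.pos hf.pole_r h1
  by_cases hs : v = s
  · rw [hs] at h1
    exact two_notMem hf.ne_zero hf.pos hf.pole_s h1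
  obtain ⟨π, -, -, h3⟩ := hf.unit v hcon.1 hcon.2 hr hs
  rw [zpow_zero, div_one] at h3
  exact h2 h3

private lemma emb_vanishes {v : Place QQ F} {n : ℕ} (hn : 0 < n) {g : F}
    (h : HasOrd v g n) : v.Vanishes g := by
  obtain ⟨π, hπ, h1, -⟩ := h
  rw [zpow_natCast] at h1
  have h2 := Place.Vanishes.mul v (Place.Vanishes.pow v hπ.2.1 hn.ne') h1
  have h3 : π ^ n * (g / π ^ n) = g := by
    rw [mul_div_cancel₀ _ (pow_ne_zero _ hπ.1)]
  rwa [h3] at h2

/-- the ramification index of a covering of the Fermat curve is divisible by five if the function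
`t` is a fifth power -/
private lemma emb_index {K : Type} [Field K] [Algebra QQ K] (hK : IsCurve QQ K) {g x y : K} {n : ℕ}
    (hn : 0 < n) (hg : g ^ 5 = x ^ n) (hx : OverFermat QQ n x y) {V : Place QQ K}
    (hV : V.Vanishes g) : ∃ m : ℕ, 0 < m ∧ n = 5 * m := by
  have hV5 : V.Vanishes (x ^ n) := by
    rw [← hg]
    exact Place.Vanishes.pow V hV (by norm_num)
  have hVx : V.Vanishes x := Place.vanishes_of_pow V hV5
  have hu := hx.2.1 V hVx
  have hx0 : x ≠ 0 := hu.1
  have hg0 : g ≠ 0 := by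
    rintro rfl
    rw [zero_pow (by norm_num)] at hg
    exact pow_ne_zero n hx0 hg.symm
  obtain ⟨m, h1, h2⟩ := exists_ord hK V hu hg0
  have h3 : HasOrd V (g ^ 5) (5 * m) := by
    refine ⟨x, hu, ?_, ?_⟩
    · have : g ^ 5 / x ^ (5 * m) = (g / x ^ m) ^ 5 := by
        rw [div_pow, mul_comm 5 m, zpow_mul]
        norm_cast
      rw [this]
      exact pow_mem h1 5
    · have : (g ^ 5 / x ^ (5 * m))⁻¹ = ((g / x ^ m)⁻¹) ^ 5 := by
        rw [inv_pow, div_pow, mul_comm 5 m, zpow_mul]
        norm_cast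
      rw [this]
      exact pow_mem h2 5
  have h4 : HasOrd V (x ^ n) (n : ℤ) := by
    refine ⟨x, hu, ?_, ?_⟩
    · rw [zpow_natCast, div_self (pow_ne_zero _ hx0)]
      exact one_mem _
    · rw [zpow_natCast, div_self (pow_ne_zero _ hx0), inv_one]
      exact one_mem _
  rw [hg] at h3
  have h5 := hasOrd_unique hK (pow_ne_zero n hx0) h3 h4
  refine ⟨m.toNat, by omega, by omega⟩

/-- **The embedding.** The curve with the function `h ^ 5` is dominated by all étale coverings of
Fermat curves which are large enough. -/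
theorem embed_four (hΩ : IsAlgFun tt) (hf : FourPoints F₀ h N p q r s)
    (E : IntermediateField QQ Om) (hE : Belyi tt E) :
    ∃ F₁ : IntermediateField QQ Om, E ≤ F₁ ∧ Belyi tt F₁ ∧
      ∀ F' : IntermediateField QQ Om, F₁ ≤ F' → Belyi tt F' →
        ∃ (φ : F →ₐ[QQ] F') (Ψ : Place QQ F' → Place QQ F),
          (∀ V, (Ψ V).ring = V.ring.comap (φ : F →+* F')) ∧ ((φ (h ^ 5) : F') : Om) = tt ∧
          (∃ V, Ψ V = p) ∧ (∃ V, Ψ V = q) ∧
          (∀ V : Place QQ F', V.Vanishes (φ (h ^ 5)) ↔ Ψ V = p ∨ Ψ V = q) ∧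
          ∀ (n : ℕ) (x y : F'), 0 < n → (x : Om) ^ n = tt → OverFermat QQ n x y →
            ∃ m : ℕ, 0 < m ∧ n = 5 * m := by
  have hht := emb_transc hf
  have hht5 : Transcendental QQ (h ^ 5) := by
    intro ha
    exact hht (IsAlgebraic.of_pow (by norm_num) ha)
  obtain ⟨F₂, e, hF₂, he⟩ := embed_belyi hΩ hf.curve hht5 (unram_five hf.curve hf.unram)
  obtain ⟨F₁, hE₁, hF₂₁, hF₁, -⟩ := belyi_sup hΩ hE hF₂
  refine ⟨F₁, hE₁, hF₁, fun F' hle hF' => ?_⟩
  let φ : F →ₐ[QQ] F' := (IntermediateField.inclusion (hF₂₁.trans hle)).comp (e : F →ₐ[QQ] F₂)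
  have hpull : ∀ v : Place QQ F', ∃ w : Place QQ F, v.ring.comap (φ : F →+* F') = w.ring :=
    fun v => exists_pull hf.curve hF'.curve (RingEquiv.refl QQ) (φ : F →+* F')
      (fun c => φ.commutes c) v
  choose Ψ hΨ using hpull
  have hφt : ((φ (h ^ 5) : F') : Om) = tt := he
  have hex : ∀ v : Place QQ F, ∃ V, Ψ V = v := by
    intro v
    obtain ⟨V, hV⟩ := exists_ext hf.curve hF'.curve φ v
    exact ⟨V, Place.ext (by rw [← hΨ, hV])⟩
  have hiff : ∀ V : Place QQ F', V.Vanishes (φ (h ^ 5)) ↔ Ψ V = p ∨ Ψ V = q := by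
    intro V
    rw [comap_vanishes (hΨ V)]
    constructor
    · intro h1
      exact emb_zero hf (Place.vanishes_of_pow _ h1)
    · rintro (h1 | h1)
      · rw [h1]
        exact Place.Vanishes.pow _ (emb_vanishes hf.pos hf.zero_p) (by norm_num)
      · rw [h1]
        exact Place.Vanishes.pow _ (emb_vanishes hf.pos hf.zero_q) (by norm_num)
  refine ⟨φ, Ψ, fun V => (hΨ V).symm, hφt, hex p, hex q, hiff, ?_⟩
  intro n x y hn hx hxy
  obtain ⟨V, hV⟩ := hex p
  have h1 : V.Vanishes (φ h) := by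
    have h2 := (hiff V).2 (Or.inl hV)
    rw [map_pow] at h2
    exact Place.vanishes_of_pow V h2
  refine emb_index hF'.curve hn ?_ hxy h1
  apply Subtype.ext
  rw [← map_pow, hφt]
  exact hx.symm

end four

end Pool.Agent.FPZ
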