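import Pool.Agent.FPZ.Can
import Pool.Agent.FPZ.Base
import Pool.Agent.FPZ.Embed
import Pool.Agent.Dess4.Main

/-!
# The cycle of Faber and Pandharipande generates the kernel of the Albanese map
-/

set_option autoImplicit false

noncomputable section

namespace Pool.Agent.FPZ

open Pool.Agent.ZCyc Pool.Agent.Dess Pool.Agent.Dess4
open scoped Classical

/-! ### saturation -/

section Sat

variable {A : Type} [AddCommGroup A]

/-- the elements with a multiple in the subgroup -/
def sat (S : AddSubgroup A) : AddSubgroup A where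
  carrier := {z | ∃ m : ℕ, 0 < m ∧ m • z ∈ S}
  zero_mem' := ⟨1, one_pos, by rw [smul_zero]; exact zero_mem _⟩
  add_mem' := by
    rintro x y ⟨m, hm, hx⟩ ⟨n, hn, hy⟩
    refine ⟨m * n, Nat.mul_pos hm hn, ?_⟩
    have h1 := S.nsmul_mem hx n
    have h2 := S.nsmul_mem hy m
    have h3 := add_mem h1 h2
    rw [← mul_smul, ← mul_smul, mul_comm n m, ← smul_add] at h3
    exact h3
  neg_mem' := by
    rintro x ⟨m, hm, hx⟩
    refine ⟨m, hm, ?_⟩
    rw [smul_neg]
    exact neg_mem hx

theorem le_sat (S : AddSubgroup A) : S ≤ sat S := fun z hz => ⟨1, one_pos, by rwa [one_smul]⟩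

theorem sat_of_zsmul {S : AddSubgroup A} {z : A} {n : ℤ} (hn : n ≠ 0) (h : n • z ∈ sat S) :
    z ∈ sat S := by
  have h1 : n.natAbs • z ∈ sat S := by
    rcases Int.natAbs_eq n with h2 | h2
    · rw [h2, natCast_zsmul] at h
      exact h
    · rw [h2, neg_smul, natCast_zsmul] at h
      have := neg_mem h
      rwa [neg_neg] at this
  obtain ⟨m, hm, h2⟩ := h1
  refine ⟨m * n.natAbs, Nat.mul_pos hm (Int.natAbs_pos.2 hn), ?_⟩
  rwa [mul_smul]

end Sat

/-! ### the cycle is in the kernel of the Albanese map -/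

theorem deg_fp {k F : Type} [Field k] [Field F] [Algebra k F] (A : Place k F →₀ ℤ) :
    ((fp A).sum fun _ n => n) = 0 := by
  let D : ((Bool → Place k F) →₀ ℤ) →+ ℤ := Finsupp.liftAddHom fun _ => AddMonoidHom.id ℤ
  have hD : ∀ z, D z = z.sum fun _ n => n := by
    intro z
    rw [Finsupp.liftAddHom_apply]
    rfl
  have hs : ∀ (p : Bool → Place k F) (n : ℤ), D (Finsupp.single p n) = n := by
    intro p n
    rw [Finsupp.liftAddHom_apply_single]
    rfl
  have h1 : ∀ A B : Place k F →₀ ℤ, D (exq A B) = dgq A * dgq B := by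
    intro A B
    induction A using Finsupp.induction_linear with
    | zero => simp
    | add a b ha hb => rw [map_add, AddMonoidHom.add_apply, map_add, ha, hb, map_add, add_mul]
    | single p m =>
      induction B using Finsupp.induction_linear with
      | zero => simp
      | add a b ha hb => rw [map_add, map_add, ha, hb, map_add, mul_add]
      | single q n => rw [exq_single, hs, dgq_single, dgq_single]
  have h2 : ∀ A : Place k F →₀ ℤ, D (diq A) = dgq A := by
    intro A
    induction A using Finsupp.induction_linear with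
    | zero => simp
    | add a b ha hb => rw [map_add, map_add, ha, hb, map_add]
    | single p m => rw [diq_single, hs, dgq_single]
  rw [← hD, fp_eq, map_sub, map_zsmul, h1, h2, smul_eq_mul, sub_self]

theorem push_fp {k F : Type} [Field k] [Field F] [Algebra k F] (A : Place k F →₀ ℤ) (i : Bool) :
    ((fp A).mapDomain fun p (_ : Unit) => p i) = 0 := by
  let P : ((Bool → Place k F) →₀ ℤ) →+ ((Unit → Place k F) →₀ ℤ) :=
    Finsupp.mapDomain.addMonoidHom fun p _ => p i
  have hs : ∀ (p : Bool → Place k F) (n : ℤ), P (Finsupp.single p n) =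
      Finsupp.single (fun _ => p i) n := fun p n => Finsupp.mapDomain_single
  have h1 : ∀ A B : Place k F →₀ ℤ, P (exq A B) =
      match i with
      | false => dgq B • unq A
      | true => dgq A • unq B := by
    intro A B
    induction A using Finsupp.induction_linear with
    | zero => cases i <;> simp
    | add a b ha hb =>
      rw [map_add, AddMonoidHom.add_apply, map_add, ha, hb]
      cases i
      · simp only [map_add, smul_add]
      · simp only [map_add, add_smul]
    | single p m =>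
      induction B using Finsupp.induction_linear with
      | zero => cases i <;> simp
      | add a b ha hb =>
        rw [map_add, map_add, ha, hb]
        cases i
        · simp only [map_add, add_smul]
        · simp only [map_add, smul_add]
      | single q n =>
        rw [exq_single, hs]
        cases i
        · simp only [dgq_single, unq_single, Finsupp.smul_single, smul_eq_mul, pair]
          rw [mul_comm]
        · simp only [dgq_single, unq_single, Finsupp.smul_single, smul_eq_mul, pair]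
  have h2 : ∀ A : Place k F →₀ ℤ, P (diq A) = unq A := by
    intro A
    induction A using Finsupp.induction_linear with
    | zero => simp
    | add a b ha hb => rw [map_add, map_add, ha, hb, map_add]
    | single p m =>
      rw [diq_single, hs, unq_single]
      cases i <;> rfl
  change P (fp A) = 0
  rw [fp_eq, map_sub, map_zsmul, h1, h2]
  cases i <;> exact sub_self _

theorem albKer_fp {k F : Type} [Field k] [Field F] [Algebra k F] (A : Place k F →₀ ℤ) :
    AlbKer (fun _ : Bool => F) (fp A) := by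
  refine ⟨deg_fp A, fun i => ?_⟩
  rw [push_fp]
  exact zero_mem _

/-! ### the reduction -/

section Reduction

variable {Om : Type} [Field Om] [Algebra QQ Om] {tt : Om}

/-- the push-forward of the sum of the zeros -/
theorem push_zeros {F M : Type} [Field F] [Algebra QQ F] [Field M] [Algebra QQ M]
    (Ψ : Place QQ M → Place QQ F) {p q : Place QQ F} (hpq : p ≠ q) {S : Place QQ M → Prop}
    {Z : Place QQ M →₀ ℤ} (hZ : ∀ v, Z v = if S v then 1 else 0)
    (h1 : ∀ v, S v → Ψ v = p ∨ Ψ v = q) (hp : ∃ v, S v ∧ Ψ v = p) (hq : ∃ v, S v ∧ Ψ v = q) :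
    ∃ a b : ℤ, 0 < a ∧ 0 < b ∧
      Z.mapDomain Ψ = Finsupp.single p a + Finsupp.single q b := by
  have hmem : ∀ v, v ∈ Z.support ↔ S v := by
    intro v
    rw [Finsupp.mem_support_iff, hZ]
    split_ifs with h
    · simp [h]
    · simp [h]
  have hsum : Z.mapDomain Ψ = ∑ v ∈ Z.support, Finsupp.single (Ψ v) 1 := by
    rw [Finsupp.mapDomain, Finsupp.sum]
    apply Finset.sum_congr rfl
    intro v hv
    rw [hZ, if_pos ((hmem v).1 hv)]
  refine ⟨(Z.support.filter fun v => Ψ v = p).card, (Z.support.filter fun v => Ψ v ≠ p).card,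
    ?_, ?_, ?_⟩
  · obtain ⟨v, hv, hvp⟩ := hp
    have : v ∈ Z.support.filter fun v => Ψ v = p := Finset.mem_filter.2 ⟨(hmem v).2 hv, hvp⟩
    exact_mod_cast Finset.card_pos.2 ⟨v, this⟩
  · obtain ⟨v, hv, hvq⟩ := hq
    have : v ∈ Z.support.filter fun v => Ψ v ≠ p :=
      Finset.mem_filter.2 ⟨(hmem v).2 hv, by rw [hvq]; exact hpq.symm⟩
    exact_mod_cast Finset.card_pos.2 ⟨v, this⟩
  · rw [hsum, ← Finset.sum_filter_add_sum_filter_not Z.support fun v => Ψ v = p]
    have e1 : ∑ v ∈ Z.support.filter (fun v => Ψ v = p), Finsupp.single (Ψ v) (1 : ℤ) =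
        Finsupp.single p ((Z.support.filter fun v => Ψ v = p).card : ℤ) := by
      rw [Finset.sum_congr rfl (g := fun _ => Finsupp.single p (1 : ℤ)), Finset.sum_const,
        Finsupp.smul_single, nsmul_eq_mul, mul_one]
      intro v hv
      rw [(Finset.mem_filter.1 hv).2]
    have e2 : ∑ v ∈ Z.support.filter (fun v => ¬ Ψ v = p), Finsupp.single (Ψ v) (1 : ℤ) =
        Finsupp.single q ((Z.support.filter fun v => Ψ v ≠ p).card : ℤ) := by
      rw [Finset.sum_congr rfl (g := fun _ => Finsupp.single q (1 : ℤ)), Finset.sum_const,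
        Finsupp.smul_single, nsmul_eq_mul, mul_one]
      intro v hv
      obtain ⟨h2, h3⟩ := Finset.mem_filter.1 hv
      rw [(h1 v ((hmem v).1 h2)).resolve_left h3]
    rw [e1, e2]

/-- an image of a cycle `(p - q) × (p - q)` for a function with four zeros and poles is a rational
multiple of an image of the cycle of Faber and Pandharipande of a large covering -/
theorem four_fp (hΩ : IsAlgFun tt) {E : IntermediateField QQ Om} (hE : Belyi tt E)
    (C : IntermediateField QQ Om → Prop)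
    (hC : ∀ F : IntermediateField QQ Om, Belyi tt F → ∃ F', F ≤ F' ∧ Fermat tt F' ∧ C F')
    {ι : Type} {L : ι → Type} [∀ i, Field (L i)] [∀ i, Algebra QQ (L i)]
    {w : (∀ i, Place QQ (L i)) →₀ ℤ} (hw : FourCycle L w) :
    ∃ (F : IntermediateField QQ Om) (K : Place QQ F →₀ ℤ)
      (Φ : (Bool → Place QQ F) → ∀ i, Place QQ (L i)) (a b : ℤ),
      E ≤ F ∧ Fermat tt F ∧ C F ∧ Canonical K ∧ IsMor Φ ∧ b ≠ 0 ∧
        a • (fp K).mapDomain Φ + b • w ∈ torGroup L := by
  obtain ⟨F, _, _, F₀, h, N, p, q, r, s, Φ, hf, hΦ, rfl⟩ := hw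
  obtain ⟨F₁, hEF₁, hF₁, hall⟩ := embed_four hΩ hf E hE
  obtain ⟨F', hle, hF', hC'⟩ := hC F₁ hF₁
  obtain ⟨φ, Ψ, hΨ, hφt, ⟨V, hVp⟩, ⟨W, hWq⟩, hzero, -⟩ := hall F' hle hF'.belyi
  have ht : (⟨tt, hF'.belyi.mem⟩ : F') = φ (h ^ 5) := Subtype.ext hφt.symm
  obtain ⟨n, Z, K, hn, hK, hZ, hord, hrel⟩ := fermat_can hF'
  rw [ht] at hZ hord
  have hV : V.Vanishes (φ (h ^ 5)) := (hzero V).2 (Or.inl hVp)
  have hW : W.Vanishes (φ (h ^ 5)) := (hzero W).2 (Or.inr hWq)
  obtain ⟨a, b, ha, hb, hpush⟩ := push_zeros Ψ hf.ne_pq hZ (fun v hv => (hzero v).1 hv)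
    ⟨V, hV, hVp⟩ ⟨W, hW, hWq⟩
  have hn5 : (5 : ℤ) ∣ n := by
    have hh : φ h ≠ 0 := by
      intro h0
      exact hf.ne_zero ((map_eq_zero φ).1 h0)
    obtain ⟨π, hπ⟩ := exists_unif hF'.belyi.curve V
    obtain ⟨m, h1, h2⟩ := exists_ord hF'.belyi.curve V hπ hh
    have h3 : HasOrd V (φ (h ^ 5)) (5 * m) := by
      have e : φ (h ^ 5) / π ^ (5 * m) = (φ h / π ^ m) ^ 5 := by
        rw [map_pow, div_pow, ← zpow_natCast (π ^ m), ← zpow_mul, mul_comm m]
        norm_num
      refine ⟨π, hπ, ?_, ?_⟩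
      · rw [e]
        exact pow_mem h1 _
      · rw [e, ← inv_pow]
        exact pow_mem h2 _
    have h4 : φ (h ^ 5) ≠ 0 := by
      rw [map_pow]
      exact pow_ne_zero 5 hh
    exact ⟨m, hasOrd_unique hF'.belyi.curve h4 (hord V hV) h3⟩
  have hn3 : (n : ℤ) - 3 ≠ 0 := by
    intro h0
    have h1 : (n : ℤ) = 3 := by omega
    rw [h1] at hn5
    omega
  have hn0 : (n : ℤ) ≠ 0 := by exact_mod_cast hn.ne'
  have h1 := fp_equiv hrel
  let Θ : (Bool → Place QQ F') → Bool → Place QQ F := fun a b => Ψ (a b)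
  have hΘ : IsMor (L := fun _ : Bool => F') (L' := fun _ : Bool => F) Θ := fun b =>
    Or.inr ⟨b, φ, fun a => hΨ (a b)⟩
  have hne : Nonempty (Bool → Place QQ F') := ⟨fun _ => V⟩
  have h2 := map_tor (Φ ∘ Θ) (hΘ.comp hΦ) h1
  have h3 : (fp Z).mapDomain (Φ ∘ Θ) = -(a * b) • (square p q).mapDomain Φ := by
    rw [Finsupp.mapDomain_comp]
    have h4 : (fp Z).mapDomain Θ = fp (Z.mapDomain Ψ) := fp_map Ψ Z
    rw [h4, hpush, fp_two]
    exact map_zsmul (Finsupp.mapDomain.addMonoidHom (M := ℤ) Φ) _ _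
  have h5 : ((n : ℤ) ^ 2 • fp K - ((n : ℤ) * (n - 3)) ^ 2 • fp Z).mapDomain (Φ ∘ Θ) =
      (n : ℤ) ^ 2 • (fp K).mapDomain (Φ ∘ Θ) +
        (((n : ℤ) * (n - 3)) ^ 2 * (a * b)) • (square p q).mapDomain Φ := by
    have h6 : ∀ z w : (Bool → Place QQ F') →₀ ℤ, (z - w).mapDomain (Φ ∘ Θ) =
        z.mapDomain (Φ ∘ Θ) - w.mapDomain (Φ ∘ Θ) := fun z w =>
      map_sub (Finsupp.mapDomain.addMonoidHom (M := ℤ) (Φ ∘ Θ)) z w
    have h7 : ∀ (c : ℤ) (z : (Bool → Place QQ F') →₀ ℤ),
        (c • z).mapDomain (Φ ∘ Θ) = c • z.mapDomain (Φ ∘ Θ) := fun c z =>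
      map_zsmul (Finsupp.mapDomain.addMonoidHom (M := ℤ) (Φ ∘ Θ)) c z
    rw [h6, h7, h7, h3, ← mul_smul, mul_neg, neg_smul, sub_neg_eq_add]
  rw [h5] at h2
  refine ⟨F', K, Φ ∘ Θ, (n : ℤ) ^ 2, ((n : ℤ) * (n - 3)) ^ 2 * (a * b), hEF₁.trans hle, hF',
    hC', hK, hΘ.comp hΦ, ?_, h2⟩
  exact mul_ne_zero (pow_ne_zero 2 (mul_ne_zero hn0 hn3)) (mul_pos ha hb).ne'

/-- **The cycle of Faber and Pandharipande is universal.** A multiple of every cycle in the kernel
of the Albanese map is a combination of images of these cycles, for arbitrarily large coverings. -/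
theorem generation_fp (hΩ : IsAlgFun tt) {E : IntermediateField QQ Om} (hE : Belyi tt E)
    {ι : Type} [Fintype ι] {L : ι → Type} [∀ i, Field (L i)] [∀ i, Algebra QQ (L i)]
    (hL : ∀ i, IsCurve QQ (L i)) {z : (∀ i, Place QQ (L i)) →₀ ℤ} (hz : AlbKer L z) :
    ∃ m : ℕ, 0 < m ∧ m • z ∈ RatEq L ⊔ AddSubgroup.closure {w | FPCycle tt E L w} := by
  refine generation_four hL (T := sat (RatEq L ⊔ AddSubgroup.closure {w | FPCycle tt E L w}))
    (le_sup_left.trans (le_sat _)) ?_ hz
  intro w hw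
  obtain ⟨F, K, Φ, a, b, hEF, hF, -, hK, hΦ, hb, m, hm, h⟩ := four_fp hΩ hE (fun _ => True)
    (fun F hF => by
      obtain ⟨F', h1, h2⟩ := exists_fermat' hΩ F hF
      exact ⟨F', h1, h2, trivial⟩) hw
  have h1 : (fp K).mapDomain Φ ∈ RatEq L ⊔ AddSubgroup.closure {w | FPCycle tt E L w} :=
    (le_sup_right : _ ≤ RatEq L ⊔ _) (AddSubgroup.subset_closure ⟨F, K, Φ, hEF, hF, hK, hΦ, rfl⟩)
  apply sat_of_zsmul hb
  refine ⟨m, hm, ?_⟩
  have h2 := sub_mem ((le_sup_left : RatEq L ≤ RatEq L ⊔ _) h)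
    (AddSubgroup.nsmul_mem _ (AddSubgroup.zsmul_mem _ h1 a) m)
  have h3 : m • (a • (fp K).mapDomain Φ + b • w) - m • a • (fp K).mapDomain Φ = m • b • w := by
    rw [smul_add, add_sub_cancel_left]
  rwa [h3] at h2

/-- **All forms of the conjecture.** -/
theorem fp_tfae (hΩ : IsAlgFun tt) {P O : Place QQ Om} (hP : P.Vanishes tt) (hO : tt ∉ O.ring) :
    [ZeroCyclesConj, FourPointsConj, CofinalConj tt P O, FPConj, FPCofinalConj tt].TFAE := by
  have h := four_tfae hΩ hP hO
  tfae_have 1 ↔ 2 := h.out 0 1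
  tfae_have 1 ↔ 3 := h.out 0 2
  tfae_have 1 → 4 := by
    intro h F _ _ hF K _
    exact h Bool (fun _ => F) (fun _ => hF) (fp K) (albKer_fp K)
  tfae_have 4 → 5 := by
    intro h F hF
    obtain ⟨F', h1, h2⟩ := exists_fermat' hΩ F hF
    exact ⟨F', h1, h2, h F' h2.belyi.curve⟩
  tfae_have 5 → 1 := by
    intro h ι _ L _ _ hL z hz
    refine generation_four (T := torGroup L) hL ratEq_le_torGroup ?_ hz
    intro w hw
    obtain ⟨F, K, Φ, a, b, -, hF, hC, hK, hΦ, hb, h1⟩ := four_fp hΩ (belyi_base hΩ)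
      (fun F => FPTor QQ F) h hw
    have h2 : a • (fp K).mapDomain Φ ∈ torGroup L :=
      AddSubgroup.zsmul_mem _ (map_tor Φ hΦ (hC K hK)) a
    have h3 := sub_mem h1 h2
    rw [add_sub_cancel_left] at h3
    exact tor_of_zsmul hb h3
  tfae_finish

end Reduction

end Pool.Agent.FPZ
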