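import Pool.Agent.FPZ.Quad
import Pool.Agent.Dess.Pole

/-!
# Positive combinations of the cycles `(p - q) × (p - q)` which are torsion
-/

set_option autoImplicit false

noncomputable section

namespace Pool.Agent.FPZ

open Pool.Agent.ZCyc Pool.Agent.Dess Pool.Agent.Dess4
open scoped Classical

variable {k F : Type} [Field k] [Field F] [Algebra k F]

/-- the bilinear form with the values `(p - q) × (p - q)` -/
private def sqq : (Place k F →₀ ℤ) →+ (Place k F →₀ ℤ) →+ ((Bool → Place k F) →₀ ℤ) :=
  Finsupp.liftAddHom fun p => zmultiplesHom _ (Finsupp.liftAddHom fun q =>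
    zmultiplesHom ((Bool → Place k F) →₀ ℤ) (square p q))

private theorem sqq_single (p q : Place k F) (m n : ℤ) :
    sqq (Finsupp.single p m) (Finsupp.single q n) = (m * n) • square p q := by
  rw [sqq, Finsupp.liftAddHom_apply_single, zmultiplesHom_apply, AddMonoidHom.zsmul_apply,
    Finsupp.liftAddHom_apply_single, zmultiplesHom_apply, ← mul_smul]

private theorem sqq_eq (A B : Place k F →₀ ℤ) :
    sqq A B = dgq B • diq A + dgq A • diq B - exq A B - exq B A := by
  have h : ∀ (a : Bool → Place k F) (m : ℤ), Finsupp.single a m = m • Finsupp.single a 1 := by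
    intro a m
    rw [Finsupp.smul_single, smul_eq_mul, mul_one]
  induction A using Finsupp.induction_linear with
  | zero => simp
  | add a b ha hb =>
    simp only [map_add, AddMonoidHom.add_apply, ha, hb, smul_add, add_smul]
    abel
  | single p m =>
    induction B using Finsupp.induction_linear with
    | zero => simp
    | add a b ha hb =>
      simp only [map_add, AddMonoidHom.add_apply, ha, hb, smul_add, add_smul]
      abel
    | single q n =>
      rw [sqq_single, exq_single, exq_single, dgq_single, dgq_single, diq_single, diq_single,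
        h _ m, h _ n, h _ (m * n), h _ (n * m), square, sym]
      simp only [smul_add, smul_sub, ← mul_smul]
      rw [mul_comm n m]
      abel

/-- the cycle of a divisor is a combination of the cycles `(p - q) × (p - q)` -/
theorem fp_sum (A : Place k F →₀ ℤ) :
    (2 : ℤ) • fp A = -(A.sum fun p m => A.sum fun q n => (m * n) • square p q) := by
  have h1 : (A.sum fun p m => A.sum fun q n => (m * n) • square p q) = sqq A A := by
    rw [sqq, Finsupp.liftAddHom_apply, Finsupp.sum, Finsupp.sum, AddMonoidHom.finsetSum_apply]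
    apply Finset.sum_congr rfl
    intro p _
    rw [zmultiplesHom_apply, AddMonoidHom.zsmul_apply, Finsupp.liftAddHom_apply, Finsupp.sum,
      Finsupp.sum, Finset.smul_sum]
    apply Finset.sum_congr rfl
    intro q _
    rw [zmultiplesHom_apply, ← mul_smul]
  rw [h1, sqq_eq, fp_eq]
  simp only [smul_sub, two_smul]
  abel

theorem fp_single (o : Place k F) (n : ℤ) : fp (Finsupp.single o n) = 0 := by
  rw [fp_eq, exq_single, dgq_single, diq_single, Finsupp.smul_single, smul_eq_mul, sub_self]

/-- the order of a regular function -/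
theorem ord_nonneg {v : Place k F} {g : F} {n : ℤ} (h : HasOrd v g n) (hg : g ≠ 0)
    (hr : g ∈ v.ring) : 0 ≤ n := by
  obtain ⟨π, hπ, h1, h2⟩ := h
  by_contra hn
  push Not at hn
  obtain ⟨l, hl⟩ := Int.eq_ofNat_of_zero_le (show (0 : ℤ) ≤ -n by omega)
  have hl0 : l ≠ 0 := by omega
  have h3 : g / π ^ n = g * π ^ l := by
    rw [div_eq_mul_inv, ← zpow_neg, hl, zpow_natCast]
  have h4 : v.Vanishes (g / π ^ n) := by
    rw [h3]
    exact (hπ.2.1.pow v hl0).mul' v hr
  rcases (v.vanishes_iff_or _).1 h4 with h5 | h5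
  · exact div_ne_zero hg (zpow_ne_zero n hπ.1) h5
  · exact h5 h2

/-- the order of a function which vanishes -/
theorem ord_pos {v : Place k F} {g : F} {n : ℤ} (h : HasOrd v g n) (hg : g ≠ 0)
    (hr : v.Vanishes g) : 0 < n := by
  obtain ⟨π, hπ, h1, h2⟩ := h
  by_contra hn
  push Not at hn
  obtain ⟨l, hl⟩ := Int.eq_ofNat_of_zero_le (show (0 : ℤ) ≤ -n by omega)
  have h3 : g⁻¹ = (g / π ^ n)⁻¹ * π ^ l := by
    have h4 : π ^ l = (π ^ n)⁻¹ := by rw [← zpow_neg, hl, zpow_natCast]
    have := zpow_ne_zero n hπ.1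
    rw [h4, inv_div]
    field_simp
  rcases (v.vanishes_iff_or _).1 hr with h5 | h5
  · exact hg h5
  · apply h5
    rw [h3]
    exact mul_mem h2 (pow_mem hπ.2.1.mem _)

/-- the order of a function with a value different from zero -/
theorem ord_zero {v : Place k F} {g : F} [IsAlgClosed k] [CharZero k] (hF : IsCurve k F)
    (h1 : g ∈ v.ring) (h2 : ¬ v.Vanishes g) : HasOrd v g 0 := by
  obtain ⟨π, hπ⟩ := exists_unif hF v
  refine ⟨π, hπ, by simpa using h1, ?_⟩
  rw [zpow_zero, div_one]
  by_contra h3
  exact h2 ((v.vanishes_iff_or _).2 (Or.inr h3))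

variable [IsAlgClosed k] [CharZero k]

omit [IsAlgClosed k] in
/-- a third point -/
private theorem exists_third (hF : IsCurve k F) (p q : Place k F) : ∃ o, o ≠ p ∧ o ≠ q := by
  obtain ⟨t, ht, -⟩ := hF
  obtain ⟨a, ha⟩ := exists_place ht (0 : k)
  obtain ⟨b, hb⟩ := exists_place ht (1 : k)
  obtain ⟨c, hc⟩ := exists_place ht (2 : k)
  have h01 : a ≠ b := by
    rintro rfl
    exact zero_ne_one (ha.unique hb)
  have h02 : a ≠ c := by
    rintro rfl
    exact two_ne_zero (ha.unique hc).symm
  have h12 : b ≠ c := by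
    rintro rfl
    have := hb.unique hc
    norm_num at this
  by_contra h
  push Not at h
  rcases eq_or_ne a p with h1 | h1
  · have h2 := h b (fun h3 => h01 (h1.trans h3.symm))
    have h3 := h c (fun h3 => h02 (h1.trans h3.symm))
    exact h12 (h2.trans h3.symm)
  · have h2 := h a h1
    rcases eq_or_ne b p with h4 | h4
    · have h5 := h c (fun h6 => h12 (h4.trans h6.symm))
      exact h02 (h2.trans h5.symm)
    · exact h01 (h2.trans (h b h4).symm)

/-- **A positive relation.** For all points `p`, `q` there is an effective divisor `A`, which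
contains `p` and `q`, such that the cycle `A × A - deg(A) Δ_*(A)` is torsion. -/
theorem exists_positive (hF : IsCurve k F) (p q : Place k F) :
    ∃ A : Place k F →₀ ℤ, (∀ v, 0 ≤ A v) ∧ 0 < A p ∧ 0 < A q ∧
      RatTor (fun _ : Bool => F) (fp A) := by
  obtain ⟨o, hop, hoq⟩ := exists_third hF p q
  obtain ⟨w, hw, hreg⟩ := exists_single_pole hF o
  obtain ⟨a, ha⟩ := exists_at hF p (hreg p hop.symm)
  obtain ⟨b, hb⟩ := exists_at hF q (hreg q hoq.symm)
  have hne : ∀ c : k, w - algebraMap k F c ≠ 0 := by
    intro c h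
    apply hw
    rw [sub_eq_zero.1 h]
    exact isAlgebraic_algebraMap c
  set g : F := (w - algebraMap k F a) * (w - algebraMap k F b) with hg
  have hg0 : g ≠ 0 := mul_ne_zero (hne a) (hne b)
  have hgreg : ∀ v, v ≠ o → g ∈ v.ring := fun v hv =>
    mul_mem (sub_mem (hreg v hv) (v.const_mem a)) (sub_mem (hreg v hv) (v.const_mem b))
  have hgp : p.Vanishes g := Place.Vanishes.mul p ha (sub_mem (hreg p hop.symm) (p.const_mem b))
  have hgq : q.Vanishes g := Place.Vanishes.mul' q hb (sub_mem (hreg q hoq.symm) (q.const_mem a))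
  have hord : ∀ v : Place k F, ∃ n, HasOrd v g n := by
    intro v
    obtain ⟨π, hπ⟩ := exists_unif hF v
    obtain ⟨n, h1, h2⟩ := exists_ord hF v hπ hg0
    exact ⟨n, π, hπ, h1, h2⟩
  choose n hn using hord
  have hfin : {v : Place k F | v ≠ o ∧ v.Vanishes g}.Finite := by
    apply ((finite_at hF hw a).union (finite_at hF hw b)).subset
    rintro v ⟨hv, h⟩
    by_contra hcon
    rw [Set.mem_union, not_or] at hcon
    have h1 : ¬ v.Vanishes (w - algebraMap k F a) := hcon.1
    have h2 : ¬ v.Vanishes (w - algebraMap k F b) := hcon.2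
    rw [v.vanishes_iff_or, not_or, not_not] at h1 h2
    rw [v.vanishes_iff_or, hg, mul_inv] at h
    rcases h with h | h
    · exact hg0 h
    · exact h (mul_mem h1.2 h2.2)
  set Z := hfin.toFinset with hZ
  have hmem : ∀ v, v ∈ Z ↔ v ≠ o ∧ v.Vanishes g := by
    intro v
    rw [hZ, Set.Finite.mem_toFinset]
    rfl
  have hoZ : o ∉ Z := fun h => ((hmem o).1 h).1 rfl
  have hdiv := div_mem hF hg0 (S := insert o Z) (n := n) (fun v _ => hn v) (by
    intro v hv
    rw [Finset.mem_insert, not_or, hmem, not_and] at hv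
    exact ord_zero hF (hgreg v hv.1) (hv.2 hv.1))
  rw [Finset.sum_insert hoZ] at hdiv
  let A : Place k F →₀ ℤ := ∑ v ∈ Z, Finsupp.single v (n v)
  have hA : ∀ v, A v = if v ∈ Z then n v else 0 := by
    intro v
    change (∑ v ∈ Z, Finsupp.single v (n v)) v = _
    rw [Finsupp.finsetSum_apply]
    simp only [Finsupp.single_apply]
    rw [Finset.sum_ite_eq' Z v n]
  have hrel : unq ((1 : ℤ) • A - (-n o) • Finsupp.single o 1) ∈
      torGroup (k := k) fun _ : Unit => F := by
    apply ratEq_le_torGroup
    have h1 : unq ((1 : ℤ) • A - (-n o) • Finsupp.single o 1) =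
        n o • Finsupp.single (fun _ : Unit => o) (1 : ℤ) +
          ∑ v ∈ Z, n v • Finsupp.single (fun _ : Unit => v) (1 : ℤ) := by
      rw [one_smul, map_sub, neg_smul, map_neg, map_zsmul, unq_single, sub_neg_eq_add, map_sum,
        add_comm]
      congr 1
      apply Finset.sum_congr rfl
      intro v _
      rw [unq_single, Finsupp.smul_single, smul_eq_mul, mul_one]
    rw [h1]
    exact hdiv
  refine ⟨A, ?_, ?_, ?_, ?_⟩
  · intro v
    rw [hA]
    split_ifs with h
    · exact (ord_pos (hn v) hg0 ((hmem v).1 h).2).le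
    · exact le_rfl
  · rw [hA, if_pos ((hmem p).2 ⟨hop.symm, hgp⟩)]
    exact ord_pos (hn p) hg0 hgp
  · rw [hA, if_pos ((hmem q).2 ⟨hoq.symm, hgq⟩)]
    exact ord_pos (hn q) hg0 hgq
  · have h1 := fp_rel hrel
    rw [fp_single, smul_zero, sub_zero, one_pow, one_smul] at h1
    exact h1

/-- a linear function with values in an ordered group, which kills the cycles rationally equivalent
to zero and is not negative on the cycles `(p - q) × (p - q)`, is zero on them -/
theorem positive_zero (hF : IsCurve k F) (l : ((Bool → Place k F) →₀ ℤ) →+ ℝ)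
    (h0 : ∀ z ∈ RatEq fun _ : Bool => F, l z = 0) (hl : ∀ p q, 0 ≤ l (square p q))
    (p q : Place k F) : l (square p q) = 0 := by
  obtain ⟨A, hA, hp, hq, m, hm, hz⟩ := exists_positive hF p q
  have h1 : l (fp A) = 0 := by
    have h2 := h0 _ hz
    rw [map_nsmul, nsmul_eq_mul] at h2
    exact (mul_eq_zero.1 h2).resolve_left (by exact_mod_cast hm.ne')
  have h2 : (A.sum fun p m => A.sum fun q n => ((m * n : ℤ) : ℝ) * l (square p q)) = 0 := by
    have h3 := congrArg l (fp_sum A)
    rw [map_zsmul, h1, smul_zero, map_neg, Finsupp.sum, map_sum] at h3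
    have h4 := neg_eq_zero.1 h3.symm
    rw [← h4, Finsupp.sum]
    apply Finset.sum_congr rfl
    intro u _
    rw [Finsupp.sum, Finsupp.sum, map_sum]
    apply Finset.sum_congr rfl
    intro v _
    rw [map_zsmul, zsmul_eq_mul]
  have hnn : ∀ u ∈ A.support, ∀ v ∈ A.support,
      0 ≤ ((A u * A v : ℤ) : ℝ) * l (square u v) := by
    intro u _ v _
    exact mul_nonneg (by exact_mod_cast mul_nonneg (hA u) (hA v)) (hl u v)
  have hp' : p ∈ A.support := Finsupp.mem_support_iff.2 hp.ne'
  have hq' : q ∈ A.support := Finsupp.mem_support_iff.2 hq.ne'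
  rw [Finsupp.sum] at h2
  have h5 := (Finset.sum_eq_zero_iff_of_nonneg
    (fun u hu => Finset.sum_nonneg (hnn u hu))).1 h2 p hp'
  have h6 := (Finset.sum_eq_zero_iff_of_nonneg (hnn p hp')).1 h5 q hq'
  have h7 : ((A p * A q : ℤ) : ℝ) ≠ 0 := by
    exact_mod_cast (mul_pos hp hq).ne'
  exact (mul_eq_zero.1 h6).resolve_left h7

end Pool.Agent.FPZ
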