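import Pool.Agent.FPZ.Dcov
import Pool.Agent.FPZ.Main
import Pool.Agent.FPZ.Neg

/-!
# The cycles of Faber and Pandharipande of the double coverings of a curve
-/

set_option autoImplicit false

noncomputable section

namespace Pool.Agent.FPZ

open Pool.Agent.ZCyc Pool.Agent.Dess Pool.Agent.Dess4 Polynomial
open scoped Classical

variable {k F : Type} [Field k] [Field F] [Algebra k F]

theorem dbl_finrank_range [CharZero k] {M : Type} [Field M] [Algebra k M] {φ : F →ₐ[k] M} {d : F}
    {s : M} (h : Dbl φ d s) (hd : d ≠ 0) : Module.finrank φ.fieldRange M = 2 := by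
  rw [← dbl_finrank h hd]
  let _ : Algebra F M := (φ : F →+* M).toAlgebra
  symm
  refine Algebra.finrank_eq_of_equiv_equiv (AlgEquiv.ofInjectiveField φ).toRingEquiv
    (RingEquiv.refl M) ?_
  ext y
  rfl

/-- the divisor of a function is rationally equivalent to zero -/
theorem unq_div_mem (hF : IsCurve k F) {g : F} (hg : g ≠ 0) {D : Place k F →₀ ℤ}
    (hD : ∀ v, HasOrd v g (D v)) : unq D ∈ RatEq (k := k) fun _ : Unit => F := by
  have h1 := div_mem hF hg (S := D.support) (n := D) (fun v _ => hD v) (fun v hv => by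
    have : D v = 0 := by
      by_contra h
      exact hv (Finsupp.mem_support_iff.2 h)
    rw [← this]
    exact hD v)
  have h2 : unq D = ∑ v ∈ D.support, D v • Finsupp.single (fun _ : Unit => v) (1 : ℤ) := by
    conv_lhs => rw [← Finsupp.sum_single D]
    rw [Finsupp.sum, map_sum]
    apply Finset.sum_congr rfl
    intro v _
    rw [unq_single, Finsupp.smul_single, smul_eq_mul, mul_one]
  rw [h2]
  exact h1

section Step

variable [IsAlgClosed k] [CharZero k] (hF : IsCurve k F)

include hF

/-- a function with a simple zero is not a square -/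
theorem double_nonsquare {f : F} (hf : Transcendental k f) {c : k}
    (hcu : ∀ v : Place k F, v.At f c → IsUnif v (f - algebraMap k F c)) (s : F) :
    s ^ 2 ≠ f - algebraMap k F c := by
  intro hs
  have hd0 := transc_ne (transc_sub hf c)
  obtain ⟨v, hv⟩ := exists_place hf c
  have hs0 : s ≠ 0 := by
    rintro rfl
    rw [zero_pow two_ne_zero] at hs
    exact hd0 hs.symm
  obtain ⟨m, hm⟩ := exists_hasOrd hF v hs0
  have h2 := ord_pow hm 2
  rw [hs] at h2
  have h3 := hasOrd_unique hF hd0 (dc_ord_unif (hcu v hv)) h2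
  push_cast at h3
  omega

/-- if the divisor of poles of the function `f` is `2 Y` and the value `c` is not critical, then
the image of the cycle of Faber and Pandharipande of the double covering with the equation
`s ^ 2 = f - c` is four times the cycle of the divisor `K + Y`, up to torsion -/
theorem double_step {K : Place k F →₀ ℤ} (hK : Canonical K) {f : F}
    (hf : Transcendental k f) {Y : Place k F →₀ ℤ}
    (hY : ∀ (v : Place k F) (n : ℤ), HasOrd v f n → 2 * Y v = max (-n) 0) {c : k}
    (hcu : ∀ v : Place k F, v.At f c → IsUnif v (f - algebraMap k F c)) {M : Type} [Field M]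
    [Algebra k M] {φ : F →ₐ[k] M} {s : M} (h : Dbl φ (f - algebraMap k F c) s) :
    ∃ (Ψ : Place k M → Place k F) (K' : Place k M →₀ ℤ),
      (∀ V, V.ring.comap (φ : F →+* M) = (Ψ V).ring) ∧ Canonical K' ∧
        (fp K').mapDomain (fun (a : Bool → Place k M) b => Ψ (a b)) - (4 : ℤ) • fp (K + Y) ∈
          torGroup (k := k) fun _ : Bool => F := by
  obtain ⟨x, hx, hK⟩ := hK
  set d : F := f - algebraMap k F c with hd
  have hdt : Transcendental k d := transc_sub hf c
  have hd0 : d ≠ 0 := transc_ne hdt
  obtain ⟨D, hD⟩ := exists_div hF hd0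
  have hM := h.isCurve hF
  obtain ⟨Ψ, hΨ⟩ := exists_proj hF hM φ
  obtain ⟨K', B, hK', hpush, hB⟩ := exists_dcov hF h hd0 hΨ hx hK
  -- the branch divisor
  have hBD : D = B - (2 : ℤ) • Y := by
    ext v
    rw [Finsupp.sub_apply, Finsupp.smul_apply, smul_eq_mul]
    obtain ⟨n, hn⟩ := exists_hasOrd hF v (transc_ne hf)
    rw [hY v n hn]
    have hBv := hB v (D v) (hD v)
    rcases at_or_pole hF v f with ⟨a, ha⟩ | hp
    · have hn0 := ord_nonneg hn (transc_ne hf) ha.mem
      by_cases hac : a = c
      · rw [hac] at ha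
        have h1 := hasOrd_unique hF hd0 (hD v) (dc_ord_unif (hcu v ha))
        rw [h1] at hBv ⊢
        rw [hBv, if_pos odd_one]
        omega
      · have h1 : v.At d (a - c) := ha.sub (Place.at_const c)
        have h2 : a - c ≠ 0 := sub_ne_zero.2 hac
        have h3 := hasOrd_unique hF hd0 (hD v)
          (ord_unit_of_mem hF h1.mem (h1.inv h2).mem)
        rw [h3] at hBv ⊢
        rw [hBv, if_neg (by decide)]
        omega
    · have hn0 := ord_neg_of_notMem hn hp
      have h1 := pole_sub (hD v) hp
      have h2 := hasOrd_unique hF (transc_ne hf) h1 hn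
      have h3 := hY v n hn
      rw [h2] at hBv ⊢
      rw [hBv, if_neg (by
        rw [Int.not_odd_iff_even]
        exact ⟨-Y v, by omega⟩)]
      omega
  refine ⟨Ψ, K', hΨ, ⟨φ x, fun h1 => hx ((isAlgebraic_algHom_iff φ φ.injective).mp h1), hK'⟩, ?_⟩
  rw [fp_map, hpush]
  have h2 : unq ((2 : ℤ) • K + B - (2 : ℤ) • (K + Y)) ∈ torGroup (k := k) fun _ : Unit => F := by
    have e : (2 : ℤ) • K + B - (2 : ℤ) • (K + Y) = D := by
      rw [hBD, smul_add]
      abel
    rw [e]
    exact ratEq_le_torGroup (unq_div_mem hF hd0 hD)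
  have h3 := fp_congr h2
  rw [fp_smul] at h3
  exact h3

end Step

section Double

variable [IsAlgClosed k] [CharZero k] (hF : IsCurve k F)
  {T : AddSubgroup ((Bool → Place k F) →₀ ℤ)} (hT : RatEq (fun _ : Bool => F) ≤ T)
  (hsat : ∀ (n : ℤ) (z : (Bool → Place k F) →₀ ℤ), n ≠ 0 → n • z ∈ T → z ∈ T)
  (hall : ∀ w, DoubleFP k F w → w ∈ T)

include hF hT hsat hall

/-- if the divisor of poles of the function `f` is `2 Y`, the cycle for the divisor `K + Y` is
up to torsion a quarter of the image of the cycle of a double covering -/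
theorem double_mem {K : Place k F →₀ ℤ} (hK : Canonical K) {f : F}
    (hf : Transcendental k f) {Y : Place k F →₀ ℤ}
    (hY : ∀ (v : Place k F) (n : ℤ), HasOrd v f n → 2 * Y v = max (-n) 0) :
    fp (K + Y) ∈ T := by
  obtain ⟨c, hc⟩ := (finite_crit hF hf).infinite_compl.nonempty
  have hcu : ∀ v : Place k F, v.At f c → IsUnif v (f - algebraMap k F c) := by
    intro v hv
    by_contra hn
    exact hc ⟨v, hv, hn⟩
  obtain ⟨M, _, _, φ, s, h⟩ := exists_dbl (k := k) (double_nonsquare hF hf hcu)
  obtain ⟨Ψ, K', hΨ, hK', m, hm, h3⟩ := double_step hF hK hf hY hcu h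
  have h1 : (fp K').mapDomain (fun (a : Bool → Place k M) b => Ψ (a b)) ∈ T :=
    hall _ ⟨M, _, _, φ, Ψ, K', h.isCurve hF, dbl_finrank_range h (transc_ne (transc_sub hf c)),
      fun V => (hΨ V).symm, hK', rfl⟩
  have hm0 : (m : ℤ) ≠ 0 := by exact_mod_cast hm.ne'
  have h4 := hsat m _ hm0 (by
    rw [natCast_zsmul]
    exact hT h3)
  have h5 := sub_mem h1 h4
  rw [sub_sub_cancel] at h5
  exact hsat _ _ (by norm_num) h5

end Double

/-- the second difference -/
theorem fp_second (A P Q : Place k F →₀ ℤ) :
    fp (P + Q) = fp (A + (P + Q)) - fp (A + P) - fp (A + Q) + fp A + fp P + fp Q - fp 0 := by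
  simp only [fp_eq, map_add, AddMonoidHom.add_apply, add_smul, smul_add, map_zero,
    zero_smul]
  abel

theorem fp_zero' : fp (0 : Place k F →₀ ℤ) = 0 := by
  simp [fp_eq]

section Poles

variable [IsAlgClosed k] [CharZero k]

theorem transc_of_notMem {v : Place k F} {w : F} (h : w ∉ v.ring) : Transcendental k w := by
  apply deg_transc
  rintro c rfl
  exact h (v.const_mem c)

/-- a function whose only pole is `p` -/
theorem single_pole_ord (hF : IsCurve k F) (p : Place k F) : ∃ (w : F) (a : ℤ), 0 < a ∧
    HasOrd p w (-a) ∧ w ∉ p.ring ∧ ∀ v, v ≠ p → w ∈ v.ring := by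
  obtain ⟨w, hw, hreg⟩ := exists_single_pole hF p
  have hp : w ∉ p.ring := by
    intro h
    obtain ⟨a, ha⟩ := deg_const hF (f := w) (fun u => by
      by_cases hu : u = p
      · rw [hu]
        exact h
      · exact hreg u hu)
    apply hw
    rw [ha]
    exact isAlgebraic_algebraMap a
  obtain ⟨n, hn⟩ := exists_hasOrd hF p (transc_ne hw)
  have := ord_neg_of_notMem hn hp
  exact ⟨w, -n, by omega, by rwa [neg_neg], hp, hreg⟩

omit [IsAlgClosed k] [CharZero k] in
theorem pow_notMem {v : Place k F} {w : F} (h : w ∉ v.ring) {n : ℕ} (hn : 0 < n) :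
    w ^ n ∉ v.ring := fun h1 => h (mem_of_pow hn h1)

/-- the divisor of poles of an even power -/
theorem poles_one (hF : IsCurve k F) {p : Place k F} {w : F} {a : ℤ} (ha : HasOrd p w (-a))
    (hp : w ∉ p.ring) (hreg : ∀ v, v ≠ p → w ∈ v.ring) {j : ℕ} (hj : 0 < j)
    (v : Place k F) (n : ℤ) (hn : HasOrd v (w ^ (2 * j)) n) :
    2 * (Finsupp.single p (j * a) : Place k F →₀ ℤ) v = max (-n) 0 := by
  have h2j : 0 < 2 * j := by omega
  have hf := pow_notMem hp h2j
  have hf0 := transc_ne (transc_of_notMem hf)
  by_cases hv : v = p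
  · subst hv
    have h1 := hasOrd_unique hF hf0 hn (ord_pow ha (2 * j))
    have h2 := ord_neg_of_notMem hn hf
    rw [Finsupp.single_eq_same, max_eq_left (by omega), h1]
    push_cast
    ring
  · have h1 := ord_nonneg hn hf0 (pow_mem (hreg v hv) _)
    rw [Finsupp.single_eq_of_ne hv, max_eq_right (by omega), mul_zero]

omit [IsAlgClosed k] in
/-- the order of a sum with a regular function -/
theorem ord_add_regular {v : Place k F} {f g : F} {n : ℤ} (hf : HasOrd v f n) (hfv : f ∉ v.ring)
    (hg : g ∈ v.ring) : HasOrd v (f + g) n := by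
  have hf0 : f ≠ 0 := by
    rintro rfl
    exact hfv (zero_mem _)
  have h1 : v.Vanishes f⁻¹ := (v.vanishes_iff_or _).2 (Or.inr (by rwa [inv_inv]))
  have h2 : v.At (1 + f⁻¹ * g) 1 := by
    have h3 := (at_one (k := k) v).add (Place.at_zero_iff.2 (Place.Vanishes.mul v h1 hg))
    rwa [add_zero] at h3
  have h3 := dc_ord_mul hf h2 one_ne_zero
  have e : f * (1 + f⁻¹ * g) = f + g := by
    rw [mul_add, mul_one, ← mul_assoc, mul_inv_cancel₀ hf0, one_mul]
  rwa [e] at h3

/-- the divisor of poles of the sum of two squares -/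
theorem poles_two (hF : IsCurve k F) {p q : Place k F} (hpq : p ≠ q) {w u : F} {a c : ℤ}
    (ha : HasOrd p w (-a)) (hp : w ∉ p.ring) (hreg : ∀ v, v ≠ p → w ∈ v.ring)
    (hc : HasOrd q u (-c)) (hq : u ∉ q.ring) (hreg' : ∀ v, v ≠ q → u ∈ v.ring)
    (v : Place k F) (n : ℤ) (hn : HasOrd v (w ^ 2 + u ^ 2) n) :
    2 * (Finsupp.single p a + Finsupp.single q c : Place k F →₀ ℤ) v = max (-n) 0 := by
  have hw2 : w ^ 2 ∉ p.ring := pow_notMem hp (by norm_num)
  have hu2 : u ^ 2 ∉ q.ring := pow_notMem hq (by norm_num)
  have hP : HasOrd p (w ^ 2 + u ^ 2) (-a * (2 : ℕ)) :=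
    ord_add_regular (ord_pow ha 2) hw2 (pow_mem (hreg' p hpq) 2)
  have hQ : HasOrd q (w ^ 2 + u ^ 2) (-c * (2 : ℕ)) := by
    rw [add_comm]
    exact ord_add_regular (ord_pow hc 2) hu2 (pow_mem (hreg q hpq.symm) 2)
  have hPm : w ^ 2 + u ^ 2 ∉ p.ring := by
    intro h
    apply hw2
    have := sub_mem h (pow_mem (hreg' p hpq) 2)
    rwa [add_sub_cancel_right] at this
  have hQm : w ^ 2 + u ^ 2 ∉ q.ring := by
    intro h
    apply hu2
    have := sub_mem h (pow_mem (hreg q hpq.symm) 2)
    rwa [add_sub_cancel_left] at this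
  have hf0 := transc_ne (transc_of_notMem hPm)
  rw [Finsupp.add_apply]
  by_cases hvp : v = p
  · subst hvp
    have h1 := hasOrd_unique hF hf0 hn hP
    have h2 := ord_neg_of_notMem hn hPm
    rw [Finsupp.single_eq_same, Finsupp.single_eq_of_ne hpq, max_eq_left (by omega), h1]
    push_cast
    ring
  by_cases hvq : v = q
  · subst hvq
    have h1 := hasOrd_unique hF hf0 hn hQ
    have h2 := ord_neg_of_notMem hn hQm
    rw [Finsupp.single_eq_same, Finsupp.single_eq_of_ne hvp, max_eq_left (by omega), h1]
    push_cast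
    ring
  · have h1 := ord_nonneg hn hf0 (add_mem (pow_mem (hreg v hvp) _) (pow_mem (hreg' v hvq) _))
    rw [Finsupp.single_eq_of_ne hvp, Finsupp.single_eq_of_ne hvq, max_eq_right (by omega)]
    ring

end Poles

/-! ### squares -/

section Square

variable [IsAlgClosed k] [CharZero k] (hF : IsCurve k F)
  {T : AddSubgroup ((Bool → Place k F) →₀ ℤ)} (hT : RatEq (fun _ : Bool => F) ≤ T)
  (hsat : ∀ (n : ℤ) (z : (Bool → Place k F) →₀ ℤ), n ≠ 0 → n • z ∈ T → z ∈ T)
  (hall : ∀ w, DoubleFP k F w → w ∈ T)

include hF hT hsat hall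

/-- **Double coverings.** The cycle `(p - q) × (p - q)` is a combination of images of the cycles
of Faber and Pandharipande of double coverings. -/
theorem double_square (p q : Place k F) : square p q ∈ T := by
  by_cases hpq : p = q
  · subst hpq
    have : square p p = 0 := by
      rw [square, sym]
      abel
    rw [this]
    exact zero_mem _
  obtain ⟨K, hK⟩ : ∃ K : Place k F →₀ ℤ, Canonical K := by
    obtain ⟨x, hx, -⟩ := id hF
    obtain ⟨K, hK⟩ := exists_can hF hx
    exact ⟨K, x, hx, hK⟩
  obtain ⟨w, a, ha0, ha, hp, hreg⟩ := single_pole_ord hF p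
  obtain ⟨u, c, hc0, hc, hq, hreg'⟩ := single_pole_ord hF q
  have e1 : fp (K + Finsupp.single p ((1 : ℕ) * a)) ∈ T :=
    double_mem hF hT hsat hall hK (transc_of_notMem (pow_notMem hp (by norm_num)))
      (poles_one hF ha hp hreg one_pos)
  have e2 : fp (K + Finsupp.single p ((2 : ℕ) * a)) ∈ T :=
    double_mem hF hT hsat hall hK (transc_of_notMem (pow_notMem hp (by norm_num)))
      (poles_one hF ha hp hreg two_pos)
  have e3 : fp (K + Finsupp.single q ((1 : ℕ) * c)) ∈ T :=
    double_mem hF hT hsat hall hK (transc_of_notMem (pow_notMem hq (by norm_num)))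
      (poles_one hF hc hq hreg' one_pos)
  have hPm : w ^ 2 + u ^ 2 ∉ p.ring := by
    intro h
    apply pow_notMem hp (n := 2) (by norm_num)
    have := sub_mem h (pow_mem (hreg' p hpq) 2)
    rwa [add_sub_cancel_right] at this
  have e4 : fp (K + (Finsupp.single p a + Finsupp.single q c)) ∈ T :=
    double_mem hF hT hsat hall hK (transc_of_notMem hPm)
      (poles_two hF hpq ha hp hreg hc hq hreg')
  rw [Nat.cast_one, one_mul] at e1 e3
  have e2' : (Finsupp.single p ((2 : ℕ) * a) : Place k F →₀ ℤ) =
      Finsupp.single p a + Finsupp.single p a := by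
    rw [← Finsupp.single_add]
    congr 1
    push_cast
    ring
  have hK' : fp K ∈ T := by
    have h1 := fp_second K (Finsupp.single p a) (Finsupp.single p a)
    rw [← e2', fp_single, fp_single, fp_zero'] at h1
    have h2 : fp K = fp (K + Finsupp.single p a) + fp (K + Finsupp.single p a) -
        fp (K + Finsupp.single p ((2 : ℕ) * a)) := by
      have h3 := h1.symm
      rw [add_zero, add_zero, sub_zero] at h3
      rw [← sub_eq_zero, ← h3]
      abel
    rw [h2]
    exact sub_mem (add_mem e1 e1) e2
  have h1 := fp_second K (Finsupp.single p a) (Finsupp.single q c)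
  rw [fp_two, fp_single, fp_single, fp_zero', add_zero, add_zero, sub_zero] at h1
  refine hsat (-(a * c)) _ (neg_ne_zero.2 (mul_pos ha0 hc0).ne') ?_
  rw [h1]
  exact add_mem (sub_mem (sub_mem e4 e1) e3) hK'

end Square

/-! ### the symmetric part of the kernel of the Albanese map -/

theorem isMor_swap : IsMor (L := fun _ : Bool => F) (L' := fun _ : Bool => F)
    (swap : (Bool → Place k F) → Bool → Place k F) := fun b =>
  Or.inr ⟨!b, AlgHom.id k F, fun _ => rfl⟩

theorem swap_pair (p q : Place k F) :
    swap (pair (L := fun _ => F) p q) = pair (L := fun _ => F) q p := by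
  funext b
  cases b <;> rfl

/-- the cycle is symmetric -/
theorem swap_fp (A : Place k F →₀ ℤ) : (fp A).mapDomain swap = fp A := by
  let W : ((Bool → Place k F) →₀ ℤ) →+ ((Bool → Place k F) →₀ ℤ) :=
    Finsupp.mapDomain.addMonoidHom swap
  have hs : ∀ (a : Bool → Place k F) (n : ℤ), W (Finsupp.single a n) =
      Finsupp.single (swap a) n := fun a n => Finsupp.mapDomain_single
  have h1 : ∀ A B : Place k F →₀ ℤ, W (exq A B) = exq B A := by
    intro A B
    induction A using Finsupp.induction_linear with
    | zero => simp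
    | add a b ha hb => rw [map_add, AddMonoidHom.add_apply, map_add, ha, hb, map_add]
    | single p m =>
      induction B using Finsupp.induction_linear with
      | zero => simp
      | add a b ha hb => rw [map_add, map_add, ha, hb, map_add, AddMonoidHom.add_apply]
      | single q n => rw [exq_single, hs, swap_pair, exq_single, mul_comm]
  have h2 : ∀ A : Place k F →₀ ℤ, W (diq A) = diq A := by
    intro A
    induction A using Finsupp.induction_linear with
    | zero => simp
    | add a b ha hb => rw [map_add, map_add, ha, hb]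
    | single p m => rw [diq_single, hs, swap_pair]
  change W (fp A) = fp A
  rw [fp_eq, map_sub, map_zsmul, h1, h2]

theorem update_pair_false (inst : DecidableEq Bool) (p q x : Place k F) :
    @Function.update Bool (fun _ => Place k F) inst (pair (L := fun _ => F) p q) false x =
      pair (L := fun _ => F) x q := by
  funext b
  cases b
  · exact Function.update_self _ _ _
  · exact Function.update_of_ne (fun h => Bool.noConfusion h) _ _

theorem update_pair_true (inst : DecidableEq Bool) (p q x : Place k F) :
    @Function.update Bool (fun _ => Place k F) inst (pair (L := fun _ => F) p q) true x =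
      pair (L := fun _ => F) p x := by
  funext b
  cases b
  · exact Function.update_of_ne (fun h => Bool.noConfusion h) _ _
  · exact Function.update_self _ _ _

/-- a symmetric combination of two points -/
theorem pair_add_swap (p q : Place k F) :
    Finsupp.single (pair (L := fun _ => F) p q) (1 : ℤ) +
      Finsupp.single (pair (L := fun _ => F) q p) 1 =
        Finsupp.single (pair (L := fun _ => F) p p) 1 +
          Finsupp.single (pair (L := fun _ => F) q q) 1 - square p q := by
  rw [square, sym]
  abel

/-- **The symmetric part.** A subgroup which is closed under division, and contains the cycles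
rationally equivalent to zero and the images of the cycles of the double coverings, contains the
symmetric part of the kernel of the Albanese map. -/
theorem double_symmetric [IsAlgClosed k] [CharZero k] (hF : IsCurve k F)
    {T : AddSubgroup ((Bool → Place k F) →₀ ℤ)} (hT : RatEq (fun _ : Bool => F) ≤ T)
    (hsat : ∀ (n : ℤ) (z : (Bool → Place k F) →₀ ℤ), n ≠ 0 → n • z ∈ T → z ∈ T)
    (hall : ∀ w, DoubleFP k F w → w ∈ T) {z : (Bool → Place k F) →₀ ℤ}
    (hz : AlbKer (fun _ : Bool => F) z) : z + z.mapDomain swap ∈ T := by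
  let W : ((Bool → Place k F) →₀ ℤ) →+ ((Bool → Place k F) →₀ ℤ) :=
    Finsupp.mapDomain.addMonoidHom swap
  have hs : ∀ (a : Bool → Place k F) (n : ℤ), W (Finsupp.single a n) =
      Finsupp.single (swap a) n := fun a n => Finsupp.mapDomain_single
  have hsq := double_square hF hT hsat hall
  have key : ∀ P Q p q : Place k F, ∀ D : (Bool → Place k F) →₀ ℤ,
      (D = Finsupp.single (pair (L := fun _ => F) P Q) (1 : ℤ) -
        Finsupp.single (pair (L := fun _ => F) p Q) 1 -
        Finsupp.single (pair (L := fun _ => F) P q) 1 +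
        Finsupp.single (pair (L := fun _ => F) p q) 1) → D + W D ∈ T := by
    rintro P Q p q D rfl
    rw [map_add, map_sub, map_sub, hs, hs, hs, hs, swap_pair, swap_pair, swap_pair, swap_pair]
    have e : ∀ x y : Place k F, Finsupp.single (pair (L := fun _ => F) y x) (1 : ℤ) =
        Finsupp.single (pair (L := fun _ => F) x x) 1 +
          Finsupp.single (pair (L := fun _ => F) y y) 1 - square x y -
            Finsupp.single (pair (L := fun _ => F) x y) 1 := by
      intro x y
      rw [← pair_add_swap, add_sub_cancel_left]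
    rw [e P Q, e p Q, e P q, e p q]
    have h1 := add_mem (sub_mem (sub_mem (hsq p Q) (hsq P Q)) (hsq p q)) (hsq P q)
    convert h1 using 1
    abel
  have h1 : z ∈ T.comap (AddMonoidHom.id _ + W) := by
    refine of_symbols ?_ ?_ hz
    · intro y hy
      rw [AddSubgroup.mem_comap]
      exact add_mem (hT hy) (hT (map_mem swap isMor_swap hy))
    · intro i j hij a x y
      obtain ⟨P, Q, rfl⟩ : ∃ P Q : Place k F, a = pair (L := fun _ => F) P Q := by
        refine ⟨a false, a true, ?_⟩
        funext b
        cases b <;> rfl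
      rw [AddSubgroup.mem_comap, AddMonoidHom.add_apply, AddMonoidHom.id_apply]
      cases i <;> cases j
      · exact absurd rfl hij
      · refine key P Q x y _ ?_
        rw [update_pair_false, update_pair_true, update_pair_true]
      · refine key P Q y x _ ?_
        rw [update_pair_false, update_pair_true, update_pair_false]
        abel
      · exact absurd rfl hij
  exact h1

/-- the image of the cycle of a double covering is in the kernel of the Albanese map, and it is
symmetric -/
theorem doubleFP_albKer {w : (Bool → Place k F) →₀ ℤ} (hw : DoubleFP k F w) :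
    AlbKer (fun _ : Bool => F) w ∧ w.mapDomain swap = w := by
  obtain ⟨M, _, _, φ, Ψ, K, -, -, -, -, rfl⟩ := hw
  rw [fp_map]
  exact ⟨albKer_fp _, swap_fp _⟩

/-- **Double coverings.** A multiple of every symmetric cycle in the kernel of the Albanese map
of `C × C` is a combination of images of the cycles of Faber and Pandharipande of double
coverings of `C`. -/
theorem generation_double [IsAlgClosed k] [CharZero k] (hF : IsCurve k F)
    {z : (Bool → Place k F) →₀ ℤ} (hz : AlbKer (fun _ : Bool => F) z) :
    ∃ m : ℕ, 0 < m ∧ m • (z + z.mapDomain swap) ∈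
      RatEq (k := k) (fun _ : Bool => F) ⊔ AddSubgroup.closure {w | DoubleFP k F w} := by
  refine double_symmetric (T := sat (RatEq (k := k) (fun _ : Bool => F) ⊔
    AddSubgroup.closure {w | DoubleFP k F w})) hF (le_sup_left.trans (le_sat _))
      (fun n z hn h => sat_of_zsmul hn h) ?_ hz
  intro w hw
  exact le_sat _ ((le_sup_right : _ ≤ RatEq (k := k) (fun _ : Bool => F) ⊔ _)
    (AddSubgroup.subset_closure hw))

/-- the cycles in the symmetric part are torsion if and only if the images of the cycles of
Faber and Pandharipande of all double coverings are torsion -/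
theorem double_iff [IsAlgClosed k] [CharZero k] (hF : IsCurve k F) :
    (∀ z : (Bool → Place k F) →₀ ℤ, AlbKer (fun _ : Bool => F) z →
      RatTor (fun _ : Bool => F) (z + z.mapDomain swap)) ↔
        ∀ w : (Bool → Place k F) →₀ ℤ, DoubleFP k F w → RatTor (fun _ : Bool => F) w := by
  constructor
  · intro h w hw
    obtain ⟨h1, h2⟩ := doubleFP_albKer (k := k) (F := F) hw
    have h3 := h w h1
    rw [h2, ← two_zsmul] at h3
    exact tor_of_zsmul (by norm_num) h3
  · intro h z hz
    exact double_symmetric (T := torGroup fun _ : Bool => F) hF ratEq_le_torGroup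
      (fun n z hn h => tor_of_zsmul hn h) h hz

end Pool.Agent.FPZ
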