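import Pool.Agent.FPZ.Dcov
import Pool.Agent.Dess.Galois
import Pool.Agent.ZCyc.Places

/-!
# Two curves with two points each are dominated by one curve with two points
-/

set_option autoImplicit false

noncomputable section

namespace Pool.Agent.FPZ

open Pool.Agent.ZCyc Pool.Agent.Dess Pool.Agent.Dess4 Polynomial IntermediateField
open scoped Classical

/-- `Ω` is an algebraic closure of the field of rational functions of `t` over `k`. -/
structure AlgFun (k : Type) {Ω : Type} [Field k] [Field Ω] [Algebra k Ω] (t : Ω) : Prop where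
  transc : Transcendental k t
  closed : IsAlgClosed Ω
  alg : Algebra.IsAlgebraic (adjoin k {t}) Ω

theorem exists_algFun (k : Type) [Field k] : ∃ (Ω : Type) (_ : Field Ω) (_ : Algebra k Ω) (t : Ω),
    AlgFun k t := by
  let Ω := AlgebraicClosure (RatFunc k)
  let t : Ω := algebraMap (RatFunc k) Ω RatFunc.X
  have ht : Transcendental k t := by
    intro h
    have h1 : IsAlgebraic k (RatFunc.X : RatFunc k) :=
      (isAlgebraic_algebraMap_iff (algebraMap (RatFunc k) Ω).injective).1 h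
    exact RatFunc.transcendental_X h1
  let e : RatFunc k ≃ₐ[k] adjoin k {t} := RatFunc.algEquivOfTranscendental t ht
  let e' : RatFunc k →+* adjoin k {t} := (e : RatFunc k →ₐ[k] adjoin k {t}).toRingHom
  have he : (algebraMap (adjoin k {t}) Ω).comp e' = algebraMap (RatFunc k) Ω := by
    apply IsLocalization.ringHom_ext (nonZeroDivisors k[X])
    apply RingHom.ext
    intro p
    change ((RatFunc.algEquivOfTranscendental t ht (algebraMap k[X] (RatFunc k) p) :
      adjoin k {t}) : Ω) = algebraMap (RatFunc k) Ω (algebraMap k[X] (RatFunc k) p)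
    rw [RatFunc.algEquivOfTranscendental_algebraMap]
    have h1 : ((adjoin k {t}).val.comp (aeval (AdjoinSimple.gen k t)) : k[X] →ₐ[k] Ω) =
        (IsScalarTower.toAlgHom k (RatFunc k) Ω).comp (IsScalarTower.toAlgHom k k[X] (RatFunc k))
        := by
      apply Polynomial.algHom_ext
      change (adjoin k {t}).val (aeval (AdjoinSimple.gen k t) X) =
        algebraMap (RatFunc k) Ω (algebraMap k[X] (RatFunc k) X)
      rw [aeval_X, RatFunc.algebraMap_X]
      rfl
    exact congrArg (fun f : k[X] →ₐ[k] Ω => f p) h1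
  refine ⟨Ω, inferInstance, inferInstance, t, ht, inferInstance, ⟨fun z => ?_⟩⟩
  have h1 : IsAlgebraic (RatFunc k) z := Algebra.IsAlgebraic.isAlgebraic z
  exact h1.ringHom_of_comp_eq e' (RingHom.id Ω) e'.injective he

/-! ### the Galois closure of two curves -/

section Closure

variable {k Ω : Type} [Field k] [Field Ω] [Algebra k Ω] {tt : Ω}

theorem algFun_embed (hΩ : AlgFun k tt) {F : Type} [Field F] [Algebra k F] {t : F}
    (ht : Transcendental k t) (hfin : FiniteDimensional (adjoin k {t}) F) :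
    ∃ ψ : F →ₐ[k] Ω, ψ t = tt := by
  have hclosed := hΩ.closed
  let e := RatFunc.algEquivOfTranscendental t ht
  let e' := RatFunc.algEquivOfTranscendental tt hΩ.transc
  let j : adjoin k {t} →+* Ω := (algebraMap (adjoin k {tt}) Ω).comp
    ((e.symm.trans e' : adjoin k {t} ≃ₐ[k] adjoin k {tt}) : adjoin k {t} →+* adjoin k {tt})
  let _ : Algebra (adjoin k {t}) Ω := j.toAlgebra
  let ψ : F →ₐ[adjoin k {t}] Ω := IsAlgClosed.lift
  have hψ : ∀ x : adjoin k {t}, ψ (x : F) = (e' (e.symm x) : Ω) := fun x => ψ.commutes x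
  refine ⟨{ (ψ : F →+* Ω) with commutes' := ?_ }, ?_⟩
  · intro c
    have h1 := hψ (algebraMap k (adjoin k {t}) c)
    rw [AlgEquiv.commutes, AlgEquiv.commutes] at h1
    exact h1
  · have h1 := hψ (AdjoinSimple.gen k t)
    rw [RatFunc.algEquivOfTranscendental_symm_gen] at h1
    have h2 : ((e' RatFunc.X : adjoin k {tt}) : Ω) = tt :=
      RatFunc.algEquivOfTranscendental_X tt hΩ.transc
    rw [h2] at h1
    exact h1

/-- the subfield generated by an element of an intermediate field -/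
def jk_equiv (F : IntermediateField k Ω) (h : tt ∈ F) :
    adjoin k {(⟨tt, h⟩ : F)} ≃ₐ[k] adjoin k {tt} :=
  (liftAlgEquiv _).trans (equivOfEq (lift_adjoin_simple k F (⟨tt, h⟩ : F)))

theorem jk_equiv_coe (F : IntermediateField k Ω) (h : tt ∈ F)
    (y : adjoin k {(⟨tt, h⟩ : F)}) :
    ((jk_equiv F h y : adjoin k {tt}) : Ω) = ((y : F) : Ω) := rfl

theorem range_finite {F : Type} [Field F] [Algebra k F] {t : F}
    (hfin : FiniteDimensional (adjoin k {t}) F) {ψ : F →ₐ[k] Ω} (hψ : ψ t = tt)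
    (hle : adjoin k {tt} ≤ ψ.fieldRange) :
    FiniteDimensional (adjoin k {tt})
      (extendScalars hle : IntermediateField (adjoin k {tt}) Ω) := by
  let e₁ : adjoin k {t} ≃ₐ[k] (adjoin k {t}).map ψ := (adjoin k {t}).equivMap ψ
  have e₂ : (adjoin k {t}).map ψ = adjoin k {tt} := by
    rw [adjoin_map, Set.image_singleton, hψ]
  let e := e₁.trans (equivOfEq e₂)
  refine Module.Finite.of_equiv_equiv (A₁ := adjoin k {t}) (B₁ := F) e.toRingEquiv
    (B₂ := (extendScalars hle : IntermediateField (adjoin k {tt}) Ω))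
    (AlgEquiv.ofInjectiveField ψ).toRingEquiv ?_
  ext y
  rfl

theorem exists_galois [CharZero k] (hΩ : AlgFun k tt) {F₁ F₂ : Type} [Field F₁] [Algebra k F₁]
    [Field F₂] [Algebra k F₂] {u : F₁} {v : F₂} (hu : Transcendental k u)
    (hv : Transcendental k v) (hfu : FiniteDimensional (adjoin k {u}) F₁)
    (hfv : FiniteDimensional (adjoin k {v}) F₂) :
    ∃ (M : Type) (_ : Field M) (_ : Algebra k M) (t : M) (φ₁ : F₁ →ₐ[k] M) (φ₂ : F₂ →ₐ[k] M),
      Transcendental k t ∧ FiniteDimensional (adjoin k {t}) M ∧ IsGalois (adjoin k {t}) M ∧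
        φ₁ u = t ∧ φ₂ v = t := by
  have hclosed := hΩ.closed
  obtain ⟨ψ₁, h₁⟩ := algFun_embed hΩ hu hfu
  obtain ⟨ψ₂, h₂⟩ := algFun_embed hΩ hv hfv
  let E : IntermediateField k Ω := adjoin k {tt}
  have hle₁ : E ≤ ψ₁.fieldRange := adjoin_simple_le_iff.2 ⟨u, h₁⟩
  have hle₂ : E ≤ ψ₂.fieldRange := adjoin_simple_le_iff.2 ⟨v, h₂⟩
  let R₁ : IntermediateField E Ω := extendScalars hle₁
  let R₂ : IntermediateField E Ω := extendScalars hle₂
  have hR₁ : FiniteDimensional E R₁ := range_finite hfu h₁ hle₁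
  have hR₂ : FiniteDimensional E R₂ := range_finite hfv h₂ hle₂
  have hchE : CharZero E := charZero_of_injective_algebraMap (algebraMap k E).injective
  have hEalg : Algebra.IsAlgebraic E Ω := hΩ.alg
  have hEn : Normal E Ω := by
    have : IsAlgClosure E Ω := ⟨inferInstance, hEalg⟩
    exact IsAlgClosure.normal E Ω
  let R : IntermediateField E Ω := R₁ ⊔ R₂
  have hR : FiniteDimensional E R := finiteDimensional_sup R₁ R₂
  let N : IntermediateField E Ω := normalClosure E R Ω
  have hNn : Normal E N := inferInstance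
  have hNf : FiniteDimensional E N := inferInstance
  have hNg : IsGalois E N := ⟨⟩
  have hRN : R ≤ N := by
    intro y hy
    exact R.val.fieldRange_le_normalClosure ⟨⟨y, hy⟩, rfl⟩
  let M : IntermediateField k Ω := N.restrictScalars k
  have hEM : E ≤ M := by
    intro y hy
    exact N.algebraMap_mem ⟨y, hy⟩
  have htM : tt ∈ M := hEM (mem_adjoin_simple_self k tt)
  let t : M := ⟨tt, htM⟩
  have ht : Transcendental k t := by
    intro h
    apply hΩ.transc
    exact (isAlgebraic_algebraMap_iff (algebraMap M Ω).injective).2 h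
  have hMf : FiniteDimensional (adjoin k {t}) M := by
    refine Module.Finite.of_equiv_equiv (A₁ := E) (B₁ := N)
      (jk_equiv M htM).symm.toRingEquiv (B₂ := M) (RingEquiv.refl N) ?_
    ext y
    have h1 := jk_equiv_coe M htM ((jk_equiv M htM).symm y)
    rw [AlgEquiv.apply_symm_apply] at h1
    exact h1.symm
  have hMg : IsGalois (adjoin k {t}) M := by
    refine IsGalois.of_equiv_equiv (F := E) (E := N)
      (f := (jk_equiv M htM).symm.toRingEquiv) (g := RingEquiv.refl N) ?_
    ext y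
    have h1 := jk_equiv_coe M htM ((jk_equiv M htM).symm y)
    rw [AlgEquiv.apply_symm_apply] at h1
    exact h1.symm
  have hm₁ : ∀ x, ψ₁ x ∈ M := fun x => hRN ((le_sup_left : R₁ ≤ R) ⟨x, rfl⟩)
  have hm₂ : ∀ x, ψ₂ x ∈ M := fun x => hRN ((le_sup_right : R₂ ≤ R) ⟨x, rfl⟩)
  refine ⟨M, inferInstance, inferInstance, t, ψ₁.codRestrict M.toSubalgebra hm₁,
    ψ₂.codRestrict M.toSubalgebra hm₂, ht, hMf, hMg, Subtype.ext h₁, Subtype.ext h₂⟩

end Closure

/-! ### places -/

/-- A place of the rational function field is determined by the value of the variable. -/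
theorem jk_rational {k M : Type} [Field k] [Field M] [Algebra k M] {t : M}
    (ht : Transcendental k t) {c : k} {V P : Place k M} (hV : V.At t c) (hP : P.At t c) {f : M}
    (hf : f ∈ IntermediateField.adjoin k {t}) (h : f ∈ V.ring) : f ∈ P.ring := by
  rw [IntermediateField.mem_adjoin_simple_iff] at hf
  obtain ⟨r, s, rfl⟩ := hf
  by_cases hs : s = 0
  · rw [hs, map_zero, div_zero]
    exact zero_mem _
  have hinj : ∀ p : k[X], p ≠ 0 → aeval t p ≠ 0 := fun p hp h0 =>
    hp ((transcendental_iff.1 ht) p h0)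
  set d := GCDMonoid.gcd r s with hd
  have hd0 : d ≠ 0 := fun h0 => hs ((gcd_eq_zero_iff r s).1 h0).2
  have hr' : d * (r / d) = r := EuclideanDomain.mul_div_cancel' hd0 (gcd_dvd_left r s)
  have hs' : d * (s / d) = s := EuclideanDomain.mul_div_cancel' hd0 (gcd_dvd_right r s)
  have hco : IsCoprime (r / d) (s / d) := isCoprime_div_gcd_div_gcd hs
  set r₁ := r / d
  set s₁ := s / d
  have hs₁ : s₁ ≠ 0 := by
    intro h0
    apply hs
    rw [← hs', h0, mul_zero]
  have e1 : aeval t r / aeval t s = aeval t r₁ / aeval t s₁ := by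
    rw [← hr', ← hs', map_mul, map_mul]
    exact mul_div_mul_left _ _ (hinj d hd0)
  rw [e1] at h ⊢
  by_cases h1 : s₁.eval c = 0
  · exfalso
    have h2 : r₁.eval c ≠ 0 := by
      intro h3
      obtain ⟨u, w, huw⟩ := hco
      have := congrArg (Polynomial.eval c) huw
      simp [h1, h3] at this
    have h3 : V.At (aeval t s₁ / aeval t r₁) (s₁.eval c / r₁.eval c) :=
      (hV.aeval s₁).div (hV.aeval r₁) h2
    rw [h1, zero_div, Place.at_zero_iff] at h3
    have h4 := Place.Vanishes.mul V h3 h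
    have hr₁ : r₁ ≠ 0 := by
      rintro h5
      rw [h5] at h2
      simp at h2
    have h5 : aeval t s₁ / aeval t r₁ * (aeval t r₁ / aeval t s₁) = algebraMap k M 1 := by
      rw [map_one]
      have := hinj r₁ hr₁
      have := hinj s₁ hs₁
      field_simp
    rw [h5] at h4
    exact V.const_unit one_ne_zero h4
  · exact ((hP.aeval r₁).div (hP.aeval s₁) h1).mem

section Joint

variable {k : Type} [Field k] [IsAlgClosed k] [CharZero k]

/-- an embedding into a Galois extension can be moved such that a given place lies above a given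
place -/
theorem move_embed {F M : Type} [Field F] [Algebra k F] [Field M] [Algebra k M] (hF : IsCurve k F)
    {t : M} (ht : Transcendental k t) (hfin : FiniteDimensional (adjoin k {t}) M)
    (hgal : IsGalois (adjoin k {t}) M) {u : F} (φ : F →ₐ[k] M) (hφ : φ u = t) {c : k}
    {V : Place k M} (hV : V.At t c) {v : Place k F} (hv : v.At u c) :
    ∃ ψ : F →ₐ[k] M, ψ u = t ∧ V.ring.comap (ψ : F →+* M) = v.ring := by
  have hM : IsCurve k M := ⟨t, ht, hfin⟩
  obtain ⟨V₀, hV₀⟩ := exists_ext hF hM φ v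
  have hV₀t : V₀.At t c := by
    rw [← hφ, comap_at hV₀]
    exact hv
  obtain ⟨q, hq, hqV⟩ := galois_trans hM (adjoin k {t}) V₀ V fun f hf =>
    ⟨fun h => jk_rational ht hV₀t hV hf h, fun h => jk_rational ht hV hV₀t hf h⟩
  refine ⟨(q : M →ₐ[k] M).comp φ, ?_, ?_⟩
  · change q (φ u) = t
    rw [hφ]
    exact hq t (mem_adjoin_simple_self k t)
  · ext f
    rw [ValuationSubring.mem_comap, ← hqV, Place.mem_map]
    change q.symm (q (φ f)) ∈ V₀.ring ↔ _
    rw [AlgEquiv.symm_apply_apply, comap_mem hV₀]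

/-- **The joint curve.** Two curves with two different points each are dominated by one curve with
two points, over every algebraically closed field of characteristic zero. -/
theorem joint_k {F₁ F₂ : Type} [Field F₁] [Algebra k F₁] [Field F₂] [Algebra k F₂]
    (h₁ : IsCurve k F₁) (h₂ : IsCurve k F₂) {P P' : Place k F₁} {Q Q' : Place k F₂}
    (hP : P' ≠ P) (hQ : Q' ≠ Q) :
    ∃ (M : Type) (_ : Field M) (_ : Algebra k M) (φ₁ : F₁ →ₐ[k] M) (φ₂ : F₂ →ₐ[k] M)
      (A B : Place k M), IsCurve k M ∧ A.ring.comap (φ₁ : F₁ →+* M) = P.ring ∧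
        A.ring.comap (φ₂ : F₂ →+* M) = Q.ring ∧ B.ring.comap (φ₁ : F₁ →+* M) = P'.ring ∧
          B.ring.comap (φ₂ : F₂ →+* M) = Q'.ring := by
  obtain ⟨w₁, hw₁t, hw₁⟩ := exists_single_pole h₁ P
  obtain ⟨w₂, hw₂t, hw₂⟩ := exists_single_pole h₂ Q
  obtain ⟨c₁, hc₁⟩ := exists_at h₁ P' (hw₁ P' hP)
  obtain ⟨c₂, hc₂⟩ := exists_at h₂ Q' (hw₂ Q' hQ)
  have hut := transc_sub hw₁t c₁
  have hvt := transc_sub hw₂t c₂
  set u := w₁ - algebraMap k F₁ c₁ with hu
  set v := w₂ - algebraMap k F₂ c₂ with hv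
  have hureg : ∀ x : Place k F₁, x ≠ P → u ∈ x.ring := fun x hx =>
    sub_mem (hw₁ x hx) (x.const_mem c₁)
  have hvreg : ∀ x : Place k F₂, x ≠ Q → v ∈ x.ring := fun x hx =>
    sub_mem (hw₂ x hx) (x.const_mem c₂)
  obtain ⟨Ω, _, _, tt, hΩ⟩ := exists_algFun k
  obtain ⟨M, _, _, t, φ₁, φ₂, ht, hfin, hgal, e₁, e₂⟩ := exists_galois hΩ hut hvt
    (fin_adjoin h₁ hut) (fin_adjoin h₂ hvt)
  have hM : IsCurve k M := ⟨t, ht, hfin⟩
  obtain ⟨B, hB⟩ := exists_place ht (0 : k)
  have ht' : Transcendental k t⁻¹ := fun h => ht (by simpa using h.inv)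
  obtain ⟨A, hA⟩ := exists_place ht' (0 : k)
  have hAt : t ∉ A.ring := by
    rw [Place.at_zero_iff, Place.vanishes_iff_or, inv_inv] at hA
    rcases hA with h | h
    · exact absurd (inv_eq_zero.1 h) (transc_ne ht)
    · exact h
  obtain ⟨ψ₁, f₁, g₁⟩ := move_embed h₁ ht hfin hgal φ₁ e₁ hB (v := P') (by
    rw [Place.at_zero_iff]
    exact hc₁)
  obtain ⟨ψ₂, f₂, g₂⟩ := move_embed h₂ ht hfin hgal φ₂ e₂ hB (v := Q') (by
    rw [Place.at_zero_iff]
    exact hc₂)
  obtain ⟨Ψ₁, hΨ₁⟩ := exists_proj h₁ hM ψ₁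
  obtain ⟨Ψ₂, hΨ₂⟩ := exists_proj h₂ hM ψ₂
  have hAP : Ψ₁ A = P := by
    by_contra h
    apply hAt
    rw [← f₁, comap_mem (hΨ₁ A)]
    exact hureg _ h
  have hAQ : Ψ₂ A = Q := by
    by_contra h
    apply hAt
    rw [← f₂, comap_mem (hΨ₂ A)]
    exact hvreg _ h
  exact ⟨M, inferInstance, inferInstance, ψ₁, ψ₂, A, B, hM, by rw [hΨ₁, hAP], by rw [hΨ₂, hAQ],
    g₁, g₂⟩

end Joint

end Pool.Agent.FPZ
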