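import Pool.Agent.FPZ.Hyp2
import Pool.Agent.FPZ.Dcov
import Pool.Agent.FPZ.JointK
import Pool.Agent.FPZ.Double

/-!
# Orbits of points on a Galois covering of the projective line
-/

set_option autoImplicit false

noncomputable section

namespace Pool.Agent.FPZ

open Pool.Agent.ZCyc Pool.Agent.Dess Pool.Agent.Dess4 IntermediateField
open scoped Classical

section Map

variable {k F : Type} [Field k] [Field F] [Algebra k F]

/-- orders under an automorphism -/
theorem ord_map {v : Place k F} (e : F ≃ₐ[k] F) {g : F} {n : ℤ} (h : HasOrd v g n) :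
    HasOrd (v.map e) (e g) n := by
  obtain ⟨π, hπ, h1, h2⟩ := h
  refine ⟨e π, ⟨(map_ne_zero e).2 hπ.1, ?_, fun f hf => ?_⟩, ?_, ?_⟩
  · rw [Place.vanishes_map, AlgEquiv.symm_apply_apply]
    exact hπ.2.1
  · rw [Place.vanishes_map] at hf
    rw [Place.mem_map, map_div₀, AlgEquiv.symm_apply_apply]
    exact hπ.2.2 _ hf
  · rw [Place.mem_map, map_div₀, map_zpow₀, AlgEquiv.symm_apply_apply, AlgEquiv.symm_apply_apply]
    exact h1
  · rw [Place.mem_map, map_inv₀, map_div₀, map_zpow₀, AlgEquiv.symm_apply_apply,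
      AlgEquiv.symm_apply_apply]
    exact h2

theorem ord_map_fix {v : Place k F} (e : F ≃ₐ[k] F) {g : F} (hg : e g = g) {n : ℤ}
    (h : HasOrd v g n) : HasOrd (v.map e) g n := by
  have := ord_map e h
  rwa [hg] at this

end Map

variable {k F : Type} [Field k] [Field F] [Algebra k F]

/-- the action of the Galois group on the points -/
def gact (E : IntermediateField k F) (σ : F ≃ₐ[E] F) (v : Place k F) : Place k F :=
  v.map (σ.restrictScalars k)

variable {E : IntermediateField k F}

theorem gact_one (v : Place k F) : gact E 1 v = v := v.map_one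

theorem gact_mul (σ τ : F ≃ₐ[E] F) (v : Place k F) :
    gact E (σ * τ) v = gact E σ (gact E τ v) := by
  unfold gact
  rw [Place.map_map]
  rfl

/-- the sum of the conjugates of a point -/
def orb (E : IntermediateField k F) [Fintype (F ≃ₐ[E] F)] (v : Place k F) : Place k F →₀ ℤ :=
  ∑ σ : F ≃ₐ[E] F, Finsupp.single (gact E σ v) 1

theorem orb_gact [Fintype (F ≃ₐ[E] F)] (σ : F ≃ₐ[E] F) (v : Place k F) :
    orb E (gact E σ v) = orb E v := by
  unfold orb
  simp only [← gact_mul]
  exact Fintype.sum_equiv (Equiv.mulRight σ) _ _ fun _ => rfl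

theorem orb_deg [Fintype (F ≃ₐ[E] F)] (v : Place k F) :
    dgq (orb E v) = Fintype.card (F ≃ₐ[E] F) := by
  unfold orb
  rw [map_sum]
  simp only [dgq_single, Finset.sum_const, Finset.card_univ, nsmul_eq_mul, mul_one]

theorem orb_apply [Fintype (F ≃ₐ[E] F)] (v w : Place k F) :
    orb E v w = ((Finset.univ.filter fun σ : F ≃ₐ[E] F => gact E σ v = w).card : ℤ) := by
  unfold orb
  rw [Finsupp.finsetSum_apply]
  simp only [Finsupp.single_apply]
  rw [Finset.sum_ite, Finset.sum_const_zero, add_zero, Finset.sum_const, nsmul_eq_mul, mul_one]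

theorem orb_zero [Fintype (F ≃ₐ[E] F)] {v w : Place k F} (h : ∀ σ : F ≃ₐ[E] F, gact E σ v ≠ w) :
    orb E v w = 0 := by
  rw [orb_apply, Finset.filter_false_of_mem fun σ _ => h σ, Finset.card_empty, Nat.cast_zero]

/-- all points of the orbit have the same multiplicity -/
theorem orb_same [Fintype (F ≃ₐ[E] F)] (v : Place k F) (σ : F ≃ₐ[E] F) :
    orb E v (gact E σ v) = orb E v v := by
  have h : orb E v (gact E σ v) = orb E (gact E σ v) (gact E σ v) := by rw [orb_gact]
  rw [orb_apply, orb_apply]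
  congr 1
  refine Finset.card_bij (fun τ _ => σ⁻¹ * τ) ?_ ?_ ?_
  · intro τ hτ
    rw [Finset.mem_filter] at hτ ⊢
    refine ⟨Finset.mem_univ _, ?_⟩
    rw [gact_mul, hτ.2, ← gact_mul, inv_mul_cancel, gact_one]
  · intro τ _ τ' _ h
    exact mul_left_cancel h
  · intro τ hτ
    rw [Finset.mem_filter] at hτ
    refine ⟨σ * τ, ?_, by group⟩
    rw [Finset.mem_filter]
    refine ⟨Finset.mem_univ _, ?_⟩
    rw [gact_mul, hτ.2]

/-- the number of points of the orbit times the order of the stabilizer -/
theorem orb_card [Fintype (F ≃ₐ[E] F)] (v : Place k F) :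
    ((Finset.univ.image fun σ : F ≃ₐ[E] F => gact E σ v).card : ℤ) * orb E v v =
      Fintype.card (F ≃ₐ[E] F) := by
  set S := Finset.univ.image fun σ : F ≃ₐ[E] F => gact E σ v with hS
  have h1 : (∑ w ∈ S, orb E v w) = Fintype.card (F ≃ₐ[E] F) := by
    rw [← orb_deg (E := E) v, dgq, Finsupp.liftAddHom_apply, Finsupp.sum]
    symm
    refine Finset.sum_subset ?_ ?_
    · intro w hw
      rw [Finsupp.mem_support_iff] at hw
      by_contra h
      apply hw
      apply orb_zero
      intro σ hσ
      apply h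
      rw [hS, Finset.mem_image]
      exact ⟨σ, Finset.mem_univ σ, hσ⟩
    · intro w _ hw
      rw [Finsupp.notMem_support_iff] at hw
      rw [hw, map_zero]
  rw [← h1, Finset.sum_congr rfl (g := fun _ => orb E v v), Finset.sum_const, nsmul_eq_mul]
  intro w hw
  obtain ⟨σ, -, rfl⟩ := Finset.mem_image.1 hw
  exact orb_same v σ

section Zeros

variable [IsAlgClosed k] [CharZero k] [FiniteDimensional E F] [IsGalois E F]

/-- the orbit of a zero is the divisor of zeros -/
theorem orb_zeros {s : F} (hs : Transcendental k s) (hE : adjoin k {s} = E) {V : Place k F}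
    (hV : V.At s 0) {D : Place k F →₀ ℤ} (hD : ∀ v, HasOrd v s (D v)) (v : Place k F) :
    orb E V v = max (D v) 0 := by
  subst hE
  have hF : IsCurve k F := ⟨s, hs, inferInstance⟩
  have hs0 : s ≠ 0 := transc_ne hs
  have hfix : ∀ σ : F ≃ₐ[adjoin k {s}] F, σ.restrictScalars k s = s := fun σ =>
    σ.commutes ⟨s, mem_adjoin_simple_self k s⟩
  have hsame : ∀ (σ : F ≃ₐ[adjoin k {s}] F) (w : Place k F),
      D (gact (adjoin k {s}) σ w) = D w := fun σ w =>
    hasOrd_unique hF hs0 (hD _) (ord_map_fix _ (hfix σ) (hD w))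
  have htrans : ∀ w : Place k F, w.At s 0 → ∃ σ : F ≃ₐ[adjoin k {s}] F,
      gact (adjoin k {s}) σ V = w := by
    intro w hw
    obtain ⟨q, hq, hqV⟩ := galois_trans hF (adjoin k {s}) V w fun f hf =>
      ⟨fun h => jk_rational hs hV hw hf h, fun h => jk_rational hs hw hV hf h⟩
    refine ⟨AlgEquiv.ofRingEquiv (f := q.toRingEquiv) fun x => hq x x.2, ?_⟩
    rw [← hqV]
    rfl
  have hpos : ∀ w : Place k F, 0 < D w ↔ w.At s 0 := by
    intro w
    rw [ord_pos_iff hs0 (hD w), Place.at_zero_iff, Place.vanishes_iff_or]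
    constructor
    · exact Or.inr
    · rintro (h | h)
      · exact absurd h hs0
      · exact h
  set S := Finset.univ.image fun σ : F ≃ₐ[adjoin k {s}] F => gact (adjoin k {s}) σ V with hS
  have h1 := zeros_finrank hF hs0 hs hD (S := S) (by
    intro w hw
    obtain ⟨σ, hσ⟩ := htrans w ((hpos w).1 hw)
    rw [hS, Finset.mem_image]
    exact ⟨σ, Finset.mem_univ σ, hσ⟩)
  have h2 : ∑ w ∈ S, (D w).toNat = S.card * (D V).toNat := by
    rw [Finset.sum_congr rfl (g := fun _ => (D V).toNat), Finset.sum_const, smul_eq_mul]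
    intro w hw
    obtain ⟨σ, -, rfl⟩ := Finset.mem_image.1 hw
    rw [hsame σ V]
  have h3 := orb_card (E := adjoin k {s}) V
  rw [← Nat.card_eq_fintype_card, IsGalois.card_aut_eq_finrank, ← h1, h2, ← hS] at h3
  have hDV : 0 < D V := (hpos V).2 hV
  have hScard : (0 : ℤ) < S.card := by
    rw [Nat.cast_pos, Finset.card_pos]
    exact ⟨gact _ 1 V, Finset.mem_image_of_mem _ (Finset.mem_univ _)⟩
  have h4 : orb (adjoin k {s}) V V = D V := by
    have h5 : ((D V).toNat : ℤ) = D V := Int.toNat_of_nonneg hDV.le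
    rw [Nat.cast_mul, h5] at h3
    exact mul_left_cancel₀ hScard.ne' h3
  by_cases hv : ∃ σ : F ≃ₐ[adjoin k {s}] F, gact (adjoin k {s}) σ V = v
  · obtain ⟨σ, rfl⟩ := hv
    rw [orb_same, h4, hsame, max_eq_left hDV.le]
  · push Not at hv
    rw [orb_zero hv, max_eq_right]
    by_contra h
    push Not at h
    obtain ⟨σ, hσ⟩ := htrans v ((hpos v).1 h)
    exact hv σ hσ

/-- **All orbits are linearly equivalent.** -/
theorem orb_equiv {u : F} (hu : Transcendental k u) (hE : adjoin k {u} = E) (V W : Place k F) :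
    unq (orb E V - orb E W) ∈ RatEq (k := k) fun _ : Unit => F := by
  have hF : IsCurve k F := ⟨u, hu, by rw [hE]; infer_instance⟩
  have hu0 := transc_ne hu
  obtain ⟨P, hP⟩ := exists_div hF hu0
  -- the orbit of `V` is, up to the divisor of a function, the divisor of poles of `u`
  have key : ∀ V : Place k F, ∃ g : F, g ≠ 0 ∧
      ∀ v, HasOrd v g (orb E V v - max (-P v) 0) := by
    intro V
    rcases at_or_pole hF V u with ⟨b, hb⟩ | hp
    · have ht := transc_sub hu b
      obtain ⟨D, hD⟩ := exists_div hF (transc_ne ht)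
      refine ⟨u - algebraMap k F b, transc_ne ht, fun v => ?_⟩
      have h1 := orb_zeros ht (by rw [adjoin_sub, hE]) (E := E) (V := V) (by
        rw [Place.at_zero_iff]
        exact hb) hD v
      have h2 : max (D v) 0 - max (-P v) 0 = D v := by
        rcases at_or_pole hF v u with ⟨c, hc⟩ | hp
        · have h3 : 0 ≤ P v := ord_nonneg (hP v) hu0 hc.mem
          have h4 : 0 ≤ D v := ord_nonneg (hD v) (transc_ne ht) (sub_mem hc.mem (v.const_mem b))
          omega
        · obtain ⟨m, -, -, ⟨a, ha, -⟩ | ⟨-, h3, h4⟩⟩ := can_aux hF hu v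
          · exact absurd ha.mem hp
          have h5 := hasOrd_unique hF (transc_ne ht) (hD v) (h3 b)
          have h6 := h3 0
          rw [map_zero, sub_zero] at h6
          have h7 := hasOrd_unique hF hu0 (hP v) h6
          omega
      rw [h1, h2]
      exact hD v
    · have ht : Transcendental k u⁻¹ := fun h => hu (by simpa using h.inv)
      refine ⟨1, one_ne_zero, fun v => ?_⟩
      have h1 := orb_zeros ht (by rw [adjoin_inv, hE]) (E := E) (V := V) (by
        rw [Place.at_zero_iff, Place.vanishes_iff_or]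
        right
        rwa [inv_inv]) (D := -P) (fun v => by
          rw [Finsupp.neg_apply]
          exact ord_inv (hP v)) v
      rw [h1, Finsupp.neg_apply, sub_self]
      exact ord_unit_of_mem hF (one_mem _) (by rw [inv_one]; exact one_mem _)
  obtain ⟨g, hg0, hg⟩ := key V
  obtain ⟨g', hg'0, hg'⟩ := key W
  refine unq_div_mem hF (g := g * g'⁻¹) (mul_ne_zero hg0 (inv_ne_zero hg'0)) fun v => ?_
  have h1 := ord_mul (hg v) (ord_inv (hg' v))
  convert h1 using 1
  rw [Finsupp.sub_apply]
  ring

end Zeros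

end Pool.Agent.FPZ
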