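import Pool.Agent.FPZ.AbCov1
import Pool.Agent.Dess.Abhy

/-!
# The inertia groups of an abelian covering of the projective line
-/

set_option autoImplicit false

noncomputable section

namespace Pool.Agent.FPZ

open Pool.Agent.ZCyc Pool.Agent.Dess Pool.Agent.Dess4 IntermediateField Polynomial
open scoped Classical

section Aux

variable {k F : Type} [Field k] [Field F] [Algebra k F]

theorem at_zpow {v : Place k F} {f : F} {c : k} (h : v.At f c) (hc : c ≠ 0) (m : ℤ) :
    v.At (f ^ m) (c ^ m) := by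
  cases m with
  | ofNat n =>
    rw [Int.ofNat_eq_natCast, zpow_natCast, zpow_natCast]
    exact h.pow n
  | negSucc n =>
    rw [zpow_negSucc, zpow_negSucc]
    exact (h.pow (n + 1)).inv (pow_ne_zero _ hc)

theorem stab_at {V : Place k F} {e : F ≃ₐ[k] F} (he : V.map e = V) {f : F} {c : k}
    (h : V.At f c) : V.At (e f) c := by
  unfold Place.At at h ⊢
  rw [← he, Place.vanishes_map, map_sub, AlgEquiv.symm_apply_apply, AlgEquiv.commutes]
  exact h

theorem stab_unif {V : Place k F} {e : F ≃ₐ[k] F} (he : V.map e = V) {π : F}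
    (hπ : IsUnif V π) : IsUnif V (e π) := by
  refine ⟨(_root_.map_ne_zero e).2 hπ.1, ?_, fun f hf => ?_⟩
  · rw [← he, Place.vanishes_map, AlgEquiv.symm_apply_apply]
    exact hπ.2.1
  · rw [← he, Place.vanishes_map] at hf
    rw [← he, Place.mem_map, map_div₀, AlgEquiv.symm_apply_apply]
    exact hπ.2.2 _ hf

/-- the ratio of two uniformizers has a value different from zero -/
theorem unif_ratio [IsAlgClosed k] [CharZero k] (hF : IsCurve k F) {V : Place k F} {π ϖ : F}
    (hπ : IsUnif V π) (hϖ : IsUnif V ϖ) : ∃ c : k, c ≠ 0 ∧ V.At (ϖ / π) c := by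
  have h1 := hπ.2.2 ϖ hϖ.2.1
  have h2 := hϖ.2.2 π hπ.2.1
  obtain ⟨c, hc⟩ := exists_at hF V h1
  refine ⟨c, ?_, hc⟩
  rintro rfl
  rw [Place.at_zero_iff, Place.vanishes_iff_or] at hc
  rcases hc with h | h
  · exact div_ne_zero hϖ.1 hπ.1 h
  · rw [inv_div] at h
    exact h h2

/-- an unit of the local ring has a value different from zero -/
theorem unit_value [IsAlgClosed k] [CharZero k] (hF : IsCurve k F) {V : Place k F} {w : F}
    (hw0 : w ≠ 0) (h1 : w ∈ V.ring) (h2 : w⁻¹ ∈ V.ring) : ∃ c : k, c ≠ 0 ∧ V.At w c := by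
  obtain ⟨c, hc⟩ := exists_at hF V h1
  refine ⟨c, ?_, hc⟩
  rintro rfl
  rw [Place.at_zero_iff, Place.vanishes_iff_or] at hc
  rcases hc with h | h
  · exact hw0 h
  · exact h h2

end Aux

variable {k F : Type} [Field k] [Field F] [Algebra k F]

/-- the stabilizer of a point -/
def gstab (E : IntermediateField k F) (V : Place k F) : Subgroup (F ≃ₐ[E] F) where
  carrier := {σ | gact E σ V = V}
  one_mem' := gact_one V
  mul_mem' := by
    intro σ τ hσ hτ
    change gact E (σ * τ) V = V
    rw [gact_mul, hτ, hσ]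
  inv_mem' := by
    intro σ hσ
    change gact E σ⁻¹ V = V
    have h : gact E σ V = V := hσ
    conv_lhs => rw [← h]
    rw [← gact_mul, inv_mul_cancel, gact_one]

theorem orb_gstab {E : IntermediateField k F} [Fintype (F ≃ₐ[E] F)] (V : Place k F) :
    orb E V V = Nat.card (gstab E V) := by
  rw [orb_apply]
  congr 1
  rw [Nat.card_eq_fintype_card]
  symm
  exact Fintype.card_subtype fun σ : F ≃ₐ[E] F => gact E σ V = V

section Tame

variable [IsAlgClosed k] [CharZero k] {u : F} [FiniteDimensional (adjoin k {u}) F]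
  [IsGalois (adjoin k {u}) F]

/-- the order of a function which is fixed by the stabilizer is divisible by the order of the
stabilizer -/
theorem stab_dvd (hu : Transcendental k u) {V : Place k F} {y : F} (hy : y ≠ 0)
    (hfix : ∀ s ∈ gstab (adjoin k {u}) V, s y = y) {m : ℤ} (hm : HasOrd V y m) :
    (Nat.card (gstab (adjoin k {u}) V) : ℤ) ∣ m := by
  have hF : IsCurve k F := ⟨u, hu, inferInstance⟩
  obtain ⟨π, hπ, h1, h2⟩ := hm
  have hw0 : y / π ^ m ≠ 0 := div_ne_zero hy (zpow_ne_zero _ hπ.1)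
  obtain ⟨w, hw, hwV⟩ := unit_value hF hw0 h1 h2
  have hex : ∀ s : gstab (adjoin k {u}) V, ∃ c : k, c ≠ 0 ∧
      V.At ((s : F ≃ₐ[adjoin k {u}] F) π / π) c :=
    fun s => unif_ratio hF hπ (stab_unif s.2 hπ)
  choose c hc0 hc using hex
  have hc1 : c 1 = 1 := by
    have h3 := hc 1
    have h4 : (((1 : gstab (adjoin k {u}) V) : F ≃ₐ[adjoin k {u}] F)) π / π = 1 := by
      rw [OneMemClass.coe_one, AlgEquiv.one_apply, div_self hπ.1]
    rw [h4] at h3
    have h5 := Place.at_const (F := F) (v := V) (1 : k)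
    rw [map_one] at h5
    exact h3.unique h5
  have hcm : ∀ s t, c (s * t) = c s * c t := by
    intro s t
    have h3 := hc (s * t)
    have h4 := stab_at s.2 (hc t)
    have h5 := h4.mul (hc s)
    have h6 : ((s : F ≃ₐ[adjoin k {u}] F).restrictScalars k)
        ((t : F ≃ₐ[adjoin k {u}] F) π / π) * ((s : F ≃ₐ[adjoin k {u}] F) π / π) =
        ((s * t : gstab (adjoin k {u}) V) : F ≃ₐ[adjoin k {u}] F) π / π := by
      rw [Subgroup.coe_mul, AlgEquiv.mul_apply, map_div₀]
      change (s : F ≃ₐ[adjoin k {u}] F) ((t : F ≃ₐ[adjoin k {u}] F) π) /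
        (s : F ≃ₐ[adjoin k {u}] F) π * _ = _
      have h7 : (s : F ≃ₐ[adjoin k {u}] F) π ≠ 0 := (_root_.map_ne_zero _).2 hπ.1
      rw [div_mul_div_cancel₀ h7]
    rw [h6] at h5
    rw [h3.unique h5, mul_comm]
  let χ : gstab (adjoin k {u}) V →* k :=
    { toFun := c
      map_one' := hc1
      map_mul' := hcm }
  have hinj : Function.Injective χ := by
    rw [injective_iff_map_eq_one]
    intro s hs
    have h3 : V.At ((s : F ≃ₐ[adjoin k {u}] F) π / π) 1 := by
      have := hc s
      rwa [show c s = 1 from hs] at this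
    ext f
    exact tame hu hF (AlgHom.id k F) (s : F ≃ₐ[adjoin k {u}] F) (fun f => ⟨_, rfl⟩) V s.2
      (v := V) (by rfl) hπ h3 f
  have hcyc : IsCyclic (gstab (adjoin k {u}) V) := isCyclic_of_injective_ringHom χ hinj
  obtain ⟨g, hg⟩ := hcyc.exists_generator
  have h3 : orderOf g = Nat.card (gstab (adjoin k {u}) V) :=
    orderOf_eq_card_of_forall_mem_zpowers hg
  have h4 : orderOf (χ g) = orderOf g := orderOf_injective χ hinj g
  have hpow : ∀ s, c s ^ m = 1 := by
    intro s
    have h5 := at_zpow (hc s) (hc0 s) m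
    have h6 := (stab_at s.2 hwV).div hwV hw
    rw [div_self hw] at h6
    have h7 := h6.mul h5
    rw [one_mul] at h7
    have h8 : ((s : F ≃ₐ[adjoin k {u}] F).restrictScalars k) (y / π ^ m) / (y / π ^ m) *
        ((s : F ≃ₐ[adjoin k {u}] F) π / π) ^ m = 1 := by
      rw [map_div₀, map_zpow₀, div_zpow]
      change (s : F ≃ₐ[adjoin k {u}] F) y / (s : F ≃ₐ[adjoin k {u}] F) π ^ m / (y / π ^ m) *
        ((s : F ≃ₐ[adjoin k {u}] F) π ^ m / π ^ m) = 1
      rw [hfix s s.2]
      have h9 : (s : F ≃ₐ[adjoin k {u}] F) π ^ m ≠ 0 :=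
        zpow_ne_zero _ ((_root_.map_ne_zero _).2 hπ.1)
      have h10 : π ^ m ≠ 0 := zpow_ne_zero _ hπ.1
      field_simp
    rw [h8] at h7
    have h5 := Place.at_const (F := F) (v := V) (1 : k)
    rw [map_one] at h5
    exact h7.unique h5
  have h5 : orderOf (Units.mk0 (c g) (hc0 g)) = orderOf (χ g) := by
    rw [← orderOf_units]
    rfl
  rw [← h3, ← h4, ← h5, orderOf_dvd_iff_zpow_eq_one]
  ext
  rw [Units.val_zpow_eq_zpow_val, Units.val_mk0, Units.val_one]
  exact hpow g

omit [CharZero k] in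
/-- a polynomial whose roots have multiplicities divisible by `n` is an `n`-th power -/
theorem poly_pow {P : k[X]} {n : ℕ} (hn : 0 < n)
    (h : ∀ b, P.IsRoot b → n ∣ P.rootMultiplicity b) : ∃ R : k[X], P = R ^ n := by
  obtain ⟨t, ht⟩ := Multiset.exists_smul_of_dvd_count P.roots (k := n) (by
    intro b hb
    rw [count_roots]
    exact h b (isRoot_of_mem_roots hb))
  obtain ⟨c, hc⟩ := IsAlgClosed.exists_pow_nat_eq P.leadingCoeff hn
  refine ⟨C c * (t.map fun b => X - C b).prod, ?_⟩
  rw [mul_pow, ← C_pow, hc, ← Multiset.prod_nsmul, ← Multiset.map_nsmul, ← ht]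
  exact (IsAlgClosed.splits P).eq_prod_roots

end Tame

end Pool.Agent.FPZ
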