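import Pool.Agent.FPZ.AbCov2

/-!
# The stabilizers generate the group of an abelian covering of the projective line
-/

set_option autoImplicit false

noncomputable section

namespace Pool.Agent.FPZ

open Pool.Agent.ZCyc Pool.Agent.Dess Pool.Agent.Dess4 IntermediateField Polynomial
open scoped Classical

section Const

variable {k F : Type} [Field k] [Field F] [Algebra k F] [IsAlgClosed k]

/-- roots of unity are constants -/
theorem root_const {z : F} {n : ℕ} (hn : 0 < n) (hz : z ^ n = 1) :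
    ∃ c : k, algebraMap k F c = z := by
  have hi : IsIntegral k z := by
    refine ⟨X ^ n - C 1, monic_X_pow_sub_C _ hn.ne', ?_⟩
    rw [eval₂_sub, eval₂_X_pow, eval₂_C, map_one, hz, sub_self]
  exact minpoly.mem_range_of_degree_eq_one k z
    (IsAlgClosed.degree_eq_one_of_irreducible k (minpoly.irreducible hi))

end Const

variable {k F : Type} [Field k] [Field F] [Algebra k F] [IsAlgClosed k] [CharZero k]

omit [IsAlgClosed k] [CharZero k] in
/-- an eigenvector for a character of the Galois group -/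
theorem exists_eigen {E : IntermediateField k F} [FiniteDimensional E F]
    (χ : (F ≃ₐ[E] F) →* kˣ) :
    ∃ y : F, y ≠ 0 ∧ ∀ σ : F ≃ₐ[E] F, σ y = algebraMap k F (χ σ) * y := by
  have hli : LinearIndependent F
      (fun σ : F ≃ₐ[E] F => (AlgHom.toLinearMap (σ : F →ₐ[E] F) : F →ₗ[E] F)) :=
    (linearIndependent_toLinearMap E F F).comp (fun σ : F ≃ₐ[E] F => (σ : F →ₐ[E] F))
      fun σ τ h => AlgEquiv.ext fun x => DFunLike.congr_fun h x
  have hne : (∑ σ : F ≃ₐ[E] F, algebraMap k F ((χ σ⁻¹ : kˣ) : k) •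
      (AlgHom.toLinearMap (σ : F →ₐ[E] F) : F →ₗ[E] F)) ≠ 0 := by
    intro h
    have := Fintype.linearIndependent_iff.1 hli _ h 1
    rw [inv_one, map_one, Units.val_one, map_one] at this
    exact one_ne_zero this
  obtain ⟨z, hz⟩ : ∃ z, (∑ σ : F ≃ₐ[E] F, algebraMap k F ((χ σ⁻¹ : kˣ) : k) •
      (AlgHom.toLinearMap (σ : F →ₐ[E] F) : F →ₗ[E] F)) z ≠ 0 := by
    by_contra h
    push Not at h
    exact hne (LinearMap.ext h)
  refine ⟨_, hz, fun τ => ?_⟩
  rw [LinearMap.sum_apply, map_sum, Finset.mul_sum]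
  refine Fintype.sum_equiv (Equiv.mulLeft τ) _ _ fun σ => ?_
  rw [LinearMap.smul_apply, LinearMap.smul_apply, smul_eq_mul, smul_eq_mul, map_mul]
  change τ (algebraMap k F _) * τ (σ z) = _ * (_ * (τ * σ) z)
  have h1 : τ (algebraMap k F ((χ σ⁻¹ : kˣ) : k)) = algebraMap k F ((χ σ⁻¹ : kˣ) : k) := by
    rw [IsScalarTower.algebraMap_apply k E F]
    exact τ.commutes _
  have h2 : χ τ * χ (τ * σ)⁻¹ = χ σ⁻¹ := by
    rw [map_inv, map_mul, mul_inv, mul_inv_cancel_left, map_inv]
  rw [h1, ← mul_assoc, ← map_mul, ← Units.val_mul, Equiv.coe_mulLeft, h2]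
  rfl

variable {u : F} [FiniteDimensional (adjoin k {u}) F] [IsGalois (adjoin k {u}) F]

/-- **The stabilizers generate the group of an abelian covering of the projective line.** -/
theorem closure_stab (hu : Transcendental k u)
    (hc : ∀ a b : F ≃ₐ[adjoin k {u}] F, a * b = b * a) :
    (⨆ V : Place k F, gstab (adjoin k {u}) V) = ⊤ := by
  have hF : IsCurve k F := ⟨u, hu, inferInstance⟩
  let _ : CommGroup (F ≃ₐ[adjoin k {u}] F) :=
    { (inferInstance : Group (F ≃ₐ[adjoin k {u}] F)) with mul_comm := hc }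
  set H := ⨆ V : Place k F, gstab (adjoin k {u}) V with hH
  rw [eq_top_iff]
  intro σ₀ _
  have : NeZero (Monoid.exponent (F ≃ₐ[adjoin k {u}] F)) :=
    ⟨Monoid.exponent_ne_zero_of_finite⟩
  have : NeZero ((Monoid.exponent (F ≃ₐ[adjoin k {u}] F) : ℕ) : k) :=
    ⟨Nat.cast_ne_zero.2 Monoid.exponent_ne_zero_of_finite⟩
  rw [← CommGroup.forall_monoidHom_apply_eq_one_iff (M := k)]
  intro χ hχ
  obtain ⟨y, hy0, hy⟩ := exists_eigen χ
  set n := Fintype.card (F ≃ₐ[adjoin k {u}] F) with hn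
  have hn0 : 0 < n := Fintype.card_pos
  have h1 : y ^ n ∈ adjoin k {u} := by
    have h2 : y ^ n ∈ (⊥ : IntermediateField (adjoin k {u}) F) := by
      rw [IsGalois.mem_bot_iff_fixed]
      intro τ
      rw [map_pow, hy, mul_pow, ← map_pow, ← Units.val_pow_eq_pow_val, ← map_pow,
        pow_card_eq_one, map_one, Units.val_one, map_one, one_mul]
    obtain ⟨x, hx⟩ := mem_bot.1 h2
    rw [← hx]
    exact x.2
  obtain ⟨r, s, hrs⟩ := (mem_adjoin_simple_iff k _).1 h1
  have hyn : y ^ n ≠ 0 := pow_ne_zero _ hy0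
  have hr0 : aeval u r ≠ 0 := by
    intro h
    rw [hrs, h, zero_div] at hyn
    exact hyn rfl
  have hs0 : aeval u s ≠ 0 := by
    intro h
    rw [hrs, h, div_zero] at hyn
    exact hyn rfl
  set Y := y * aeval u s with hY
  have hY0 : Y ≠ 0 := mul_ne_zero hy0 hs0
  have hfixu : ∀ (τ : F ≃ₐ[adjoin k {u}] F) (p : k[X]), τ (aeval u p) = aeval u p := by
    intro τ p
    have : aeval u p ∈ adjoin k {u} := by
      rw [mem_adjoin_simple_iff]
      exact ⟨p, 1, by rw [map_one, div_one]⟩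
    exact τ.commutes ⟨_, this⟩
  have hYσ : ∀ τ : F ≃ₐ[adjoin k {u}] F, τ Y = algebraMap k F (χ τ) * Y := by
    intro τ
    rw [hY, map_mul, hy, hfixu, mul_assoc]
  set P := r * s ^ (n - 1) with hP
  have hYP : Y ^ n = aeval u P := by
    have h2 : aeval u s ^ n = aeval u s * aeval u s ^ (n - 1) := by
      rw [← pow_succ', Nat.sub_add_cancel hn0]
    rw [hY, mul_pow, hrs, hP, map_mul, map_pow, h2]
    field_simp
  have hP0 : P ≠ 0 := by
    intro h
    rw [h, map_zero] at hYP
    exact pow_ne_zero _ hY0 hYP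
  obtain ⟨R, hR⟩ := poly_pow hn0 (P := P) (by
    intro b _
    obtain ⟨V, hV⟩ := exists_place hu b
    have ht := transc_sub hu b
    obtain ⟨D, hD⟩ := exists_div hF (transc_ne ht)
    have h2 := orb_zeros ht (by rw [adjoin_sub]) (E := adjoin k {u}) (V := V) (by
      rw [Place.at_zero_iff]
      exact hV) hD V
    have h3 : 0 < D V := by
      rw [ord_pos_iff (transc_ne ht) (hD V)]
      exact (V.vanishes_iff_or _ |>.1 hV).resolve_left (transc_ne ht)
    rw [max_eq_left h3.le, orb_gstab] at h2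
    obtain ⟨o, ho⟩ := exists_hasOrd hF V hY0
    have h4 := stab_dvd hu (V := V) hY0 (fun τ hτ => by
      rw [hYσ, hχ τ (Subgroup.mem_iSup_of_mem V hτ), Units.val_one, map_one, one_mul]) ho
    obtain ⟨Q, hQ, hQb⟩ := exists_eq_pow_rootMultiplicity_mul_and_not_dvd P hP0 b
    have h5 : aeval u P = (u - algebraMap k F b) ^ (P.rootMultiplicity b) * aeval u Q := by
      conv_lhs => rw [hQ]
      rw [map_mul, map_pow, map_sub, aeval_X, aeval_C]
    have h6 : HasOrd V (aeval u Q) 0 := by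
      have h7 : V.At (aeval u Q) (eval b Q) := hV.aeval _
      have h8 : eval b Q ≠ 0 := fun h => hQb (dvd_iff_isRoot.2 h)
      exact ord_unit_of_mem hF h7.mem (h7.inv h8).mem
    have h7 := ord_mul (ord_pow (hD V) (P.rootMultiplicity b)) h6
    rw [← h5, ← hYP] at h7
    have h8 := hasOrd_unique hF (pow_ne_zero _ hY0) h7 (ord_pow ho n)
    obtain ⟨o', ho'⟩ := h4
    rw [h2] at ho'
    have h9 : D V * (P.rootMultiplicity b : ℤ) = D V * (n * o') := by
      rw [add_zero] at h8
      rw [h8, ho']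
      ring
    have h10 := mul_left_cancel₀ h3.ne' h9
    rw [← Int.natCast_dvd_natCast]
    exact ⟨o', h10⟩)
  have hRu : aeval u R ≠ 0 := by
    intro h
    rw [hR, map_pow, h, zero_pow hn0.ne'] at hYP
    exact pow_ne_zero _ hY0 hYP
  obtain ⟨c, hcc⟩ := root_const (k := k) (z := Y / aeval u R) hn0 (by
    rw [div_pow, hYP, hR, map_pow, div_self (pow_ne_zero _ hRu)])
  have hYc : Y = algebraMap k F c * aeval u R := by
    rw [hcc, div_mul_cancel₀ _ hRu]
  have h2 : σ₀ Y = Y := by
    rw [hYc, map_mul, hfixu, IsScalarTower.algebraMap_apply k (adjoin k {u}) F,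
      AlgEquiv.commutes]
  rw [hYσ] at h2
  have h3 : algebraMap k F (χ σ₀ : k) = 1 := mul_right_cancel₀ hY0 (by rw [h2, one_mul])
  ext
  rw [Units.val_one]
  apply (algebraMap k F).injective
  rw [h3, map_one]

end Pool.Agent.FPZ
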