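import Pool.Agent.FPZ.AbCov3

/-!
# The cycles of Faber and Pandharipande of abelian coverings of the projective line
-/

set_option autoImplicit false

noncomputable section

namespace Pool.Agent.FPZ

open Pool.Agent.ZCyc Pool.Agent.Dess Pool.Agent.Dess4 IntermediateField
open scoped Classical

variable {k F : Type} [Field k] [Field F] [Algebra k F]

/-- the graph of an automorphism -/
def gra (E : IntermediateField k F) (σ : F ≃ₐ[E] F) (a : Unit → Place k F) :
    Bool → Place k F :=
  pair (L := fun _ => F) (a ()) (gact E σ (a ()))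

theorem isMor_gra (E : IntermediateField k F) (σ : F ≃ₐ[E] F) :
    IsMor (L := fun _ : Unit => F) (L' := fun _ : Bool => F) (gra E σ) := by
  intro b
  cases b
  · exact Or.inr ⟨(), AlgHom.id k F, fun _ => rfl⟩
  · exact Or.inr ⟨(), ((σ.restrictScalars k).symm : F →ₐ[k] F), fun _ => rfl⟩

/-- the sum of the points `(g v, g σ v)` for all `g` in the group -/
def orb2 (E : IntermediateField k F) [Fintype (F ≃ₐ[E] F)] (σ : F ≃ₐ[E] F) (v : Place k F) :
    (Bool → Place k F) →₀ ℤ :=
  ∑ τ : F ≃ₐ[E] F, Finsupp.single (pair (L := fun _ => F) (gact E τ v) (gact E (τ * σ) v)) 1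

variable {E : IntermediateField k F} [Fintype (F ≃ₐ[E] F)]

theorem orb2_eq (hc : ∀ a b : F ≃ₐ[E] F, a * b = b * a) (σ : F ≃ₐ[E] F) (v : Place k F) :
    orb2 E σ v = (unq (orb E v)).mapDomain (gra E σ) := by
  unfold orb2 orb
  rw [map_sum]
  change _ = Finsupp.mapDomain.addMonoidHom (gra E σ) _
  rw [map_sum]
  refine Finset.sum_congr rfl fun τ _ => ?_
  rw [unq_single]
  change _ = Finsupp.mapDomain (gra E σ) _
  rw [Finsupp.mapDomain_single, gra, hc τ σ, gact_mul]

theorem orb2_stab {s : F ≃ₐ[E] F} {v : Place k F} (hs : gact E s v = v) (σ : F ≃ₐ[E] F) :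
    orb2 E (σ * s) v = orb2 E σ v := by
  unfold orb2
  refine Finset.sum_congr rfl fun τ _ => ?_
  rw [← mul_assoc, gact_mul (τ * σ), hs]

theorem exq_orb (v : Place k F) :
    exq (orb E v) (orb E v) = ∑ σ : F ≃ₐ[E] F, orb2 E σ v := by
  unfold orb2
  rw [Finset.sum_comm]
  unfold orb
  rw [map_sum exq, AddMonoidHom.finsetSum_apply]
  refine Finset.sum_congr rfl fun τ _ => ?_
  rw [map_sum]
  refine (Fintype.sum_equiv (Equiv.mulLeft τ) _ _ fun σ => ?_).symm
  rw [exq_single, mul_one]
  rfl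

theorem diq_orb (v : Place k F) : diq (orb E v) = orb2 E 1 v := by
  unfold orb2 orb
  rw [map_sum]
  refine Finset.sum_congr rfl fun τ _ => ?_
  rw [diq_single, mul_one]

theorem fp_orb (v : Place k F) :
    fp (orb E v) = ∑ σ : F ≃ₐ[E] F, (orb2 E σ v - orb2 E 1 v) := by
  rw [fp_eq, exq_orb, diq_orb, orb_deg, Finset.sum_sub_distrib, Finset.sum_const,
    Finset.card_univ, natCast_zsmul]

section Main

variable {k F : Type} [Field k] [Field F] [Algebra k F] [IsAlgClosed k] [CharZero k] {u : F}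
  [FiniteDimensional (adjoin k {u}) F] [IsGalois (adjoin k {u}) F]

/-- the class of `orb2 σ v` does not depend on the point -/
theorem orb2_equiv (hu : Transcendental k u)
    (hc : ∀ a b : F ≃ₐ[adjoin k {u}] F, a * b = b * a) (σ : F ≃ₐ[adjoin k {u}] F)
    (V W : Place k F) :
    orb2 (adjoin k {u}) σ V - orb2 (adjoin k {u}) σ W ∈ RatEq fun _ : Bool => F := by
  rw [orb2_eq hc, orb2_eq hc]
  have h1 := map_mem (gra (adjoin k {u}) σ) (isMor_gra _ σ) (orb_equiv hu rfl V W)
  have h2 : (unq (orb (adjoin k {u}) V - orb (adjoin k {u}) W)).mapDomain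
      (gra (adjoin k {u}) σ) = (unq (orb (adjoin k {u}) V)).mapDomain (gra (adjoin k {u}) σ) -
        (unq (orb (adjoin k {u}) W)).mapDomain (gra (adjoin k {u}) σ) := by
    rw [map_sub]
    exact map_sub (Finsupp.mapDomain.addMonoidHom (gra (adjoin k {u}) σ)) _ _
  rwa [h2] at h1

/-- **The cycle `Σ (g v, g σ v)` is rationally equivalent to `Σ (g v, g v)`** for all points `v`
of an abelian covering of the projective line and all elements `σ` of the group. -/
theorem orb2_one (hu : Transcendental k u)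
    (hc : ∀ a b : F ≃ₐ[adjoin k {u}] F, a * b = b * a) (σ : F ≃ₐ[adjoin k {u}] F)
    (V : Place k F) :
    orb2 (adjoin k {u}) σ V - orb2 (adjoin k {u}) 1 V ∈ RatEq fun _ : Bool => F := by
  let S : Subgroup (F ≃ₐ[adjoin k {u}] F) :=
    { carrier := {τ | ∀ ρ v, orb2 (adjoin k {u}) (ρ * τ) v - orb2 (adjoin k {u}) ρ v ∈
        RatEq fun _ : Bool => F}
      one_mem' := by
        intro ρ v
        rw [mul_one, sub_self]
        exact zero_mem _
      mul_mem' := by
        intro a b ha hb ρ v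
        have := add_mem (hb (ρ * a) v) (ha ρ v)
        rwa [sub_add_sub_cancel, mul_assoc] at this
      inv_mem' := by
        intro a ha ρ v
        have := neg_mem (ha (ρ * a⁻¹) v)
        rwa [inv_mul_cancel_right, neg_sub] at this }
  have hS : S = ⊤ := by
    rw [eq_top_iff, ← closure_stab hu hc]
    refine iSup_le fun V s hs ρ v => ?_
    have h1 := orb2_equiv hu hc (ρ * s) v V
    have h2 := orb2_equiv hu hc ρ V v
    rw [orb2_stab (show gact _ s V = V from hs)] at h1
    have := add_mem h1 h2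
    rwa [sub_add_sub_cancel] at this
  have h1 : σ ∈ S := by
    rw [hS]
    exact Subgroup.mem_top σ
  have := h1 1 V
  rwa [one_mul] at this

/-- the cycle of an orbit -/
theorem fp_orb_mem (hu : Transcendental k u)
    (hc : ∀ a b : F ≃ₐ[adjoin k {u}] F, a * b = b * a) (V : Place k F) :
    fp (orb (adjoin k {u}) V) ∈ RatEq fun _ : Bool => F := by
  rw [fp_orb]
  exact sum_mem fun σ _ => orb2_one hu hc σ V

omit [IsGalois (adjoin k {u}) F] in
/-- the divisor of `du` is invariant -/
theorem can_inv (hu : Transcendental k u) {K : Place k F →₀ ℤ} (hK : IsCan u K)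
    (σ : F ≃ₐ[adjoin k {u}] F) (v : Place k F) : K (gact (adjoin k {u}) σ v) = K v := by
  have hF : IsCurve k F := ⟨u, hu, inferInstance⟩
  obtain ⟨m, hm0, -, hm⟩ := can_aux hF hu v
  have hfix : ∀ a : k, σ.restrictScalars k (u - algebraMap k F a) = u - algebraMap k F a :=
    fun a => σ.commutes ⟨u - algebraMap k F a, sub_mem (mem_adjoin_simple_self k u)
      (IntermediateField.algebraMap_mem _ a)⟩
  obtain ⟨a, ha⟩ : ∃ a : k, HasOrd v (u - algebraMap k F a) m := by
    rcases hm with ⟨a, -, h, -⟩ | ⟨-, h, -⟩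
    · exact ⟨a, h⟩
    · exact ⟨0, h 0⟩
  rw [hK v a m hm0 ha, hK (gact (adjoin k {u}) σ v) a m hm0 (ord_map_fix _ (hfix a) ha)]

/-- a multiple of an invariant divisor is equivalent to a multiple of an orbit -/
theorem inv_equiv (hu : Transcendental k u) {K : Place k F →₀ ℤ}
    (hK : ∀ (σ : F ≃ₐ[adjoin k {u}] F) (v : Place k F), K (gact (adjoin k {u}) σ v) = K v)
    (V : Place k F) :
    unq ((Fintype.card (F ≃ₐ[adjoin k {u}] F) : ℤ) • K - dgq K • orb (adjoin k {u}) V) ∈
      RatEq (k := k) fun _ : Unit => F := by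
  have h1 : ∀ σ : F ≃ₐ[adjoin k {u}] F, K.mapDomain (gact (adjoin k {u}) σ) = K := by
    intro σ
    ext w
    have h2 : w = gact (adjoin k {u}) σ (gact (adjoin k {u}) σ⁻¹ w) := by
      rw [← gact_mul, mul_inv_cancel, gact_one]
    have h3 : Function.Injective (gact (adjoin k {u}) σ) := by
      intro a b hab
      have := congrArg (gact (adjoin k {u}) σ⁻¹) hab
      rwa [← gact_mul, ← gact_mul, inv_mul_cancel, gact_one, gact_one] at this
    conv_lhs => rw [h2]
    rw [Finsupp.mapDomain_apply h3, hK]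
  have h2 : (Fintype.card (F ≃ₐ[adjoin k {u}] F) : ℤ) • K =
      K.sum fun v n => n • orb (adjoin k {u}) v := by
    have h3 : (Fintype.card (F ≃ₐ[adjoin k {u}] F) : ℤ) • K =
        ∑ σ : F ≃ₐ[adjoin k {u}] F, K.mapDomain (gact (adjoin k {u}) σ) := by
      rw [Finset.sum_congr rfl fun σ _ => h1 σ, Finset.sum_const, Finset.card_univ,
        natCast_zsmul]
    rw [h3, Finsupp.sum]
    simp only [Finsupp.mapDomain, Finsupp.sum]
    rw [Finset.sum_comm]
    refine Finset.sum_congr rfl fun v _ => ?_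
    rw [orb, Finset.smul_sum]
    refine Finset.sum_congr rfl fun σ _ => ?_
    rw [Finsupp.smul_single, smul_eq_mul, mul_one]
  have h3 : dgq K • orb (adjoin k {u}) V = K.sum fun v n => n • orb (adjoin k {u}) V := by
    rw [dgq, Finsupp.liftAddHom_apply, Finsupp.sum, Finsupp.sum, Finset.sum_smul]
    rfl
  rw [h2, h3, Finsupp.sum, Finsupp.sum, ← Finset.sum_sub_distrib, map_sum]
  refine sum_mem fun v _ => ?_
  rw [← smul_sub, map_zsmul]
  exact zsmul_mem (orb_equiv hu rfl v V) _

/-- **The cycle of Faber and Pandharipande of an abelian covering of the projective line is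
torsion.** -/
theorem fp_abelian (hu : Transcendental k u)
    (hc : ∀ a b : F ≃ₐ[adjoin k {u}] F, a * b = b * a) {K : Place k F →₀ ℤ} (hK : IsCan u K) :
    RatTor (fun _ : Bool => F) (fp K) := by
  obtain ⟨V, -⟩ := exists_place hu 0
  have h1 := fp_equiv (inv_equiv hu (can_inv hu hK) V)
  have h2 := fp_orb_mem hu hc V
  set n := Fintype.card (F ≃ₐ[adjoin k {u}] F) with hn
  have hn0 : 0 < n := Fintype.card_pos
  obtain ⟨m, hm, h3⟩ := h1
  refine ⟨m * n ^ 2, Nat.mul_pos hm (pow_pos hn0 2), ?_⟩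
  have h4 : (m * n ^ 2) • fp K = m • ((n : ℤ) ^ 2 • fp K - dgq K ^ 2 • fp (orb (adjoin k {u}) V)) +
      m • dgq K ^ 2 • fp (orb (adjoin k {u}) V) := by
    rw [smul_sub, sub_add_cancel, mul_smul]
    congr 1
  rw [h4]
  exact add_mem h3 (nsmul_mem (zsmul_mem h2 _) _)

end Main

end Pool.Agent.FPZ
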