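import Pool.Agent.FPZ.Hyp2
import Pool.Agent.FPZ.Dcov
import Pool.Agent.FPZ.Double

/-!
# Derivations of the function field of a curve, and canonical divisors
-/

set_option autoImplicit false

noncomputable section

namespace Pool.Agent.FPZ

open Pool.Agent.ZCyc Pool.Agent.Dess Pool.Agent.Dess4 IntermediateField Polynomial
open scoped Classical

/-! ### the partial derivative of a polynomial in two variables -/

theorem der_poly {k : Type} [Field k] (P : k[X][X]) : ∃ Q : k[X][X], ∀ (B : Type) [CommRing B]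
    [Algebra k B] (δ : Derivation k B B) (b w : B),
    δ (P.eval₂ (aeval b : k[X] →ₐ[k] B).toRingHom w) =
      Q.eval₂ (aeval b : k[X] →ₐ[k] B).toRingHom w * δ b +
        P.derivative.eval₂ (aeval b : k[X] →ₐ[k] B).toRingHom w * δ w := by
  induction P using Polynomial.induction_on' with
  | add P₁ P₂ h₁ h₂ =>
    obtain ⟨Q₁, h₁⟩ := h₁
    obtain ⟨Q₂, h₂⟩ := h₂
    refine ⟨Q₁ + Q₂, fun B _ _ δ b w => ?_⟩
    rw [eval₂_add, map_add, h₁, h₂, eval₂_add, derivative_add, eval₂_add]
    ring
  | monomial n c =>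
    refine ⟨monomial n (derivative c), fun B _ _ δ b w => ?_⟩
    rw [eval₂_monomial, eval₂_monomial, derivative_monomial, eval₂_monomial, Derivation.leibniz,
      Derivation.leibniz_pow]
    change aeval b c • _ + w ^ n • δ (aeval b c) = aeval b (derivative c) * _ * _ +
      aeval b (c * (n : k[X])) * _ * _
    rw [Derivation.map_aeval, map_mul, map_natCast, smul_eq_mul, smul_eq_mul, smul_eq_mul,
      nsmul_eq_mul, smul_eq_mul]
    ring

section

variable {k F : Type} [Field k] [Field F] [Algebra k F]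

/-- `f` is divisible by `t ^ n` in the local ring -/
def Dv (v : Place k F) (t : F) (n : ℕ) (f : F) : Prop := ∃ r ∈ v.ring, f = t ^ n * r

variable {v : Place k F} {t : F} {n : ℕ}

theorem Dv.add {f g : F} (hf : Dv v t n f) (hg : Dv v t n g) : Dv v t n (f + g) := by
  obtain ⟨r, hr, rfl⟩ := hf
  obtain ⟨s, hs, rfl⟩ := hg
  exact ⟨r + s, add_mem hr hs, by ring⟩

theorem Dv.mul {f g : F} (hf : Dv v t n f) (hg : g ∈ v.ring) : Dv v t n (g * f) := by
  obtain ⟨r, hr, rfl⟩ := hf
  exact ⟨g * r, mul_mem hg hr, by ring⟩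

theorem Dv.neg {f : F} (hf : Dv v t n f) : Dv v t n (-f) := by
  obtain ⟨r, hr, rfl⟩ := hf
  exact ⟨-r, neg_mem hr, by ring⟩

theorem Dv.sub {f g : F} (hf : Dv v t n f) (hg : Dv v t n g) : Dv v t n (f - g) := by
  rw [sub_eq_add_neg]
  exact hf.add hg.neg

theorem dv_zero : Dv v t n 0 := ⟨0, zero_mem _, by ring⟩

theorem Dv.mem {f : F} (hf : Dv v t n f) (ht : t ∈ v.ring) : f ∈ v.ring := by
  obtain ⟨r, hr, rfl⟩ := hf
  exact mul_mem (pow_mem ht n) hr

theorem eval₂_mem (ht : t ∈ v.ring) {w : F} (hw : w ∈ v.ring) (P : k[X][X]) :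
    P.eval₂ (aeval t : k[X] →ₐ[k] F).toRingHom w ∈ v.ring := by
  have h1 : ∀ c : k[X], aeval t c ∈ v.ring := by
    intro c
    rw [aeval_eq_sum_range]
    refine sum_mem fun i _ => ?_
    rw [Algebra.smul_def]
    exact mul_mem (v.const_mem _) (pow_mem ht i)
  rw [eval₂_eq_sum_range]
  exact sum_mem fun i _ => mul_mem (h1 _) (pow_mem hw i)

theorem dv_eval₂ (ht : t ∈ v.ring) {w w' : F} (hw : w ∈ v.ring) (hw' : w' ∈ v.ring)
    (h : Dv v t n (w - w')) (P : k[X][X]) :
    Dv v t n (P.eval₂ (aeval t : k[X] →ₐ[k] F).toRingHom w -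
      P.eval₂ (aeval t : k[X] →ₐ[k] F).toRingHom w') := by
  have h1 : ∀ c : k[X], aeval t c ∈ v.ring := by
    intro c
    rw [aeval_eq_sum_range]
    refine sum_mem fun i _ => ?_
    rw [Algebra.smul_def]
    exact mul_mem (v.const_mem _) (pow_mem ht i)
  have h2 : ∀ j : ℕ, Dv v t n (w ^ j - w' ^ j) := by
    intro j
    induction j with
    | zero =>
      rw [pow_zero, pow_zero, sub_self]
      exact dv_zero
    | succ j ih =>
      have : w ^ (j + 1) - w' ^ (j + 1) = w * (w ^ j - w' ^ j) + w' ^ j * (w - w') := by ring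
      rw [this]
      exact (ih.mul hw).add (h.mul (pow_mem hw' j))
  rw [eval₂_eq_sum_range, eval₂_eq_sum_range, ← Finset.sum_sub_distrib]
  refine Finset.sum_induction _ (Dv v t n) (fun _ _ => Dv.add) dv_zero fun j _ => ?_
  rw [← mul_sub]
  exact (h2 j).mul (h1 _)

end

variable {k F : Type} [Field k] [Field F] [Algebra k F] [IsAlgClosed k] [CharZero k]

/-- Taylor polynomials -/
theorem taylor (hF : IsCurve k F) {v : Place k F} {t : F} (ht : IsUnif v t) {w : F}
    (hw : w ∈ v.ring) (n : ℕ) : ∃ q : k[X], Dv v t n (w - aeval t q) := by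
  induction n with
  | zero => exact ⟨0, w, hw, by rw [map_zero, sub_zero, pow_zero, one_mul]⟩
  | succ n ih =>
    obtain ⟨q, r, hr, hq⟩ := ih
    obtain ⟨c, hc⟩ := exists_at hF v hr
    refine ⟨q + C c * X ^ n, (r - algebraMap k F c) / t, ht.2.2 _ hc, ?_⟩
    rw [map_add, map_mul, map_pow, aeval_X, aeval_C, pow_succ, ← sub_sub, hq]
    have := ht.1
    field_simp

omit [IsAlgClosed k] [CharZero k] in
/-- divisibility of polynomials in the uniformizer -/
theorem dv_poly {v : Place k F} {t : F} (ht : IsUnif v t) {g : k[X]} {n : ℕ}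
    (h : Dv v t n (aeval t g)) : X ^ n ∣ g := by
  have htmem : t ∈ v.ring := by
    have h1 := ht.2.1
    have h2 : v.At t 0 := Place.at_zero_iff.2 h1
    exact h2.mem
  induction n with
  | zero => rw [pow_zero]; exact one_dvd g
  | succ n ih =>
    obtain ⟨r, hr, hg⟩ := h
    obtain ⟨h', rfl⟩ := ih ⟨t * r, mul_mem htmem hr, by rw [hg]; ring⟩
    rw [map_mul, map_pow, aeval_X, pow_succ, mul_assoc] at hg
    have h1 := mul_left_cancel₀ (pow_ne_zero n ht.1) hg
    have h2 : v.At t 0 := Place.at_zero_iff.2 ht.2.1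
    have h3 : v.At (aeval t h') (eval 0 h') := h2.aeval _
    have h4 : v.At (aeval t h') 0 := by
      rw [h1, Place.at_zero_iff]
      exact ht.2.1.mul v hr
    have h5 : eval 0 h' = 0 := h3.unique h4
    obtain ⟨s, hs⟩ := dvd_iff_isRoot.2 (show IsRoot h' 0 from h5)
    rw [C_0, sub_zero] at hs
    exact ⟨s, by rw [hs]; ring⟩


/-- a relation of minimal degree -/
theorem exists_rel (hF : IsCurve k F) {t : F} (ht : Transcendental k t) (w : F) :
    ∃ P : k[X][X], P.eval₂ (aeval t : k[X] →ₐ[k] F).toRingHom w = 0 ∧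
      P.derivative.eval₂ (aeval t : k[X] →ₐ[k] F).toRingHom w ≠ 0 := by
  have hfin := fin_adjoin hF ht
  have halg : IsAlgebraic (adjoin k {t}) w := Algebra.IsAlgebraic.isAlgebraic w
  rw [IntermediateField.isAlgebraic_adjoin_iff] at halg
  obtain ⟨p, hp0, hp⟩ := halg
  -- a polynomial with coefficients in `k[X]`
  have hsurj : Function.Surjective
      ((aeval (⟨t, Algebra.self_mem_adjoin_singleton k t⟩ : Algebra.adjoin k {t}) :
        k[X] →ₐ[k] Algebra.adjoin k {t}) : k[X] →+* Algebra.adjoin k {t}) := by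
    rintro ⟨x, hx⟩
    obtain ⟨q, hq⟩ : ∃ q : k[X], aeval t q = x := by
      rw [Algebra.adjoin_singleton_eq_range_aeval] at hx
      exact hx
    subst hq
    refine ⟨q, Subtype.ext ?_⟩
    exact (Polynomial.aeval_algHom_apply (Algebra.adjoin k {t}).val
      (⟨t, Algebra.self_mem_adjoin_singleton k t⟩ : Algebra.adjoin k {t}) q).symm
  obtain ⟨P₀, hP₀⟩ := Polynomial.map_surjective _ hsurj p
  have hP₀0 : P₀ ≠ 0 := by
    rintro rfl
    rw [Polynomial.map_zero] at hP₀
    exact hp0 hP₀.symm
  have hP₀w : P₀.eval₂ (aeval t : k[X] →ₐ[k] F).toRingHom w = 0 := by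
    rw [← hp, ← hP₀, aeval_def, eval₂_map]
    congr 1
    ext x
    · simp
    · simp
  -- minimal degree
  have hex : ∃ n : ℕ, ∃ P : k[X][X], P ≠ 0 ∧ P.natDegree = n ∧
      P.eval₂ (aeval t : k[X] →ₐ[k] F).toRingHom w = 0 := ⟨_, P₀, hP₀0, rfl, hP₀w⟩
  obtain ⟨P, hP0, hPn, hPw⟩ := Nat.find_spec hex
  refine ⟨P, hPw, fun h => ?_⟩
  have hdeg : P.natDegree ≠ 0 := by
    intro hd
    rw [eq_C_of_natDegree_eq_zero hd, eval₂_C] at hPw
    have h1 : P.coeff 0 = 0 := by
      by_contra h1
      exact ht ⟨P.coeff 0, h1, hPw⟩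
    apply hP0
    rw [eq_C_of_natDegree_eq_zero hd, h1, C_0]
  have hd0 : P.derivative ≠ 0 := by
    intro h1
    exact hdeg (derivative_eq_zero.1 h1)
  have hlt := natDegree_derivative_lt hdeg
  rw [hPn] at hlt
  exact Nat.find_min hex hlt ⟨P.derivative, hd0, rfl, h⟩

/-- a uniformizer is not constant -/
theorem unif_transc {v : Place k F} {t : F} (ht : IsUnif v t) :
    Transcendental k t := by
  have h1 : t⁻¹ ∉ v.ring := ((v.vanishes_iff_or t).1 ht.2.1).resolve_left ht.1
  have h2 := transc_of_notMem h1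
  intro h
  exact h2 h.inv

/-- a derivation is regular at a point if it is `1` on a uniformizer -/
theorem der_reg (hF : IsCurve k F) {v : Place k F} {t : F} (ht : IsUnif v t)
    (D : Derivation k F F) (hD : D t = 1) {w : F} (hw : w ∈ v.ring) : D w ∈ v.ring := by
  have htr := unif_transc ht
  have htmem : t ∈ v.ring := (Place.at_zero_iff.2 ht.2.1 : v.At t 0).mem
  obtain ⟨P, hP, hP'⟩ := exists_rel hF htr w
  obtain ⟨Q, hQ⟩ := der_poly P
  obtain ⟨e, he⟩ := exists_hasOrd hF v hP'
  have he0 : 0 ≤ e := ord_nonneg he hP' (eval₂_mem htmem hw _)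
  lift e to ℕ using he0
  obtain ⟨q, hq⟩ := taylor hF ht hw (e + 1)
  have hqmem : aeval t q ∈ v.ring := by
    have := sub_mem hw (hq.mem htmem)
    rwa [sub_sub_cancel] at this
  -- the polynomial `P(X, q(X))`
  set g : k[X] := P.eval₂ (aeval (X : k[X]) : k[X] →ₐ[k] k[X]).toRingHom q with hg
  have hgt : ∀ R : k[X][X], aeval t (R.eval₂ (aeval (X : k[X]) : k[X] →ₐ[k] k[X]).toRingHom q) =
      R.eval₂ (aeval t : k[X] →ₐ[k] F).toRingHom (aeval t q) := by
    intro R
    have := Polynomial.hom_eval₂ R (aeval (X : k[X]) : k[X] →ₐ[k] k[X]).toRingHom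
      (aeval t : k[X] →ₐ[k] F).toRingHom q
    refine Eq.trans this ?_
    congr 1
    ext x
    · simp
    · simp
  have h1 : Dv v t (e + 1) (aeval t g) := by
    have h2 := dv_eval₂ htmem hw hqmem hq P
    rw [hP, zero_sub, ← hgt] at h2
    have := h2.neg
    rwa [neg_neg] at this
  have h2 : X ^ (e + 1) ∣ g := dv_poly ht h1
  have h3 : X ^ e ∣ derivative g := by
    have := pow_sub_one_dvd_derivative_of_pow_dvd h2
    rwa [Nat.add_sub_cancel] at this
  have h4 := hQ k[X] Polynomial.derivative' X q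
  change derivative g = _ * derivative X + _ * derivative q at h4
  rw [derivative_X, mul_one] at h4
  have h5 : Dv v t e (aeval t (derivative g)) := by
    obtain ⟨s, hs⟩ := h3
    refine ⟨aeval t s, ?_, ?_⟩
    · have := eval₂_mem (v := v) htmem hqmem (C s)
      rwa [eval₂_C] at this
    · rw [hs, map_mul, map_pow, aeval_X]
  rw [h4, map_add, map_mul, hgt, hgt] at h5
  have hq' : Dv v t e (w - aeval t q) := by
    obtain ⟨r, hr, hr'⟩ := hq
    exact ⟨t * r, mul_mem htmem hr, by rw [hr']; ring⟩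
  have hdq : aeval t (derivative q) ∈ v.ring := by
    have := eval₂_mem (v := v) htmem hqmem (C (derivative q))
    rwa [eval₂_C] at this
  have h6 := dv_eval₂ htmem hw hqmem hq' Q
  have h7 := (dv_eval₂ htmem hw hqmem hq' P.derivative).mul hdq
  have h8 := hQ F D t w
  rw [hP, map_zero, hD, mul_one] at h8
  set A := Q.eval₂ (aeval t : k[X] →ₐ[k] F).toRingHom w with hA
  set B := P.derivative.eval₂ (aeval t : k[X] →ₐ[k] F).toRingHom w with hB
  have h9 : Dv v t e (B * (D w - aeval t (derivative q))) := by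
    have h10 := ((h5.add h6).add h7).neg
    convert h10 using 1
    rw [← sub_eq_zero]
    linear_combination (-1 : F) * h8
  obtain ⟨r, hr, hr'⟩ := h9
  obtain ⟨π, hπ, h11, h12⟩ := he
  -- `t ^ e / B` is regular
  have h13 : t ^ e / B ∈ v.ring := by
    have h14 : HasOrd v (t ^ e / B) 0 := by
      have := ord_mul (ord_pow (ord_unif ht) e) (ord_inv (⟨π, hπ, h11, h12⟩ : HasOrd v B e))
      rw [one_mul, add_neg_cancel] at this
      rwa [div_eq_mul_inv]
    obtain ⟨π', hπ', h15, -⟩ := h14
    rwa [zpow_zero, div_one] at h15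
  have h14 : D w = aeval t (derivative q) + t ^ e / B * r := by
    have h15 : B * (D w - aeval t (derivative q)) = B * (t ^ e / B * r) := by
      rw [hr']
      field_simp
    have := mul_left_cancel₀ hP' h15
    rw [← this]
    ring
  rw [h14]
  exact add_mem hdq (mul_mem h13 hr)

omit [IsAlgClosed k] [CharZero k] in
/-- there is a derivation different from zero -/
theorem exists_der (hF : IsCurve k F) : ∃ (D : Derivation k F F) (w : F), D w ≠ 0 := by
  by_contra h
  push Not at h
  obtain ⟨u, hu, hfin⟩ := hF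
  have h0 : ∀ f : Ω[F⁄k] →ₗ[F] F, f = 0 := by
    intro f
    apply (KaehlerDifferential.linearMapEquivDerivation k F).injective
    rw [map_zero]
    ext w
    exact h _ w
  have hsub : Subsingleton (Ω[F⁄k]) := by
    refine subsingleton_of_forall_eq 0 fun x => ?_
    rw [← Module.forall_dual_apply_eq_zero_iff F]
    intro f
    rw [h0 f, LinearMap.zero_apply]
  have : Algebra.FormallyUnramified k F := ⟨hsub⟩
  have : Algebra.EssFiniteType k (adjoin k {u}) := by
    rw [IntermediateField.essFiniteType_iff]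
    exact ⟨{u}, by simp⟩
  have : Algebra.EssFiniteType k F := Algebra.EssFiniteType.comp k (adjoin k {u}) F
  have h1 := (Algebra.FormallyUnramified.iff_isSeparable k F).1 inferInstance
  exact hu (h1.isAlgebraic.isAlgebraic u)

/-- a derivation different from zero is different from zero on all functions which are not
constant -/
theorem der_ne (hF : IsCurve k F) {D : Derivation k F F} {w : F} (hD : D w ≠ 0) {x : F}
    (hx : Transcendental k x) : D x ≠ 0 := by
  intro h
  have hfin := fin_adjoin hF hx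
  have hE : ∀ c ∈ adjoin k {x}, D c = 0 := by
    intro c hc
    obtain ⟨r, s, rfl⟩ := (mem_adjoin_simple_iff k c).1 hc
    rw [Derivation.leibniz_div, Derivation.map_aeval, Derivation.map_aeval, h]
    simp
  let D' : Derivation (adjoin k {x}) F F :=
    { toFun := D
      map_add' := map_add D
      map_smul' := by
        intro c f
        rw [Algebra.smul_def, Derivation.leibniz, RingHom.id_apply]
        have := hE c c.2
        change (c : F) • D f + f • D (c : F) = _
        rw [this, smul_zero, add_zero]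
        rfl
      map_one_eq_zero' := D.map_one_eq_zero
      leibniz' := D.leibniz }
  have h1 : IsIntegral (adjoin k {x}) w := Algebra.IsIntegral.isIntegral w
  have h2 : (aeval w) (minpoly (adjoin k {x}) w) = 0 := minpoly.aeval _ w
  have h3 := congrArg D' h2
  rw [Derivation.map_aeval, map_zero, smul_eq_mul] at h3
  have h4 : (minpoly (adjoin k {x}) w).Separable := (minpoly.irreducible h1).separable
  exact mul_ne_zero (h4.aeval_derivative_ne_zero h2) hD h3

/-- the order of the derivative with respect to a uniformizer -/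
theorem der_ord (hF : IsCurve k F) {v : Place k F} {t : F} (ht : IsUnif v t)
    (D : Derivation k F F) (hD : D t = 1) {x : F} (hx : Transcendental k x) (a : k) {m : ℤ}
    (hm0 : m ≠ 0) (hm : HasOrd v (x - algebraMap k F a) m) : HasOrd v (D x) (m - 1) := by
  obtain ⟨h1, h2⟩ := deg_ord ht hm
  have ht0 := ht.1
  have htm := zpow_ne_zero m ht0
  have hxa := transc_ne (transc_sub hx a)
  set w := (x - algebraMap k F a) / t ^ m with hw
  have hw0 : w ≠ 0 := div_ne_zero hxa htm
  have hxw : x - algebraMap k F a = t ^ m * w := by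
    rw [hw, mul_div_cancel₀ _ htm]
  have h3 : D x = t ^ (m - 1) * (algebraMap k F m * w + t * D w) := by
    have h4 : D x = D (x - algebraMap k F a) := by
      rw [map_sub, Derivation.map_algebraMap, sub_zero]
    rw [h4, hxw, Derivation.leibniz, Derivation.leibniz_zpow, hD, smul_eq_mul, smul_eq_mul,
      smul_eq_mul, mul_one, zsmul_eq_mul, zpow_sub_one₀ ht0, map_intCast]
    field_simp
    ring
  obtain ⟨c, hc⟩ := exists_at hF v h1
  have hc0 : c ≠ 0 := by
    rintro rfl
    rw [Place.at_zero_iff, Place.vanishes_iff_or] at hc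
    rcases hc with h | h
    · exact hw0 h
    · exact h h2
  obtain ⟨d, hd⟩ := exists_at hF v (der_reg hF ht D hD h1)
  have ht1 : v.At t 0 := Place.at_zero_iff.2 ht.2.1
  have h5 := ((Place.at_const (v := v) (F := F) (m : k)).mul hc).add (ht1.mul hd)
  rw [zero_mul, add_zero] at h5
  have h6 : (m : k) * c ≠ 0 := mul_ne_zero (Int.cast_ne_zero.2 hm0) hc0
  have h7 := ord_unit_of_mem hF h5.mem (h5.inv h6).mem
  have h8 : HasOrd v (t ^ (m - 1)) (m - 1) := by
    have h9 := zpow_ne_zero (m - 1) ht0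
    refine ⟨t, ht, ?_, ?_⟩
    · rw [div_self h9]
      exact one_mem _
    · rw [div_self h9, inv_one]
      exact one_mem _
  have h9 := ord_mul h8 h7
  rw [add_zero, ← h3] at h9
  exact h9

/-- **Canonical divisors are linearly equivalent.** -/
theorem can_equiv (hF : IsCurve k F) {K K' : Place k F →₀ ℤ} (hK : Canonical K)
    (hK' : Canonical K') : unq (K - K') ∈ RatEq (k := k) fun _ : Unit => F := by
  obtain ⟨x, hx, hK⟩ := hK
  obtain ⟨y, hy, hK'⟩ := hK'
  obtain ⟨D, w, hD⟩ := exists_der hF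
  have hDx := der_ne hF hD hx
  have hDy := der_ne hF hD hy
  refine unq_div_mem hF (g := D x * (D y)⁻¹) (mul_ne_zero hDx (inv_ne_zero hDy)) fun v => ?_
  obtain ⟨t, ht⟩ := exists_unif hF v
  have hDt := der_ne hF hD (unif_transc ht)
  have key : ∀ (z : F) (C : Place k F →₀ ℤ), Transcendental k z → IsCan z C →
      HasOrd v ((D t)⁻¹ * D z) (C v) := by
    intro z C hz hC
    obtain ⟨m, hm0, -, hm⟩ := can_aux hF hz v
    obtain ⟨a, ha⟩ : ∃ a : k, HasOrd v (z - algebraMap k F a) m := by
      rcases hm with ⟨a, -, h, -⟩ | ⟨-, h, -⟩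
      · exact ⟨a, h⟩
      · exact ⟨0, h 0⟩
    rw [hC v a m hm0 ha]
    refine der_ord hF ht ((D t)⁻¹ • D) ?_ hz a hm0 ha
    change (D t)⁻¹ * D t = 1
    exact inv_mul_cancel₀ hDt
  have h1 := ord_mul (key x K hx hK) (ord_inv (key y K' hy hK'))
  rw [Finsupp.sub_apply, sub_eq_add_neg]
  convert h1 using 1
  field_simp

end Pool.Agent.FPZ
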