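import Pool.Agent.FPZ.AbCov4
import Pool.Agent.FPZ.AbDer
import Mathlib.FieldTheory.Galois.Abelian

/-!
# The cycle of Faber and Pandharipande is torsion for abelian coverings of the projective line
-/

set_option autoImplicit false

noncomputable section

namespace Pool.Agent.FPZ

open Pool.Agent.ZCyc Pool.Agent.Dess Pool.Agent.Dess4 IntermediateField

variable {k F : Type} [Field k] [Field F] [Algebra k F] [IsAlgClosed k] [CharZero k]

/-- the cycles of two canonical divisors differ by torsion -/
theorem fp_canonical (hF : IsCurve k F) {K K' : Place k F →₀ ℤ} (hK : Canonical K)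
    (hK' : Canonical K') (h : RatTor (fun _ : Bool => F) (fp K)) :
    RatTor (fun _ : Bool => F) (fp K') := by
  have h1 := fp_congr (ratEq_le_torGroup (can_equiv hF hK' hK))
  have h2 := add_mem h1 (show fp K ∈ torGroup (k := k) fun _ : Bool => F from h)
  rwa [sub_add_cancel] at h2

/-- **The cycle of Faber and Pandharipande is torsion for all abelian coverings of the projective
line.** -/
theorem fpTor_abelian {u : F} (hu : Transcendental k u) [FiniteDimensional (adjoin k {u}) F]
    [IsAbelianGalois (adjoin k {u}) F] : FPTor k F := by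
  intro K hK
  have hF : IsCurve k F := ⟨u, hu, inferInstance⟩
  obtain ⟨K₀, hK₀⟩ := exists_can hF hu
  refine fp_canonical hF ⟨u, hu, hK₀⟩ hK (fp_abelian hu (fun a b => ?_) hK₀)
  exact mul_comm' a b

/-- **The sum of the squares of the differences of the points of an orbit and of its translate is
rationally equivalent to zero.** -/
theorem square_abelian {u : F} (hu : Transcendental k u) [FiniteDimensional (adjoin k {u}) F]
    [IsAbelianGalois (adjoin k {u}) F] (n : F ≃ₐ[adjoin k {u}] F) (x : Place k F) :
    ∑ g : F ≃ₐ[adjoin k {u}] F, square (x.map (g.restrictScalars k))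
      (x.map ((g * n).restrictScalars k)) ∈ RatEq fun _ : Bool => F := by
  have hc : ∀ a b : F ≃ₐ[adjoin k {u}] F, a * b = b * a := fun a b => mul_comm' a b
  have h1 := orb2_one hu hc n x
  have h2 := orb2_one hu hc n⁻¹ x
  have e1 : ∑ g : F ≃ₐ[adjoin k {u}] F, Finsupp.single
      (pair (L := fun _ => F) (gact (adjoin k {u}) (g * n) x) (gact (adjoin k {u}) g x)) (1 : ℤ) =
      orb2 (adjoin k {u}) n⁻¹ x := by
    unfold orb2
    refine Fintype.sum_equiv (Equiv.mulRight n) _ _ fun g => ?_
    rw [Equiv.coe_mulRight, mul_inv_cancel_right]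
  have e2 : ∑ g : F ≃ₐ[adjoin k {u}] F, Finsupp.single
      (pair (L := fun _ => F) (gact (adjoin k {u}) (g * n) x) (gact (adjoin k {u}) (g * n) x))
      (1 : ℤ) = orb2 (adjoin k {u}) 1 x := by
    unfold orb2
    refine Fintype.sum_equiv (Equiv.mulRight n) _ _ fun g => ?_
    rw [Equiv.coe_mulRight, mul_one]
  have e3 : ∑ g : F ≃ₐ[adjoin k {u}] F, Finsupp.single
      (pair (L := fun _ => F) (gact (adjoin k {u}) g x) (gact (adjoin k {u}) g x)) (1 : ℤ) =
      orb2 (adjoin k {u}) 1 x := by
    unfold orb2
    refine Finset.sum_congr rfl fun g _ => ?_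
    rw [mul_one]
  have h3 := neg_mem (add_mem h1 h2)
  convert h3 using 1
  change ∑ g : F ≃ₐ[adjoin k {u}] F, square (gact (adjoin k {u}) g x)
      (gact (adjoin k {u}) (g * n) x) = _
  unfold square sym
  rw [Finset.sum_add_distrib, Finset.sum_sub_distrib, Finset.sum_sub_distrib, e1, e2, e3]
  change _ - orb2 (adjoin k {u}) n x - _ + _ = _
  abel

end Pool.Agent.FPZ
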