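import Pool.Agent.FPZ.Quad

/-!
# The canonical divisor of an étale covering of a Fermat curve
-/

set_option autoImplicit false

noncomputable section

namespace Pool.Agent.FPZ

open Pool.Agent.ZCyc Pool.Agent.Dess Pool.Agent.Dess4
open scoped Classical

section Orders

variable {k F : Type} [Field k] [Field F] [Algebra k F]

theorem ord_unif {v : Place k F} {π : F} (h : IsUnif v π) : HasOrd v π 1 := by
  refine ⟨π, h, ?_, ?_⟩
  · rw [zpow_one, div_self h.1]
    exact v.ring.one_mem
  · rw [zpow_one, div_self h.1, inv_one]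
    exact v.ring.one_mem

theorem ord_pow {v : Place k F} {g : F} {m : ℤ} (h : HasOrd v g m) (n : ℕ) :
    HasOrd v (g ^ n) (m * n) := by
  obtain ⟨π, hπ, h1, h2⟩ := h
  have h3 : g ^ n / π ^ (m * n) = (g / π ^ m) ^ n := by
    rw [div_pow, zpow_mul, zpow_natCast]
  refine ⟨π, hπ, ?_, ?_⟩
  · rw [h3]
    exact pow_mem h1 n
  · rw [h3, ← inv_pow]
    exact pow_mem h2 n

theorem ord_inv {v : Place k F} {g : F} {m : ℤ} (h : HasOrd v g m) : HasOrd v g⁻¹ (-m) := by
  obtain ⟨π, hπ, h1, h2⟩ := h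
  have h3 : g⁻¹ / π ^ (-m) = (g / π ^ m)⁻¹ := by
    rw [zpow_neg, div_inv_eq_mul, inv_div, div_eq_mul_inv, mul_comm]
  refine ⟨π, hπ, ?_, ?_⟩
  · rw [h3]
    exact h2
  · rw [h3, inv_inv]
    exact h1

theorem ord_mul_unit {v : Place k F} {g u : F} {m : ℤ} (h : HasOrd v g m) (hu : u ∈ v.ring)
    (hu' : u⁻¹ ∈ v.ring) : HasOrd v (g * u) m := by
  obtain ⟨π, hπ, h1, h2⟩ := h
  refine ⟨π, hπ, ?_, ?_⟩
  · rw [mul_div_right_comm]
    exact mul_mem h1 hu
  · rw [mul_div_right_comm, mul_inv]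
    exact mul_mem h2 hu'

theorem ord_at [IsAlgClosed k] [CharZero k] (hF : IsCurve k F) {v : Place k F} {g : F} {c : k}
    (h : v.At g c) (hc : c ≠ 0) : HasOrd v g 0 := by
  obtain ⟨π, hπ⟩ := exists_unif hF v
  refine ⟨π, hπ, ?_, ?_⟩
  · rw [zpow_zero, div_one]
    exact h.mem
  · rw [zpow_zero, div_one]
    exact (h.inv hc).mem

end Orders

section Main

variable {k F : Type} [Field k] [IsAlgClosed k] [CharZero k] [Field F] [Algebra k F]

omit [IsAlgClosed k] [CharZero k] in
theorem mem_of_pow {v : Place k F} {y : F} {n : ℕ} (hn : 0 < n) (h : y ^ n ∈ v.ring) :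
    y ∈ v.ring := by
  by_contra hy
  have hy0 : y ≠ 0 := by
    rintro rfl
    exact hy v.ring.zero_mem
  have h1 : v.Vanishes y⁻¹ := (v.vanishes_iff_or _).2 (Or.inr (by rwa [inv_inv]))
  have h2 : v.Vanishes (y⁻¹ ^ n * y ^ n) := Place.Vanishes.mul v (Place.Vanishes.pow v h1 hn.ne') h
  rw [← mul_pow, inv_mul_cancel₀ hy0, one_pow] at h2
  exact v.const_unit (one_ne_zero : (1 : k) ≠ 0) (by rwa [map_one])

omit [IsAlgClosed k] [CharZero k] in
theorem at_one (v : Place k F) : v.At (1 : F) (1 : k) := by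
  have := v.at_const (1 : k)
  rwa [map_one] at this

theorem fermat_cases (hF : IsCurve k F) {x y : F} {n : ℕ} (hn : 0 < n) (hx0 : x ≠ 0)
    (hxy : x ^ n + y ^ n = 1) (v : Place k F) :
    (v.Vanishes x ∧ ∃ c : k, c ≠ 0 ∧ v.At y c) ∨ (v.Vanishes y ∧ ∃ c : k, c ≠ 0 ∧ v.At x c) ∨
      (v.Vanishes x⁻¹ ∧ ∃ c : k, c ≠ 0 ∧ v.At (y * x⁻¹) c) ∨
        ∃ a b : k, a ≠ 0 ∧ b ≠ 0 ∧ v.At x a ∧ v.At y b := by
  by_cases hx : x ∈ v.ring
  · have hy : y ∈ v.ring := by
      apply mem_of_pow hn
      have : y ^ n = 1 - x ^ n := by rw [← hxy]; ring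
      rw [this]
      exact sub_mem v.ring.one_mem (pow_mem hx n)
    obtain ⟨a, ha⟩ := exists_at hF v hx
    obtain ⟨b, hb⟩ := exists_at hF v hy
    have hab : a ^ n + b ^ n = 1 := by
      have h1 := (ha.pow n).add (hb.pow n)
      rw [hxy] at h1
      exact h1.unique (at_one (k := k) v)
    by_cases ha0 : a = 0
    · left
      subst ha0
      refine ⟨Place.at_zero_iff.1 ha, b, ?_, hb⟩
      rintro rfl
      rw [zero_pow hn.ne', add_zero] at hab
      exact zero_ne_one hab
    by_cases hb0 : b = 0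
    · right
      left
      subst hb0
      exact ⟨Place.at_zero_iff.1 hb, a, ha0, ha⟩
    · exact Or.inr (Or.inr (Or.inr ⟨a, b, ha0, hb0, ha, hb⟩))
  · right
    right
    left
    have h1 : v.Vanishes x⁻¹ := (v.vanishes_iff_or _).2 (Or.inr (by rwa [inv_inv]))
    have h2 : (y * x⁻¹) ^ n = x⁻¹ ^ n - 1 := by
      have h3 : y ^ n = 1 - x ^ n := by rw [← hxy]; ring
      rw [mul_pow, h3, sub_mul, one_mul, ← mul_pow, mul_inv_cancel₀ hx0, one_pow]
    have h3 : v.At ((y * x⁻¹) ^ n) (-1 : k) := by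
      rw [h2]
      have h4 := (Place.at_zero_iff.2 (Place.Vanishes.pow v h1 hn.ne')).sub (at_one (k := k) v)
      rwa [zero_sub] at h4
    have h4 : y * x⁻¹ ∈ v.ring := mem_of_pow hn h3.mem
    obtain ⟨c, hc⟩ := exists_at hF v h4
    refine ⟨h1, c, ?_, hc⟩
    rintro rfl
    have h5 := (hc.pow n).unique h3
    rw [zero_pow hn.ne'] at h5
    exact (neg_ne_zero.2 one_ne_zero) h5.symm

/-- the sum of the points of a finite set -/
def dv (S : Finset (Place k F)) : Place k F →₀ ℤ := ∑ v ∈ S, Finsupp.single v 1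

omit [IsAlgClosed k] [CharZero k] in
theorem dv_apply (S : Finset (Place k F)) (v : Place k F) :
    dv S v = if v ∈ S then 1 else 0 := by
  rw [dv, Finsupp.finsetSum_apply]
  simp only [Finsupp.single_apply]
  rw [Finset.sum_ite_eq' S v (fun _ => (1 : ℤ))]

omit [IsAlgClosed k] [CharZero k] in
theorem dv_principal (hF : IsCurve k F) {f : F} (hf : f ≠ 0) {S T : Finset (Place k F)}
    (hST : Disjoint S T) (hS : ∀ v ∈ S, HasOrd v f 1) (hT : ∀ v ∈ T, HasOrd v f (-1))
    (h0 : ∀ v, v ∉ S → v ∉ T → HasOrd v f 0) :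
    unq (dv S - dv T) ∈ RatEq (k := k) fun _ : Unit => F := by
  have h1 := div_mem hF hf (S := S ∪ T) (n := fun v => if v ∈ S then 1 else -1)
    (by
      intro v hv
      by_cases h : v ∈ S
      · simp only [h, if_true]
        exact hS v h
      · simp only [h, if_false]
        rcases Finset.mem_union.1 hv with h' | h'
        · exact absurd h' h
        · exact hT v h')
    (by
      intro v hv
      rw [Finset.mem_union, not_or] at hv
      exact h0 v hv.1 hv.2)
  have h2 : unq (dv S - dv T) = ∑ v ∈ S ∪ T, (if v ∈ S then (1 : ℤ) else -1) •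
      Finsupp.single (fun _ : Unit => v) (1 : ℤ) := by
    rw [Finset.sum_union hST, map_sub, dv, dv, map_sum, map_sum, sub_eq_add_neg,
      ← Finset.sum_neg_distrib]
    congr 1
    · apply Finset.sum_congr rfl
      intro v hv
      rw [if_pos hv, one_smul, unq_single]
    · apply Finset.sum_congr rfl
      intro v hv
      rw [if_neg (Finset.disjoint_right.1 hST hv), neg_smul, one_smul, unq_single]
  rw [h2]
  exact h1

omit [IsAlgClosed k] [CharZero k] in
theorem transc_of_pow {x t : F} {n : ℕ} (ht : Transcendental k t) (h : x ^ n = t) :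
    Transcendental k x := by
  intro hx
  apply ht
  rw [← h]
  exact hx.pow n

omit [IsAlgClosed k] [CharZero k] in
theorem not_both {v : Place k F} {f : F} (h : v.Vanishes f) {c : k} (hc : c ≠ 0)
    (h' : v.At f c) : False := hc (h'.unique (Place.at_zero_iff.2 h))

/-- the canonical divisor of an étale covering of a Fermat curve -/
theorem over_fermat (hF : IsCurve k F) {x y : F} {n : ℕ} (hn : 0 < n)
    (ht : Transcendental k (x ^ n)) (hU : Unram (k := k) (x ^ n)) (h : OverFermat k n x y) :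
    ∃ Z K : Place k F →₀ ℤ, (∀ v : Place k F, Z v = if v.Vanishes (x ^ n) then 1 else 0) ∧
      (∀ v : Place k F, v.Vanishes (x ^ n) → HasOrd v (x ^ n) n) ∧ IsCan (x ^ n) K ∧
      unq (K - ((n : ℤ) - 3) • Z) ∈ RatEq (k := k) fun _ : Unit => F := by
  obtain ⟨hxy, hux, huy, hui⟩ := h
  have hx : Transcendental k x := transc_of_pow ht rfl
  have hy' : Transcendental k (y ^ n) := by
    have h1 : y ^ n = 1 - x ^ n := by rw [← hxy]; ring
    rw [h1]
    intro h2
    apply ht
    have h3 := (isAlgebraic_one (R := k) (A := F)).sub h2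
    rwa [sub_sub_cancel] at h3
  have hy : Transcendental k y := transc_of_pow hy' rfl
  have hx0 : x ≠ 0 := by
    rintro rfl
    exact hx isAlgebraic_zero
  have hy0 : y ≠ 0 := by
    rintro rfl
    exact hy isAlgebraic_zero
  have hcase := fermat_cases hF hn hx0 hxy
  set S := (finite_at hF hx 0).toFinset with hS
  set T := (finite_at hF hy 0).toFinset with hT
  set U := (finite_pole hF hx).toFinset with hUd
  have mS : ∀ v : Place k F, v ∈ S ↔ v.Vanishes x := by
    intro v
    rw [hS, Set.Finite.mem_toFinset]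
    exact Place.at_zero_iff
  have mT : ∀ v : Place k F, v ∈ T ↔ v.Vanishes y := by
    intro v
    rw [hT, Set.Finite.mem_toFinset]
    exact Place.at_zero_iff
  have mU : ∀ v : Place k F, v ∈ U ↔ v.Vanishes x⁻¹ := by
    intro v
    rw [hUd, Set.Finite.mem_toFinset, Place.vanishes_iff_or, inv_inv]
    constructor
    · exact fun h => Or.inr h
    · rintro (h | h)
      · exact absurd (inv_eq_zero.1 h) hx0
      · exact h
  have hxv : ∀ v : Place k F, v.Vanishes (x ^ n) ↔ v.Vanishes x := fun v =>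
    ⟨fun h => Place.vanishes_of_pow v h, fun h => Place.Vanishes.pow v h hn.ne'⟩
  -- the orders of `x`
  have x0 : ∀ v ∈ S, HasOrd v x 1 := fun v hv => ord_unif (hux v ((mS v).1 hv))
  have xi : ∀ v ∈ U, HasOrd v x (-1) := by
    intro v hv
    have h1 := ord_inv (ord_unif (hui v ((mU v).1 hv)))
    rwa [inv_inv] at h1
  have xn : ∀ v, v ∉ S → v ∉ U → HasOrd v x 0 := by
    intro v h1 h2
    rcases hcase v with ⟨h3, -⟩ | ⟨-, c, hc, h3⟩ | ⟨h3, -⟩ | ⟨a, b, ha, -, h3, -⟩
    · exact absurd ((mS v).2 h3) h1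
    · exact ord_at hF h3 hc
    · exact absurd ((mU v).2 h3) h2
    · exact ord_at hF h3 ha
  -- the orders of `y`
  have y0 : ∀ v ∈ T, HasOrd v y 1 := fun v hv => ord_unif (huy v ((mT v).1 hv))
  have yi : ∀ v ∈ U, HasOrd v y (-1) := by
    intro v hv
    rcases hcase v with ⟨h3, -⟩ | ⟨-, c, hc, h3⟩ | ⟨h3, c, hc, h4⟩ | ⟨a, b, ha, -, h3, -⟩
    · exfalso
      have h5 := Place.Vanishes.mul v h3 ((mU v).1 hv).mem
      rw [mul_inv_cancel₀ hx0] at h5
      exact v.const_unit (one_ne_zero : (1 : k) ≠ 0) (by rwa [map_one])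
    · exfalso
      have h5 := Place.Vanishes.mul' v ((mU v).1 hv) h3.mem
      rw [mul_inv_cancel₀ hx0] at h5
      exact v.const_unit (one_ne_zero : (1 : k) ≠ 0) (by rwa [map_one])
    · have h5 := ord_mul_unit (xi v hv) h4.mem (h4.inv hc).mem
      have h6 : x * (y * x⁻¹) = y := by
        field_simp
      rwa [h6] at h5
    · exfalso
      have h5 := Place.Vanishes.mul' v ((mU v).1 hv) h3.mem
      rw [mul_inv_cancel₀ hx0] at h5
      exact v.const_unit (one_ne_zero : (1 : k) ≠ 0) (by rwa [map_one])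
  have yn : ∀ v, v ∉ T → v ∉ U → HasOrd v y 0 := by
    intro v h1 h2
    rcases hcase v with ⟨-, c, hc, h3⟩ | ⟨h3, -⟩ | ⟨h3, -⟩ | ⟨a, b, -, hb, -, h3⟩
    · exact ord_at hF h3 hc
    · exact absurd ((mT v).2 h3) h1
    · exact absurd ((mU v).2 h3) h2
    · exact ord_at hF h3 hb
  -- the three sets are disjoint
  have dSU : Disjoint S U := by
    rw [Finset.disjoint_left]
    intro v h1 h2
    have h5 := Place.Vanishes.mul v ((mS v).1 h1) ((mU v).1 h2).mem
    rw [mul_inv_cancel₀ hx0] at h5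
    exact v.const_unit (one_ne_zero : (1 : k) ≠ 0) (by rwa [map_one])
  have dTU : Disjoint T U := by
    rw [Finset.disjoint_left]
    intro v h1 h2
    have h3 := hasOrd_unique hF hy0 (y0 v h1) (yi v h2)
    norm_num at h3
  have dST : Disjoint S T := by
    rw [Finset.disjoint_left]
    intro v h1 h2
    have h3 := (Place.Vanishes.pow v ((mS v).1 h1) hn.ne').add v
      (Place.Vanishes.pow v ((mT v).1 h2) hn.ne')
    rw [hxy] at h3
    exact v.const_unit (one_ne_zero : (1 : k) ≠ 0) (by rwa [map_one])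
  have p1 := dv_principal hF hx0 dSU x0 xi xn
  have p2 := dv_principal hF hy0 dTU y0 yi yn
  refine ⟨dv S, ((n : ℤ) - 1) • dv S + ((n : ℤ) - 1) • dv T - ((n : ℤ) + 1) • dv U, ?_, ?_, ?_, ?_⟩
  · intro v
    rw [dv_apply]
    simp only [mS, hxv]
  · intro v hv
    have h1 := ord_pow (x0 v ((mS v).2 ((hxv v).1 hv))) n
    rwa [one_mul] at h1
  · intro v a m hm hord
    have hval : (((n : ℤ) - 1) • dv S + ((n : ℤ) - 1) • dv T - ((n : ℤ) + 1) • dv U) v =
        ((n : ℤ) - 1) * (if v ∈ S then 1 else 0) + ((n : ℤ) - 1) * (if v ∈ T then 1 else 0) -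
          ((n : ℤ) + 1) * (if v ∈ U then 1 else 0) := by
      rw [Finsupp.sub_apply, Finsupp.add_apply, Finsupp.smul_apply, Finsupp.smul_apply,
        Finsupp.smul_apply, dv_apply, dv_apply, dv_apply]
      simp only [smul_eq_mul]
    rw [hval]
    have hta : x ^ n - algebraMap k F a ≠ 0 := by
      intro h0
      apply ht
      rw [sub_eq_zero.1 h0]
      exact isAlgebraic_algebraMap a
    -- the value of `x ^ n` determines `a`
    have hne : ∀ c : k, v.At (x ^ n) c → a = c := by
      intro c hc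
      by_contra hac
      have h1 : v.At (x ^ n - algebraMap k F a) (c - a) := hc.sub (v.at_const a)
      exact hm (hasOrd_unique hF hta hord (ord_at hF h1 (sub_ne_zero.2 (Ne.symm hac))))
    by_cases hvS : v ∈ S
    · have hvT : v ∉ T := Finset.disjoint_left.1 dST hvS
      have hvU : v ∉ U := Finset.disjoint_left.1 dSU hvS
      rw [if_pos hvS, if_neg hvT, if_neg hvU]
      have h1 : v.At (x ^ n) 0 := Place.at_zero_iff.2 ((hxv v).2 ((mS v).1 hvS))
      have h2 := hne 0 h1
      subst h2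
      rw [map_zero, sub_zero] at hord hta
      have h3 := ord_pow (x0 v hvS) n
      rw [hasOrd_unique hF hta hord h3]
      ring
    by_cases hvT : v ∈ T
    · have hvU : v ∉ U := Finset.disjoint_left.1 dTU hvT
      rw [if_neg hvS, if_pos hvT, if_neg hvU]
      have h0 : v.At (y ^ n) 0 := Place.at_zero_iff.2 (Place.Vanishes.pow v ((mT v).1 hvT) hn.ne')
      have h1 : v.At (x ^ n) 1 := by
        have h2 := (at_one (k := k) v).sub h0
        rw [sub_zero, ← hxy, add_sub_cancel_right] at h2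
        exact h2
      have h2 := hne 1 h1
      subst h2
      have h3 := ord_pow (y0 v hvT) n
      have h4 : x ^ n - algebraMap k F 1 = y ^ n * (-1) := by
        rw [map_one]
        linear_combination hxy
      have h5 := ord_mul_unit h3 (u := -1) (neg_mem v.ring.one_mem)
        (by rw [inv_neg, inv_one]; exact neg_mem v.ring.one_mem)
      rw [← h4] at h5
      rw [hasOrd_unique hF hta hord h5]
      ring
    by_cases hvU : v ∈ U
    · rw [if_neg hvS, if_neg hvT, if_pos hvU]
      have h1 := ord_pow (xi v hvU) n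
      -- `x ^ n - a = x ^ n * (1 - a x⁻¹ ^ n)`
      have h2 : v.At (1 - algebraMap k F a * x⁻¹ ^ n) (1 : k) := by
        have h3 : v.At (x⁻¹ ^ n) (0 : k) :=
          Place.at_zero_iff.2 (Place.Vanishes.pow v ((mU v).1 hvU) hn.ne')
        have h4 := (at_one (k := k) v).sub ((v.at_const a).mul h3)
        rwa [mul_zero, sub_zero] at h4
      have h3 := ord_mul_unit h1 h2.mem (h2.inv one_ne_zero).mem
      have h4 : x ^ n * (1 - algebraMap k F a * x⁻¹ ^ n) = x ^ n - algebraMap k F a := by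
        rw [mul_sub, mul_one, mul_left_comm, ← mul_pow, mul_inv_cancel₀ hx0, one_pow, mul_one]
      rw [h4] at h3
      rw [hasOrd_unique hF hta hord h3]
      ring
    · rw [if_neg hvS, if_neg hvT, if_neg hvU]
      rcases hcase v with ⟨h3, -⟩ | ⟨h3, -⟩ | ⟨h3, -⟩ | ⟨c, d, hc, hd, h3, h4⟩
      · exact absurd ((mS v).2 h3) hvS
      · exact absurd ((mT v).2 h3) hvT
      · exact absurd ((mU v).2 h3) hvU
      · have h5 : v.At (x ^ n) (c ^ n) := h3.pow n
        have h6 := hne _ h5
        subst h6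
        have h7 : c ^ n ≠ 1 := by
          intro h8
          have h9 := (h3.pow n).add (h4.pow n)
          rw [hxy, h8] at h9
          have h10 := h9.unique (at_one (k := k) v)
          exact pow_ne_zero n hd (by simpa using h10)
        have h8 := ord_unif (hU v _ h5 (pow_ne_zero n hc) h7)
        rw [hasOrd_unique hF hta hord h8]
        ring
  · have h1 : ((n : ℤ) - 1) • dv S + ((n : ℤ) - 1) • dv T - ((n : ℤ) + 1) • dv U -
        ((n : ℤ) - 3) • dv S = (2 : ℤ) • (dv S - dv U) + ((n : ℤ) - 1) • (dv T - dv U) := by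
      module
    rw [h1, map_add, map_zsmul, map_zsmul]
    exact add_mem (zsmul_mem p1 _) (zsmul_mem p2 _)

end Main

/-- the canonical divisor of a Galois étale covering of a Fermat curve is, up to rational
equivalence, a multiple of the sum of the zeros of `t` -/
theorem fermat_can {Ω : Type} [Field Ω] [Algebra QQ Ω] {t : Ω} {F : IntermediateField QQ Ω}
    (hF : Fermat t F) :
    ∃ (n : ℕ) (Z K : Place QQ F →₀ ℤ), 0 < n ∧ Canonical K ∧
      (∀ v : Place QQ F, Z v = if v.Vanishes (⟨t, hF.belyi.mem⟩ : F) then 1 else 0) ∧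
      (∀ v : Place QQ F, v.Vanishes (⟨t, hF.belyi.mem⟩ : F) →
        HasOrd v (⟨t, hF.belyi.mem⟩ : F) n) ∧
      unq ((n : ℤ) • K - ((n : ℤ) * (n - 3)) • Z) ∈ RatEq (k := QQ) fun _ : Unit => F := by
  obtain ⟨n, x, y, hn, hxt, hof⟩ := hF.fermat
  have hx : x ^ n = (⟨t, hF.belyi.mem⟩ : F) := Subtype.ext hxt
  have hC := hF.belyi.curve
  have hU := hF.belyi.unram
  obtain ⟨v₀⟩ : Nonempty (Place QQ F) := by
    obtain ⟨s, hs, -⟩ := id hC
    obtain ⟨v, -⟩ := exists_place hs 0
    exact ⟨v⟩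
  have ht : Transcendental QQ (x ^ n) := by
    intro halg
    have hc : ∃ c : QQ, algebraMap QQ F c = x ^ n := by
      have h1 := IsAlgClosed.degree_eq_one_of_irreducible QQ (minpoly.irreducible halg.isIntegral)
      obtain ⟨c, hc⟩ := minpoly.mem_range_of_degree_eq_one QQ (x ^ n) h1
      exact ⟨c, hc⟩
    obtain ⟨c, hc⟩ := hc
    have hat : v₀.At (x ^ n) c := by
      rw [← hc]
      exact v₀.at_const c
    by_cases hc0 : c = 0
    · rw [hc0, map_zero] at hc
      have hx0 : x = 0 := pow_eq_zero_iff hn.ne' |>.1 hc.symm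
      have h1 := hof.2.1 v₀ (by rw [hx0]; exact v₀.vanishes_zero)
      exact h1.1 hx0
    by_cases hc1 : c = 1
    · rw [hc1, map_one] at hc
      have hy0 : y = 0 := by
        have h1 := hof.1
        rw [← hc, add_eq_left] at h1
        exact pow_eq_zero_iff hn.ne' |>.1 h1
      have h1 := hof.2.2.1 v₀ (by rw [hy0]; exact v₀.vanishes_zero)
      exact h1.1 hy0
    · rw [hx] at hat hc
      have h1 := hU v₀ c hat hc0 hc1
      rw [hc, sub_self] at h1
      exact h1.1 rfl
  rw [← hx] at hU ⊢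
  obtain ⟨Z, K, h1, h2, h3, h4⟩ := over_fermat hC hn ht hU hof
  refine ⟨n, Z, K, hn, ⟨x ^ n, ht, h3⟩, h1, h2, ?_⟩
  have h5 : (n : ℤ) • K - ((n : ℤ) * (n - 3)) • Z = (n : ℤ) • (K - ((n : ℤ) - 3) • Z) := by
    module
  rw [h5, map_zsmul]
  exact zsmul_mem h4 _

end Pool.Agent.FPZ
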