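import Pool.Agent.FPZ.Hyp5

/-!
# Morphisms from hyperelliptic curves, and elliptic curves in Legendre form
-/

set_option autoImplicit false

noncomputable section

namespace Pool.Agent.FPZ

open Pool.Agent.ZCyc Pool.Agent.Dess Pool.Agent.Dess4 Polynomial IntermediateField Module
open scoped Classical

/-- the extension of an embedding of the field of rational functions -/
theorem embed_closed {k Ω : Type} [Field k] [Field Ω] [Algebra k Ω] [IsAlgClosed Ω] {tt : Ω}
    (htt : Transcendental k tt) {F : Type} [Field F] [Algebra k F] {t : F}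
    (ht : Transcendental k t) (hfin : FiniteDimensional (adjoin k {t}) F) :
    ∃ ψ : F →ₐ[k] Ω, ψ t = tt := by
  let e := RatFunc.algEquivOfTranscendental t ht
  let e' := RatFunc.algEquivOfTranscendental tt htt
  let j : adjoin k {t} →+* Ω := (algebraMap (adjoin k {tt}) Ω).comp
    ((e.symm.trans e' : adjoin k {t} ≃ₐ[k] adjoin k {tt}) : adjoin k {t} →+* adjoin k {tt})
  let _ : Algebra (adjoin k {t}) Ω := j.toAlgebra
  let ψ : F →ₐ[adjoin k {t}] Ω := IsAlgClosed.lift
  have hψ : ∀ x : adjoin k {t}, ψ (x : F) = (e' (e.symm x) : Ω) := fun x => ψ.commutes x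
  refine ⟨{ (ψ : F →+* Ω) with commutes' := ?_ }, ?_⟩
  · intro c
    have h1 := hψ (algebraMap k (adjoin k {t}) c)
    rw [AlgEquiv.commutes, AlgEquiv.commutes] at h1
    exact h1
  · have h1 := hψ (AdjoinSimple.gen k t)
    rw [RatFunc.algEquivOfTranscendental_symm_gen] at h1
    have h2 : ((e' RatFunc.X : adjoin k {tt}) : Ω) = tt :=
      RatFunc.algEquivOfTranscendental_X tt htt
    rw [h2] at h1
    exact h1

variable {k F : Type} [Field k] [Field F] [Algebra k F]

namespace HypField

variable {f : k[X]} {x y : F}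

/-- the universal property of the function field of a hyperelliptic curve -/
theorem lift [IsAlgClosed k] [CharZero k] (h : HypField f x y) (hodd : Odd f.natDegree) {M : Type}
    [Field M] [Algebra k M] {x' y' : M} (hx' : Transcendental k x') (heq : y' ^ 2 = aeval x' f) :
    ∃ ψ : F →ₐ[k] M, ψ x = x' ∧ ψ y = y' := by
  let Ω := AlgebraicClosure M
  let j : M →ₐ[k] Ω := IsScalarTower.toAlgHom k M Ω
  have hj : Function.Injective j := j.injective
  have hjx : Transcendental k (j x') := by
    intro h1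
    exact hx' ((isAlgebraic_algHom_iff j j.injective).mp h1)
  obtain ⟨ψ, hψ⟩ := embed_closed hjx h.transc (fin_adjoin h.curve h.transc)
  obtain ⟨ψ', hψ'x, hψ'y⟩ : ∃ ψ' : F →ₐ[k] Ω, ψ' x = j x' ∧ ψ' y = j y' := by
    have h1 : (ψ y) ^ 2 = (j y') ^ 2 := by
      rw [← map_pow, h.eq, ← map_pow, heq, ← aeval_algHom_apply, ← aeval_algHom_apply, hψ]
    rcases sq_eq_sq_iff_eq_or_eq_neg.1 h1 with h2 | h2
    · exact ⟨ψ, hψ, h2⟩
    · obtain ⟨σ, hσx, hσy⟩ := h.invol hodd
      refine ⟨ψ.comp σ, ?_, ?_⟩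
      · change ψ (σ x) = _
        rw [hσx, hψ]
      · change ψ (σ y) = _
        rw [hσy, map_neg, h2, neg_neg]
  have hr : ∀ z : F, ψ' z ∈ j.range := by
    intro z
    have h1 : (⊤ : IntermediateField k F).map ψ' ≤ j.fieldRange := by
      rw [← h.gen, adjoin_map, adjoin_le_iff]
      rintro _ ⟨w, hw, rfl⟩
      rcases hw with rfl | hw
      · exact ⟨x', hψ'x.symm⟩
      · rw [Set.mem_singleton_iff] at hw
        subst hw
        exact ⟨y', hψ'y.symm⟩
    exact h1 ⟨z, mem_top, rfl⟩
  let e := AlgEquiv.ofInjective j hj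
  have he : ∀ z : F, j (e.symm (ψ'.codRestrict j.range hr z)) = ψ' z := by
    intro z
    have h1 : e (e.symm (ψ'.codRestrict j.range hr z)) = ψ'.codRestrict j.range hr z :=
      e.apply_symm_apply _
    have h2 := congrArg Subtype.val h1
    exact h2
  refine ⟨(e.symm : j.range →ₐ[k] M).comp (ψ'.codRestrict j.range hr), ?_, ?_⟩
  · apply hj
    exact (he x).trans hψ'x
  · apply hj
    exact (he y).trans hψ'y

/-- an affine change of variables -/
theorem affine (h : HypField f x y) {α β γ : k} (hα : α ≠ 0) (hγ : γ ≠ 0) {g : k[X]}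
    (hg : C (γ ^ 2) * f = g.comp (C α * X + C β)) :
    HypField g (algebraMap k F α * x + algebraMap k F β) (algebraMap k F γ * y) := by
  have hα' : algebraMap k F α ≠ 0 := (_root_.map_ne_zero _).2 hα
  have hγ' : algebraMap k F γ ≠ 0 := (_root_.map_ne_zero _).2 hγ
  have ex : x = (algebraMap k F α)⁻¹ *
      (algebraMap k F α * x + algebraMap k F β - algebraMap k F β) := by
    rw [add_sub_cancel_right, inv_mul_cancel_left₀ hα']
  refine ⟨h.curve, ?_, ?_, ?_⟩
  · intro h1
    apply h.transc
    rw [ex]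
    exact (isAlgebraic_algebraMap α).inv.mul (h1.sub (isAlgebraic_algebraMap β))
  · have h1 := congrArg (aeval x) hg
    rw [map_mul, aeval_C, aeval_comp, map_add, map_mul, aeval_C, aeval_C, aeval_X, ← h.eq,
      map_pow] at h1
    rw [mul_pow, h1]
  · rw [eq_top_iff, ← h.gen, adjoin_le_iff]
    have hx' : algebraMap k F α * x + algebraMap k F β ∈ adjoin k
        {algebraMap k F α * x + algebraMap k F β, algebraMap k F γ * y} :=
      subset_adjoin k _ (Set.mem_insert _ _)
    have hy' : algebraMap k F γ * y ∈ adjoin k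
        {algebraMap k F α * x + algebraMap k F β, algebraMap k F γ * y} :=
      subset_adjoin k _ (Set.mem_insert_of_mem _ rfl)
    rintro w (rfl | hw)
    · have h2 := mul_mem (inv_mem (IntermediateField.algebraMap_mem _ α))
        (sub_mem hx' (IntermediateField.algebraMap_mem _ β))
      rwa [← ex] at h2
    · rw [Set.mem_singleton_iff] at hw
      subst hw
      have h2 := mul_mem (inv_mem (IntermediateField.algebraMap_mem _ γ)) hy'
      rwa [inv_mul_cancel_left₀ hγ'] at h2

end HypField

/-- the polynomial of a curve in Legendre form -/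
def leg (a : k) : k[X] := X * (X - 1) * (X - C a)

theorem leg_degree (a : k) : (leg a).natDegree = 3 := by
  rw [leg]
  have h1 : (X - 1 : k[X]) = X - C 1 := by rw [C_1]
  rw [h1, natDegree_mul (mul_ne_zero X_ne_zero (X_sub_C_ne_zero 1)) (X_sub_C_ne_zero a),
    natDegree_mul X_ne_zero (X_sub_C_ne_zero 1), natDegree_X, natDegree_X_sub_C,
    natDegree_X_sub_C]

theorem leg_eval (a c : k) : eval c (leg a) = c * (c - 1) * (c - a) := by
  rw [leg, eval_mul, eval_mul, eval_sub, eval_sub, eval_X, eval_one, eval_C]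

/-- `F` is the function field of a curve in Legendre form -/
def Leg (F : Type) [Field F] [Algebra k F] (a : k) : Prop :=
  a ≠ 0 ∧ a ≠ 1 ∧ ∃ x y : F, HypField (leg a) x y

variable [IsAlgClosed k]

/-- every elliptic curve has a Legendre form -/
theorem exists_leg {f : k[X]} {x y : F} (h : HypField f x y) (hdeg : f.natDegree = 3)
    (hsep : f.Separable) : ∃ a : k, Leg F a := by
  have hspl := IsAlgClosed.splits f
  have hf0 : f ≠ 0 := by
    rintro rfl
    rw [natDegree_zero] at hdeg
    omega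
  have hcard : f.roots.card = 3 := by
    rw [← hdeg]
    exact (splits_iff_card_roots.1 hspl)
  have hnod : f.roots.Nodup := nodup_roots hsep
  obtain ⟨e₁, e₂, e₃, he⟩ := Multiset.card_eq_three.1 hcard
  rw [he] at hnod
  have h12 : e₁ ≠ e₂ := by
    rintro rfl
    simp at hnod
  have h13 : e₁ ≠ e₃ := by
    rintro rfl
    simp at hnod
  have h23 : e₂ ≠ e₃ := by
    rintro rfl
    simp at hnod
  have hf : f = C f.leadingCoeff * ((X - C e₁) * (X - C e₂) * (X - C e₃)) := by
    conv_lhs => rw [hspl.eq_prod_roots, he]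
    simp [mul_assoc]
  have hc : f.leadingCoeff ≠ 0 := leadingCoeff_ne_zero.2 hf0
  have hd : e₂ - e₁ ≠ 0 := sub_ne_zero.2 h12.symm
  obtain ⟨γ, hγ⟩ := IsAlgClosed.exists_pow_nat_eq ((e₂ - e₁)⁻¹ ^ 3 / f.leadingCoeff) two_pos
  have hγ0 : γ ≠ 0 := by
    rintro rfl
    rw [zero_pow two_ne_zero] at hγ
    exact div_ne_zero (pow_ne_zero 3 (inv_ne_zero hd)) hc hγ.symm
  refine ⟨(e₃ - e₁) / (e₂ - e₁), div_ne_zero (sub_ne_zero.2 h13.symm) hd, ?_, _, _,
    h.affine (α := (e₂ - e₁)⁻¹) (β := -e₁ * (e₂ - e₁)⁻¹) (γ := γ) (inv_ne_zero hd) hγ0 ?_⟩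
  · rw [Ne, div_eq_one_iff_eq hd]
    intro h1
    exact h23 (sub_left_injective h1).symm
  · apply Polynomial.funext
    intro c
    rw [hf, hγ]
    simp only [eval_mul, eval_C, eval_comp, leg_eval, eval_add, eval_X, eval_sub]
    field_simp
    ring

end Pool.Agent.FPZ
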