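import Pool.Agent.FPZ.Ell1

/-!
# A curve of genus two over two elliptic curves
-/

set_option autoImplicit false

noncomputable section

namespace Pool.Agent.FPZ

open Pool.Agent.ZCyc Pool.Agent.Dess Pool.Agent.Dess4 Polynomial IntermediateField Module
open scoped Classical

variable {k : Type} [Field k]

theorem five_inj [CharZero k] {r t : k} (hr0 : r ≠ 0) (ht0 : t ≠ 0) (hr : r ^ 2 ≠ 1)
    (ht : t ^ 2 ≠ 1) (hrt : r ^ 2 ≠ t ^ 2) :
    Function.Injective (![-1, r, -r, t, -t] : Fin 5 → k) := by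
  have h1 : (-1 : k) ≠ r := fun h => hr (by rw [← h]; norm_num)
  have h2 : (-1 : k) ≠ -r := fun h => hr (by rw [← neg_sq r, ← h]; norm_num)
  have h3 : (-1 : k) ≠ t := fun h => ht (by rw [← h]; norm_num)
  have h4 : (-1 : k) ≠ -t := fun h => ht (by rw [← neg_sq t, ← h]; norm_num)
  have h5 : r ≠ -r := by
    intro h
    have : (2 : k) * r = 0 := by linear_combination h
    exact hr0 ((mul_eq_zero.1 this).resolve_left two_ne_zero)
  have h6 : r ≠ t := fun h => hrt (by rw [h])
  have h7 : r ≠ -t := fun h => hrt (by rw [h, neg_sq])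
  have h8 : -r ≠ t := fun h => hrt (by rw [← h, neg_sq])
  have h9 : -r ≠ -t := fun h => hrt (by rw [← neg_sq r, h, neg_sq])
  have h10 : t ≠ -t := by
    intro h
    have : (2 : k) * t = 0 := by linear_combination h
    exact ht0 ((mul_eq_zero.1 this).resolve_left two_ne_zero)
  intro i j hij
  fin_cases i <;> fin_cases j <;> first
    | rfl
    | exact absurd hij h1
    | exact absurd hij h2
    | exact absurd hij h3
    | exact absurd hij h4
    | exact absurd hij h5
    | exact absurd hij h6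
    | exact absurd hij h7
    | exact absurd hij h8
    | exact absurd hij h9
    | exact absurd hij h10
    | exact absurd hij.symm h1
    | exact absurd hij.symm h2
    | exact absurd hij.symm h3
    | exact absurd hij.symm h4
    | exact absurd hij.symm h5
    | exact absurd hij.symm h6
    | exact absurd hij.symm h7
    | exact absurd hij.symm h8
    | exact absurd hij.symm h9
    | exact absurd hij.symm h10

theorem leg_separable {a : k} (h0 : a ≠ 0) (h1 : a ≠ 1) : (leg a).Separable := by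
  have h : leg a = ∏ i : Fin 3, (X - C ((![0, 1, a] : Fin 3 → k) i)) := by
    rw [Fin.prod_univ_three]
    simp [leg]
  rw [h, separable_prod_X_sub_C_iff]
  intro i j hij
  fin_cases i <;> fin_cases j <;> first
    | rfl
    | exact absurd hij h0
    | exact absurd hij h1
    | exact absurd hij.symm h0
    | exact absurd hij.symm h1
    | exact absurd hij zero_ne_one
    | exact absurd hij one_ne_zero

/-- a polynomial with given different roots -/
theorem quintic {c : k} (hc : c ≠ 0) {r : Fin 5 → k} (hr : Function.Injective r) :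
    (C c * ∏ i, (X - C (r i))).natDegree = 5 ∧ (C c * ∏ i, (X - C (r i))).Separable := by
  refine ⟨?_, ?_⟩
  · rw [natDegree_C_mul hc, natDegree_prod_of_monic _ _ fun i _ => monic_X_sub_C (r i)]
    simp
  · exact (separable_prod_X_sub_C_iff.2 hr).unit_mul (isUnit_C.2 hc.isUnit)

/-- the identity behind the model of genus two -/
theorem two_identity {M : Type} [Field M] {x y₁ y₂ l m r t u : M}
    (h₁ : y₁ ^ 2 = x * (x - 1) * (x - l))
    (h₂ : y₂ ^ 2 = x * (x - 1) * (x - m)) (hu : u * (x * (x - 1) * (x - m)) = y₁ * y₂)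
    (hr : r ^ 2 * m = l) (ht : t ^ 2 * (m - 1) = l - 1) (hu0 : u ≠ 0) (hu1 : 1 - u ^ 2 ≠ 0)
    (hd : x * (x - 1) * (x - m) ≠ 0)
    {e : Fin 5 → M} (he : e = ![-1, r, -r, t, -t]) (he1 : ∀ i, e i - 1 ≠ 0) :
    (y₁ * (1 - u ^ 2) ^ 2 / u * (u - 1)⁻¹ ^ 3) ^ 2 =
      (-((l - m) * m * (m - 1) * ∏ i, (1 - e i))) * ∏ i, ((u - 1)⁻¹ - 1 / (e i - 1)) := by
  have hu1' : u - 1 ≠ 0 := by
    intro h
    apply hu1
    have : u = 1 := sub_eq_zero.1 h
    rw [this]
    norm_num
  have h3 : u ^ 2 * (x - m) = x - l := by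
    have h4 : (x * (x - 1) * (x - m)) * (u ^ 2 * (x * (x - 1) * (x - m))) =
        (x * (x - 1) * (x - m)) * (x * (x - 1) * (x - l)) := by
      have : (u * (x * (x - 1) * (x - m))) ^ 2 = y₁ ^ 2 * y₂ ^ 2 := by rw [hu]; ring
      rw [h₁, h₂] at this
      linear_combination this
    have h5 := mul_left_cancel₀ hd h4
    have h6 : x * (x - 1) ≠ 0 := left_ne_zero_of_mul hd
    apply mul_left_cancel₀ h6
    linear_combination h5
  have h4 : x * (1 - u ^ 2) = l - m * u ^ 2 := by linear_combination -h3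
  have h5 : (x - 1) * (1 - u ^ 2) = l - 1 - (m - 1) * u ^ 2 := by linear_combination -h3
  have h6 : (x - l) * (1 - u ^ 2) = (l - m) * u ^ 2 := by linear_combination -h3
  have h7 : (y₁ * (1 - u ^ 2) ^ 2 / u) ^ 2 =
      (l - m * u ^ 2) * (l - 1 - (m - 1) * u ^ 2) * (l - m) * (1 - u ^ 2) := by
    rw [← h4, ← h5, div_pow, mul_pow, h₁, div_eq_iff (pow_ne_zero 2 hu0)]
    linear_combination (x * (x - 1) * (1 - u ^ 2) ^ 3) * h6
  have h8 : ∀ i, (1 - e i) * ((u - 1)⁻¹ - 1 / (e i - 1)) = (u - e i) / (u - 1) := by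
    intro i
    have := he1 i
    field_simp
    ring
  have h9 : (∏ i, (1 - e i)) * ∏ i, ((u - 1)⁻¹ - 1 / (e i - 1)) =
      (∏ i, (u - e i)) / (u - 1) ^ 5 := by
    rw [← Finset.prod_mul_distrib, Finset.prod_congr rfl fun i _ => h8 i, Finset.prod_div_distrib,
      Finset.prod_const, Finset.card_univ, Fintype.card_fin]
  have h10 : (∏ i, (u - e i)) = (u + 1) * (u ^ 2 - r ^ 2) * (u ^ 2 - t ^ 2) := by
    rw [he, Fin.prod_univ_five]
    simp only [Matrix.cons_val]
    ring
  rw [mul_pow, h7, neg_mul, mul_assoc ((l - m) * m * (m - 1)), h9, h10, ← hr]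
  have h11 : r ^ 2 * m - 1 - (m - 1) * u ^ 2 = (m - 1) * (t ^ 2 - u ^ 2) := by
    linear_combination -ht + hr
  rw [h11]
  field_simp
  ring

end Pool.Agent.FPZ
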