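import Pool.Agent.FPZ.Ell2

/-!
# The curve of genus two over two elliptic curves
-/

set_option autoImplicit false

noncomputable section

namespace Pool.Agent.FPZ

open Pool.Agent.ZCyc Pool.Agent.Dess Pool.Agent.Dess4 Polynomial IntermediateField Module
open scoped Classical

variable {k : Type} [Field k] [IsAlgClosed k] [CharZero k]

omit [IsAlgClosed k] [CharZero k] in
theorem aeval_leg {F : Type} [Field F] [Algebra k F] (x : F) (a : k) :
    aeval x (leg a) = x * (x - 1) * (x - algebraMap k F a) := by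
  rw [leg]
  simp

/-- Two elliptic curves in Legendre form, with different parameters, are dominated by a curve of
genus two, which is a double covering of the first one. -/
theorem exists_two {L₁ L₂ : Type} [Field L₁] [Algebra k L₁] [Field L₂] [Algebra k L₂]
    {l m : k} (hl0 : l ≠ 0) (hl1 : l ≠ 1) (hm0 : m ≠ 0) (hm1 : m ≠ 1) (hlm : l ≠ m)
    {x₁ y₁ : L₁} {x₂ y₂ : L₂} (h₁ : HypField (leg l) x₁ y₁) (h₂ : HypField (leg m) x₂ y₂) :
    ∃ (M : Type) (_ : Field M) (_ : Algebra k M) (φ₁ : L₁ →ₐ[k] M) (φ₂ : L₂ →ₐ[k] M)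
      (σ : M ≃ₐ[k] M) (g : k[X]) (X' Y' : M), g.natDegree = 5 ∧ g.Separable ∧
        HypField g X' Y' ∧ φ₁ x₁ = φ₂ x₂ ∧ (∀ z, σ (φ₁ z) = φ₁ z) ∧ σ (φ₂ x₂) = φ₂ x₂ ∧
          σ (φ₂ y₂) = -φ₂ y₂ := by
  have hodd : ∀ a : k, Odd (leg a).natDegree := fun a => by
    rw [leg_degree]
    decide
  have hd0 : aeval x₁ (leg m) ≠ 0 := by
    refine h₁.aeval_ne ?_
    intro h0
    have := leg_degree m
    rw [h0, natDegree_zero] at this
    omega
  have hns : ∀ s : L₁, s ^ 2 ≠ aeval x₁ (leg m) := by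
    intro s hs
    obtain ⟨v, hv⟩ := exists_place h₁.transc m
    obtain ⟨n, hn⟩ := exists_hasOrd h₁.curve v (transc_ne (transc_sub h₁.transc m))
    have hev : eval m (leg l) ≠ 0 := by
      rw [leg_eval]
      exact mul_ne_zero (mul_ne_zero hm0 (sub_ne_zero.2 hm1)) (sub_ne_zero.2 hlm.symm)
    rcases h₁.ord_x (hodd l) (leg_separable hl0 hl1) hv hn with ⟨-, h3⟩ | ⟨h3, -⟩
    · have h4 : HasOrd v (x₁ * (x₁ - 1)) 0 := by
        have h5 : v.At (x₁ * (x₁ - 1)) (m * (m - 1)) := by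
          have h6 := hv.mul (hv.sub (at_one v))
          exact h6
        exact ord_at h₁.curve h5 (mul_ne_zero hm0 (sub_ne_zero.2 hm1))
      have h5 := ord_mul h4 hn
      rw [← aeval_leg, h3] at h5
      have hs0 : s ≠ 0 := by
        rintro rfl
        rw [zero_pow two_ne_zero] at hs
        exact hd0 hs.symm
      obtain ⟨j, hj⟩ := exists_hasOrd h₁.curve v hs0
      have h6 := ord_pow hj 2
      rw [hs] at h6
      have h7 := hasOrd_unique h₁.curve hd0 h5 h6
      push_cast at h7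
      omega
    · exact hev h3
  obtain ⟨M, _, _, φ₁, s, hdbl⟩ := exists_dbl (k := k) hns
  have hM := hdbl.isCurve h₁.curve
  have hx' : Transcendental k (φ₁ x₁) := by
    intro h1
    exact h₁.transc ((isAlgebraic_algHom_iff φ₁ φ₁.injective).mp h1)
  have hs2 : s ^ 2 = aeval (φ₁ x₁) (leg m) := by
    rw [hdbl.sq, aeval_algHom_apply]
  obtain ⟨φ₂, hφx, hφy⟩ := h₂.lift (hodd m) hx' hs2
  obtain ⟨σ, hσφ, hσs⟩ := hdbl.conj
  obtain ⟨r, hr⟩ := IsAlgClosed.exists_pow_nat_eq (l / m) two_pos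
  obtain ⟨t, ht⟩ := IsAlgClosed.exists_pow_nat_eq ((l - 1) / (m - 1)) two_pos
  have hm1' : m - 1 ≠ 0 := sub_ne_zero.2 hm1
  have hl1' : l - 1 ≠ 0 := sub_ne_zero.2 hl1
  have hlm' : l - m ≠ 0 := sub_ne_zero.2 hlm
  have hr' : r ^ 2 * m = l := by
    rw [hr, div_mul_cancel₀ _ hm0]
  have ht' : t ^ 2 * (m - 1) = l - 1 := by
    rw [ht, div_mul_cancel₀ _ hm1']
  have hr0 : r ≠ 0 := by
    rintro rfl
    apply hl0
    rw [← hr']
    ring
  have ht0 : t ≠ 0 := by
    rintro rfl
    apply hl1'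
    rw [← ht']
    ring
  have hr1 : r ^ 2 ≠ 1 := by
    intro h1
    rw [h1, one_mul] at hr'
    exact hlm hr'.symm
  have ht1 : t ^ 2 ≠ 1 := by
    intro h1
    rw [h1, one_mul] at ht'
    exact hlm (sub_left_injective ht').symm
  have hrt : r ^ 2 ≠ t ^ 2 := by
    intro h1
    rw [← h1] at ht'
    apply hr1
    linear_combination hr' - ht'
  set e : Fin 5 → k := ![-1, r, -r, t, -t] with he
  have hinj : Function.Injective e := five_inj hr0 ht0 hr1 ht1 hrt
  have he1 : ∀ i, e i - 1 ≠ 0 := by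
    have h1 : (-1 : k) - 1 ≠ 0 := by norm_num
    have h2 : r - 1 ≠ 0 := fun h => hr1 (by rw [sub_eq_zero.1 h]; norm_num)
    have h3 : -r - 1 ≠ 0 := fun h => hr1 (by rw [← neg_sq r, sub_eq_zero.1 h]; norm_num)
    have h4 : t - 1 ≠ 0 := fun h => ht1 (by rw [sub_eq_zero.1 h]; norm_num)
    have h5 : -t - 1 ≠ 0 := fun h => ht1 (by rw [← neg_sq t, sub_eq_zero.1 h]; norm_num)
    intro i
    fin_cases i
    · exact h1
    · exact h2
    · exact h3
    · exact h4
    · exact h5
  set c : k := -((l - m) * m * (m - 1) * ∏ i, (1 - e i)) with hc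
  have hc0 : c ≠ 0 := by
    rw [hc, neg_ne_zero]
    refine mul_ne_zero (mul_ne_zero (mul_ne_zero hlm' hm0) hm1') ?_
    rw [Finset.prod_ne_zero_iff]
    intro i _
    rw [← neg_sub, neg_ne_zero]
    exact he1 i
  have hrinj : Function.Injective fun i => 1 / (e i - 1) := by
    intro i j hij
    apply hinj
    have h1 := he1 i
    have h2 := he1 j
    have h3 : 1 / (e i - 1) = 1 / (e j - 1) := hij
    rw [div_eq_div_iff h1 h2] at h3
    linear_combination -h3
  obtain ⟨hg5, hgs⟩ := quintic hc0 hrinj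
  set g : k[X] := C c * ∏ i, (X - C (1 / (e i - 1))) with hg
  -- the functions
  set x := φ₁ x₁ with hx
  set w₁ := φ₁ y₁ with hw₁
  set A := algebraMap k M with hA
  have hA0 : ∀ a : k, A a = 0 ↔ a = 0 := fun a => map_eq_zero A
  have e₁ : w₁ ^ 2 = x * (x - 1) * (x - A l) := by
    rw [hw₁, hx, ← map_pow, h₁.eq, aeval_leg, map_mul, map_mul, map_sub, map_sub, map_one,
      AlgHom.commutes]
  have e₂ : s ^ 2 = x * (x - 1) * (x - A m) := by
    rw [hs2, aeval_leg]
  have hxa : ∀ a : k, x - A a ≠ 0 := fun a => transc_ne (transc_sub hx' a)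
  have hd : x * (x - 1) * (x - A m) ≠ 0 := by
    have h1 := hxa 1
    rw [map_one] at h1
    exact mul_ne_zero (mul_ne_zero (transc_ne hx') h1) (hxa m)
  set u : M := w₁ * s / (x * (x - 1) * (x - A m)) with hu
  have hue : u * (x * (x - 1) * (x - A m)) = w₁ * s := div_mul_cancel₀ _ hd
  have hw₁0 : w₁ ≠ 0 := by
    intro h1
    rw [h1, zero_pow two_ne_zero] at e₁
    have h2 := hxa 1
    rw [map_one] at h2
    exact mul_ne_zero (mul_ne_zero (transc_ne hx') h2) (hxa l) e₁.symm
  have hs0 : s ≠ 0 := by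
    intro h1
    rw [h1, zero_pow two_ne_zero] at e₂
    exact hd e₂.symm
  have hu0 : u ≠ 0 := div_ne_zero (mul_ne_zero hw₁0 hs0) hd
  have h3 : u ^ 2 * (x - A m) = x - A l := by
    have h4 : (x * (x - 1) * (x - A m)) * (u ^ 2 * (x * (x - 1) * (x - A m))) =
        (x * (x - 1) * (x - A m)) * (x * (x - 1) * (x - A l)) := by
      have : (u * (x * (x - 1) * (x - A m))) ^ 2 = w₁ ^ 2 * s ^ 2 := by rw [hue]; ring
      rw [e₁, e₂] at this
      linear_combination this
    have h5 := mul_left_cancel₀ hd h4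
    have h6 : x * (x - 1) ≠ 0 := left_ne_zero_of_mul hd
    apply mul_left_cancel₀ h6
    linear_combination h5
  have h4 : x * (1 - u ^ 2) = A l - A m * u ^ 2 := by linear_combination -h3
  have hu1 : 1 - u ^ 2 ≠ 0 := by
    intro h5
    rw [h5, mul_zero, ← sub_eq_zero.1 h5, mul_one, ← map_sub] at h4
    exact hlm' ((hA0 _).1 h4.symm)
  have hu1' : u - 1 ≠ 0 := by
    intro h
    apply hu1
    have : u = 1 := sub_eq_zero.1 h
    rw [this]
    norm_num
  set X' : M := (u - 1)⁻¹ with hX'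
  set Y' : M := w₁ * (1 - u ^ 2) ^ 2 / u * (u - 1)⁻¹ ^ 3 with hY'
  have hYg : Y' ^ 2 = aeval X' g := by
    have h5 := two_identity (e := fun i => A (e i)) (r := A r) (t := A t) (l := A l) (m := A m)
      e₁ e₂ hue (by rw [← map_pow, ← map_mul, hr'])
      (by rw [← map_pow, ← map_one A, ← map_sub, ← map_sub, ← map_mul, ht']) hu0 hu1 hd
      (by
        funext i
        fin_cases i <;> simp [he])
      (by
        intro i
        rw [← map_one A, ← map_sub]
        exact fun h => he1 i ((hA0 _).1 h))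
    rw [hY', h5, hg, map_mul, aeval_C, map_prod, hc, map_neg, map_mul, map_mul, map_mul, map_sub,
      map_sub, map_one, map_prod]
    congr 1
    · congr 2
      apply Finset.prod_congr rfl
      intro i _
      rw [map_sub, map_one]
    · apply Finset.prod_congr rfl
      intro i _
      rw [map_sub, aeval_X, aeval_C, map_div₀, map_sub, map_one]
  have hXS : X' ∈ adjoin k {X', Y'} := subset_adjoin k _ (Set.mem_insert _ _)
  have hYS : Y' ∈ adjoin k {X', Y'} := subset_adjoin k _ (Set.mem_insert_of_mem _ rfl)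
  have hAS : ∀ a : k, A a ∈ adjoin k {X', Y'} := fun a => IntermediateField.algebraMap_mem _ a
  have huX : u = 1 + X'⁻¹ := by
    rw [hX', inv_inv]
    ring
  have huS : u ∈ adjoin k {X', Y'} := by
    rw [huX]
    exact add_mem (one_mem _) (inv_mem hXS)
  have hxu : x = (A l - A m * u ^ 2) / (1 - u ^ 2) := by
    rw [← h4, mul_div_assoc, div_self hu1, mul_one]
  have hxS : x ∈ adjoin k {X', Y'} := by
    rw [hxu]
    exact div_mem (sub_mem (hAS l) (mul_mem (hAS m) (pow_mem huS 2)))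
      (sub_mem (one_mem _) (pow_mem huS 2))
  have hw₁S : w₁ ∈ adjoin k {X', Y'} := by
    have h5 : w₁ = Y' / X' ^ 3 * u / (1 - u ^ 2) ^ 2 := by
      rw [hY', hX']
      have := inv_ne_zero hu1'
      field_simp
    rw [h5]
    exact div_mem (mul_mem (div_mem hYS (pow_mem hXS 3)) huS)
      (pow_mem (sub_mem (one_mem _) (pow_mem huS 2)) 2)
  have hsS : s ∈ adjoin k {X', Y'} := by
    have h5 : s = u * (x * (x - 1) * (x - A m)) / w₁ := by
      rw [hue]
      field_simp
    rw [h5]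
    exact div_mem (mul_mem huS (mul_mem (mul_mem hxS (sub_mem hxS (one_mem _)))
      (sub_mem hxS (hAS m)))) hw₁S
  have hφS : ∀ z : L₁, φ₁ z ∈ adjoin k {X', Y'} := by
    intro z
    have h5 : (⊤ : IntermediateField k L₁).map φ₁ ≤ adjoin k {X', Y'} := by
      rw [← h₁.gen, adjoin_map, adjoin_le_iff]
      rintro _ ⟨w, hw, rfl⟩
      rcases hw with rfl | hw
      · exact hxS
      · rw [Set.mem_singleton_iff] at hw
        subst hw
        exact hw₁S
    exact h5 ⟨z, mem_top, rfl⟩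
  have hX't : Transcendental k X' := by
    intro h5
    apply hx'
    have h6 : IsAlgebraic k u := by
      rw [huX]
      exact isAlgebraic_one.add h5.inv
    have h7 : x = (A l - A m * u ^ 2) * (1 - u ^ 2)⁻¹ := by
      rw [hxu, div_eq_mul_inv]
    rw [h7]
    exact ((isAlgebraic_algebraMap l).sub ((isAlgebraic_algebraMap m).mul (h6.pow 2))).mul
      (isAlgebraic_one.sub (h6.pow 2)).inv
  refine ⟨M, _, _, φ₁, φ₂, σ, g, X', Y', hg5, hgs, ⟨hM, hX't, hYg, ?_⟩, hφx.symm, hσφ, ?_, ?_⟩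
  · rw [eq_top_iff]
    intro z _
    obtain ⟨a, b, rfl⟩ := hdbl.span z
    exact add_mem (hφS a) (mul_mem (hφS b) hsS)
  · rw [hφx]
    exact hσφ x₁
  · rw [hφy]
    exact hσs

end Pool.Agent.FPZ
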