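import Pool.Agent.FPZ.JointK
import Pool.Agent.FPZ.Double

/-!
# The cycles of Faber and Pandharipande are universal, over every algebraically closed field
-/

set_option autoImplicit false

noncomputable section

namespace Pool.Agent.FPZ

open Pool.Agent.ZCyc Pool.Agent.Dess Pool.Agent.Dess4 Polynomial
open scoped Classical

variable {k : Type} [Field k]

section Univ

variable [IsAlgClosed k] [CharZero k] {ι : Type} {L : ι → Type} [∀ i, Field (L i)]
  [∀ i, Algebra k (L i)]

/-- every mixed difference is the image of a cycle `(p - q) × (p - q)` -/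
theorem symbol_square (hL : ∀ i, IsCurve k (L i)) {i j : ι} (hij : i ≠ j) (a : ∀ l, Place k (L l))
    {x : Place k (L i)} {y : Place k (L j)} (hx : a i ≠ x) (hy : a j ≠ y) :
    ∃ (M : Type) (_ : Field M) (_ : Algebra k M) (p q : Place k M)
      (Φ : (Bool → Place k M) → ∀ l, Place k (L l)), IsCurve k M ∧ IsMor Φ ∧
      Finsupp.single a (1 : ℤ) - Finsupp.single (Function.update a i x) 1 -
        Finsupp.single (Function.update a j y) 1 +
        Finsupp.single (Function.update (Function.update a i x) j y) 1 =
          (square p q).mapDomain Φ := by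
  obtain ⟨M, _, _, φ₁, φ₂, A, B, hM, hA₁, hA₂, hB₁, hB₂⟩ := joint_k (hL i) (hL j) (Ne.symm hx)
    (Ne.symm hy)
  obtain ⟨g₁, hg₁⟩ := exists_proj (hL i) hM φ₁
  obtain ⟨g₂, hg₂⟩ := exists_proj (hL j) hM φ₂
  let Φ : (Bool → Place k M) → ∀ l, Place k (L l) := fun b =>
    Function.update (Function.update a i (g₁ (b false))) j (g₂ (b true))
  have hΦ : IsMor Φ := by
    intro l
    by_cases hl : l = j
    · subst hl
      right
      refine ⟨true, φ₂, fun b => ?_⟩
      simp only [Φ, Function.update_self]
      exact (hg₂ (b true)).symm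
    · by_cases hl' : l = i
      · subst hl'
        right
        refine ⟨false, φ₁, fun b => ?_⟩
        simp only [Φ, Function.update_self, Function.update_of_ne hl]
        exact (hg₁ (b false)).symm
      · left
        refine ⟨a l, fun b => ?_⟩
        simp only [Φ, Function.update_of_ne hl, Function.update_of_ne hl']
  have e1 : g₁ A = a i := Place.ext ((hg₁ A).symm.trans hA₁)
  have e2 : g₂ A = a j := Place.ext ((hg₂ A).symm.trans hA₂)
  have e3 : g₁ B = x := Place.ext ((hg₁ B).symm.trans hB₁)
  have e4 : g₂ B = y := Place.ext ((hg₂ B).symm.trans hB₂)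
  refine ⟨M, _, _, A, B, Φ, hM, hΦ, ?_⟩
  have h1 : Φ (pair (L := fun _ => M) A A) = a := by
    simp only [Φ, pair, e1, e2, Function.update_eq_self]
  have h2 : Φ (pair (L := fun _ => M) A B) = Function.update a j y := by
    simp only [Φ, pair, e1, e4, Function.update_eq_self]
  have h3 : Φ (pair (L := fun _ => M) B A) = Function.update a i x := by
    simp only [Φ, pair, e3, e2]
    rw [Function.update_comm hij, Function.update_eq_self]
  have h4 : Φ (pair (L := fun _ => M) B B) =
      Function.update (Function.update a i x) j y := by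
    simp only [Φ, pair, e3, e4]
  rw [map_square, h1, h2, h3, h4]
  abel

/-- a subgroup which is closed under division and contains the cycles rationally equivalent to
zero and the images of the cycles of Faber and Pandharipande contains the kernel of the Albanese
map -/
theorem univ_mem [Fintype ι] (hL : ∀ i, IsCurve k (L i))
    {T : AddSubgroup ((∀ i, Place k (L i)) →₀ ℤ)} (hT : RatEq L ≤ T)
    (hsat : ∀ (n : ℤ) (z : (∀ i, Place k (L i)) →₀ ℤ), n ≠ 0 → n • z ∈ T → z ∈ T)
    (hall : ∀ w, FPImage L w → w ∈ T) {z : (∀ i, Place k (L i)) →₀ ℤ} (hz : AlbKer L z) :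
    z ∈ T := by
  have hsq : ∀ (M : Type) (_ : Field M) (_ : Algebra k M) (p q : Place k M)
      (Φ : (Bool → Place k M) → ∀ l, Place k (L l)), IsCurve k M → IsMor Φ →
        (square p q).mapDomain Φ ∈ T := by
    intro M _ _ p q Φ hM hΦ
    let W : ((Bool → Place k M) →₀ ℤ) →+ ((∀ i, Place k (L i)) →₀ ℤ) :=
      Finsupp.mapDomain.addMonoidHom Φ
    have h1 : square p q ∈ T.comap W := by
      refine double_square hM (T := T.comap W) ?_ ?_ ?_ p q
      · intro y hy
        rw [AddSubgroup.mem_comap]
        exact hT (map_mem Φ hΦ hy)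
      · intro n y hn hy
        rw [AddSubgroup.mem_comap, map_zsmul] at hy
        rw [AddSubgroup.mem_comap]
        exact hsat n _ hn hy
      · rintro w ⟨N, _, _, φ, Ψ, K, hN, -, hΨ, hK, rfl⟩
        rw [AddSubgroup.mem_comap]
        have hne : Nonempty (Bool → Place k N) := by
          obtain ⟨V, -⟩ := exists_ext hM hN φ p
          exact ⟨fun _ => V⟩
        refine hall _ ⟨N, _, _, K, Φ ∘ (fun a b => Ψ (a b)), hN, hK, ?_, ?_⟩
        · exact IsMor.comp (fun b => Or.inr ⟨b, φ, fun a => hΨ (a b)⟩) hΦ
        · change ((fp K).mapDomain _).mapDomain Φ = _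
          rw [Finsupp.mapDomain_comp]
    exact h1
  refine of_symbols (T := T) hT ?_ hz
  intro i j hij a x y
  by_cases hx : a i = x
  · have h0 : Finsupp.single a (1 : ℤ) - Finsupp.single (Function.update a i x) 1 -
        Finsupp.single (Function.update a j y) 1 +
        Finsupp.single (Function.update (Function.update a i x) j y) 1 = 0 := by
      rw [← hx, Function.update_eq_self]
      abel
    rw [h0]
    exact zero_mem _
  by_cases hy : a j = y
  · have h0 : Finsupp.single a (1 : ℤ) - Finsupp.single (Function.update a i x) 1 -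
        Finsupp.single (Function.update a j y) 1 +
        Finsupp.single (Function.update (Function.update a i x) j y) 1 = 0 := by
      rw [← hy, Function.update_eq_self, Function.update_comm hij, Function.update_eq_self]
      abel
    rw [h0]
    exact zero_mem _
  obtain ⟨M, _, _, p, q, Φ, hM, hΦ, he⟩ := symbol_square hL hij a hx hy
  rw [he]
  exact hsq M _ _ p q Φ hM hΦ

/-- **The cycles of Faber and Pandharipande are universal.** Over every algebraically closed field
of characteristic zero a multiple of every cycle in the kernel of the Albanese map of a product of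
curves is a combination of images of these cycles. -/
theorem generation_univ [Fintype ι] (hL : ∀ i, IsCurve k (L i))
    {z : (∀ i, Place k (L i)) →₀ ℤ} (hz : AlbKer L z) :
    ∃ m : ℕ, 0 < m ∧ m • z ∈ RatEq L ⊔ AddSubgroup.closure {w | FPImage L w} := by
  refine univ_mem (T := sat (RatEq L ⊔ AddSubgroup.closure {w | FPImage L w})) hL
    (le_sup_left.trans (le_sat _)) (fun n z hn h => sat_of_zsmul hn h) ?_ hz
  intro w hw
  exact le_sat _ ((le_sup_right : _ ≤ RatEq L ⊔ _) (AddSubgroup.subset_closure hw))

end Univ

/-- the kernel of the Albanese map is torsion for all products of curves if and only if the cycle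
of Faber and Pandharipande is torsion for all curves -/
theorem univ_iff [IsAlgClosed k] [CharZero k] :
    (∀ (ι : Type) [Fintype ι] (L : ι → Type) [∀ i, Field (L i)] [∀ i, Algebra k (L i)],
      (∀ i, IsCurve k (L i)) → ∀ z : (∀ i, Place k (L i)) →₀ ℤ, AlbKer L z → RatTor L z) ↔
      ∀ (F : Type) [Field F] [Algebra k F], IsCurve k F → FPTor k F := by
  constructor
  · intro h F _ _ hF K _
    exact h Bool (fun _ => F) (fun _ => hF) (fp K) (albKer_fp K)
  · intro h ι _ L _ _ hL z hz
    refine univ_mem (T := torGroup L) hL ratEq_le_torGroup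
      (fun n z hn h => tor_of_zsmul hn h) ?_ hz
    rintro w ⟨M, _, _, K, Φ, hM, hK, hΦ, rfl⟩
    exact map_tor Φ hΦ (h M hM K hK)

end Pool.Agent.FPZ
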