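import Pool.Agent.FPZ.Ell3
import Pool.Agent.FPZ.Univ

/-!
# Zero-cycles on products of elliptic curves and curves of genus four
-/

set_option autoImplicit false

noncomputable section

namespace Pool.Agent.FPZ

open Pool.Agent.ZCyc Pool.Agent.Dess Pool.Agent.Dess4 Polynomial IntermediateField Module
open scoped Classical

/-! ### other Legendre forms -/

section Legendre

variable {k F : Type} [Field k] [Field F] [Algebra k F] [IsAlgClosed k] {a : k}

theorem Leg.one_sub (h : Leg F a) : Leg F (1 - a) := by
  obtain ⟨h0, h1, x, y, h⟩ := h
  obtain ⟨γ, hγ⟩ := IsAlgClosed.exists_pow_nat_eq (-1 : k) two_pos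
  have hγ0 : γ ≠ 0 := by
    rintro rfl
    rw [zero_pow two_ne_zero] at hγ
    exact neg_ne_zero.2 one_ne_zero hγ.symm
  refine ⟨sub_ne_zero.2 h1.symm, ?_, _, _, h.affine (α := -1) (β := 1) (γ := γ)
    (neg_ne_zero.2 one_ne_zero) hγ0 ?_⟩
  · intro h2
    apply h0
    linear_combination -h2
  · apply Polynomial.funext
    intro c
    rw [hγ]
    simp only [eval_mul, eval_C, eval_comp, leg_eval, eval_add, eval_X]
    ring

theorem Leg.inv (h : Leg F a) : Leg F a⁻¹ := by
  obtain ⟨h0, h1, x, y, h⟩ := h
  obtain ⟨γ, hγ⟩ := IsAlgClosed.exists_pow_nat_eq (a⁻¹ ^ 3 : k) two_pos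
  have hγ0 : γ ≠ 0 := by
    rintro rfl
    rw [zero_pow two_ne_zero] at hγ
    exact pow_ne_zero 3 (inv_ne_zero h0) hγ.symm
  refine ⟨inv_ne_zero h0, ?_, _, _, h.affine (α := a⁻¹) (β := 0) (γ := γ)
    (inv_ne_zero h0) hγ0 ?_⟩
  · intro h2
    exact h1 (inv_eq_one.1 h2)
  · apply Polynomial.funext
    intro c
    rw [hγ]
    simp only [eval_mul, eval_C, eval_comp, leg_eval, eval_add, eval_X]
    field_simp
    ring

/-- there is a Legendre form with a parameter different from a given one -/
theorem Leg.ne [CharZero k] (h : Leg F a) (b : k) : ∃ m, m ≠ b ∧ Leg F m := by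
  by_cases h1 : a = b
  · by_cases h2 : 1 - a = b
    · refine ⟨a⁻¹, ?_, h.inv⟩
      rw [← h1]
      intro h3
      have h4 : 2 * a = 1 := by
        rw [← h1] at h2
        linear_combination -h2
      have h5 : a * a = 1 := by
        nth_rewrite 1 [← h3]
        exact inv_mul_cancel₀ h.1
      have h6 : (4 : k) = 1 := by
        calc (4 : k) = 4 * (a * a) := by rw [h5, mul_one]
          _ = (2 * a) * (2 * a) := by ring
          _ = 1 := by rw [h4, mul_one]
      norm_num at h6
    · exact ⟨1 - a, h2, h.one_sub⟩
  · exact ⟨a, h1, h⟩

end Legendre

/-! ### exterior products -/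

section Ext

variable {k F : Type} [Field k] [Field F] [Algebra k F]

theorem albKer_exq {A B : Place k F →₀ ℤ} (hA : dgq A = 0) (hB : dgq B = 0) :
    AlbKer (fun _ : Bool => F) (exq A B) := by
  let D : ((Bool → Place k F) →₀ ℤ) →+ ℤ := Finsupp.liftAddHom fun _ => AddMonoidHom.id ℤ
  have hD : ∀ z, D z = z.sum fun _ n => n := by
    intro z
    rw [Finsupp.liftAddHom_apply]
    rfl
  have hs : ∀ (p : Bool → Place k F) (n : ℤ), D (Finsupp.single p n) = n := by
    intro p n
    rw [Finsupp.liftAddHom_apply_single]
    rfl
  have h1 : ∀ A B : Place k F →₀ ℤ, D (exq A B) = dgq A * dgq B := by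
    intro A B
    induction A using Finsupp.induction_linear with
    | zero => simp
    | add a b ha hb => rw [map_add, AddMonoidHom.add_apply, map_add, ha, hb, map_add, add_mul]
    | single p m =>
      induction B using Finsupp.induction_linear with
      | zero => simp
      | add a b ha hb => rw [map_add, map_add, ha, hb, map_add, mul_add]
      | single q n => rw [exq_single, hs, dgq_single, dgq_single]
  refine ⟨by rw [← hD, h1, hA, zero_mul], fun i => ?_⟩
  let P : ((Bool → Place k F) →₀ ℤ) →+ ((Unit → Place k F) →₀ ℤ) :=
    Finsupp.mapDomain.addMonoidHom fun p _ => p i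
  have hs : ∀ (p : Bool → Place k F) (n : ℤ), P (Finsupp.single p n) =
      Finsupp.single (fun _ => p i) n := fun p n => Finsupp.mapDomain_single
  have h2 : ∀ A B : Place k F →₀ ℤ, P (exq A B) =
      match i with
      | false => dgq B • unq A
      | true => dgq A • unq B := by
    intro A B
    induction A using Finsupp.induction_linear with
    | zero => cases i <;> simp
    | add a b ha hb =>
      rw [map_add, AddMonoidHom.add_apply, map_add, ha, hb]
      cases i
      · simp only [map_add, smul_add]
      · simp only [map_add, add_smul]
    | single p m =>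
      induction B using Finsupp.induction_linear with
      | zero => cases i <;> simp
      | add a b ha hb =>
        rw [map_add, map_add, ha, hb]
        cases i
        · simp only [map_add, add_smul]
        · simp only [map_add, smul_add]
      | single q n =>
        rw [exq_single, hs]
        cases i
        · simp only [dgq_single, unq_single, Finsupp.smul_single, smul_eq_mul, pair]
          rw [mul_comm]
        · simp only [dgq_single, unq_single, Finsupp.smul_single, smul_eq_mul, pair]
  change P (exq A B) ∈ _
  rw [h2]
  cases i
  · change dgq B • unq A ∈ _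
    rw [hB, zero_smul]
    exact zero_mem _
  · change dgq A • unq B ∈ _
    rw [hA, zero_smul]
    exact zero_mem _

theorem swap_exq (A B : Place k F →₀ ℤ) : (exq A B).mapDomain swap = exq B A := by
  let W : ((Bool → Place k F) →₀ ℤ) →+ ((Bool → Place k F) →₀ ℤ) :=
    Finsupp.mapDomain.addMonoidHom swap
  have hs : ∀ (a : Bool → Place k F) (n : ℤ), W (Finsupp.single a n) =
      Finsupp.single (swap a) n := fun a n => Finsupp.mapDomain_single
  change W (exq A B) = _
  induction A using Finsupp.induction_linear with
  | zero => simp
  | add a b ha hb => rw [map_add, AddMonoidHom.add_apply, map_add, ha, hb, map_add]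
  | single p m =>
    induction B using Finsupp.induction_linear with
    | zero => simp
    | add a b ha hb => rw [map_add, map_add, ha, hb, map_add, AddMonoidHom.add_apply]
    | single q n => rw [exq_single, hs, swap_pair, exq_single, mul_comm]

end Ext

section Two

variable {k : Type} [Field k] {ι : Type} {L : ι → Type} [∀ i, Field (L i)]
  [∀ i, Algebra k (L i)]

/-- the exterior product of divisors on two factors -/
def exG (a : ∀ l, Place k (L l)) (i j : ι) : (Place k (L i) →₀ ℤ) →+ (Place k (L j) →₀ ℤ) →+
    ((∀ l, Place k (L l)) →₀ ℤ) :=
  Finsupp.liftAddHom fun p => zmultiplesHom _ (Finsupp.liftAddHom fun q =>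
    zmultiplesHom ((∀ l, Place k (L l)) →₀ ℤ)
      (Finsupp.single (Function.update (Function.update a i p) j q) 1))

theorem exG_single (a : ∀ l, Place k (L l)) (i j : ι) (p : Place k (L i)) (q : Place k (L j))
    (m n : ℤ) : exG a i j (Finsupp.single p m) (Finsupp.single q n) =
      Finsupp.single (Function.update (Function.update a i p) j q) (m * n) := by
  rw [exG, Finsupp.liftAddHom_apply_single, zmultiplesHom_apply, AddMonoidHom.zsmul_apply,
    Finsupp.liftAddHom_apply_single, zmultiplesHom_apply, ← mul_smul, Finsupp.smul_single,
    smul_eq_mul, mul_one]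

/-- the product with a divisor equivalent to zero -/
theorem exG_left {a : ∀ l, Place k (L l)} {i j : ι} {A : Place k (L i) →₀ ℤ}
    (hA : unq A ∈ torGroup (k := k) fun _ : Unit => L i) (B : Place k (L j) →₀ ℤ) :
    exG a i j A B ∈ torGroup (k := k) L := by
  induction B using Finsupp.induction_linear with
  | zero =>
    rw [map_zero]
    exact zero_mem _
  | add b c hb hc =>
    rw [map_add]
    exact add_mem hb hc
  | single q n =>
    let Φ : (Unit → Place k (L i)) → ∀ l, Place k (L l) := fun b =>
      Function.update (Function.update a i (b ())) j q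
    have hΦ : IsMor (L := fun _ : Unit => L i) Φ := by
      intro l
      by_cases hl : l = j
      · subst hl
        exact Or.inl ⟨q, fun b => by simp only [Φ, Function.update_self]⟩
      · by_cases hl' : l = i
        · subst hl'
          right
          refine ⟨(), AlgHom.id k _, fun b => ?_⟩
          simp only [Φ, Function.update_self, Function.update_of_ne hl]
          rfl
        · left
          refine ⟨a l, fun b => ?_⟩
          simp only [Φ, Function.update_of_ne hl, Function.update_of_ne hl']
    have h1 := AddSubgroup.zsmul_mem (torGroup L) (map_tor Φ hΦ hA) n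
    have h2 : ∀ A : Place k (L i) →₀ ℤ,
        n • (Finsupp.mapDomain.addMonoidHom Φ) (unq A) = exG a i j A (Finsupp.single q n) := by
      intro A
      induction A using Finsupp.induction_linear with
      | zero => simp
      | add b c hb hc =>
        rw [map_add, map_add, smul_add, hb, hc, map_add, AddMonoidHom.add_apply]
      | single p m =>
        rw [unq_single, exG_single]
        change n • (Finsupp.single _ _).mapDomain Φ = _
        rw [Finsupp.mapDomain_single, Finsupp.smul_single, smul_eq_mul, mul_comm]
    rw [← h2]
    exact h1

/-- the product with a divisor equivalent to zero -/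
theorem exG_right {a : ∀ l, Place k (L l)} {i j : ι} (A : Place k (L i) →₀ ℤ)
    {B : Place k (L j) →₀ ℤ} (hB : unq B ∈ torGroup (k := k) fun _ : Unit => L j) :
    exG a i j A B ∈ torGroup (k := k) L := by
  induction A using Finsupp.induction_linear with
  | zero =>
    rw [map_zero]
    exact zero_mem _
  | add b c hb hc =>
    rw [map_add]
    exact add_mem hb hc
  | single p n =>
    let Φ : (Unit → Place k (L j)) → ∀ l, Place k (L l) := fun b =>
      Function.update (Function.update a i p) j (b ())
    have hΦ : IsMor (L := fun _ : Unit => L j) Φ := by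
      intro l
      by_cases hl : l = j
      · subst hl
        right
        refine ⟨(), AlgHom.id k _, fun b => ?_⟩
        simp only [Φ, Function.update_self]
        rfl
      · left
        refine ⟨Function.update a i p l, fun b => ?_⟩
        simp only [Φ, Function.update_of_ne hl]
    have h1 := AddSubgroup.zsmul_mem (torGroup L) (map_tor Φ hΦ hB) n
    have h2 : ∀ B : Place k (L j) →₀ ℤ,
        n • (Finsupp.mapDomain.addMonoidHom Φ) (unq B) = exG a i j (Finsupp.single p n) B := by
      intro B
      induction B using Finsupp.induction_linear with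
      | zero => simp
      | add b c hb hc => rw [map_add, map_add, smul_add, hb, hc, map_add]
      | single q m =>
        rw [unq_single, exG_single]
        change n • (Finsupp.single _ _).mapDomain Φ = _
        rw [Finsupp.mapDomain_single, Finsupp.smul_single, smul_eq_mul]
    rw [← h2]
    exact h1

/-- the push-forward of an exterior product -/
theorem exG_map {M : Type} [Field M] [Algebra k M] {a : ∀ l, Place k (L l)} {i j : ι}
    (g₁ : Place k M → Place k (L i)) (g₂ : Place k M → Place k (L j)) (A B : Place k M →₀ ℤ) :
    (exq A B).mapDomain (fun b : Bool → Place k M =>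
      Function.update (Function.update a i (g₁ (b false))) j (g₂ (b true))) =
        exG a i j (A.mapDomain g₁) (B.mapDomain g₂) := by
  let W : ((Bool → Place k M) →₀ ℤ) →+ ((∀ l, Place k (L l)) →₀ ℤ) :=
    Finsupp.mapDomain.addMonoidHom (fun b : Bool → Place k M =>
      Function.update (Function.update a i (g₁ (b false))) j (g₂ (b true)))
  change W (exq A B) = _
  induction A using Finsupp.induction_linear with
  | zero => simp
  | add a b ha hb =>
    rw [map_add, AddMonoidHom.add_apply, map_add, ha, hb, Finsupp.mapDomain_add, map_add,
      AddMonoidHom.add_apply]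
  | single p m =>
    induction B using Finsupp.induction_linear with
    | zero => simp
    | add a b ha hb => rw [map_add, map_add, ha, hb, Finsupp.mapDomain_add, map_add]
    | single q n =>
      rw [exq_single, Finsupp.mapDomain_single, Finsupp.mapDomain_single, exG_single]
      exact Finsupp.mapDomain_single

end Two

end Pool.Agent.FPZ
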