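import Pool.Agent.FPZ.Ell4

/-!
# Zero-cycles on products of elliptic curves are spanned by cycles of genus four
-/

set_option autoImplicit false

noncomputable section

namespace Pool.Agent.FPZ

open Pool.Agent.ZCyc Pool.Agent.Dess Pool.Agent.Dess4 Polynomial IntermediateField Module
open scoped Classical

namespace HypField

variable {k F : Type} [Field k] [Field F] [Algebra k F] {f : k[X]} {x y : F}

theorem hom_ext (h : HypField f x y) {M : Type} [Field M] [Algebra k M] {φ ψ : F →ₐ[k] M}
    (hx : φ x = ψ x) (hy : φ y = ψ y) (z : F) : φ z = ψ z := by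
  have hz : z ∈ adjoin k {x, y} := by
    rw [h.gen]
    exact mem_top
  induction hz using adjoin_induction with
  | mem w hw =>
    rcases hw with rfl | hw
    · exact hx
    · rw [Set.mem_singleton_iff] at hw
      subst hw
      exact hy
  | algebraMap c => rw [AlgHom.commutes, AlgHom.commutes]
  | add u v _ _ hu hv => rw [map_add, map_add, hu, hv]
  | inv u _ hu => rw [map_inv₀, map_inv₀, hu]
  | mul u v _ _ hu hv => rw [map_mul, map_mul, hu, hv]

variable [IsAlgClosed k] [CharZero k]

theorem invol_sum (h : HypField f x y) (hodd : Odd f.natDegree) (hsep : f.Separable)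
    {σ : F ≃ₐ[k] F} (hσx : σ x = x) (hσy : σ y = -y) {o : Place k F} (ho : x ∉ o.ring)
    (v : Place k F) : unq (Finsupp.single v 1 + Finsupp.single (v.map σ) 1 -
      Finsupp.single o 2) ∈ RatEq (k := k) fun _ : Unit => F := by
  by_cases hv : x ∈ v.ring
  · have h1 := h.invol_div hodd hsep hσx hσy ho hv
    have e : Finsupp.single (v.map σ) (1 : ℤ) - (Finsupp.single o 2 + Finsupp.single v (-1)) =
        Finsupp.single v 1 + Finsupp.single (v.map σ) 1 - Finsupp.single o 2 := by
      rw [Finsupp.single_neg]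
      abel
    rwa [e] at h1
  · have h1 : x ∉ (v.map σ).ring := by
      rw [Place.mem_map]
      have : σ.symm x = x := by
        conv_lhs => rw [← hσx]
        exact σ.symm_apply_apply x
      rwa [this]
    rw [h.inf_unique hodd h1 ho, h.inf_unique hodd hv ho]
    have e : Finsupp.single o (1 : ℤ) + Finsupp.single o 1 - Finsupp.single o 2 = 0 := by
      rw [← Finsupp.single_add, one_add_one_eq_two, sub_self]
    rw [e, map_zero]
    exact zero_mem _

end HypField

section Ell

variable {k : Type} [Field k] [IsAlgClosed k] [CharZero k] {ι : Type} {L : ι → Type}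
  [∀ i, Field (L i)] [∀ i, Algebra k (L i)]

/-- the mixed differences on a product of two elliptic curves -/
theorem ell_symbol {T : AddSubgroup ((∀ i, Place k (L i)) →₀ ℤ)} (hT : RatEq L ≤ T)
    (hsat : ∀ (n : ℤ) (z : (∀ i, Place k (L i)) →₀ ℤ), n ≠ 0 → n • z ∈ T → z ∈ T)
    (hall : ∀ w, GenusFP 4 L w → w ∈ T) {i j : ι} (hij : i ≠ j) {l m : k} (hl : Leg (L i) l)
    (hm : Leg (L j) m) (hlm : l ≠ m) (a : ∀ l, Place k (L l)) (p : Place k (L i))
    (q : Place k (L j)) :
    Finsupp.single a (1 : ℤ) - Finsupp.single (Function.update a i p) 1 -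
      Finsupp.single (Function.update a j q) 1 +
      Finsupp.single (Function.update (Function.update a i p) j q) 1 ∈ T := by
  have htor : torGroup L ≤ T := by
    rintro z ⟨n, hn, hz⟩
    refine hsat n z (by exact_mod_cast hn.ne') ?_
    rw [natCast_zsmul]
    exact hT hz
  obtain ⟨hl0, hl1, x₁, y₁, h₁⟩ := hl
  obtain ⟨hm0, hm1, x₂, y₂, h₂⟩ := hm
  obtain ⟨M, _, _, φ₁, φ₂, σ, g, X', Y', hg5, hgs, hM, -, hσ₁, hσx, hσy⟩ :=
    exists_two hl0 hl1 hm0 hm1 hlm h₁ h₂
  have hMc := hM.curve
  have hodd : Odd g.natDegree := by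
    rw [hg5]
    decide
  have hodd₂ : Odd (leg m).natDegree := by
    rw [leg_degree]
    decide
  obtain ⟨g₁, hg₁⟩ := exists_proj h₁.curve hMc φ₁
  obtain ⟨g₂, hg₂⟩ := exists_proj h₂.curve hMc φ₂
  let Θ : (Bool → Place k M) → ∀ l, Place k (L l) := fun b =>
    Function.update (Function.update a i (g₁ (b false))) j (g₂ (b true))
  have hΘ : IsMor Θ := by
    intro l
    by_cases hl : l = j
    · subst hl
      right
      refine ⟨true, φ₂, fun b => ?_⟩
      simp only [Θ, Function.update_self]
      exact (hg₂ (b true)).symm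
    · by_cases hl' : l = i
      · subst hl'
        right
        refine ⟨false, φ₁, fun b => ?_⟩
        simp only [Θ, Function.update_self, Function.update_of_ne hl]
        exact (hg₁ (b false)).symm
      · left
        refine ⟨a l, fun b => ?_⟩
        simp only [Θ, Function.update_of_ne hl, Function.update_of_ne hl']
  let W : ((Bool → Place k M) →₀ ℤ) →+ ((∀ i, Place k (L i)) →₀ ℤ) :=
    Finsupp.mapDomain.addMonoidHom Θ
  have hRat : RatEq (k := k) (fun _ : Bool => M) ≤ T.comap W := by
    intro z hz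
    rw [AddSubgroup.mem_comap]
    exact hT (map_mem Θ hΘ hz)
  have hsq : ∀ p q : Place k M, square p q ∈ T.comap W := by
    refine hM.square_mem hodd hgs hRat ?_ ?_
    · intro n z hn hz
      rw [AddSubgroup.mem_comap, map_zsmul] at hz
      rw [AddSubgroup.mem_comap]
      exact hsat n _ hn hz
    · rintro w ⟨N, _, _, φ, Ψ, K, p', q', hN, -, hΨ, -, -, hK, hdeg, rfl⟩
      rw [AddSubgroup.mem_comap]
      have hne : Nonempty (Bool → Place k N) := by
        obtain ⟨V, -⟩ := exists_ext hMc hN φ p'
        exact ⟨fun _ => V⟩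
      refine hall _ ⟨N, _, _, K, Θ ∘ (fun a b => Ψ (a b)), hN, hK, ?_, ?_, ?_⟩
      · rw [hdeg, hg5]
        norm_num
      · exact IsMor.comp (fun b => Or.inr ⟨b, φ, fun a => hΨ (a b)⟩) hΘ
      · change ((fp K).mapDomain _).mapDomain Θ = _
        rw [Finsupp.mapDomain_comp]
  have hpol : ∀ A B : Place k M →₀ ℤ, dgq A = 0 → dgq B = 0 →
      exG a i j (A.mapDomain g₁) (B.mapDomain g₂) +
        exG a i j (B.mapDomain g₁) (A.mapDomain g₂) ∈ T := by
    intro A B hA hB
    have h3 := symmetric_of_square (T := T.comap W) hRat hsq (albKer_exq hA hB)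
    rw [swap_exq, AddSubgroup.mem_comap, map_add] at h3
    rw [← exG_map, ← exG_map]
    exact h3
  obtain ⟨V, hV⟩ := exists_ext h₁.curve hMc φ₁ (a i)
  obtain ⟨V', hV'⟩ := exists_ext h₁.curve hMc φ₁ p
  obtain ⟨U, hU⟩ := exists_ext h₂.curve hMc φ₂ (a j)
  obtain ⟨U', hU'⟩ := exists_ext h₂.curve hMc φ₂ q
  have eV : g₁ V = a i := Place.ext ((hg₁ V).symm.trans hV)
  have eV' : g₁ V' = p := Place.ext ((hg₁ V').symm.trans hV')
  have eU : g₂ U = a j := Place.ext ((hg₂ U).symm.trans hU)
  have eU' : g₂ U' = q := Place.ext ((hg₂ U').symm.trans hU')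
  have e1 : ∀ v : Place k M, g₁ (v.map σ) = g₁ v := by
    intro v
    apply Place.ext
    rw [← hg₁, ← hg₁]
    ext z
    rw [ValuationSubring.mem_comap, ValuationSubring.mem_comap, Place.mem_map]
    change σ.symm (φ₁ z) ∈ _ ↔ φ₁ z ∈ _
    have : σ.symm (φ₁ z) = φ₁ z := by
      conv_lhs => rw [← hσ₁ z]
      exact σ.symm_apply_apply _
    rw [this]
  obtain ⟨τ, hτx, hτy⟩ := h₂.invol hodd₂
  have hcomm : ∀ z : L j, σ (φ₂ z) = φ₂ (τ z) := by
    intro z
    refine h₂.hom_ext (φ := (σ : M →ₐ[k] M).comp φ₂) (ψ := φ₂.comp (τ : L j →ₐ[k] L j)) ?_ ?_ z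
    · change σ (φ₂ x₂) = φ₂ (τ x₂)
      rw [hσx, hτx]
    · change σ (φ₂ y₂) = φ₂ (τ y₂)
      rw [hσy, hτy, map_neg]
  have e2 : ∀ v : Place k M, g₂ (v.map σ) = (g₂ v).map τ := by
    intro v
    apply Place.ext
    rw [← hg₂]
    ext z
    rw [ValuationSubring.mem_comap, Place.mem_map, Place.mem_map, ← hg₂,
      ValuationSubring.mem_comap]
    change σ.symm (φ₂ z) ∈ _ ↔ φ₂ (τ.symm z) ∈ _
    have : σ.symm (φ₂ z) = φ₂ (τ.symm z) := by
      rw [AlgEquiv.symm_apply_eq, hcomm, AlgEquiv.apply_symm_apply]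
    rw [this]
  set A : Place k M →₀ ℤ := Finsupp.single V 1 + Finsupp.single (V.map σ) 1 -
    (Finsupp.single V' 1 + Finsupp.single (V'.map σ) 1) with hA
  set B : Place k M →₀ ℤ := Finsupp.single U 1 - Finsupp.single U' 1 with hB
  have hdA : dgq A = 0 := by
    rw [hA, map_sub, map_add, map_add, dgq_single, dgq_single, dgq_single, dgq_single]
    norm_num
  have hdB : dgq B = 0 := by
    rw [hB, map_sub, dgq_single, dgq_single, sub_self]
  have hsub : ∀ (g : Place k M → Place k (L i)) (A B : Place k M →₀ ℤ),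
      (A - B).mapDomain g = A.mapDomain g - B.mapDomain g := fun g A B =>
    map_sub (Finsupp.mapDomain.addMonoidHom (M := ℤ) g) A B
  have hsub' : ∀ (g : Place k M → Place k (L j)) (A B : Place k M →₀ ℤ),
      (A - B).mapDomain g = A.mapDomain g - B.mapDomain g := fun g A B =>
    map_sub (Finsupp.mapDomain.addMonoidHom (M := ℤ) g) A B
  have hA1 : A.mapDomain g₁ = (2 : ℤ) • (Finsupp.single (a i) 1 - Finsupp.single p 1) := by
    rw [hA, hsub, Finsupp.mapDomain_add, Finsupp.mapDomain_add, Finsupp.mapDomain_single,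
      Finsupp.mapDomain_single, Finsupp.mapDomain_single, Finsupp.mapDomain_single, e1, e1, eV,
      eV']
    abel
  have hB2 : B.mapDomain g₂ = Finsupp.single (a j) 1 - Finsupp.single q 1 := by
    rw [hB, hsub', Finsupp.mapDomain_single, Finsupp.mapDomain_single, eU, eU']
  have hA2 : unq (A.mapDomain g₂) ∈ torGroup (k := k) fun _ : Unit => L j := by
    obtain ⟨o, ho⟩ := h₂.exists_inf
    have h3 := h₂.invol_sum hodd₂ (leg_separable hm0 hm1) hτx hτy ho (g₂ V)
    have h4 := h₂.invol_sum hodd₂ (leg_separable hm0 hm1) hτx hτy ho (g₂ V')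
    have h5 := sub_mem h3 h4
    rw [← map_sub] at h5
    apply ratEq_le_torGroup
    convert h5 using 2
    rw [hA, hsub', Finsupp.mapDomain_add, Finsupp.mapDomain_add, Finsupp.mapDomain_single,
      Finsupp.mapDomain_single, Finsupp.mapDomain_single, Finsupp.mapDomain_single, e2, e2]
    abel
  have h3 := hpol A B hdA hdB
  have h4 := htor (exG_right (a := a) (i := i) (B.mapDomain g₁) hA2)
  have h5 := sub_mem h3 h4
  rw [add_sub_cancel_right, hA1, hB2, map_zsmul, AddMonoidHom.zsmul_apply] at h5
  have h6 := hsat 2 _ two_ne_zero h5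
  have h7 : exG a i j (Finsupp.single (a i) 1 - Finsupp.single p 1)
      (Finsupp.single (a j) 1 - Finsupp.single q 1) =
        Finsupp.single a (1 : ℤ) - Finsupp.single (Function.update a i p) 1 -
          Finsupp.single (Function.update a j q) 1 +
          Finsupp.single (Function.update (Function.update a i p) j q) 1 := by
    simp only [map_sub, AddMonoidHom.sub_apply, exG_single, mul_one]
    have u1 : Function.update (Function.update a i (a i)) j (a j) = a := by
      rw [Function.update_eq_self, Function.update_eq_self]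
    have u2 : Function.update (Function.update a i (a i)) j q = Function.update a j q := by
      rw [Function.update_eq_self]
    have u3 : Function.update (Function.update a i p) j (a j) = Function.update a i p := by
      rw [Function.update_comm hij, Function.update_eq_self]
    rw [u1, u2, u3]
    abel
  rwa [h7] at h6

/-- a subgroup which is closed under division and contains the cycles rationally equivalent to
zero and the images of the cycles of Faber and Pandharipande of curves of genus four contains the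
kernel of the Albanese map of a product of elliptic curves -/
theorem ell_mem [Fintype ι] (hL : ∀ i, Elliptic k (L i))
    {T : AddSubgroup ((∀ i, Place k (L i)) →₀ ℤ)} (hT : RatEq L ≤ T)
    (hsat : ∀ (n : ℤ) (z : (∀ i, Place k (L i)) →₀ ℤ), n ≠ 0 → n • z ∈ T → z ∈ T)
    (hall : ∀ w, GenusFP 4 L w → w ∈ T) {z : (∀ i, Place k (L i)) →₀ ℤ} (hz : AlbKer L z) :
    z ∈ T := by
  refine of_symbols (T := T) hT ?_ hz
  intro i j hij a p q
  obtain ⟨f₁, x₁, y₁, hd₁, hs₁, h₁⟩ := hL i
  obtain ⟨f₂, x₂, y₂, hd₂, hs₂, h₂⟩ := hL j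
  obtain ⟨l, hl⟩ := exists_leg h₁ hd₁ hs₁
  obtain ⟨m, hm⟩ := exists_leg h₂ hd₂ hs₂
  obtain ⟨m', hne, hm'⟩ := hm.ne l
  exact ell_symbol hT hsat hall hij hl hm' hne.symm a p q

/-- **Genus four.** A multiple of every zero-cycle in the kernel of the Albanese map of a product of
elliptic curves is a combination of images of the cycles of Faber and Pandharipande of curves of
genus four. -/
theorem generation_ell [Fintype ι] (hL : ∀ i, Elliptic k (L i))
    {z : (∀ i, Place k (L i)) →₀ ℤ} (hz : AlbKer L z) :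
    ∃ m : ℕ, 0 < m ∧ m • z ∈ RatEq L ⊔ AddSubgroup.closure {w | GenusFP 4 L w} := by
  refine ell_mem hL (T := sat (RatEq L ⊔ AddSubgroup.closure {w | GenusFP 4 L w}))
    (le_sup_left.trans (le_sat _)) (fun n z hn h => sat_of_zsmul hn h) ?_ hz
  intro w hw
  exact le_sat _ ((le_sup_right : _ ≤ RatEq L ⊔ _) (AddSubgroup.subset_closure hw))

end Ell

end Pool.Agent.FPZ
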