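import Pool.Agent.FPZ.Hir7
import Pool.Agent.Dess.CRT

/-!
# The points of a smooth affine plane curve
-/

set_option autoImplicit false

noncomputable section

namespace Pool.Agent.FPZ

open Pool.Agent.ZCyc Pool.Agent.Dess Pool.Agent.Dess4 Polynomial
open scoped Classical

variable {k F : Type} [Field k] [IsAlgClosed k] [CharZero k] [Field F] [Algebra k F]

omit [IsAlgClosed k] [CharZero k] in
/-- a root of a monic polynomial with coefficients in the local ring -/
theorem monic_mem {v : Place k F} {z : F} {a : ℕ} {b : ℕ → F}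
    (hb : ∀ i ∈ Finset.Icc 1 a, b i ∈ v.ring)
    (h : z ^ a + ∑ i ∈ Finset.Icc 1 a, b i * z ^ (a - i) = 0) : z ∈ v.ring := by
  by_contra hz
  have hz0 : z ≠ 0 := by
    rintro rfl
    exact hz (zero_mem _)
  have hzi : v.Vanishes z⁻¹ := by
    rw [Place.vanishes_iff_or, inv_inv]
    exact Or.inr hz
  have h1 : 1 + ∑ i ∈ Finset.Icc 1 a, b i * z⁻¹ ^ i = 0 := by
    have h2 : (z ^ a) * (1 + ∑ i ∈ Finset.Icc 1 a, b i * z⁻¹ ^ i) = 0 := by
      rw [mul_add, mul_one, Finset.mul_sum, ← h]
      congr 1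
      refine Finset.sum_congr rfl fun i hi => ?_
      rw [Finset.mem_Icc] at hi
      have h3 : z ^ a = z ^ (a - i) * z ^ i := by rw [← pow_add, Nat.sub_add_cancel hi.2]
      rw [h3, inv_pow]
      have := pow_ne_zero i hz0
      field_simp
    exact (mul_eq_zero.1 h2).resolve_left (pow_ne_zero _ hz0)
  have h2 : v.Vanishes (∑ i ∈ Finset.Icc 1 a, b i * z⁻¹ ^ i) := by
    have h3 : ∀ s : Finset ℕ, s ⊆ Finset.Icc 1 a → v.Vanishes (∑ i ∈ s, b i * z⁻¹ ^ i) := by
      intro s
      induction s using Finset.induction_on with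
      | empty =>
        intro _
        rw [Finset.sum_empty]
        exact v.vanishes_zero
      | insert j s hj ih =>
        intro hs
        rw [Finset.sum_insert hj]
        have hj' := hs (Finset.mem_insert_self j s)
        refine Place.Vanishes.add v ?_ (ih fun i hi => hs (Finset.mem_insert_of_mem hi))
        refine Place.Vanishes.mul' v ?_ (hb j hj')
        have : j ≠ 0 := by
          rw [Finset.mem_Icc] at hj'
          omega
        exact Place.Vanishes.pow v hzi this
    exact h3 _ (Finset.Subset.refl _)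
  have h3 : (algebraMap k F 1) = -∑ i ∈ Finset.Icc 1 a, b i * z⁻¹ ^ i := by
    rw [map_one]
    linear_combination h1
  have h4 := Place.Vanishes.neg v h2
  rw [← h3] at h4
  exact v.const_unit one_ne_zero h4

omit [IsAlgClosed k] [CharZero k] in
/-- the ring `k[x, y]` contains all functions which are integral over `k[x]` -/
theorem closed_mem {x y : F} (hgen : IntermediateField.adjoin k {x, y} = ⊤)
    (hcl : IsIntegrallyClosed (Algebra.adjoin k {x, y})) {b : F}
    (hb : IsIntegral (Algebra.adjoin k {x}) b) : b ∈ Algebra.adjoin k {x, y} := by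
  have hfr : IsFractionRing (Algebra.adjoin k {x, y}) F := by
    apply IsFractionRing.of_field
    intro z
    have hz : z ∈ IntermediateField.adjoin k {x, y} := by
      rw [hgen]
      exact IntermediateField.mem_top
    obtain ⟨r, hr, s, hs, h⟩ := IntermediateField.mem_adjoin_iff_div.1 hz
    exact ⟨⟨r, hr⟩, ⟨s, hs⟩, h⟩
  have hle : Algebra.adjoin k {x} ≤ Algebra.adjoin k {x, y} :=
    Algebra.adjoin_mono (by simp)
  have hb' : IsIntegral (Algebra.adjoin k {x, y}) b := by
    obtain ⟨p, hp, hp'⟩ := hb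
    refine ⟨p.map (Subalgebra.inclusion hle : _ →+* _), hp.map _, ?_⟩
    rw [eval₂_map]
    exact hp'
  obtain ⟨c, hc⟩ := (IsIntegrallyClosed.isIntegral_iff (K := F)).1 hb'
  rw [← hc]
  exact c.2

omit [IsAlgClosed k] [CharZero k] in
/-- the value of a polynomial -/
theorem adjoin_at {v w : Place k F} {x y : F} {c d : k} (hvx : v.At x c) (hwx : w.At x c)
    (hvy : v.At y d) (hwy : w.At y d) {b : F} (hb : b ∈ Algebra.adjoin k {x, y}) :
    ∃ e : k, v.At b e ∧ w.At b e := by
  induction hb using Algebra.adjoin_induction with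
  | mem z hz =>
    rcases hz with rfl | rfl
    · exact ⟨c, hvx, hwx⟩
    · exact ⟨d, hvy, hwy⟩
  | algebraMap e => exact ⟨e, Place.at_const e, Place.at_const e⟩
  | add f g _ _ hf hg =>
    obtain ⟨e, h1, h2⟩ := hf
    obtain ⟨e', h3, h4⟩ := hg
    exact ⟨e + e', h1.add h3, h2.add h4⟩
  | mul f g _ _ hf hg =>
    obtain ⟨e, h1, h2⟩ := hf
    obtain ⟨e', h3, h4⟩ := hg
    exact ⟨e * e', h1.mul h3, h2.mul h4⟩

/-- **The coordinates separate the points of a smooth affine curve.** -/
theorem aff_inj (hF : IsCurve k F) {x y : F} (hx : Transcendental k x)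
    (hcl : ∀ b, IsIntegral (Algebra.adjoin k {x}) b → b ∈ Algebra.adjoin k {x, y})
    {v w : Place k F} {c d : k} (hvx : v.At x c) (hwx : w.At x c) (hvy : v.At y d)
    (hwy : w.At y d) : v = w := by
  by_contra hne
  obtain ⟨b, hb, hb'⟩ := crt hF hx {v, w} (by
    intro u hu
    rcases Finset.mem_insert.1 hu with rfl | hu
    · exact hvx.mem
    · rw [Finset.mem_singleton.1 hu]
      exact hwx.mem) 1 (fun u => if u = v then 0 else 1) (by
    intro u _
    split_ifs
    · exact zero_mem _
    · exact one_mem _)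
  obtain ⟨e, h1, h2⟩ := adjoin_at hvx hwx hvy hwy (hcl b hb)
  obtain ⟨π, hπ⟩ := exists_unif hF v
  obtain ⟨ϖ, hϖ⟩ := exists_unif hF w
  have h3 := hb' v (by simp) π hπ
  rw [if_pos rfl, sub_zero, pow_one] at h3
  have h4 : v.At b 0 := by
    rw [Place.at_zero_iff]
    have := Place.Vanishes.mul v hπ.2.1 h3
    rwa [mul_div_cancel₀ _ hπ.1] at this
  have h5 := hb' w (by simp) ϖ hϖ
  rw [if_neg (Ne.symm hne), pow_one] at h5
  have h6 : w.At b 1 := by
    have := Place.Vanishes.mul w hϖ.2.1 h5
    rw [mul_div_cancel₀ _ hϖ.1] at this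
    rwa [Place.At, map_one]
  have h7 := h1.unique h4
  have h8 := h2.unique h6
  rw [h7] at h8
  exact zero_ne_one h8

/-- a function which vanishes and is not a uniformizer is divisible by the square of a
uniformizer -/
theorem sq_dvd (hF : IsCurve k F) {v : Place k F} {π z : F} (hπ : IsUnif v π)
    (hz : v.Vanishes z) (hz' : ¬ IsUnif v z) : z / π ^ 2 ∈ v.ring := by
  by_cases hz0 : z = 0
  · rw [hz0, zero_div]
    exact zero_mem _
  obtain ⟨m, hm⟩ := exists_hasOrd hF v hz0
  have h1 := ord_pos_of_vanishes hz0 hm hz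
  have h2 : m ≠ 1 := by
    rintro rfl
    apply hz'
    obtain ⟨h3, h4⟩ := deg_ord hπ hm
    rw [zpow_one] at h3 h4
    refine ⟨hz0, hz, fun g hg => ?_⟩
    have h5 := mul_mem (hπ.2.2 g hg) h4
    have h6 : g / π * (z / π)⁻¹ = g / z := by
      have := hπ.1
      field_simp
    rwa [h6] at h5
  obtain ⟨h3, h4⟩ := deg_ord hπ hm
  obtain ⟨l, hl⟩ := Int.eq_ofNat_of_zero_le (show 0 ≤ m - 2 by omega)
  have h5 : z / π ^ 2 = z / π ^ m * π ^ l := by
    have h6 : π ^ m = π ^ l * π ^ 2 := by
      rw [← zpow_natCast, ← zpow_natCast, ← zpow_add₀ hπ.1]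
      congr 1
      push_cast
      omega
    rw [h6]
    have := hπ.1
    field_simp
  rw [h5]
  exact mul_mem h3 (pow_mem hπ.2.1.mem l)

/-- **One of the coordinates is a local parameter at every point of a smooth affine curve.** -/
theorem aff_imm (hF : IsCurve k F) {x y : F} (hx : Transcendental k x)
    (hcl : ∀ b, IsIntegral (Algebra.adjoin k {x}) b → b ∈ Algebra.adjoin k {x, y})
    {v : Place k F} {c d : k} (hvx : v.At x c) (hvy : v.At y d) :
    IsUnif v (x - algebraMap k F c) ∨ IsUnif v (y - algebraMap k F d) := by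
  by_contra hcon
  push Not at hcon
  obtain ⟨π, hπ⟩ := exists_unif hF v
  have h1 := sq_dvd hF hπ hvx hcon.1
  have h2 := sq_dvd hF hπ hvy hcon.2
  have key : ∀ b ∈ Algebra.adjoin k {x, y}, b ∈ v.ring ∧ ∃ e : k,
      (b - algebraMap k F e) / π ^ 2 ∈ v.ring := by
    intro b hb
    induction hb using Algebra.adjoin_induction with
    | mem z hz =>
      rcases hz with rfl | rfl
      · exact ⟨hvx.mem, c, h1⟩
      · exact ⟨hvy.mem, d, h2⟩
    | algebraMap e => exact ⟨v.const_mem e, e, by rw [sub_self, zero_div]; exact zero_mem _⟩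
    | add f g _ _ hf hg =>
      obtain ⟨hf1, e, hf2⟩ := hf
      obtain ⟨hg1, e', hg2⟩ := hg
      refine ⟨add_mem hf1 hg1, e + e', ?_⟩
      have h3 : (f + g - algebraMap k F (e + e')) / π ^ 2 =
          (f - algebraMap k F e) / π ^ 2 + (g - algebraMap k F e') / π ^ 2 := by
        rw [map_add]
        ring
      rw [h3]
      exact add_mem hf2 hg2
    | mul f g _ _ hf hg =>
      obtain ⟨hf1, e, hf2⟩ := hf
      obtain ⟨hg1, e', hg2⟩ := hg
      refine ⟨mul_mem hf1 hg1, e * e', ?_⟩
      have h3 : (f * g - algebraMap k F (e * e')) / π ^ 2 =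
          (f - algebraMap k F e) / π ^ 2 * g +
            algebraMap k F e * ((g - algebraMap k F e') / π ^ 2) := by
        rw [map_mul]
        ring
      rw [h3]
      exact add_mem (mul_mem hf2 hg1) (mul_mem (v.const_mem e) hg2)
  obtain ⟨b, hb, hb'⟩ := crt hF hx {v} (by
    intro u hu
    rw [Finset.mem_singleton.1 hu]
    exact hvx.mem) 2 (fun _ => π) (by
    intro u hu
    rw [Finset.mem_singleton.1 hu]
    exact hπ.2.1.mem)
  have h3 := hb' v (Finset.mem_singleton_self v) π hπ
  obtain ⟨-, e, h4⟩ := key b (hcl b hb)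
  have h5 : (π - algebraMap k F e) / π ^ 2 ∈ v.ring := by
    have := sub_mem h4 h3
    have h6 : (b - algebraMap k F e) / π ^ 2 - (b - π) / π ^ 2 =
        (π - algebraMap k F e) / π ^ 2 := by
      ring
    rwa [h6] at this
  have h6 : v.Vanishes (π - algebraMap k F e) := by
    have := Place.Vanishes.mul v (Place.Vanishes.pow v hπ.2.1 two_ne_zero) h5
    rwa [mul_div_cancel₀ _ (pow_ne_zero 2 hπ.1)] at this
  have h7 : e = 0 := by
    have h8 : v.At π e := h6
    have h9 : v.At π 0 := Place.at_zero_iff.2 hπ.2.1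
    exact h8.unique h9
  rw [h7, map_zero, sub_zero] at h5
  have h8 := Place.Vanishes.mul v hπ.2.1 h5
  have h9 : π * (π / π ^ 2) = algebraMap k F 1 := by
    rw [map_one]
    have := hπ.1
    field_simp
  rw [h9] at h8
  exact v.const_unit one_ne_zero h8

end Pool.Agent.FPZ
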