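import Pool.Agent.FPZ.AbDer
import Pool.Agent.FPZ.Double
import Pool.Agent.FPZ.Hir8

/-!
# Functions with nondegenerate critical points and two given poles
-/

set_option autoImplicit false

noncomputable section

namespace Pool.Agent.FPZ

open Pool.Agent.ZCyc Pool.Agent.Dess Pool.Agent.Dess4 Polynomial
open scoped Classical

variable {k F : Type} [Field k] [IsAlgClosed k] [CharZero k] [Field F] [Algebra k F]

omit [IsAlgClosed k] [CharZero k] in
/-- there is at most one constant `c` such that `f + c g` is regular at a pole of `g` -/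
theorem pole_pencil {v : Place k F} {f g : F} (hg : g ∉ v.ring) {c d : k}
    (hc : f + algebraMap k F c * g ∈ v.ring) (hd : f + algebraMap k F d * g ∈ v.ring) : c = d := by
  by_contra hne
  apply hg
  have h1 := sub_mem hc hd
  have h2 : f + algebraMap k F c * g - (f + algebraMap k F d * g) =
      algebraMap k F (c - d) * g := by
    rw [map_sub]
    ring
  rw [h2] at h1
  have h3 := mul_mem (v.const_mem (c - d)⁻¹) h1
  rwa [← mul_assoc, ← map_mul, inv_mul_cancel₀ (sub_ne_zero.2 hne), map_one, one_mul] at h3

/-- the derivative of a function which is divisible by the square of the local parameter -/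
theorem der_sq (hF : IsCurve k F) {v : Place k F} {t : F} (ht : IsUnif v t)
    (D : Derivation k F F) (hD : D t = 1) {z : F} (hz : z / t ^ 2 ∈ v.ring) :
    v.Vanishes (D z) := by
  have ht0 := ht.1
  set r := z / t ^ 2 with hr
  have h1 : z = t ^ 2 * r := by
    rw [hr, mul_div_cancel₀ _ (pow_ne_zero 2 ht0)]
  have h2 : D z = t * (2 * r + t * D r) := by
    rw [h1, Derivation.leibniz, Derivation.leibniz_pow, hD, smul_eq_mul, smul_eq_mul,
      smul_eq_mul, nsmul_eq_mul]
    push_cast
    ring
  rw [h2]
  refine Place.Vanishes.mul v ht.2.1 (add_mem (mul_mem ?_ hz) (mul_mem ht.2.1.mem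
    (der_reg hF ht D hD hz)))
  have := v.const_mem (2 : k)
  rwa [map_ofNat] at this

/-- **A function whose poles are two given points, and whose other critical points are not
degenerate.** -/
theorem exists_nondeg (hF : IsCurve k F) {p q : Place k F} (hpq : p ≠ q) :
    ∃ f : F, (∀ v, f ∉ v.ring ↔ v = p ∨ v = q) ∧
      ∀ (v : Place k F) (a : k) (m : ℤ), v.At f a → HasOrd v (f - algebraMap k F a) m →
        m = 1 ∨ m = 2 := by
  -- a function with the poles `p` and `q`
  obtain ⟨w, -, -, -, hwp, hwreg⟩ := single_pole_ord hF p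
  obtain ⟨u, -, -, -, huq, hureg⟩ := single_pole_ord hF q
  set g := w + u with hg
  have hgp : g ∉ p.ring := by
    intro h
    apply hwp
    have := sub_mem h (hureg p hpq)
    rwa [hg, add_sub_cancel_right] at this
  have hgq : g ∉ q.ring := by
    intro h
    apply huq
    have := sub_mem h (hwreg q hpq.symm)
    rwa [hg, add_sub_cancel_left] at this
  have hgreg : ∀ v, v ≠ p → v ≠ q → g ∈ v.ring := fun v h1 h2 =>
    add_mem (hwreg v h1) (hureg v h2)
  have hgt : Transcendental k g := transc_of_notMem hgp
  -- its critical points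
  have hfin : {v : Place k F | ∃ c, v.At g c ∧ ¬ IsUnif v (g - algebraMap k F c)}.Finite := by
    refine ((finite_crit hF hgt).biUnion fun c _ => finite_at hF hgt c).subset ?_
    rintro v ⟨c, hc, hc'⟩
    rw [Set.mem_iUnion₂]
    exact ⟨c, ⟨v, hc, hc'⟩, hc⟩
  choose τ hτ using exists_unif hF
  obtain ⟨h, hint, hh⟩ := crt hF hgt hfin.toFinset (by
    intro v hv
    obtain ⟨c, hc, -⟩ := hfin.mem_toFinset.1 hv
    exact hc.mem) 2 τ (fun v _ => (hτ v).2.1.mem)
  have hhreg : ∀ v : Place k F, g ∈ v.ring → h ∈ v.ring := fun v hv => int_mem v hv hint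
  obtain ⟨D, w₀, hD⟩ := exists_der hF
  have hDg := der_ne hF hD hgt
  set ρ := -(D h / D g) with hρ
  -- the exceptional constants
  have hbad : {c : k | (∃ v : Place k F, v.At ρ c ∧ Transcendental k ρ ∧
        ¬ IsUnif v (ρ - algebraMap k F c)) ∨ ρ = algebraMap k F c ∨
      h + algebraMap k F c * g ∈ p.ring ∨ h + algebraMap k F c * g ∈ q.ring}.Finite := by
    have h1 : {c : k | ∃ v : Place k F, v.At ρ c ∧ Transcendental k ρ ∧
        ¬ IsUnif v (ρ - algebraMap k F c)}.Finite := by
      by_cases hρt : Transcendental k ρ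
      · refine (finite_crit hF hρt).subset ?_
        rintro c ⟨v, h1, -, h2⟩
        exact ⟨v, h1, h2⟩
      · convert Set.finite_empty
        ext c
        simp [hρt]
    have h2 : {c : k | ρ = algebraMap k F c}.Finite := by
      apply Set.Subsingleton.finite
      intro c hc d hd
      exact (algebraMap k F).injective (hc.symm.trans hd)
    have h3 : {c : k | h + algebraMap k F c * g ∈ p.ring}.Finite := by
      apply Set.Subsingleton.finite
      intro c hc d hd
      exact pole_pencil hgp hc hd
    have h4 : {c : k | h + algebraMap k F c * g ∈ q.ring}.Finite := by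
      apply Set.Subsingleton.finite
      intro c hc d hd
      exact pole_pencil hgq hc hd
    exact h1.union (h2.union (h3.union h4))
  have : Infinite k := IsAlgClosed.instInfinite
  obtain ⟨c, hc⟩ := hbad.exists_notMem
  simp only [Set.mem_ofPred_eq, not_or] at hc
  obtain ⟨hc1, hc2, hc3, hc4⟩ := hc
  set f := h + algebraMap k F c * g with hf
  have hft : Transcendental k f := transc_of_notMem hc3
  have hfreg : ∀ v : Place k F, g ∈ v.ring → f ∈ v.ring := fun v hv =>
    add_mem (hhreg v hv) (mul_mem (v.const_mem c) hv)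
  have hpole : ∀ v, f ∉ v.ring ↔ v = p ∨ v = q := by
    intro v
    constructor
    · intro hv
      by_contra hcon
      push Not at hcon
      exact hv (hfreg v (hgreg v hcon.1 hcon.2))
    · rintro (rfl | rfl)
      · exact hc3
      · exact hc4
  refine ⟨f, hpole, ?_⟩
  intro v a m hva hm
  have hvp : v ≠ p := fun h1 => ((hpole v).2 (Or.inl h1)) hva.mem
  have hvq : v ≠ q := fun h1 => ((hpole v).2 (Or.inr h1)) hva.mem
  have hgv := hgreg v hvp hvq
  have hf0 := transc_ne (transc_sub hft a)
  have hm1 := ord_pos_of_vanishes hf0 hm hva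
  have hDt := der_ne hF hD (unif_transc (hτ v))
  set D' : Derivation k F F := (D (τ v))⁻¹ • D with hD'
  have hD't : D' (τ v) = 1 := inv_mul_cancel₀ hDt
  have hD'a : ∀ z : F, D' z = (D (τ v))⁻¹ * D z := fun z => rfl
  have hDf := der_ord hF (hτ v) D' hD't hft a hm1.ne' hm
  have hDf0 : D' f ≠ 0 := mul_ne_zero (inv_ne_zero hDt) (der_ne hF hD hft)
  have hDfe : D' f = D' h + algebraMap k F c * D' g := by
    rw [hf, map_add, Derivation.leibniz, Derivation.map_algebraMap, smul_zero, add_zero,
      smul_eq_mul]
  obtain ⟨b, hb⟩ := exists_at hF v hgv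
  by_cases hcrit : IsUnif v (g - algebraMap k F b)
  · -- `g` is not critical
    have h1 := der_ord hF (hτ v) D' hD't hgt b one_ne_zero (dc_ord_unif hcrit)
    rw [sub_self] at h1
    have hDg0 : D' g ≠ 0 := mul_ne_zero (inv_ne_zero hDt) hDg
    obtain ⟨h2, h3⟩ : D' g ∈ v.ring ∧ (D' g)⁻¹ ∈ v.ring := by
      obtain ⟨π, -, h2, h3⟩ := h1
      rw [zpow_zero, div_one] at h2 h3
      exact ⟨h2, h3⟩
    have hρe : ρ = -(D' h / D' g) := by
      rw [hρ, hD'a, hD'a, mul_div_mul_left _ _ (inv_ne_zero hDt)]
    have hρv : ρ ∈ v.ring := by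
      rw [hρe, div_eq_mul_inv]
      exact neg_mem (mul_mem (der_reg hF (hτ v) D' hD't (hhreg v hgv)) h3)
    obtain ⟨r, hr⟩ := exists_at hF v hρv
    have hDfe' : D' f = D' g * (algebraMap k F c - ρ) := by
      rw [hDfe, hρe, mul_sub, mul_neg, mul_div_cancel₀ _ hDg0]
      ring
    by_cases hrc : r = c
    · subst hrc
      have hρt : Transcendental k ρ := by
        by_contra hρt
        have h4 : IsAlgebraic k ρ := by
          unfold Transcendental at hρt
          push Not at hρt
          exact hρt
        obtain ⟨d, hd⟩ := minpoly.mem_range_of_degree_eq_one k ρ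
          (IsAlgClosed.degree_eq_one_of_irreducible k (minpoly.irreducible h4.isIntegral))
        rw [← hd] at hr
        have := hr.unique (Place.at_const d)
        rw [this] at hc2
        exact hc2 hd.symm
      have h4 : IsUnif v (ρ - algebraMap k F r) := by
        by_contra h4
        exact hc1 ⟨v, hr, hρt, h4⟩
      have h5 := ord_mul h1 (dc_ord_unif h4)
      rw [zero_add] at h5
      have h6 : D' f = -(D' g * (ρ - algebraMap k F r)) := by
        rw [hDfe']
        ring
      have h7 : HasOrd v (D' f) 1 := by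
        obtain ⟨π, hπ, h8, h9⟩ := h5
        refine ⟨π, hπ, ?_, ?_⟩
        · rw [h6, neg_div]
          exact neg_mem h8
        · rw [h6, neg_div, inv_neg]
          exact neg_mem h9
      have := hasOrd_unique hF hDf0 hDf h7
      right
      omega
    · have h4 : v.At (algebraMap k F c - ρ) (c - r) := (Place.at_const c).sub hr
      have h5 : c - r ≠ 0 := sub_ne_zero.2 (Ne.symm hrc)
      have h6 := ord_mul h1 (ord_unit_of_mem hF h4.mem (h4.inv h5).mem)
      rw [add_zero, ← hDfe'] at h6
      have := hasOrd_unique hF hDf0 hDf h6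
      left
      omega
  · -- `g` is critical
    have hvS : v ∈ hfin.toFinset := hfin.mem_toFinset.2 ⟨b, hb, hcrit⟩
    have h1 := hh v hvS (τ v) (hτ v)
    have h2 : D' h = 1 + D' (h - τ v) := by
      rw [map_sub, hD't]
      ring
    have h3 := der_sq hF (hτ v) D' hD't h1
    have h4 := der_sq hF (hτ v) D' hD't (sq_dvd hF (hτ v) hb hcrit)
    rw [map_sub, Derivation.map_algebraMap, sub_zero] at h4
    have h5 : v.At (D' f) 1 := by
      have h6 := ((Place.at_const (F := F) (v := v) (1 : k)).add (Place.at_zero_iff.2 h3)).add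
        ((Place.at_const (F := F) (v := v) c).mul (Place.at_zero_iff.2 h4))
      rw [map_one, mul_zero, add_zero, add_zero] at h6
      rw [hDfe, h2]
      exact h6
    have := hasOrd_unique hF hDf0 hDf (ord_unit_of_mem hF h5.mem (h5.inv one_ne_zero).mem)
    left
    omega

end Pool.Agent.FPZ
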