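import Pool.Agent.FPZ.Et9
import Pool.Agent.Dess4.Bel

/-!
# Galois étale coverings of the curves `y ^ 2 = x ^ n - 1`
-/

set_option autoImplicit false

noncomputable section

namespace Pool.Agent.FPZ

open Pool.Agent.ZCyc Pool.Agent.Dess Pool.Agent.Dess4 Pool.Agent.Rank22 Polynomial
  IntermediateField Module
open scoped Classical

section

variable {k F : Type} [Field k] [Field F] [Algebra k F]

/-- the image of the cycle of a Galois étale covering of the hyperelliptic curve
`y ^ 2 = r(x ^ n)` which is a Galois covering of the projective line with the coordinate `x ^ n` -/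
def EtFPof (n : ℕ) (r : k[X]) (w : (Bool → Place k F) →₀ ℤ) : Prop :=
  ∃ (M : Type) (_ : Field M) (_ : Algebra k M) (u y : M) (φ : F →ₐ[k] M)
    (Ψ : Place k M → Place k F) (K : Place k M →₀ ℤ), EtHyp (expand k n r) u y ∧
      IsGalois (adjoin k {u ^ n}) M ∧
      (∀ V, (Ψ V).ring = V.ring.comap (φ : F →+* M)) ∧ Canonical K ∧
      w = (fp K).mapDomain fun a b => Ψ (a b)

/-- **The square of two zeros.** If `p` and `q` are the only zeros of the function `g` with the
ramification `RamData`, then a multiple of `(p - q) × (p - q)` is the image of the cycle of a Galois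
étale covering of `y ^ 2 = r(x ^ n)`. -/
theorem ram_relation [IsAlgClosed k] [CharZero k] (hF : IsCurve k F) {p q : Place k F}
    (hpq : p ≠ q) {g : F} (hgt : Transcendental k g) {n : ℕ} {r : k[X]} (hR : RamData g n r)
    (hdeg : 6 ≤ n * r.natDegree) {m m' : ℕ} (hm0 : 0 < m) (hm'0 : 0 < m') (hm : HasOrd p g m)
    (hm' : HasOrd q g m') (hz : ∀ v : Place k F, v.At g 0 → v = p ∨ v = q) :
    ∃ (w : (Bool → Place k F) →₀ ℤ) (a b : ℤ), EtFPof n r w ∧ a ≠ 0 ∧ b ≠ 0 ∧
      RatTor (fun _ : Bool => F) (a • w - b • square p q) := by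
  have hg0 := transc_ne hgt
  obtain ⟨Ω, _, _, tt, hΩ⟩ := exists_algFun k
  obtain ⟨M, _, _, t, φ, U, Y, ht, hfin, hgal, hφ, hU, hY, hgen⟩ :=
    exists_galois_rad hΩ hgt (fin_adjoin hF hgt) hR.pos r
  have hE := ethyp_of_ram hfin hgal hF ht hU hY hgen hR hdeg
  have hM := hE.curve
  have hU0 := transc_ne hE.transc
  obtain ⟨π, hπ⟩ := exists_proj hF hM φ
  obtain ⟨K, hK⟩ := exists_can hM hE.transc
  obtain ⟨DU, hDU⟩ := exists_div hM hU0
  set P : Place k M →₀ ℤ := DU.mapRange (fun n => if n < 0 then 1 else 0) (by simp) with hPdef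
  have hP : ∀ v, P v = if U ∈ v.ring then 0 else 1 := by
    intro v
    rw [hPdef, Finsupp.mapRange_apply]
    by_cases hv : U ∈ v.ring
    · have := ord_nonneg (hDU v) hU0 hv
      rw [if_neg (by omega), if_pos hv]
    · have := ord_neg_of_notMem (hDU v) hv
      rw [if_pos this, if_neg hv]
  -- the zeros of `U`
  set Z : Place k M →₀ ℤ := DU + P with hZdef
  have hZ : ∀ v, Z v = if v.At U 0 then 1 else 0 := by
    intro v
    rw [hZdef, Finsupp.add_apply, hP]
    by_cases hv : U ∈ v.ring
    · rw [if_pos hv, add_zero]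
      by_cases hv0 : v.At U 0
      · have h1 := hE.etale v 0 hv0 (by
          rw [expand_eval, zero_pow hR.pos.ne']
          exact hR.eval)
        rw [map_zero, sub_zero] at h1
        rw [if_pos hv0]
        exact hasOrd_unique hM hU0 (hDU v) (dc_ord_unif h1)
      · rw [if_neg hv0]
        obtain ⟨b, hb⟩ := exists_at hM v hv
        have hb0 : b ≠ 0 := by
          rintro rfl
          exact hv0 hb
        exact hasOrd_unique hM hU0 (hDU v) (ord_unit_of_mem hM hv (hb.inv hb0).mem)
    · rw [if_neg hv, if_neg (fun h => hv h.mem)]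
      have h1 := ord_inv (dc_ord_unif (hE.etale_infty v hv))
      rw [inv_inv] at h1
      rw [hasOrd_unique hM hU0 (hDU v) h1]
      norm_num
  obtain ⟨e, he⟩ := hE.even
  have hcan := hE.can hK hP (e := e) (by omega)
  have he3 : 3 ≤ e := by
    have := hE.genus
    omega
  have hcan' : unq ((1 : ℤ) • K - ((e : ℤ) - 2) • Z) ∈ RatEq (k := k) fun _ : Unit => M := by
    have h1 := sub_mem hcan (zsmul_mem (unq_div_mem hM hU0 hDU) ((e : ℤ) - 2))
    rw [← map_zsmul, ← map_sub] at h1
    have h2 : (1 : ℤ) • K - ((e : ℤ) - 2) • Z = K - ((e : ℤ) - 2) • P - ((e : ℤ) - 2) • DU := by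
      rw [hZdef]
      module
    rwa [h2]
  obtain ⟨hfinR, -⟩ := galois_range (t := t) hfin hgal φ hφ
  set R := finrank φ.fieldRange M with hRdef
  have hR0 : 0 < R := finrank_pos
  set Y0 : Place k F →₀ ℤ := Finsupp.single p (m : ℤ) + Finsupp.single q (m' : ℤ) with hY0
  have hgp : p.At g 0 := by
    rw [Place.at_zero_iff, Place.vanishes_iff_or, ← ord_pos_iff hg0 hm]
    exact Or.inr (by exact_mod_cast hm0)
  have hgq : q.At g 0 := by
    rw [Place.at_zero_iff, Place.vanishes_iff_or, ← ord_pos_iff hg0 hm']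
    exact Or.inr (by exact_mod_cast hm'0)
  -- the push-forward of the zeros
  have hpush : (n : ℤ) • Z.mapDomain π = (R : ℤ) • Y0 := by
    ext v
    obtain ⟨S, hS, -⟩ := fibre_sum hF hM φ π hπ v
    rw [Finsupp.smul_apply, Finsupp.smul_apply, mapDomain_fibre π Z hS, smul_eq_mul, smul_eq_mul]
    have hUV : ∀ V ∈ S, (V.At U 0 ↔ v.At g 0) := by
      intro V hV
      rw [← (hS V).1 hV, ← comap_at (hπ V), hφ, ← hU]
      constructor
      · intro h1
        have := h1.pow n
        rwa [zero_pow hR.pos.ne'] at this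
      · intro h1
        obtain ⟨b, hb⟩ := exists_at hM V (mem_of_pow hR.pos h1.mem)
        have h2 := (hb.pow n).unique h1
        rwa [pow_eq_zero_iff hR.pos.ne'.symm.symm |>.1 h2] at hb
    by_cases hgv : v.At g 0
    · have hsum : ∀ l : ℤ, HasOrd v g l → (n : ℤ) * ∑ V ∈ S, Z V = (R : ℤ) * l := by
        intro l hl
        have h3 := sum_pull hF hM φ hπ hS hg0 hl (m := fun _ => (n : ℤ)) (by
          intro V hV
          have h4 := hE.etale V 0 ((hUV V hV).2 hgv) (by
            rw [expand_eval, zero_pow hR.pos.ne']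
            exact hR.eval)
          rw [map_zero, sub_zero] at h4
          have h5 := ord_pow (dc_ord_unif h4) n
          rwa [one_mul, hU, ← hφ] at h5)
        rw [Finset.sum_const, nsmul_eq_mul] at h3
        have h4 : ∑ V ∈ S, Z V = S.card := by
          rw [Finset.sum_congr rfl (g := fun _ => 1), Finset.sum_const, nsmul_eq_mul, mul_one]
          intro V hV
          rw [hZ, if_pos ((hUV V hV).2 hgv)]
        rw [h4]
        linarith
      rcases hz v hgv with rfl | rfl
      · rw [hsum _ hm, hY0, Finsupp.add_apply, Finsupp.single_eq_same,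
          Finsupp.single_eq_of_ne hpq, add_zero]
      · rw [hsum _ hm', hY0, Finsupp.add_apply, Finsupp.single_eq_same,
          Finsupp.single_eq_of_ne hpq.symm, zero_add]
    · have hvp : v ≠ p := by
        rintro rfl
        exact hgv hgp
      have hvq : v ≠ q := by
        rintro rfl
        exact hgv hgq
      rw [Finset.sum_eq_zero, hY0, Finsupp.add_apply, Finsupp.single_eq_of_ne hvp,
        Finsupp.single_eq_of_ne hvq]
      · simp
      · intro V hV
        rw [hZ, if_neg (fun h => hgv ((hUV V hV).1 h))]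
  have h1 : unq ((n : ℤ) • Z.mapDomain π - (R : ℤ) • Y0) ∈ RatEq (k := k) fun _ : Unit => F := by
    rw [hpush, sub_self, map_zero]
    exact zero_mem _
  have h2 := fp_equiv h1
  have h4 := fp_equiv hcan'
  have hΦ : IsMor (L := fun _ : Bool => M) (L' := fun _ : Bool => F) fun a b => π (a b) :=
    fun b => Or.inr ⟨b, φ, fun a => (hπ (a b)).symm⟩
  have h5 := map_tor _ hΦ h4
  refine ⟨(fp K).mapDomain fun a b => π (a b), (n : ℤ) ^ 2,
    -(((e : ℤ) - 2) ^ 2 * (R : ℤ) ^ 2 * (m * m')), ⟨M, _, _, U, Y, φ, π, K, hE,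
      by rw [hU]; exact hgal, fun V => (hπ V).symm, ⟨U, hE.transc, hK⟩, rfl⟩, ?_, ?_, ?_⟩
  · have : (0 : ℤ) < n := by exact_mod_cast hR.pos
    positivity
  · have h6 : (0 : ℤ) < (e : ℤ) - 2 := by omega
    have h7 : (0 : ℤ) < R := by exact_mod_cast hR0
    have h8 : (0 : ℤ) < m := by exact_mod_cast hm0
    have h9 : (0 : ℤ) < m' := by exact_mod_cast hm'0
    exact neg_ne_zero.2 (by positivity)
  · have h6 : ((1 : ℤ) ^ 2 • fp K - ((e : ℤ) - 2) ^ 2 • fp Z).mapDomain
        (fun (a : Bool → Place k M) b => π (a b)) =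
        (fp K).mapDomain (fun (a : Bool → Place k M) b => π (a b)) -
          ((e : ℤ) - 2) ^ 2 • fp (Z.mapDomain π) := by
      rw [one_pow, one_smul, ← fp_map]
      change Finsupp.mapDomain.addMonoidHom _ _ = _
      rw [map_sub, map_zsmul]
      rfl
    rw [h6] at h5
    have h7 := add_mem
      (zsmul_mem (show _ ∈ torGroup (k := k) fun _ : Bool => F from h5) ((n : ℤ) ^ 2))
      (zsmul_mem (show _ ∈ torGroup (k := k) fun _ : Bool => F from h2) (((e : ℤ) - 2) ^ 2))
    change _ ∈ torGroup (k := k) fun _ : Bool => F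
    convert h7 using 1
    rw [hY0, fp_two]
    module

end

end Pool.Agent.FPZ
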