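import Pool.Agent.FPZ.Et10

/-!
# Functions of Belyi with two given zeros
-/

set_option autoImplicit false

noncomputable section

namespace Pool.Agent.FPZ

open Pool.Agent.ZCyc Pool.Agent.Dess Pool.Agent.Dess4 Pool.Agent.Rank22 Polynomial
  IntermediateField Module
open scoped Classical

variable {F : Type} [Field F] [Algebra QQ F]

/-- the polynomial `4 x (1 - x)` -/
theorem deg_fourX : (C 4 * X * (1 - X) : QQ[X]).natDegree = 2 := by
  have h1 : (C 4 * X * (1 - X) : QQ[X]) = C (-4) * X ^ 2 + C 4 * X + C 0 := by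
    rw [C_neg, map_zero]
    ring
  rw [h1]
  exact natDegree_quadratic (by norm_num)

/-- a function with two given poles which is unramified outside `0`, `1`, `∞`, and for which all
points with the value `1` have the ramification index two -/
theorem exists_belyi_two (hF : IsCurve QQ F) {p q : Place QQ F} (hpq : p ≠ q) :
    ∃ u : F, (∀ v, u ∉ v.ring ↔ v = p ∨ v = q) ∧ Unram (k := QQ) u ∧
      ∀ v : Place QQ F, v.At u 1 → HasOrd v (u - algebraMap QQ F 1) 2 := by
  obtain ⟨f, hpole, -⟩ := exists_nondeg hF hpq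
  have hfp : f ∉ p.ring := (hpole p).2 (Or.inl rfl)
  have hft : Transcendental QQ f := transc_of_notMem hfp
  obtain ⟨g, hg1, hg2, hg3, hg4⟩ := belyi_poly (finite_crit hF hft).toFinset
  have hGdeg : 0 < (g.map (algebraMap ℚ QQ)).natDegree := by
    rw [natDegree_map]
    exact hg1
  have hGev : ∀ ξ : QQ, eval ξ (g.map (algebraMap ℚ QQ)) = aeval ξ g := fun ξ => by
    rw [eval_map, aeval_def]
  set β := aeval f (g.map (algebraMap ℚ QQ)) with hβ
  have hβp : ∀ v, β ∉ v.ring ↔ v = p ∨ v = q := by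
    intro v
    rw [← hpole]
    constructor
    · intro h1 h2
      obtain ⟨ξ, hξ⟩ := exists_at hF v h2
      exact h1 (hξ.aeval _).mem
    · intro h1
      exact belyi_pole h1 hGdeg
  have hβu : Unram (k := QQ) β := by
    refine bel_comp hF hGdeg ?_ ?_
    · intro v ξ hv hn
      rw [hGev]
      apply hg3
      rw [Set.Finite.mem_toFinset]
      exact ⟨v, hv, hn⟩
    · intro ξ hξ
      rw [hGev]
      apply hg4
      rwa [derivative_map, eval_map, ← aeval_def] at hξ
  have hH : 0 < (C 4 * X * (1 - X) : QQ[X]).natDegree := by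
    rw [deg_fourX]
    norm_num
  have hev : ∀ ξ : QQ, eval ξ (C 4 * X * (1 - X) : QQ[X]) = 4 * ξ * (1 - ξ) := by
    intro ξ
    simp
  refine ⟨aeval β (C 4 * X * (1 - X) : QQ[X]), ?_, bel_comp hF hH ?_ ?_, ?_⟩
  · intro v
    rw [← hβp]
    constructor
    · intro h1 h2
      obtain ⟨ξ, hξ⟩ := exists_at hF v h2
      exact h1 (hξ.aeval _).mem
    · intro h1
      exact belyi_pole h1 hH
  · intro v ξ hv hn
    left
    rw [hev]
    by_cases h0 : ξ = 0
    · rw [h0]
      ring
    · by_cases h1 : ξ = 1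
      · rw [h1]
        ring
      · exact absurd (hβu v ξ hv h0 h1) hn
  · intro ξ hξ
    right
    rw [hev]
    have h2 : eval ξ (derivative (C 4 * X * (1 - X) : QQ[X])) = 4 * (1 - 2 * ξ) := by
      simp
      ring
    rw [h2] at hξ
    have h3 : ξ = 1 / 2 := by linear_combination (-1 / 8) * hξ
    rw [h3]
    norm_num
  · intro v hv
    have hβv : β ∈ v.ring := by
      by_contra h1
      exact belyi_pole h1 hH hv.mem
    obtain ⟨ξ, hξ⟩ := exists_at hF v hβv
    have h1 := (hξ.aeval (C 4 * X * (1 - X) : QQ[X])).unique hv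
    rw [hev] at h1
    have h2 : (2 * ξ - 1) ^ 2 = 0 := by linear_combination -h1
    have h3 := pow_eq_zero_iff two_ne_zero |>.1 h2
    have h4 : ξ = 1 / 2 := by linear_combination (1 / 2) * h3
    subst h4
    have h5 := hβu v (1 / 2) hξ (by norm_num) (by norm_num)
    have h6 := dc_ord_mul (ord_pow (dc_ord_unif h5) 2) (Place.at_const (v := v) (-4 : QQ))
      (by norm_num)
    have h7 : (β - algebraMap QQ F (1 / 2)) ^ 2 * algebraMap QQ F (-4) =
        aeval β (C 4 * X * (1 - X) : QQ[X]) - algebraMap QQ F 1 := by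
      have hch : CharZero F := charZero_of_injective_algebraMap (algebraMap QQ F).injective
      rw [map_mul, map_mul, map_sub, aeval_X, aeval_C, map_one, map_one, map_div₀, map_one,
        map_neg, map_ofNat, map_ofNat]
      field_simp
      ring
    rw [h7] at h6
    exact_mod_cast h6

/-- **The inverse of this function.** -/
theorem exists_ram_fer (hF : IsCurve QQ F) {p q : Place QQ F} (hpq : p ≠ q) :
    ∃ (g : F) (n : ℕ) (m m' : ℕ), Transcendental QQ g ∧ RamData g n (X - C (1 : QQ)) ∧ 6 ≤ n ∧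
      0 < m ∧ 0 < m' ∧ HasOrd p g m ∧ HasOrd q g m' ∧
      ∀ v : Place QQ F, v.At g 0 → v = p ∨ v = q := by
  obtain ⟨u, hpole, hu, hu1⟩ := exists_belyi_two hF hpq
  have hup : u ∉ p.ring := (hpole p).2 (Or.inl rfl)
  have huq : u ∉ q.ring := (hpole q).2 (Or.inr rfl)
  have hut : Transcendental QQ u := transc_of_notMem hup
  have hu0 := transc_ne hut
  have hgt : Transcendental QQ u⁻¹ := fun h => hut (by simpa using h.inv)
  have hg0 := transc_ne hgt
  obtain ⟨D, hD⟩ := exists_div hF hu0
  set n : ℕ := 6 * ∏ v ∈ D.support, (D v).natAbs with hn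
  have hprod : 0 < ∏ v ∈ D.support, (D v).natAbs :=
    Finset.prod_pos fun v hv => Int.natAbs_pos.2 (Finsupp.mem_support_iff.1 hv)
  have hdvd : ∀ (v : Place QQ F) (l : ℤ), l ≠ 0 → HasOrd v u⁻¹ l → l ∣ n := by
    intro v l hl0 hl
    have h1 := ord_inv hl
    rw [inv_inv] at h1
    have h2 := hasOrd_unique hF hu0 (hD v) h1
    have h3 : v ∈ D.support := by
      rw [Finsupp.mem_support_iff, h2]
      exact neg_ne_zero.2 hl0
    have h4 : (D v).natAbs ∣ n := (Finset.dvd_prod_of_mem (fun v => (D v).natAbs) h3).mul_left 6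
    have h5 : (D v).natAbs = l.natAbs := by rw [h2, Int.natAbs_neg]
    rw [h5] at h4
    exact Int.natAbs_dvd.1 (by exact_mod_cast h4)
  have hord : ∀ v : Place QQ F, u ∉ v.ring → ∃ m : ℕ, 0 < m ∧ HasOrd v u⁻¹ m := by
    intro v hv
    obtain ⟨m, hm⟩ := exists_hasOrd hF v hu0
    have h1 := ord_neg_of_notMem hm hv
    have h2 := ord_inv hm
    refine ⟨(-m).toNat, by omega, ?_⟩
    rwa [Int.toNat_of_nonneg (by omega)]
  obtain ⟨m, hm0, hm⟩ := hord p hup
  obtain ⟨m', hm'0, hm'⟩ := hord q huq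
  have hzero : ∀ v : Place QQ F, v.At u⁻¹ 0 → u ∉ v.ring := by
    intro v hv h1
    rw [Place.at_zero_iff, Place.vanishes_iff_or, inv_inv] at hv
    rcases hv with h2 | h2
    · exact hg0 h2
    · exact h2 h1
  refine ⟨u⁻¹, n, m, m', hgt, ⟨by omega, separable_X_sub_C, ?_, ?_, ?_, ?_, ?_⟩, by omega, hm0,
    hm'0, hm, hm', fun v hv => (hpole v).1 (hzero v hv)⟩
  · rw [hn]
    exact ((by decide : Even 6).mul_right _).mul_right _
  · simp
  · intro v a l ha0 ha hl
    have hau : v.At u a⁻¹ := by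
      have := ha.inv ha0
      rwa [inv_inv] at this
    have ha0' : algebraMap QQ F a ≠ 0 := (_root_.map_ne_zero _).2 ha0
    -- the order of `u - 1 / a`
    have h1 : HasOrd v (u - algebraMap QQ F a⁻¹) l := by
      have h2 : v.At (-(u⁻¹ * algebraMap QQ F a)⁻¹) (-(a * a)⁻¹) :=
        ((ha.mul (Place.at_const a)).inv (mul_ne_zero ha0 ha0)).neg
      have h3 := dc_ord_mul hl h2 (neg_ne_zero.2 (inv_ne_zero (mul_ne_zero ha0 ha0)))
      have h4 : (u⁻¹ - algebraMap QQ F a) * -(u⁻¹ * algebraMap QQ F a)⁻¹ =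
          u - algebraMap QQ F a⁻¹ := by
        rw [map_inv₀]
        field_simp
        ring
      rwa [h4] at h3
    by_cases ha1 : a = 1
    · subst ha1
      right
      rw [inv_one] at h1 hau
      refine ⟨hasOrd_unique hF (transc_ne (transc_sub hut 1)) h1 (hu1 v hau), by simp⟩
    · left
      have h2 := hu v a⁻¹ hau (inv_ne_zero ha0) (fun h => ha1 (inv_eq_one.1 h))
      exact hasOrd_unique hF (transc_ne (transc_sub hut _)) h1 (dc_ord_unif h2)
  · intro v l hv hl
    apply hdvd v l _ hl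
    rintro rfl
    obtain ⟨m, hm0, hm⟩ := hord v (hzero v hv)
    have := hasOrd_unique hF hg0 hl hm
    omega
  · intro v l hv hl
    apply hdvd v l _ hl
    have := ord_neg_of_notMem hl hv
    omega

end Pool.Agent.FPZ
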