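import Pool.Agent.FPZ.Defs
import Pool.Agent.Dess4.Quadric

/-!
# The quadratic map `A ↦ A × A - deg(A) Δ_*(A)` on divisors
-/

set_option autoImplicit false

noncomputable section

namespace Pool.Agent.FPZ

open Pool.Agent.ZCyc Pool.Agent.Dess Pool.Agent.Dess4
open scoped Classical

variable {k F : Type} [Field k] [Field F] [Algebra k F]

/-- the exterior product of divisors, as a zero-cycle -/
def exq : (Place k F →₀ ℤ) →+ (Place k F →₀ ℤ) →+ ((Bool → Place k F) →₀ ℤ) :=
  Finsupp.liftAddHom fun p => zmultiplesHom _ (Finsupp.liftAddHom fun q =>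
    zmultiplesHom ((Bool → Place k F) →₀ ℤ) (Finsupp.single (pair (L := fun _ => F) p q) 1))

theorem exq_single (p q : Place k F) (m n : ℤ) :
    exq (Finsupp.single p m) (Finsupp.single q n) =
      Finsupp.single (pair (L := fun _ => F) p q) (m * n) := by
  rw [exq, Finsupp.liftAddHom_apply_single, zmultiplesHom_apply, AddMonoidHom.zsmul_apply,
    Finsupp.liftAddHom_apply_single, zmultiplesHom_apply, ← mul_smul, Finsupp.smul_single,
    smul_eq_mul, mul_one]

/-- the degree of a divisor -/
def dgq : (Place k F →₀ ℤ) →+ ℤ := Finsupp.liftAddHom fun _ => AddMonoidHom.id ℤ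

theorem dgq_single (p : Place k F) (n : ℤ) : dgq (Finsupp.single p n) = n := by
  rw [dgq, Finsupp.liftAddHom_apply_single]
  rfl

/-- the diagonal -/
def diq : (Place k F →₀ ℤ) →+ ((Bool → Place k F) →₀ ℤ) :=
  Finsupp.mapDomain.addMonoidHom fun p : Place k F => pair (L := fun _ => F) p p

theorem diq_single (p : Place k F) (n : ℤ) :
    diq (Finsupp.single p n) = Finsupp.single (pair (L := fun _ => F) p p) n :=
  Finsupp.mapDomain_single

theorem fp_eq (A : Place k F →₀ ℤ) : fp A = exq A A - dgq A • diq A := by
  rw [fp]
  congr 1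
  rw [exq, Finsupp.liftAddHom_apply, Finsupp.sum, Finsupp.sum, AddMonoidHom.finsetSum_apply]
  apply Finset.sum_congr rfl
  intro p _
  rw [zmultiplesHom_apply, AddMonoidHom.zsmul_apply, Finsupp.liftAddHom_apply, Finsupp.sum,
    Finsupp.sum, Finset.smul_sum]
  apply Finset.sum_congr rfl
  intro q _
  rw [zmultiplesHom_apply, ← mul_smul, Finsupp.smul_single, smul_eq_mul, mul_one]

theorem fp_smul (n : ℤ) (A : Place k F →₀ ℤ) : fp (n • A) = (n ^ 2) • fp A := by
  rw [fp_eq, fp_eq, map_zsmul, map_zsmul, map_zsmul, AddMonoidHom.zsmul_apply, map_zsmul,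
    smul_sub, ← mul_smul, ← mul_smul, ← mul_smul]
  congr 1
  · rw [sq]
  · congr 1
    rw [smul_eq_mul]
    ring

theorem fp_two (p q : Place k F) (m n : ℤ) :
    fp (Finsupp.single p m + Finsupp.single q n) = -(m * n) • square p q := by
  have h : ∀ (a : Bool → Place k F) (m : ℤ), Finsupp.single a m = m • Finsupp.single a 1 := by
    intro a m
    rw [Finsupp.smul_single, smul_eq_mul, mul_one]
  rw [fp_eq, square, sym]
  simp only [map_add, AddMonoidHom.add_apply, exq_single, dgq_single, diq_single]
  rw [h _ (m * m), h _ (n * m), h _ (m * n), h _ (n * n), h _ m, h _ n]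
  simp only [add_mul, add_smul, smul_add, smul_sub, neg_smul, ← mul_smul]
  rw [mul_comm n m]
  abel

/-- the push-forward by a morphism of curves -/
theorem fp_map {M : Type} [Field M] [Algebra k M] (π : Place k M → Place k F)
    (A : Place k M →₀ ℤ) :
    (fp A).mapDomain (fun (a : Bool → Place k M) b => π (a b)) = fp (A.mapDomain π) := by
  have hp : ∀ p q : Place k M, (fun b => π (pair (L := fun _ => M) p q b)) =
      pair (L := fun _ => F) (π p) (π q) := by
    intro p q
    funext b
    cases b <;> rfl
  have h1 : ∀ A B : Place k M →₀ ℤ,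
      Finsupp.mapDomain.addMonoidHom (fun (a : Bool → Place k M) b => π (a b)) (exq A B) =
        exq (A.mapDomain π) (B.mapDomain π) := by
    intro A B
    induction A using Finsupp.induction_linear with
    | zero => simp
    | add a b ha hb =>
      rw [map_add, AddMonoidHom.add_apply, map_add, ha, hb, Finsupp.mapDomain_add, map_add,
        AddMonoidHom.add_apply]
    | single p m =>
      induction B using Finsupp.induction_linear with
      | zero => simp
      | add a b ha hb => rw [map_add, map_add, ha, hb, Finsupp.mapDomain_add, map_add]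
      | single q n =>
        rw [exq_single, Finsupp.mapDomain_single, Finsupp.mapDomain_single, exq_single]
        change (Finsupp.single _ _).mapDomain _ = _
        rw [Finsupp.mapDomain_single, hp]
  have h2 : ∀ A : Place k M →₀ ℤ, dgq (A.mapDomain π) = dgq A := by
    intro A
    induction A using Finsupp.induction_linear with
    | zero => simp
    | add a b ha hb => rw [Finsupp.mapDomain_add, map_add, map_add, ha, hb]
    | single p m => rw [Finsupp.mapDomain_single, dgq_single, dgq_single]
  have h3 : ∀ A : Place k M →₀ ℤ,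
      Finsupp.mapDomain.addMonoidHom (fun (a : Bool → Place k M) b => π (a b)) (diq A) =
        diq (A.mapDomain π) := by
    intro A
    induction A using Finsupp.induction_linear with
    | zero => simp
    | add a b ha hb => rw [map_add, map_add, ha, hb, Finsupp.mapDomain_add, map_add]
    | single p m =>
      rw [diq_single, Finsupp.mapDomain_single, diq_single]
      change (Finsupp.single _ _).mapDomain _ = _
      rw [Finsupp.mapDomain_single, hp]
  change Finsupp.mapDomain.addMonoidHom _ (fp A) = _
  rw [fp_eq, fp_eq, map_sub, map_zsmul, h1, h2, h3]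

/-- a divisor, as a zero-cycle -/
def unq : (Place k F →₀ ℤ) →+ ((Unit → Place k F) →₀ ℤ) :=
  Finsupp.mapDomain.addMonoidHom fun p _ => p

theorem unq_single (p : Place k F) (n : ℤ) :
    unq (Finsupp.single p n) = Finsupp.single (fun _ => p) n := Finsupp.mapDomain_single

theorem exq_cross (A B : Place k F →₀ ℤ) :
    (QuotientAddGroup.mk (exq A B) : Quo k F) = cross (unq A) (unq B) := by
  change (QuotientAddGroup.mk' _) (exq A B) = _
  induction A using Finsupp.induction_linear with
  | zero => simp
  | add a b ha hb =>
    rw [map_add, AddMonoidHom.add_apply, map_add, ha, hb, map_add, map_add,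
      AddMonoidHom.add_apply]
  | single p m =>
    induction B using Finsupp.induction_linear with
    | zero => simp
    | add a b ha hb => rw [map_add, map_add, ha, hb, map_add, map_add]
    | single q n =>
      rw [exq_single, unq_single, unq_single, cross_single]
      change QuotientAddGroup.mk _ = _
      rw [bt, ← QuotientAddGroup.mk_zsmul, Finsupp.smul_single, smul_eq_mul, mul_one]

theorem diq_diaq (A : Place k F →₀ ℤ) :
    (QuotientAddGroup.mk (diq A) : Quo k F) = diaq (unq A) := by
  change (QuotientAddGroup.mk' _) (diq A) = _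
  induction A using Finsupp.induction_linear with
  | zero => simp
  | add a b ha hb => rw [map_add, map_add, ha, hb, map_add, map_add]
  | single p m =>
    rw [diq_single, unq_single, diaq, mapq_single]
    change QuotientAddGroup.mk _ = _
    rw [← QuotientAddGroup.mk_zsmul, Finsupp.smul_single, smul_eq_mul, mul_one]

theorem dgq_degq (A : Place k F →₀ ℤ) : ((dgq A : ℤ) : ℚ) = degq (unq A) := by
  induction A using Finsupp.induction_linear with
  | zero => simp
  | add a b ha hb => rw [map_add, map_add, map_add, Int.cast_add, ha, hb]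
  | single p m => rw [dgq_single, unq_single, degq_single]

/-- the class of the cycle depends only on the class of the divisor modulo torsion -/
theorem fp_congr [IsAlgClosed k] [CharZero k] {A B : Place k F →₀ ℤ}
    (h : unq (A - B) ∈ torGroup (k := k) fun _ : Unit => F) :
    fp A - fp B ∈ torGroup (k := k) fun _ : Bool => F := by
  obtain ⟨m, hm, h⟩ := h
  have hm0 : (m : ℤ) ≠ 0 := by exact_mod_cast hm.ne'
  set R := A - B with hR
  have hA : A = B + R := by rw [hR]; abel
  have h' : m • unq R ∈ RatEq fun _ : Unit => F := h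
  have e1 : ∀ y, cross (unq R) y = 0 := by
    intro y
    apply quo_tf hm0
    have := cross_left h' y
    rwa [map_nsmul, AddMonoidHom.nsmul_apply, ← natCast_zsmul] at this
  have e2 : ∀ y, cross y (unq R) = 0 := by
    intro y
    apply quo_tf hm0
    have := cross_right h' y
    rwa [map_nsmul, ← natCast_zsmul] at this
  have e3 : diaq (unq R) = 0 := by
    apply quo_tf hm0
    have := diaq_ratEq h'
    rwa [map_nsmul, ← natCast_zsmul] at this
  have e4 : dgq R = 0 := by
    have h1 := degq_ratEq h'
    rw [map_nsmul, ← dgq_degq, nsmul_eq_mul] at h1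
    have h2 : ((m : ℤ) : ℚ) * (dgq R : ℤ) = 0 := by exact_mod_cast h1
    have h3 : (m : ℤ) * dgq R = 0 := by exact_mod_cast h2
    exact (mul_eq_zero.1 h3).resolve_left hm0
  have key : (QuotientAddGroup.mk (fp A) : Quo k F) = QuotientAddGroup.mk (fp B) := by
    rw [fp_eq, fp_eq, QuotientAddGroup.mk_sub, QuotientAddGroup.mk_sub,
      QuotientAddGroup.mk_zsmul, QuotientAddGroup.mk_zsmul, exq_cross, exq_cross, diq_diaq,
      diq_diaq, hA]
    simp only [map_add, AddMonoidHom.add_apply, e1, e2, e3, e4, add_zero]
  rw [← QuotientAddGroup.eq_zero_iff, QuotientAddGroup.mk_sub, key, sub_self]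

/-- a relation between multiples of two divisors -/
theorem fp_rel [IsAlgClosed k] [CharZero k] {A B : Place k F →₀ ℤ} {m n : ℤ}
    (h : unq (m • A - n • B) ∈ torGroup (k := k) fun _ : Unit => F) :
    (m ^ 2) • fp A - (n ^ 2) • fp B ∈ torGroup (k := k) fun _ : Bool => F := by
  have := fp_congr h
  rwa [fp_smul, fp_smul] at this

theorem fp_equiv [IsAlgClosed k] [CharZero k] {A B : Place k F →₀ ℤ} {a b : ℤ}
    (h : unq (a • A - b • B) ∈ RatEq (k := k) fun _ : Unit => F) :
    RatTor (fun _ : Bool => F) (a ^ 2 • fp A - b ^ 2 • fp B) :=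
  fp_rel (ratEq_le_torGroup h)

end Pool.Agent.FPZ
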