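import Pool.Agent.FPZ.Dcov
import Pool.Agent.FPZ.Quad
import Pool.Agent.FPZ.Can

/-!
# The zero-cycles of a double covering
-/

set_option autoImplicit false

noncomputable section

namespace Pool.Agent.FPZ

open Pool.Agent.ZCyc Pool.Agent.Dess Pool.Agent.Dess4
open scoped Classical

variable {k F M : Type} [Field k] [Field F] [Algebra k F] [Field M] [Algebra k M]
  [IsAlgClosed k] [CharZero k]

/-- a function which is not constant has a zero -/
theorem exists_zero (hF : IsCurve k F) {g : F} (hg : Transcendental k g) :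
    ∃ v : Place k F, v.Vanishes g := by
  by_contra hcon
  push Not at hcon
  have h1 : ∀ v : Place k F, g⁻¹ ∈ v.ring := by
    intro v
    by_contra h
    exact hcon v ((v.vanishes_iff_or g).2 (Or.inr h))
  obtain ⟨c, hc⟩ := deg_const hF h1
  apply hg
  rw [← inv_inv g, hc, ← map_inv₀]
  exact isAlgebraic_algebraMap _

/-- the divisor of a function is rationally equivalent to zero -/
theorem unq_of_div (hF : IsCurve k F) {g : F} (hg : g ≠ 0) {D : Place k F →₀ ℤ}
    (hD : ∀ v, HasOrd v g (D v)) : unq D ∈ RatEq (k := k) fun _ : Unit => F := by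
  have h1 := div_mem hF hg (S := D.support) (n := D) (fun v _ => hD v) (fun v hv => by
    have := hD v
    rwa [Finsupp.notMem_support_iff.1 hv] at this)
  have h2 : unq D = ∑ v ∈ D.support, D v • Finsupp.single (fun _ : Unit => v) (1 : ℤ) := by
    conv_lhs => rw [← Finsupp.sum_single D]
    rw [Finsupp.sum, map_sum]
    apply Finset.sum_congr rfl
    intro v _
    rw [unq_single, Finsupp.smul_single, smul_eq_mul, mul_one]
  rw [h2]
  exact h1

/-- the push-forward of the cycle of a double covering -/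
theorem push_dcov (hF : IsCurve k F) {φ : F →ₐ[k] M} {d : F} {s : M} (h : Dbl φ d s)
    (hd : d ≠ 0) {x : F} (hx : Transcendental k x) {K Y : Place k F →₀ ℤ} (hK : IsCan x K)
    (hY : ∀ (v : Place k F) (n : ℤ), HasOrd v d n → n + 2 * Y v = if Odd n then 1 else 0) :
    ∃ (K' : Place k M →₀ ℤ) (Ψ : Place k M → Place k F), Canonical K' ∧
      (∀ V, V.ring.comap (φ : F →+* M) = (Ψ V).ring) ∧
      (fp K').mapDomain (fun (a : Bool → Place k M) b => Ψ (a b)) - (4 : ℤ) • fp (K + Y) ∈
        torGroup (k := k) fun _ : Bool => F := by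
  have hM := h.isCurve hF
  obtain ⟨Ψ, hΨ⟩ := exists_proj hF hM φ
  obtain ⟨K', B, hK', hpush, hB⟩ := exists_dcov hF h hd hΨ hx hK
  obtain ⟨D, hD⟩ := exists_div hF hd
  have hx' : Transcendental k (φ x) := by
    intro h1
    exact hx ((isAlgebraic_algHom_iff φ φ.injective).mp h1)
  refine ⟨K', Ψ, ⟨φ x, hx', hK'⟩, hΨ, ?_⟩
  have h1 : B = D + (2 : ℤ) • Y := by
    ext v
    rw [Finsupp.add_apply, Finsupp.smul_apply, smul_eq_mul, hY v (D v) (hD v), hB v (D v) (hD v)]
  have h2 : (fp K').mapDomain (fun (a : Bool → Place k M) b => Ψ (a b)) =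
      fp ((2 : ℤ) • K + B) := by
    rw [fp_map, hpush]
  have h3 : (4 : ℤ) • fp (K + Y) = fp ((2 : ℤ) • K + (2 : ℤ) • Y) := by
    rw [← smul_add, fp_smul]
    norm_num
  rw [h2, h3]
  apply fp_congr
  have h4 : (2 : ℤ) • K + B - ((2 : ℤ) • K + (2 : ℤ) • Y) = D := by
    rw [h1]
    abel
  rw [h4]
  exact ratEq_le_torGroup (unq_of_div hF hd hD)

/-- the branch divisor of the square root of `w - c`, where all poles of `w` are even and `c` is
not critical -/
theorem branch_shift (hF : IsCurve k F) {w : F} (hw : Transcendental k w) {c : k}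
    (hc : ∀ v : Place k F, v.At w c → IsUnif v (w - algebraMap k F c)) {Y : Place k F →₀ ℤ}
    (hY : ∀ (v : Place k F) (n : ℤ), w ∉ v.ring → HasOrd v w n → n = -2 * Y v)
    (hY0 : ∀ v : Place k F, w ∈ v.ring → Y v = 0) (v : Place k F) (n : ℤ)
    (hn : HasOrd v (w - algebraMap k F c) n) : n + 2 * Y v = if Odd n then 1 else 0 := by
  have h0 := transc_ne (transc_sub hw c)
  by_cases hv : w ∈ v.ring
  · rw [hY0 v hv]
    obtain ⟨a, ha⟩ := exists_at hF v hv
    by_cases hac : a = c
    · rw [hac] at ha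
      have h1 := hasOrd_unique hF h0 hn (dc_ord_unif (hc v ha))
      rw [h1]
      norm_num
    · have h1 : v.At (w - algebraMap k F c) (a - c) := ha.sub (Place.at_const c)
      have h2 := hasOrd_unique hF h0 hn
        (ord_unit_of_mem hF h1.mem (h1.inv (sub_ne_zero.2 hac)).mem)
      rw [h2]
      norm_num
  · have h1 := hY v n hv (pole_sub hn hv)
    have h2 : ¬ Odd n := by
      rw [h1, Int.not_odd_iff_even]
      exact ⟨-Y v, by ring⟩
    rw [if_neg h2, h1]
    ring

/-- `w - c` is not a square if `c` is not critical -/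
theorem not_square (hF : IsCurve k F) {w : F} (hw : Transcendental k w) {c : k}
    (hc : ∀ v : Place k F, v.At w c → IsUnif v (w - algebraMap k F c)) (b : F) :
    b ^ 2 ≠ w - algebraMap k F c := by
  intro hb
  obtain ⟨v, hv⟩ := exists_zero hF (transc_sub hw c)
  have h0 := transc_ne (transc_sub hw c)
  have hat : v.At w c := hv
  have hb0 : b ≠ 0 := by
    rintro rfl
    exact h0 (by rw [← hb]; ring)
  obtain ⟨m, hm⟩ := exists_hasOrd hF v hb0
  have h1 := ord_pow hm 2
  rw [hb] at h1
  have h2 := hasOrd_unique hF h0 h1 (dc_ord_unif (hc v hat))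
  push_cast at h2
  omega

end Pool.Agent.FPZ
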