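import Pool.Agent.FPZ.OverQ
import Pool.Agent.FPZ.Step

/-!
# The zero-cycles of curves over the rational numbers
-/

set_option autoImplicit false

noncomputable section

namespace Pool.Agent.FPZ

open Pool.Agent.ZCyc Pool.Agent.Dess Pool.Agent.Dess4
open scoped Classical

/-- the second difference -/
theorem second_diff {k F : Type} [Field k] [Field F] [Algebra k F] (K Y : Place k F →₀ ℤ) :
    fp (K + (2 : ℤ) • Y) - (2 : ℤ) • fp (K + Y) + fp K = (2 : ℤ) • fp Y := by
  rw [fp_eq, fp_eq, fp_eq, fp_eq]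
  simp only [map_add, AddMonoidHom.add_apply, map_zsmul, AddMonoidHom.zsmul_apply, smul_eq_mul]
  module

section

variable {F : Type} [Field F] [Algebra QQ F]

theorem notMem_iff {v : Place QQ F} {w : F} (hw : w ≠ 0) {n : ℤ} (h : HasOrd v w n) :
    w ∉ v.ring ↔ n < 0 := by
  have h1 := ord_pos_iff (inv_ne_zero hw) (hasOrd_inv h)
  rw [inv_inv] at h1
  rw [← h1]
  omega

theorem overQ_of_rat {F₀ : Subfield F} (hgen : IntermediateField.adjoin QQ (F₀ : Set F) = ⊤)
    {p : Place QQ F} (hp : RationalAt F₀ p) : OverQ F₀ where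
  gen := hgen
  const := fun c hc => hp _ hc c (Place.at_const c)

theorem rat_mem (F₀ : Subfield F) (c : ℚ) : algebraMap QQ F (algebraMap ℚ QQ c) ∈ F₀ := by
  have h : algebraMap QQ F (algebraMap ℚ QQ c) = ((algebraMap QQ F).comp (algebraMap ℚ QQ)) c :=
    rfl
  have : CharZero F := charZero_of_injective_algebraMap (algebraMap QQ F).injective
  rw [h, eq_ratCast]
  exact SubfieldClass.ratCast_mem F₀ c

/-- the double covering for the function `h ^ (-2 i)` -/
theorem four_double {F₀ : Subfield F} {h : F} {N : ℕ} {p q r s : Place QQ F}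
    (hf : FourPoints F₀ h N p q r s) {x : F} (hx : Transcendental QQ x) {K : Place QQ F →₀ ℤ}
    (hK : IsCan x K) {i : ℕ} (hi : 0 < i) :
    ∃ (M : Type) (_ : Field M) (_ : Algebra QQ M) (M₀ : Subfield M) (φ : F →ₐ[QQ] M)
      (K' : Place QQ M →₀ ℤ) (Ψ : Place QQ M → Place QQ F), IsCurve QQ M ∧ OverQ M₀ ∧
      Canonical K' ∧ (∀ V, V.ring.comap (φ : F →+* M) = (Ψ V).ring) ∧
      (fp K').mapDomain (fun (a : Bool → Place QQ M) b => Ψ (a b)) -
        (4 : ℤ) • fp (K + (i : ℤ) • (Finsupp.single p (N : ℤ) + Finsupp.single q (N : ℤ))) ∈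
          torGroup (k := QQ) fun _ : Bool => F := by
  have hF := hf.curve
  have hN : (0 : ℤ) < N := by exact_mod_cast hf.pos
  have hi' : (0 : ℤ) < i := by exact_mod_cast hi
  have hne := hf.ne_zero
  set w : F := (h ^ (2 * i))⁻¹ with hwdef
  have hw0 : w ≠ 0 := inv_ne_zero (pow_ne_zero _ hne)
  have hord : ∀ {v : Place QQ F} {m : ℤ}, HasOrd v h m → HasOrd v w (-(m * (2 * i : ℕ))) := by
    intro v m hm
    exact ord_inv (ord_pow hm _)
  have hring : ∀ v, v ≠ p → v ≠ q → w ∈ v.ring := by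
    intro v hp hq
    by_contra hv
    by_cases hr : v = r
    · rw [hr] at hv
      have := (notMem_iff hw0 (hord hf.pole_r)).1 hv
      push_cast at this
      nlinarith [mul_pos hN hi']
    by_cases hs : v = s
    · rw [hs] at hv
      have := (notMem_iff hw0 (hord hf.pole_s)).1 hv
      push_cast at this
      nlinarith [mul_pos hN hi']
    have := (notMem_iff hw0 (hord (hf.unit v hp hq hr hs))).1 hv
    simp at this
  have hwp : w ∉ p.ring := by
    rw [notMem_iff hw0 (hord hf.zero_p)]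
    push_cast
    nlinarith [mul_pos hN hi']
  have hwq : w ∉ q.ring := by
    rw [notMem_iff hw0 (hord hf.zero_q)]
    push_cast
    nlinarith [mul_pos hN hi']
  have hwt : Transcendental QQ w := by
    apply deg_transc
    intro c hc
    apply hwp
    rw [hc]
    exact p.const_mem c
  set Y : Place QQ F →₀ ℤ := (i : ℤ) • (Finsupp.single p (N : ℤ) + Finsupp.single q (N : ℤ))
    with hY
  have hYp : Y p = i * N := by
    rw [hY, Finsupp.smul_apply, Finsupp.add_apply, Finsupp.single_eq_same,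
      Finsupp.single_eq_of_ne hf.ne_pq, add_zero, smul_eq_mul]
  have hYq : Y q = i * N := by
    rw [hY, Finsupp.smul_apply, Finsupp.add_apply, Finsupp.single_eq_same,
      Finsupp.single_eq_of_ne hf.ne_pq.symm, zero_add, smul_eq_mul]
  have hY0 : ∀ v : Place QQ F, w ∈ v.ring → Y v = 0 := by
    intro v hv
    have hp : v ≠ p := by
      rintro rfl
      exact hwp hv
    have hq : v ≠ q := by
      rintro rfl
      exact hwq hv
    rw [hY, Finsupp.smul_apply, Finsupp.add_apply, Finsupp.single_eq_of_ne hp,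
      Finsupp.single_eq_of_ne hq, add_zero, smul_zero]
  have hYn : ∀ (v : Place QQ F) (n : ℤ), w ∉ v.ring → HasOrd v w n → n = -2 * Y v := by
    intro v n hv hn
    by_cases hp : v = p
    · rw [hp] at hn ⊢
      rw [hasOrd_unique hF hw0 hn (hord hf.zero_p), hYp]
      push_cast
      ring
    by_cases hq : v = q
    · rw [hq] at hn ⊢
      rw [hasOrd_unique hF hw0 hn (hord hf.zero_q), hYq]
      push_cast
      ring
    exact absurd (hring v hp hq) hv
  obtain ⟨c, hc⟩ := ((finite_crit hF hwt).preimage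
    (algebraMap ℚ QQ).injective.injOn).exists_notMem
  have hcrit : ∀ v : Place QQ F, v.At w (algebraMap ℚ QQ c) →
      IsUnif v (w - algebraMap QQ F (algebraMap ℚ QQ c)) := by
    intro v hv
    by_contra hu
    exact hc ⟨v, hv, hu⟩
  have hns := not_square hF hwt hcrit
  obtain ⟨M, _, _, φ, s', hD⟩ := exists_dbl (k := QQ) hns
  obtain ⟨K', Ψ, hK', hΨ, h1⟩ := push_dcov hF hD (transc_ne (transc_sub hwt _)) hx (Y := Y) hK
    (branch_shift hF hwt hcrit hYn hY0)
  have hmem : w - algebraMap QQ F (algebraMap ℚ QQ c) ∈ F₀ :=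
    F₀.sub_mem (F₀.inv_mem (F₀.pow_mem hf.mem _)) (rat_mem F₀ c)
  exact ⟨M, _, _, dblSub F₀ φ s', φ, K', Ψ, hD.isCurve hF,
    overQ_dbl (overQ_of_rat hf.gen hf.rat_p) hD hmem hns, hK', hΨ, h1⟩

end

/-- an image of a cycle `(p - q) × (p - q)` for a function with four zeros and poles is a rational
combination of images of cycles of Faber and Pandharipande of curves over the rational numbers -/
theorem four_fpQ {ι : Type} {L : ι → Type} [∀ i, Field (L i)] [∀ i, Algebra QQ (L i)]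
    {S : AddSubgroup ((∀ i, Place QQ (L i)) →₀ ℤ)} (hS : torGroup L ≤ S)
    (hS' : ∀ w, FPCycleQ L w → w ∈ S) {w : (∀ i, Place QQ (L i)) →₀ ℤ} (hw : FourCycle L w) :
    ∃ n : ℤ, n ≠ 0 ∧ n • w ∈ S := by
  obtain ⟨F, _, _, F₀, h, N, p, q, r, s, Φ, hf, hΦ, rfl⟩ := hw
  have hF := hf.curve
  have hN : (N : ℤ) ≠ 0 := by exact_mod_cast hf.pos.ne'
  obtain ⟨x, hx, -⟩ := id hF
  obtain ⟨K, hK⟩ := exists_can hF hx
  let P : ((Bool → Place QQ F) →₀ ℤ) →+ ((∀ i, Place QQ (L i)) →₀ ℤ) :=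
    Finsupp.mapDomain.addMonoidHom Φ
  have hP : ∀ z, P z = z.mapDomain Φ := fun z => rfl
  have h0 : P (fp K) ∈ S :=
    hS' _ ⟨F, _, _, F₀, K, Φ, hF, overQ_of_rat hf.gen hf.rat_p, ⟨x, hx, hK⟩, hΦ, rfl⟩
  set Y : Place QQ F →₀ ℤ := Finsupp.single p (N : ℤ) + Finsupp.single q (N : ℤ) with hY
  have key : ∀ i : ℕ, 0 < i → (4 : ℤ) • P (fp (K + (i : ℤ) • Y)) ∈ S := by
    intro i hi
    obtain ⟨M, _, _, M₀, φ, K', Ψ, hM, hM₀, hK', hΨ, h1⟩ := four_double hf hx hK hi
    let Θ : (Bool → Place QQ M) → Bool → Place QQ F := fun a b => Ψ (a b)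
    have hΘ : IsMor (L := fun _ : Bool => M) (L' := fun _ : Bool => F) Θ := fun b =>
      Or.inr ⟨b, φ, fun a => (hΨ (a b)).symm⟩
    have hne : Nonempty (Bool → Place QQ M) := by
      obtain ⟨y, hy, -⟩ := id hM
      obtain ⟨v, -⟩ := exists_zero hM hy
      exact ⟨fun _ => v⟩
    have h2 : P ((fp K').mapDomain Θ) ∈ S := by
      rw [hP, ← Finsupp.mapDomain_comp]
      exact hS' _ ⟨M, _, _, M₀, K', Φ ∘ Θ, hM, hM₀, hK', hΘ.comp hΦ, rfl⟩
    have h3 : P ((fp K').mapDomain Θ - (4 : ℤ) • fp (K + (i : ℤ) • Y)) ∈ S :=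
      hS (map_tor Φ hΦ h1)
    rw [map_sub, map_zsmul] at h3
    have h4 := sub_mem h2 h3
    rwa [sub_sub_cancel] at h4
  have h1 := key 1 one_pos
  have h2 := key 2 two_pos
  rw [Nat.cast_one, one_smul] at h1
  have h3 : (2 * N ^ 2 * 4 : ℤ) • P (square p q) =
      (2 : ℤ) • ((4 : ℤ) • P (fp (K + Y))) - (4 : ℤ) • P (fp (K + ((2 : ℕ) : ℤ) • Y)) -
        (4 : ℤ) • P (fp K) := by
    have h4 := congrArg (fun z => (4 : ℤ) • P z) (second_diff K Y)
    simp only [map_add, map_sub, map_zsmul] at h4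
    rw [hY, fp_two, ← hY, map_zsmul] at h4
    have e1 : (4 : ℤ) • (2 : ℤ) • -((N : ℤ) * N) • P (square p q) =
        -((2 * N ^ 2 * 4 : ℤ) • P (square p q)) := by
      rw [← mul_smul, ← mul_smul, ← neg_smul]
      congr 1
      ring
    rw [e1] at h4
    rw [Nat.cast_ofNat, ← neg_inj, ← h4]
    simp only [smul_add, smul_sub]
    rw [smul_comm (4 : ℤ) (2 : ℤ)]
    abel
  refine ⟨2 * N ^ 2 * 4, by positivity, ?_⟩
  change (2 * N ^ 2 * 4 : ℤ) • P (square p q) ∈ S
  rw [h3]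
  exact sub_mem (sub_mem (AddSubgroup.zsmul_mem _ h1 2) h2) (AddSubgroup.zsmul_mem _ h0 4)

/-- **The cycles of curves over the rational numbers generate the kernel of the Albanese map.** -/
theorem generation_fpQ {ι : Type} [Fintype ι] {L : ι → Type} [∀ i, Field (L i)]
    [∀ i, Algebra QQ (L i)] (hL : ∀ i, IsCurve QQ (L i)) {z : (∀ i, Place QQ (L i)) →₀ ℤ}
    (hz : AlbKer L z) :
    ∃ m : ℕ, 0 < m ∧ m • z ∈ RatEq L ⊔ AddSubgroup.closure {w | FPCycleQ L w} := by
  have hle : torGroup L ≤ sat (RatEq L ⊔ AddSubgroup.closure {w | FPCycleQ L w}) := by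
    rintro z ⟨m, hm, h⟩
    exact ⟨m, hm, (le_sup_left : RatEq L ≤ _) h⟩
  refine generation_four hL (T := sat (RatEq L ⊔ AddSubgroup.closure {w | FPCycleQ L w}))
    (le_sup_left.trans (le_sat _)) ?_ hz
  intro w hw
  obtain ⟨n, hn, h⟩ := four_fpQ hle (fun w hw => le_sat _ ((le_sup_right : _ ≤ RatEq L ⊔ _)
    (AddSubgroup.subset_closure hw))) hw
  exact sat_of_zsmul hn h

/-- **The conjecture for curves over the rational numbers.** -/
theorem zeroCycles_fpQ : FPConjQ → ZeroCyclesConj := by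
  intro h ι _ L _ _ hL z hz
  refine generation_four (T := torGroup L) hL ratEq_le_torGroup ?_ hz
  intro w hw
  obtain ⟨n, hn, h1⟩ := four_fpQ (S := torGroup L) le_rfl (by
    rintro w ⟨F, _, _, F₀, K, Φ, hF, hF₀, hK, hΦ, rfl⟩
    exact map_tor Φ hΦ (h F F₀ hF hF₀ K hK)) hw
  exact tor_of_zsmul hn h1

/-- **All forms of the conjecture.** -/
theorem fpQ_tfae {Om : Type} [Field Om] [Algebra QQ Om] {tt : Om} (hΩ : IsAlgFun tt)
    {P O : Place QQ Om} (hP : P.Vanishes tt) (hO : tt ∉ O.ring) :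
    [ZeroCyclesConj, FPConj, FPConjQ, FPCofinalConj tt, FourPointsConj,
      CofinalConj tt P O].TFAE := by
  have h := fp_tfae hΩ hP hO
  tfae_have 1 ↔ 5 := h.out 0 1
  tfae_have 1 ↔ 6 := h.out 0 2
  tfae_have 1 ↔ 2 := h.out 0 3
  tfae_have 1 ↔ 4 := h.out 0 4
  tfae_have 2 → 3 := fun h F _ _ _ hF _ => h F hF
  tfae_have 3 → 1 := zeroCycles_fpQ
  tfae_finish

end Pool.Agent.FPZ
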