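import Pool.Agent.FPZ.Et11
import Pool.Agent.FPZ.RatDbl

/-!
# The cycles of the Galois étale coverings of the curves `y ^ 2 = x ^ n - 1`
-/

set_option autoImplicit false

noncomputable section

namespace Pool.Agent.FPZ

open Pool.Agent.ZCyc Pool.Agent.Dess Pool.Agent.Dess4 Polynomial
open scoped Classical

/-- The curve with function field `M` is a Galois étale covering of the hyperelliptic curve
`y ^ 2 = x ^ n - 1` (where `n` is even and at least six), and a Galois covering of the projective
line with the coordinate `x ^ n`. This covering is unramified outside `0`, `1`, `∞`, with the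
ramification indices `n`, `2`, `n`. -/
structure EtFer {M : Type} [Field M] [Algebra QQ M] (n : ℕ) (x y : M) : Prop where
  etale : EtHyp (X ^ n - 1 : QQ[X]) x y
  galois : IsGalois (IntermediateField.adjoin QQ {x ^ n}) M

/-- The zero-cycle `w` on the product of the curves with function fields `L i` is the image, under a
morphism, of the zero-cycle of Faber and Pandharipande of a Galois étale covering of a curve
`y ^ 2 = x ^ n - 1`. -/
def FerImage {ι : Type} (L : ι → Type) [∀ i, Field (L i)] [∀ i, Algebra QQ (L i)]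
    (w : (∀ i, Place QQ (L i)) →₀ ℤ) : Prop :=
  ∃ (M : Type) (_ : Field M) (_ : Algebra QQ M) (n : ℕ) (x y : M) (K : Place QQ M →₀ ℤ)
    (Φ : (Bool → Place QQ M) → ∀ i, Place QQ (L i)),
    EtFer n x y ∧ Canonical K ∧ IsMor Φ ∧ w = (fp K).mapDomain Φ

/-- The zero-cycle of Faber and Pandharipande is torsion for all Galois étale coverings of the
curves `y ^ 2 = x ^ n - 1`. -/
def FPFerConj : Prop :=
  ∀ (M : Type) [Field M] [Algebra QQ M] (n : ℕ) (x y : M), EtFer n x y → FPTor QQ M

/-- the image of the cycle under `D × D → C × C` -/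
def FerFP (F : Type) [Field F] [Algebra QQ F] (w : (Bool → Place QQ F) →₀ ℤ) : Prop :=
  ∃ (M : Type) (_ : Field M) (_ : Algebra QQ M) (n : ℕ) (x y : M) (φ : F →ₐ[QQ] M)
    (Ψ : Place QQ M → Place QQ F) (K : Place QQ M →₀ ℤ), EtFer n x y ∧
      (∀ V, (Ψ V).ring = V.ring.comap (φ : F →+* M)) ∧ Canonical K ∧
      w = (fp K).mapDomain fun a b => Ψ (a b)

/-- **The squares.** -/
theorem fer_relation {F : Type} [Field F] [Algebra QQ F] (hF : IsCurve QQ F) {p q : Place QQ F}
    (hpq : p ≠ q) : ∃ (w : (Bool → Place QQ F) →₀ ℤ) (a b : ℤ), FerFP F w ∧ a ≠ 0 ∧ b ≠ 0 ∧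
      RatTor (fun _ : Bool => F) (a • w - b • square p q) := by
  obtain ⟨g, n, m, m', hgt, hR, hn, hm0, hm'0, hm, hm', hz⟩ := exists_ram_fer hF hpq
  obtain ⟨w, a, b, ⟨M, _, _, u, y, φ, Ψ, K, h1, h2, h3, h4, h5⟩, ha, hb, h⟩ :=
    ram_relation hF hpq hgt hR (by rwa [natDegree_X_sub_C, mul_one]) hm0 hm'0 hm hm' hz
  refine ⟨w, a, b, ⟨M, _, _, n, u, y, φ, Ψ, K, ⟨?_, h2⟩, h3, h4, h5⟩, ha, hb, h⟩
  have : expand QQ n (X - C (1 : QQ)) = X ^ n - 1 := by
    rw [map_sub, expand_X, expand_C, C_1]
  rwa [this] at h1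

section Univ

variable {ι : Type} {L : ι → Type} [∀ i, Field (L i)] [∀ i, Algebra QQ (L i)]

/-- the squares are contained in every subgroup which is closed under division and contains the
images of the cycles -/
theorem fer_square {F : Type} [Field F] [Algebra QQ F] (hF : IsCurve QQ F)
    {T : AddSubgroup ((Bool → Place QQ F) →₀ ℤ)} (hT : RatEq (fun _ : Bool => F) ≤ T)
    (hsat : ∀ (n : ℤ) (z : (Bool → Place QQ F) →₀ ℤ), n ≠ 0 → n • z ∈ T → z ∈ T)
    (hall : ∀ w, FerFP F w → w ∈ T) (p q : Place QQ F) : square p q ∈ T := by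
  by_cases hpq : p = q
  · subst hpq
    have : square p p = 0 := by
      rw [square, sym]
      abel
    rw [this]
    exact zero_mem _
  obtain ⟨w, a, b, hw, ha, hb, m, hm, h⟩ := fer_relation hF hpq
  have h1 : a • w - b • square p q ∈ T := by
    refine hsat m _ (by exact_mod_cast hm.ne') ?_
    rw [natCast_zsmul]
    exact hT h
  have h2 := sub_mem (zsmul_mem (hall w hw) a) h1
  rw [sub_sub_cancel] at h2
  exact hsat b _ hb h2

/-- a subgroup which is closed under division and contains the cycles rationally equivalent to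
zero and the images of the cycles of the coverings of the curves `y ^ 2 = x ^ n - 1` contains
the kernel of the Albanese map -/
theorem fer_mem [Fintype ι] (hL : ∀ i, IsCurve QQ (L i))
    {T : AddSubgroup ((∀ i, Place QQ (L i)) →₀ ℤ)} (hT : RatEq L ≤ T)
    (hsat : ∀ (n : ℤ) (z : (∀ i, Place QQ (L i)) →₀ ℤ), n ≠ 0 → n • z ∈ T → z ∈ T)
    (hall : ∀ w, FerImage L w → w ∈ T) {z : (∀ i, Place QQ (L i)) →₀ ℤ} (hz : AlbKer L z) :
    z ∈ T := by
  have hsq : ∀ (M : Type) (_ : Field M) (_ : Algebra QQ M) (p q : Place QQ M)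
      (Φ : (Bool → Place QQ M) → ∀ l, Place QQ (L l)), IsCurve QQ M → IsMor Φ →
        (square p q).mapDomain Φ ∈ T := by
    intro M _ _ p q Φ hM hΦ
    let W : ((Bool → Place QQ M) →₀ ℤ) →+ ((∀ i, Place QQ (L i)) →₀ ℤ) :=
      Finsupp.mapDomain.addMonoidHom Φ
    have h1 : square p q ∈ T.comap W := by
      refine fer_square hM (T := T.comap W) ?_ ?_ ?_ p q
      · intro y hy
        rw [AddSubgroup.mem_comap]
        exact hT (map_mem Φ hΦ hy)
      · intro n y hn hy
        rw [AddSubgroup.mem_comap, map_zsmul] at hy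
        rw [AddSubgroup.mem_comap]
        exact hsat n _ hn hy
      · rintro w ⟨N, _, _, n, u, y, φ, Ψ, K, hN, hΨ, hK, rfl⟩
        rw [AddSubgroup.mem_comap]
        have hne : Nonempty (Bool → Place QQ N) := by
          obtain ⟨V, -⟩ := exists_ext hM hN.etale.curve φ p
          exact ⟨fun _ => V⟩
        refine hall _ ⟨N, _, _, n, u, y, K, Φ ∘ (fun a b => Ψ (a b)), hN, hK, ?_, ?_⟩
        · exact IsMor.comp (fun b => Or.inr ⟨b, φ, fun a => hΨ (a b)⟩) hΦ
        · change ((fp K).mapDomain _).mapDomain Φ = _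
          rw [Finsupp.mapDomain_comp]
    exact h1
  refine of_symbols (T := T) hT ?_ hz
  intro i j hij a x y
  by_cases hx : a i = x
  · have h0 : Finsupp.single a (1 : ℤ) - Finsupp.single (Function.update a i x) 1 -
        Finsupp.single (Function.update a j y) 1 +
        Finsupp.single (Function.update (Function.update a i x) j y) 1 = 0 := by
      rw [← hx, Function.update_eq_self]
      abel
    rw [h0]
    exact zero_mem _
  by_cases hy : a j = y
  · have h0 : Finsupp.single a (1 : ℤ) - Finsupp.single (Function.update a i x) 1 -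
        Finsupp.single (Function.update a j y) 1 +
        Finsupp.single (Function.update (Function.update a i x) j y) 1 = 0 := by
      rw [← hy, Function.update_eq_self, Function.update_comm hij, Function.update_eq_self]
      abel
    rw [h0]
    exact zero_mem _
  obtain ⟨M, _, _, p, q, Φ, hM, hΦ, he⟩ := symbol_square hL hij a hx hy
  rw [he]
  exact hsq M _ _ p q Φ hM hΦ

/-- **The Galois étale coverings of the curves `y ^ 2 = x ^ n - 1` are universal.** A multiple of
every cycle in the kernel of the Albanese map of a product of curves over the algebraic numbers is a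
combination of images of the cycles of Faber and Pandharipande of the Galois étale coverings of the
curves `y ^ 2 = x ^ n - 1`. -/
theorem generation_fer [Fintype ι] (hL : ∀ i, IsCurve QQ (L i))
    {z : (∀ i, Place QQ (L i)) →₀ ℤ} (hz : AlbKer L z) : Spanned L (FerImage L) z := by
  refine fer_mem (T := sat (RatEq L ⊔ AddSubgroup.closure {w | FerImage L w})) hL
    (le_sup_left.trans (le_sat _)) (fun n z hn h => sat_of_zsmul hn h) ?_ hz
  intro w hw
  exact le_sat _ ((le_sup_right : _ ≤ RatEq L ⊔ _) (AddSubgroup.subset_closure hw))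

end Univ

/-- **The conjecture for the Galois étale coverings of the curves `y ^ 2 = x ^ n - 1`.** -/
theorem zeroCycles_fer : FPFerConj → ZeroCyclesConj := by
  intro h ι _ L _ _ hL z hz
  refine fer_mem (T := torGroup L) hL ratEq_le_torGroup
    (fun n z hn h => tor_of_zsmul hn h) ?_ hz
  rintro w ⟨M, _, _, n, x, y, K, Φ, hE, hK, hΦ, rfl⟩
  exact map_tor Φ hΦ (h M n x y hE K hK)

/-- all forms of the conjecture -/
theorem fer_tfae : [ZeroCyclesConj, FPConj, FPConjQ, FPEtConj QQ, FPFerConj].TFAE := by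
  obtain ⟨Ω, _, _, t, ⟨hΩ1, hΩ2, hΩ3⟩⟩ := exists_algFun QQ
  have hΩ : IsAlgFun t := ⟨hΩ1, hΩ2, hΩ3⟩
  obtain ⟨P, O, hP, hO⟩ := exists_pair hΩ
  have h := fpQ_tfae hΩ hP hO
  tfae_have 1 ↔ 2 := h.out 0 1
  tfae_have 1 ↔ 3 := h.out 0 2
  tfae_have 2 → 4 := fun h M _ _ _ _ _ hE => h M hE.curve
  tfae_have 4 → 5 := fun h M _ _ _ _ _ hE => h M _ _ _ hE.etale
  tfae_have 5 → 1 := zeroCycles_fer
  tfae_finish

end Pool.Agent.FPZ
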