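import Pool.Agent.FPZ.JointK

/-!
# The Galois closure of a curve over the projective line and two radicals
-/

set_option autoImplicit false

noncomputable section

namespace Pool.Agent.FPZ

open Pool.Agent.ZCyc Pool.Agent.Dess Pool.Agent.Dess4 Polynomial IntermediateField
open scoped Classical

variable {k Ω : Type} [Field k] [Field Ω] [Algebra k Ω] {tt : Ω}

/-- The Galois closure `M` of a curve over the projective line, together with an `N`-th root `U` of
the coordinate and a square root `Y` of a polynomial in the coordinate. -/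
theorem exists_galois_rad [CharZero k] (hΩ : AlgFun k tt) {F : Type} [Field F] [Algebra k F]
    {g : F} (hg : Transcendental k g) (hfg : FiniteDimensional (adjoin k {g}) F) {n : ℕ}
    (hn : 0 < n) (q : k[X]) :
    ∃ (M : Type) (_ : Field M) (_ : Algebra k M) (t : M) (φ : F →ₐ[k] M) (U Y : M),
      Transcendental k t ∧ FiniteDimensional (adjoin k {t}) M ∧ IsGalois (adjoin k {t}) M ∧
        φ g = t ∧ U ^ n = t ∧ Y ^ 2 = aeval t q ∧
        ∀ σ : M ≃ₐ[adjoin k {t}] M, (∀ ψ : F →ₐ[k] M, ψ g = t → ∀ f, σ (ψ f) = ψ f) →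
          (∀ z : M, z ^ n = t → σ z = z) → (∀ z : M, z ^ 2 = aeval t q → σ z = z) → σ = 1 := by
  have hclosed := hΩ.closed
  obtain ⟨ψ₁, h₁⟩ := algFun_embed hΩ hg hfg
  let E : IntermediateField k Ω := adjoin k {tt}
  have hle₁ : E ≤ ψ₁.fieldRange := adjoin_simple_le_iff.2 ⟨g, h₁⟩
  let R₁ : IntermediateField E Ω := extendScalars hle₁
  have hR₁ : FiniteDimensional E R₁ := range_finite hfg h₁ hle₁
  have hchE : CharZero E := charZero_of_injective_algebraMap (algebraMap k E).injective
  have hEalg : Algebra.IsAlgebraic E Ω := hΩ.alg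
  have hEn : Normal E Ω := by
    have : IsAlgClosure E Ω := ⟨inferInstance, hEalg⟩
    exact IsAlgClosure.normal E Ω
  obtain ⟨U₀, hU₀⟩ := IsAlgClosed.exists_pow_nat_eq tt hn
  obtain ⟨Y₀, hY₀⟩ := IsAlgClosed.exists_pow_nat_eq (aeval tt q) (n := 2) two_pos
  let R₂ : IntermediateField E Ω := adjoin E {U₀, Y₀}
  have hR₂ : FiniteDimensional E R₂ := by
    have : Finite ({U₀, Y₀} : Set Ω) := Set.Finite.to_subtype (by simp)
    exact finiteDimensional_adjoin fun x _ => Algebra.IsIntegral.isIntegral x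
  let R : IntermediateField E Ω := R₁ ⊔ R₂
  have hR : FiniteDimensional E R := finiteDimensional_sup R₁ R₂
  let N : IntermediateField E Ω := normalClosure E R Ω
  have hNn : Normal E N := inferInstance
  have hNf : FiniteDimensional E N := inferInstance
  have hNg : IsGalois E N := ⟨⟩
  have hRN : R ≤ N := by
    intro y hy
    exact R.val.fieldRange_le_normalClosure ⟨⟨y, hy⟩, rfl⟩
  let M : IntermediateField k Ω := N.restrictScalars k
  have hEM : E ≤ M := by
    intro y hy
    exact N.algebraMap_mem ⟨y, hy⟩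
  have htM : tt ∈ M := hEM (mem_adjoin_simple_self k tt)
  let t : M := ⟨tt, htM⟩
  have ht : Transcendental k t := by
    intro h
    apply hΩ.transc
    exact (isAlgebraic_algebraMap_iff (algebraMap M Ω).injective).2 h
  have hMf : FiniteDimensional (adjoin k {t}) M := by
    refine Module.Finite.of_equiv_equiv (A₁ := E) (B₁ := N)
      (jk_equiv M htM).symm.toRingEquiv (B₂ := M) (RingEquiv.refl N) ?_
    ext y
    have h1 := jk_equiv_coe M htM ((jk_equiv M htM).symm y)
    rw [AlgEquiv.apply_symm_apply] at h1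
    exact h1.symm
  have hMg : IsGalois (adjoin k {t}) M := by
    refine IsGalois.of_equiv_equiv (F := E) (E := N)
      (f := (jk_equiv M htM).symm.toRingEquiv) (g := RingEquiv.refl N) ?_
    ext y
    have h1 := jk_equiv_coe M htM ((jk_equiv M htM).symm y)
    rw [AlgEquiv.apply_symm_apply] at h1
    exact h1.symm
  have hm₁ : ∀ x, ψ₁ x ∈ M := fun x => hRN ((le_sup_left : R₁ ≤ R) ⟨x, rfl⟩)
  have hUR : U₀ ∈ R := (le_sup_right : R₂ ≤ R) (subset_adjoin _ _ (by simp))
  have hYR : Y₀ ∈ R := (le_sup_right : R₂ ≤ R) (subset_adjoin _ _ (by simp))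
  have htR : tt ∈ R := R.algebraMap_mem ⟨tt, mem_adjoin_simple_self k tt⟩
  have hcoe : ∀ p : k[X], ((aeval t p : M) : Ω) = aeval tt p := fun p =>
    (aeval_algebraMap_apply Ω t p).symm
  refine ⟨M, inferInstance, inferInstance, t, ψ₁.codRestrict M.toSubalgebra hm₁,
    ⟨U₀, hRN hUR⟩, ⟨Y₀, hRN hYR⟩, ht, hMf, hMg, Subtype.ext h₁, Subtype.ext hU₀,
    Subtype.ext (hY₀.trans (hcoe q).symm), ?_⟩
  intro σ hσ hσU hσY
  -- the subfield fixed by `σ`
  let K' : IntermediateField E Ω :=
    { carrier := {z | ∃ hz : z ∈ M, σ ⟨z, hz⟩ = ⟨z, hz⟩}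
      mul_mem' := by
        rintro a b ⟨ha, ha'⟩ ⟨hb, hb'⟩
        exact ⟨mul_mem ha hb, (map_mul σ ⟨a, ha⟩ ⟨b, hb⟩).trans (by rw [ha', hb']; rfl)⟩
      one_mem' := ⟨one_mem _, map_one σ⟩
      add_mem' := by
        rintro a b ⟨ha, ha'⟩ ⟨hb, hb'⟩
        exact ⟨add_mem ha hb, (map_add σ ⟨a, ha⟩ ⟨b, hb⟩).trans (by rw [ha', hb']; rfl)⟩
      zero_mem' := ⟨zero_mem _, map_zero σ⟩
      algebraMap_mem' := by
        intro r
        refine ⟨hEM r.2, ?_⟩
        have h1 : (⟨(r : Ω), hEM r.2⟩ : M) ∈ adjoin k {t} := by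
          have h2 := jk_equiv_coe M htM ((jk_equiv M htM).symm r)
          rw [AlgEquiv.apply_symm_apply] at h2
          have h3 : (⟨(r : Ω), hEM r.2⟩ : M) = (((jk_equiv M htM).symm r : adjoin k {t}) : M) :=
            Subtype.ext h2
          rw [h3]
          exact ((jk_equiv M htM).symm r).2
        exact σ.commutes ⟨_, h1⟩
      inv_mem' := by
        rintro a ⟨ha, ha'⟩
        exact ⟨inv_mem ha, (map_inv₀ σ ⟨a, ha⟩).trans (by rw [ha']; rfl)⟩ }
  have hNK : N ≤ K' := by
    rw [normalClosure_le_iff]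
    intro f
    have hft : f ⟨tt, htR⟩ = tt := f.commutes ⟨tt, mem_adjoin_simple_self k tt⟩
    have hfN : ∀ z, f z ∈ M := fun z => f.fieldRange_le_normalClosure ⟨z, rfl⟩
    have hpE : ∀ p : k[X], ((aeval (⟨tt, mem_adjoin_simple_self k tt⟩ : E) p : E) : Ω) =
        aeval tt p := fun p =>
      (aeval_algebraMap_apply Ω (⟨tt, mem_adjoin_simple_self k tt⟩ : E) p).symm
    have hpR : ∀ p : k[X], aeval tt p ∈ R := by
      intro p
      rw [← hpE]
      exact R.algebraMap_mem _
    have hfk : ∀ p : k[X], f ⟨aeval tt p, hpR p⟩ = aeval tt p := by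
      intro p
      have h1 := f.commutes (aeval (⟨tt, mem_adjoin_simple_self k tt⟩ : E) p)
      have h3 : (⟨aeval tt p, hpR p⟩ : R) =
          algebraMap E R (aeval (⟨tt, mem_adjoin_simple_self k tt⟩ : E) p) :=
        Subtype.ext (hpE p).symm
      rw [h3, h1]
      exact hpE p
    let S : IntermediateField E Ω := lift (K'.comap f)
    have hS : ∀ z (hz : z ∈ R), f ⟨z, hz⟩ ∈ K' → z ∈ S := by
      intro z hz h
      exact (mem_lift (⟨z, hz⟩ : R)).2 h
    have hRS : R ≤ S := by
      refine sup_le ?_ ?_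
      · rintro _ ⟨y, rfl⟩
        have hyR : ψ₁ y ∈ R := (le_sup_left : R₁ ≤ R) ⟨y, rfl⟩
        refine hS _ hyR ?_
        let ψ : F →ₐ[k] Ω :=
          { toFun := fun y => f ⟨ψ₁ y, (le_sup_left : R₁ ≤ R) ⟨y, rfl⟩⟩
            map_one' := by
              rw [← map_one f]
              exact congrArg f (Subtype.ext (map_one ψ₁))
            map_mul' := by
              intro a b
              rw [← map_mul f]
              exact congrArg f (Subtype.ext (map_mul ψ₁ a b))
            map_zero' := by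
              rw [← map_zero f]
              exact congrArg f (Subtype.ext (map_zero ψ₁))
            map_add' := by
              intro a b
              rw [← map_add f]
              exact congrArg f (Subtype.ext (map_add ψ₁ a b))
            commutes' := by
              intro c
              have h1 := f.commutes (algebraMap k E c)
              refine Eq.trans (congrArg f (Subtype.ext (ψ₁.commutes c))) h1 }
        have h2 := hσ (ψ.codRestrict M.toSubalgebra fun y => hfN _) (Subtype.ext (by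
          change f ⟨ψ₁ g, _⟩ = tt
          rw [← hft]
          exact congrArg f (Subtype.ext h₁))) y
        exact ⟨hfN _, h2⟩
      · rw [adjoin_le_iff]
        rintro z (hz | hz)
        · rw [hz]
          refine hS _ hUR ⟨hfN _, hσU _ (Subtype.ext ?_)⟩
          change f ⟨U₀, hUR⟩ ^ n = tt
          rw [← map_pow, ← hft]
          exact congrArg f (Subtype.ext hU₀)
        · rw [Set.mem_singleton_iff.1 hz]
          refine hS _ hYR ⟨hfN _, hσY _ (Subtype.ext ?_)⟩
          change f ⟨Y₀, hYR⟩ ^ 2 = ((aeval t q : M) : Ω)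
          rw [hcoe, ← hfk q, ← map_pow]
          exact congrArg f (Subtype.ext hY₀)
    rintro _ ⟨z, rfl⟩
    exact (mem_lift z).1 (hRS z.2)
  ext z
  obtain ⟨hz, h⟩ := hNK z.2
  exact congrArg Subtype.val h

end Pool.Agent.FPZ
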