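import Pool.Agent.FPZ.Hir2

/-!
# The difference of two conjugates of a function which is a coordinate
-/

set_option autoImplicit false

noncomputable section

namespace Pool.Agent.FPZ

open Pool.Agent.ZCyc Pool.Agent.Dess Pool.Agent.Dess4 Pool.Agent.Rank22 IntermediateField Module
open scoped Classical

variable {k F M : Type} [Field k] [IsAlgClosed k] [CharZero k] [Field F] [Algebra k F] [Field M]
  [Algebra k M] {t : M} {φ : F →ₐ[k] M} {x : F} [FiniteDimensional (adjoin k {t}) M]
  [IsGalois (adjoin k {t}) M] {π : Place k M → Place k F}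

/-- Let `T` and `Y` be functions on the curve with function field `F` such that `T` is invariant
and `T` or `Y - d` is a uniformizer at the point below `V`. If `σ` does not fix the subfield, but
the points `V` and `σ V` are above the same point, then `Y - σ⁻¹ Y` and the uniformizer have the
same order at `V`. -/
theorem diff_ord (hF : IsCurve k F) (ht : Transcendental k t) (hx : φ x = t)
    (hπ : ∀ V, V.ring.comap (φ : F →+* M) = (π V).ring) {σ : M ≃ₐ[adjoin k {t}] M}
    (hσ : σ ∉ fixf t φ) {V : Place k M} (hσV : π (gact (adjoin k {t}) σ V) = π V) {T Y : F}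
    (hT : ∀ τ : M ≃ₐ[adjoin k {t}] M, τ (φ T) = φ T) {d : k}
    (hu : IsUnif (π V) T ∨ IsUnif (π V) (Y - algebraMap k F d)) {ϖ : F} (hϖ : IsUnif (π V) ϖ)
    {e : ℤ} (he : HasOrd V (φ ϖ) e) : HasOrd V (φ Y - σ⁻¹ (φ Y)) e := by
  have hM : IsCurve k M := ⟨t, ht, inferInstance⟩
  obtain ⟨ρ, hρ, hρV⟩ := fixf_trans (t := t) (φ := φ) hM hx hπ hσV
  have hρ' := mem_fixf.1 hρ
  set s := ρ * σ with hs
  have hsV : gact (adjoin k {t}) s V = V := by
    rw [hs, gact_mul, hρV]
  have hsV' : gact (adjoin k {t}) s⁻¹ V = V := by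
    conv_lhs => rw [← hsV]
    rw [← gact_mul, inv_mul_cancel, gact_one]
  have hρi : ∀ f : F, ρ⁻¹ (φ f) = φ f := by
    intro f
    have := congrArg (ρ⁻¹ : M ≃ₐ[adjoin k {t}] M) (hρ' f)
    rw [← AlgEquiv.mul_apply, inv_mul_cancel, AlgEquiv.one_apply] at this
    exact this.symm
  have hsf : s ∉ fixf t φ := by
    intro h
    apply hσ
    rw [mem_fixf] at h ⊢
    intro f
    have h1 : σ = ρ⁻¹ * s := by rw [hs, inv_mul_cancel_left]
    rw [h1, AlgEquiv.mul_apply, h, hρi]
  have hsf' : s⁻¹ ∉ fixf t φ := by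
    intro h
    apply hsf
    rw [mem_fixf] at h ⊢
    intro f
    have := congrArg s (h f)
    rw [← AlgEquiv.mul_apply, mul_inv_cancel, AlgEquiv.one_apply] at this
    exact this.symm
  -- uniformizers at the point below `V` have the same order at `V`
  have hw : ∀ w : F, IsUnif (π V) w → HasOrd V (φ w) e := by
    intro w hw
    have := ord_pull (hπ V) hϖ he (dc_ord_unif hw)
    rwa [one_mul] at this
  have hepos : 0 < e := by
    refine ord_pos_of_vanishes ((_root_.map_ne_zero φ).2 hϖ.1) he ?_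
    rw [comap_vanishes (hπ V)]
    exact hϖ.2.1
  obtain ⟨n, rfl⟩ := Int.eq_ofNat_of_zero_le hepos.le
  have hn : 0 < n := by exact_mod_cast hepos
  set A := (fixf t φ).filter fun σ => gact (adjoin k {t}) σ V = V with hA
  have hAcard : A.card = n := by
    have := fixf_stab hF hM hx hπ V hϖ he
    exact_mod_cast this
  -- the values at the elements of the stabilizer
  have key : ∀ (w : F), IsUnif (π V) w → ∀ r : M ≃ₐ[adjoin k {t}] M,
      gact (adjoin k {t}) r V = V → r ∉ fixf t φ → ¬ V.At (r (φ w) / φ w) 1 := by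
    intro w hw' r hr hrf hval
    have h1 := stab_root ht ((_root_.map_ne_zero φ).2 hw'.1) hn (hw w hw') hAcard
      (fun τ hτ => (Finset.mem_filter.1 hτ).2)
      (fun τ hτ => mem_fixf.1 (Finset.mem_filter.1 hτ).1 w) hr hval
    exact hrf (Finset.mem_filter.1 h1).1
  rcases hu with hu | hu
  · exfalso
    refine key T hu s hsV hsf ?_
    rw [hT, div_self ((_root_.map_ne_zero φ).2 hu.1)]
    have h5 := Place.at_const (F := M) (v := V) (1 : k)
    rwa [map_one] at h5
  · have hφu : φ (Y - algebraMap k F d) ≠ 0 := (_root_.map_ne_zero φ).2 hu.1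
    obtain ⟨c, -, hc⟩ : ∃ c : k, c ≠ 0 ∧
        V.At (s⁻¹ (φ (Y - algebraMap k F d)) / φ (Y - algebraMap k F d)) c := by
      have h1 := hw _ hu
      have h2 : HasOrd V (s⁻¹ (φ (Y - algebraMap k F d))) n := by
        have h3 := ord_map ((s⁻¹ : M ≃ₐ[adjoin k {t}] M).restrictScalars k) h1
        have h4 : V.map ((s⁻¹ : M ≃ₐ[adjoin k {t}] M).restrictScalars k) = V := hsV'
        rw [h4] at h3
        exact h3
      have h3 := ord_mul h2 (ord_inv h1)
      rw [add_neg_cancel, ← div_eq_mul_inv] at h3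
      obtain ⟨ϖ', hϖ', h4, h5⟩ := h3
      rw [zpow_zero, div_one] at h4 h5
      exact unit_value hM (div_ne_zero ((_root_.map_ne_zero _).2 hφu) hφu) h4 h5
    have hc1 : 1 - c ≠ 0 := by
      intro h
      have h1 : c = 1 := by
        rw [sub_eq_zero] at h
        exact h.symm
      rw [h1] at hc
      exact key _ hu s⁻¹ hsV' hsf' hc
    have h1 := (Place.at_const (F := M) (v := V) (1 : k)).sub hc
    have h2 := dc_ord_mul (hw _ hu) h1 hc1
    have h3 : s⁻¹ (φ (Y - algebraMap k F d)) = σ⁻¹ (φ Y) - algebraMap k M d := by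
      rw [hs, mul_inv_rev, AlgEquiv.mul_apply, hρi, map_sub, map_sub, AlgHom.commutes]
      congr 1
      rw [IsScalarTower.algebraMap_apply k (adjoin k {t}) M]
      exact (σ⁻¹ : M ≃ₐ[adjoin k {t}] M).commutes _
    have h4 : φ (Y - algebraMap k F d) * (algebraMap k M 1 -
        s⁻¹ (φ (Y - algebraMap k F d)) / φ (Y - algebraMap k F d)) = φ Y - σ⁻¹ (φ Y) := by
      rw [mul_sub, map_one, mul_one, mul_div_cancel₀ _ hφu, h3, map_sub, AlgHom.commutes]
      ring
    rwa [h4] at h2

end Pool.Agent.FPZ
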