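import Pool.Agent.FPZ.Et2
import Pool.Agent.FPZ.Hir3
import Pool.Agent.FPZ.AbCov3

/-!
# The stabilizers of the points of the Galois closure
-/

set_option autoImplicit false

noncomputable section

namespace Pool.Agent.FPZ

open Pool.Agent.ZCyc Pool.Agent.Dess Pool.Agent.Dess4 Pool.Agent.Rank22 Polynomial
  IntermediateField
open scoped Classical

variable {k F M : Type} [Field k] [IsAlgClosed k] [CharZero k] [Field F] [Algebra k F] [Field M]
  [Algebra k M] {t : M} [FiniteDimensional (adjoin k {t}) M] [IsGalois (adjoin k {t}) M]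

/-- the order of the stabilizer -/
theorem card_gstab {T : M} (hT : Transcendental k T) (hE : adjoin k {T} = adjoin k {t})
    {V : Place k M} (hV : V.At T 0) {m : ℤ} (hm : HasOrd V T m) :
    (Nat.card (gstab (adjoin k {t}) V) : ℤ) = m := by
  have hM : IsCurve k M := ⟨T, hT, by rw [hE]; infer_instance⟩
  obtain ⟨D, hD⟩ := exists_div hM (transc_ne hT)
  have h1 := orb_zeros hT hE (V := V) hV hD V
  rw [orb_gstab, hasOrd_unique hM (transc_ne hT) (hD V) hm] at h1
  rw [h1, max_eq_left]
  exact (ord_pos_of_vanishes (transc_ne hT) hm (Place.at_zero_iff.1 hV)).le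

/-- the stabilizer has at most `e` elements if `s ^ e = 1` for all its elements `s` -/
theorem card_le_of_pow (ht : Transcendental k t) {V : Place k M} {e : ℕ} (he : 0 < e)
    (h : ∀ s : M ≃ₐ[adjoin k {t}] M, gact (adjoin k {t}) s V = V → s ^ e = 1) :
    Nat.card (gstab (adjoin k {t}) V) ≤ e := by
  have hM : IsCurve k M := ⟨t, ht, inferInstance⟩
  obtain ⟨π, hπ⟩ := exists_unif hM V
  obtain ⟨χ, hinj, -⟩ := exists_char ht hπ
  have h1 : ∀ s : gstab (adjoin k {t}) V, χ s ∈ (nthRoots e (1 : k)).toFinset := by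
    intro s
    rw [Multiset.mem_toFinset, mem_nthRoots he, ← map_pow]
    have h2 : s ^ e = 1 := Subtype.ext (h s s.2)
    rw [h2, map_one]
  have h2 : Fintype.card (gstab (adjoin k {t}) V) ≤ (nthRoots e (1 : k)).toFinset.card := by
    rw [← Finset.card_univ, ← Finset.card_image_of_injective _ hinj]
    apply Finset.card_le_card
    intro c hc
    obtain ⟨s, -, rfl⟩ := Finset.mem_image.1 hc
    exact h1 s
  rw [Nat.card_eq_fintype_card]
  exact h2.trans ((nthRoots e (1 : k)).toFinset_card_le.trans (card_nthRoots e (1 : k)))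

/-- a power of an element of the stabilizer fixes a subfield, if the exponent is the ramification
index of the subfield -/
theorem pow_fix (hF : IsCurve k F) (ht : Transcendental k t) {g : F} {ψ : F →ₐ[k] M}
    (hψ : ψ g = t) {V : Place k M} {T : F} (hT : Transcendental k (ψ T))
    (hE : adjoin k {ψ T} = adjoin k {t}) (hV : V.At (ψ T) 0) {v : Place k F}
    (hv : V.ring.comap (ψ : F →+* M) = v.ring) {m : ℕ} (hm : HasOrd v T m)
    {s : M ≃ₐ[adjoin k {t}] M} (hs : gact (adjoin k {t}) s V = V) (f : F) :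
    (s ^ m) (ψ f) = ψ f := by
  have hM : IsCurve k M := ⟨t, ht, inferInstance⟩
  obtain ⟨π, hπ⟩ := exists_proj hF hM ψ
  have hπv : π V = v := Place.ext ((hπ V).symm.trans hv)
  obtain ⟨ϖ, hϖ⟩ := exists_unif hF v
  have hψϖ : ψ ϖ ≠ 0 := (_root_.map_ne_zero ψ).2 hϖ.1
  obtain ⟨e, he⟩ := exists_hasOrd hM V hψϖ
  have he0 : 0 < e := by
    refine ord_pos_of_vanishes hψϖ he ?_
    rw [comap_vanishes hv]
    exact hϖ.2.1
  have h1 := fixf_stab hF hM hψ hπ V (by rwa [hπv]) he
  have h2 : HasOrd V (ψ T) (m * e) := ord_pull hv hϖ he hm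
  have h3 := card_gstab hT hE hV h2
  -- the elements of the stabilizer which fix the subfield
  let K : Subgroup (gstab (adjoin k {t}) V) :=
    { carrier := {s | ∀ f : F, (s : M ≃ₐ[adjoin k {t}] M) (ψ f) = ψ f}
      mul_mem' := by
        intro a b ha hb f
        rw [Subgroup.coe_mul, AlgEquiv.mul_apply, hb f, ha f]
      one_mem' := fun f => rfl
      inv_mem' := by
        intro a ha f
        have h4 := congrArg ((a⁻¹ : gstab (adjoin k {t}) V) : M ≃ₐ[adjoin k {t}] M) (ha f)
        rw [← AlgEquiv.mul_apply, ← Subgroup.coe_mul, inv_mul_cancel] at h4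
        exact h4.symm }
  have hK : (Nat.card K : ℤ) = e := by
    rw [← h1, ← Fintype.card_coe, ← Nat.card_eq_fintype_card]
    congr 1
    refine Nat.card_congr
      { toFun := fun x => ⟨x.1.1, Finset.mem_filter.2 ⟨mem_fixf.2 x.2, x.1.2⟩⟩
        invFun := fun σ => ⟨⟨σ.1, (Finset.mem_filter.1 σ.2).2⟩,
          mem_fixf.1 (Finset.mem_filter.1 σ.2).1⟩
        left_inv := fun x => rfl
        right_inv := fun σ => rfl }
  have hcomm : ∀ a b : gstab (adjoin k {t}) V, a * b = b * a := by
    obtain ⟨π, hπ⟩ := exists_unif hM V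
    obtain ⟨χ, hinj, -⟩ := exists_char ht hπ
    intro a b
    apply hinj
    rw [map_mul, map_mul, mul_comm]
  have hnormal : K.Normal := ⟨fun a ha b => by rwa [hcomm b a, mul_inv_cancel_right]⟩
  have hindex : K.index = m := by
    have h4 := K.card_mul_index
    have h5 : e * (K.index : ℤ) = m * e := by
      rw [← h3]
      nth_rewrite 1 [← hK]
      exact_mod_cast h4
    have h6 : (K.index : ℤ) = m := mul_left_cancel₀ he0.ne' (by rw [h5, mul_comm])
    exact_mod_cast h6
  have h4 := K.pow_index_mem ⟨s, hs⟩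
  rw [hindex] at h4
  exact h4 f

omit [CharZero k] [FiniteDimensional (adjoin k {t}) M] [IsGalois (adjoin k {t}) M] in
/-- radicals are multiplied by constants -/
theorem rad_const {z : M} (hz : z ≠ 0) {n : ℕ} (hn : 0 < n) {w : M}
    {s : M ≃ₐ[adjoin k {t}] M} (hw : s w = w) (hzn : z ^ n = w) :
    ∃ c : k, c ^ n = 1 ∧ s z = algebraMap k M c * z := by
  obtain ⟨c, hc⟩ := root_const (k := k) (z := s z / z) hn (by
    rw [div_pow, ← map_pow, hzn, hw, div_self]
    rw [← hzn]
    exact pow_ne_zero _ hz)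
  refine ⟨c, ?_, by rw [hc, div_mul_cancel₀ _ hz]⟩
  apply (algebraMap k M).injective
  rw [map_pow, hc, map_one, div_pow, ← map_pow, hzn, hw, div_self]
  rw [← hzn]
  exact pow_ne_zero _ hz

omit [IsAlgClosed k] [CharZero k] [FiniteDimensional (adjoin k {t}) M]
  [IsGalois (adjoin k {t}) M] in
theorem alg_fix (s : M ≃ₐ[adjoin k {t}] M) (c : k) :
    s (algebraMap k M c) = algebraMap k M c := by
  rw [IsScalarTower.algebraMap_apply k (adjoin k {t}) M]
  exact s.commutes _

omit [CharZero k] [FiniteDimensional (adjoin k {t}) M] [IsGalois (adjoin k {t}) M] in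
/-- the power of the exponent fixes a radical -/
theorem rad_pow {z : M} (hz : z ≠ 0) {n : ℕ} (hn : 0 < n) {w : M}
    {s : M ≃ₐ[adjoin k {t}] M} (hw : s w = w) (hzn : z ^ n = w) : (s ^ n) z = z := by
  obtain ⟨c, hc, h⟩ := rad_const hz hn hw hzn
  have h1 : ∀ i : ℕ, (s ^ i) z = algebraMap k M (c ^ i) * z := by
    intro i
    induction i with
    | zero => rw [pow_zero, pow_zero, map_one, one_mul, AlgEquiv.one_apply]
    | succ i ih =>
      rw [pow_succ, AlgEquiv.mul_apply, h, map_mul, alg_fix, ih, pow_succ, map_mul]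
      ring
  rw [h1, hc, map_one, one_mul]

omit [CharZero k] [FiniteDimensional (adjoin k {t}) M] [IsGalois (adjoin k {t}) M] in
/-- an element of the stabilizer fixes a radical which has a value different from zero -/
theorem rad_fix {z : M} (hz : z ≠ 0) {n : ℕ} (hn : 0 < n) {w : M}
    {s : M ≃ₐ[adjoin k {t}] M} (hw : s w = w) (hzn : z ^ n = w) {V : Place k M}
    (hs : gact (adjoin k {t}) s V = V) {b : k} (hb0 : b ≠ 0) (hb : V.At z b) : s z = z := by
  obtain ⟨c, -, h⟩ := rad_const hz hn hw hzn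
  have h1 : V.At (s z) b := stab_at hs hb
  rw [h] at h1
  have h2 := ((Place.at_const c).mul hb).unique h1
  have h3 : c = 1 := mul_right_cancel₀ hb0 (by rw [h2, one_mul])
  rw [h, h3, map_one, one_mul]

end Pool.Agent.FPZ
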