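import Pool.Agent.FPZ.Hir4

/-!
# The canonical divisor and the fibre product
-/

set_option autoImplicit false

noncomputable section

namespace Pool.Agent.FPZ

open Pool.Agent.ZCyc Pool.Agent.Dess Pool.Agent.Dess4 Pool.Agent.Rank22 IntermediateField Module
open scoped Classical

variable {k F M : Type} [Field k] [IsAlgClosed k] [CharZero k] [Field F] [Algebra k F] [Field M]
  [Algebra k M] {t : M} {φ : F →ₐ[k] M} {x : F} [FiniteDimensional (adjoin k {t}) M]
  [IsGalois (adjoin k {t}) M] {π : Place k M → Place k F}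

omit [IsAlgClosed k] [CharZero k] [FiniteDimensional (adjoin k {t}) M]
  [IsGalois (adjoin k {t}) M] in
theorem transc_pre (ht : Transcendental k t) (hx : φ x = t) : Transcendental k x := by
  intro h
  apply ht
  rw [← hx]
  exact (isAlgebraic_algHom_iff φ φ.injective).2 h

omit [IsAlgClosed k] [CharZero k] [FiniteDimensional (adjoin k {t}) M]
  [IsGalois (adjoin k {t}) M] in
theorem inv_at_zero {V : Place k M} (h : t ∉ V.ring) : V.At t⁻¹ 0 := by
  rw [Place.at_zero_iff, Place.vanishes_iff_or, inv_inv]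
  exact Or.inr h

/-- the multiplicities of an orbit at the points above the same point -/
theorem orb_above (hF : IsCurve k F) (ht : Transcendental k t) (hx : φ x = t)
    (hπ : ∀ V, V.ring.comap (φ : F →+* M) = (π V).ring) {K : Place k F →₀ ℤ} (hK : IsCan x K)
    {v w : Place k M} (hvw : π w = π v) {ϖ : F} (hϖ : IsUnif (π w) ϖ) {e : ℤ} (he0 : 0 < e)
    (he : HasOrd w (φ ϖ) e) :
    orb (adjoin k {t}) v w = |K (π v) + 1| * e := by
  have hM : IsCurve k M := ⟨t, ht, inferInstance⟩
  have hx' := transc_pre ht hx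
  obtain ⟨m, hm0, hm, hm'⟩ := can_aux hF hx' (π v)
  rcases hm' with ⟨a, ha, hma, hpos⟩ | ⟨hp, hall, hneg⟩
  · have hKm : K (π v) + 1 = m := by
      rw [hK _ a m hm0 hma]
      ring
    have ht' := transc_sub ht a
    obtain ⟨D, hD⟩ := exists_div hM (transc_ne ht')
    have h1 := orb_zeros ht' (by rw [adjoin_sub]) (E := adjoin k {t}) (V := v) (by
      rw [Place.at_zero_iff]
      have h2 := (comap_at (hπ v) x a).2 ha
      rwa [hx] at h2) hD w
    have h3 : HasOrd w (φ (x - algebraMap k F a)) (m * e) := by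
      refine ord_pull (hπ w) hϖ he ?_
      rw [hvw]
      exact hma
    rw [map_sub, hx, AlgHom.commutes] at h3
    rw [h1, hasOrd_unique hM (transc_ne ht') (hD w) h3, hKm, abs_of_pos hpos,
      max_eq_left (mul_pos hpos he0).le]
  · have hKm : K (π v) + 1 = m := by
      rw [hK _ 0 m hm0 (hall 0)]
      ring
    have ht' : Transcendental k t⁻¹ := fun h => ht (by simpa using h.inv)
    obtain ⟨D, hD⟩ := exists_div hM (transc_ne ht')
    have h1 := orb_zeros ht' (by rw [adjoin_inv]) (E := adjoin k {t}) (V := v) (by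
      apply inv_at_zero
      rw [← hx, comap_mem (hπ v)]
      exact hp) hD w
    have h3 : HasOrd w (φ x) (m * e) := by
      refine ord_pull (hπ w) hϖ he ?_
      have h4 := hall 0
      rw [map_zero, sub_zero] at h4
      rw [hvw]
      exact h4
    rw [hx] at h3
    have h4 := ord_inv h3
    rw [h1, hasOrd_unique hM (transc_ne ht') (hD w) h4, hKm, abs_of_neg hneg,
      max_eq_left (by nlinarith), neg_mul]

/-- the number of elements of the group which map `v` to a point above the same point -/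
theorem count_above (hF : IsCurve k F) (ht : Transcendental k t) (hx : φ x = t)
    (hπ : ∀ V, V.ring.comap (φ : F →+* M) = (π V).ring) {K : Place k F →₀ ℤ} (hK : IsCan x K)
    (v : Place k M) :
    ((Finset.univ.filter fun σ : M ≃ₐ[adjoin k {t}] M =>
      π (gact (adjoin k {t}) σ v) = π v).card : ℤ) =
        |K (π v) + 1| * finrank φ.fieldRange M := by
  have hM : IsCurve k M := ⟨t, ht, inferInstance⟩
  obtain ⟨S, hS, hsum⟩ := fibre_sum hF hM φ π hπ (π v)
  obtain ⟨ϖ, hϖ⟩ := exists_unif hF (π v)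
  have hφϖ : φ ϖ ≠ 0 := (_root_.map_ne_zero φ).2 hϖ.1
  choose e he using fun V => exists_hasOrd hM V hφϖ
  have hepos : ∀ V ∈ S, 0 < e V := by
    intro V hV
    refine ord_pos_of_vanishes hφϖ (he V) ?_
    rw [comap_vanishes (hπ V), (hS V).1 hV]
    exact hϖ.2.1
  have h1 : (Finset.univ.filter fun σ : M ≃ₐ[adjoin k {t}] M =>
      π (gact (adjoin k {t}) σ v) = π v).card = ∑ w ∈ S, ((Finset.univ.filter
        fun σ : M ≃ₐ[adjoin k {t}] M => π (gact (adjoin k {t}) σ v) = π v).filter
          fun σ => gact (adjoin k {t}) σ v = w).card := by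
    apply Finset.card_eq_sum_card_fiberwise
    intro σ hσ
    exact (hS _).2 (Finset.mem_filter.1 hσ).2
  rw [h1, Nat.cast_sum, ← finrank_range, ← hsum ϖ e hϖ fun V _ => he V, Finset.mul_sum]
  refine Finset.sum_congr rfl fun w hw => ?_
  rw [← orb_above hF ht hx hπ hK (v := v) ((hS w).1 hw) (by rwa [(hS w).1 hw]) (hepos w hw)
    (he w), orb_apply, Finset.filter_filter]
  congr 2
  ext σ
  rw [Finset.mem_filter, Finset.mem_filter]
  constructor
  · rintro ⟨h, -, h'⟩
    exact ⟨h, h'⟩
  · rintro ⟨h, h'⟩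
    exact ⟨h, by rw [h', (hS w).1 hw], h'⟩

theorem count_compl (hF : IsCurve k F) (ht : Transcendental k t) (hx : φ x = t)
    (hπ : ∀ V, V.ring.comap (φ : F →+* M) = (π V).ring) {K : Place k F →₀ ℤ} (hK : IsCan x K)
    (v : Place k M) :
    (((fixf t φ)ᶜ.filter fun σ => π (gact (adjoin k {t}) σ v) = π v).card : ℤ) =
        (|K (π v) + 1| - 1) * finrank φ.fieldRange M := by
  have h1 := count_above hF ht hx hπ hK v
  have h2 := Finset.card_filter_add_card_filter_not (s := Finset.univ.filter
    fun σ : M ≃ₐ[adjoin k {t}] M => π (gact (adjoin k {t}) σ v) = π v)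
    (fun σ => σ ∈ fixf t φ)
  have h3 : (Finset.univ.filter fun σ : M ≃ₐ[adjoin k {t}] M =>
      π (gact (adjoin k {t}) σ v) = π v).filter (fun σ => σ ∈ fixf t φ) = fixf t φ := by
    ext σ
    rw [Finset.mem_filter, Finset.mem_filter]
    constructor
    · exact fun h => h.2
    · exact fun h => ⟨⟨Finset.mem_univ _, fixf_pi hx hπ h v⟩, h⟩
  have h4 : (Finset.univ.filter fun σ : M ≃ₐ[adjoin k {t}] M =>
      π (gact (adjoin k {t}) σ v) = π v).filter (fun σ => ¬ σ ∈ fixf t φ) =
        (fixf t φ)ᶜ.filter fun σ => π (gact (adjoin k {t}) σ v) = π v := by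
    ext σ
    rw [Finset.mem_filter, Finset.mem_filter, Finset.mem_filter, Finset.mem_compl]
    constructor
    · exact fun h => ⟨h.2, h.1.2⟩
    · exact fun h => ⟨⟨Finset.mem_univ _, h.2⟩, h.1⟩
  rw [h3, h4, fixf_card hx] at h2
  have h5 : ((finrank φ.fieldRange M : ℕ) : ℤ) +
      (((fixf t φ)ᶜ.filter fun σ => π (gact (adjoin k {t}) σ v) = π v).card : ℤ) =
      |K (π v) + 1| * finrank φ.fieldRange M := by
    rw [← h1, ← h2]
    push_cast
    rfl
  linear_combination h5

end Pool.Agent.FPZ
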