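import Pool.Agent.FPZ.Et3
import Pool.Agent.FPZ.Hir5

/-!
# The ramification of the Galois closure with radicals
-/

set_option autoImplicit false

noncomputable section

namespace Pool.Agent.FPZ

open Pool.Agent.ZCyc Pool.Agent.Dess Pool.Agent.Dess4 Pool.Agent.Rank22 Polynomial
  IntermediateField
open scoped Classical

/-- a polynomial at a pole -/
theorem aeval_div_at {k F : Type} [Field k] [Field F] [Algebra k F] {v : Place k F} {x : F}
    (hx : x ∉ v.ring) (p : k[X]) : v.At (aeval x p / x ^ p.natDegree) p.leadingCoeff := by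
  have hx0 : x ≠ 0 := by
    rintro rfl
    exact hx (zero_mem _)
  let _ : Invertible x := invertibleOfNonzero hx0
  have h1 := eval₂_reverse_mul_pow (algebraMap k F) x p
  have h2 : aeval x p / x ^ p.natDegree = aeval x⁻¹ p.reverse := by
    rw [div_eq_iff (pow_ne_zero _ hx0), aeval_def, aeval_def, ← h1, invOf_eq_inv]
  rw [h2, ← coeff_zero_reverse, coeff_zero_eq_eval_zero]
  exact (inv_at_zero hx).aeval _

variable {k F M : Type} [Field k] [IsAlgClosed k] [CharZero k] [Field F] [Algebra k F] [Field M]
  [Algebra k M]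

/-- The ramification of the function `g`: the zeros of `q` are simple and different from zero, the
critical points of `g` with values different from zero are not degenerate, and their values are
zeros of `q`, and the orders of the zeros and of the poles of `g` divide `n`. -/
structure RamData (g : F) (n : ℕ) (q : k[X]) : Prop where
  pos : 0 < n
  sep : q.Separable
  even : Even (n * q.natDegree)
  eval : q.eval 0 ≠ 0
  crit : ∀ (v : Place k F) (a : k) (m : ℤ), a ≠ 0 → v.At g a →
    HasOrd v (g - algebraMap k F a) m → m = 1 ∨ (m = 2 ∧ q.eval a = 0)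
  zero : ∀ (v : Place k F) (m : ℤ), v.At g 0 → HasOrd v g m → m ∣ n
  pole : ∀ (v : Place k F) (m : ℤ), g ∉ v.ring → HasOrd v g m → m ∣ n

section Ram

variable {t U Y : M} [FiniteDimensional (adjoin k {t}) M] [IsGalois (adjoin k {t}) M]
  {g : F} {n : ℕ} {q : k[X]}

omit [IsAlgClosed k] [CharZero k] [FiniteDimensional (adjoin k {t}) M]
  [IsGalois (adjoin k {t}) M] in
theorem fix_iter {s : M ≃ₐ[adjoin k {t}] M} {z : M} (h : s z = z) (i : ℕ) : (s ^ i) z = z := by
  induction i with
  | zero => rfl
  | succ i ih => rw [pow_succ, AlgEquiv.mul_apply, h, ih]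

/-- the powers which fix the conjugates of the subfield -/
theorem psi_pow (hF : IsCurve k F) (ht : Transcendental k t) {ψ : F →ₐ[k] M}
    (hψ : ψ g = t) {V : Place k M} {T : F} (hT : Transcendental k (ψ T))
    (hE : adjoin k {ψ T} = adjoin k {t}) (hV : V.At (ψ T) 0) {e : ℕ}
    (hm : ∀ (v : Place k F) (m : ℤ), V.ring.comap (ψ : F →+* M) = v.ring → HasOrd v T m →
      0 < m → m ∣ e)
    {s : M ≃ₐ[adjoin k {t}] M} (hs : gact (adjoin k {t}) s V = V) (f : F) :
    (s ^ e) (ψ f) = ψ f := by
  have hM : IsCurve k M := ⟨t, ht, inferInstance⟩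
  obtain ⟨π, hπ⟩ := exists_proj hF hM ψ
  have hT0 : T ≠ 0 := by
    rintro rfl
    rw [map_zero] at hT
    exact hT isAlgebraic_zero
  obtain ⟨m, hm'⟩ := exists_hasOrd hF (π V) hT0
  have hpos : 0 < m := by
    refine ord_pos_of_vanishes hT0 hm' ?_
    rw [← comap_vanishes (hπ V)]
    exact Place.at_zero_iff.1 hV
  obtain ⟨l, rfl⟩ := Int.eq_ofNat_of_zero_le hpos.le
  obtain ⟨j, hj⟩ : (l : ℕ) ∣ e := by
    have := hm (π V) l (hπ V) hm' hpos
    exact_mod_cast this
  rw [hj, pow_mul]
  exact fix_iter (pow_fix hF ht hψ hT hE hV (hπ V) hm' hs f) j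

variable (hF : IsCurve k F) (ht : Transcendental k t) (hU : U ^ n = t) (hY : Y ^ 2 = aeval t q)
  (hgen : ∀ σ : M ≃ₐ[adjoin k {t}] M, (∀ ψ : F →ₐ[k] M, ψ g = t → ∀ f, σ (ψ f) = ψ f) →
    (∀ z : M, z ^ n = t → σ z = z) → (∀ z : M, z ^ 2 = aeval t q → σ z = z) → σ = 1)
  (hR : RamData g n q)

omit [IsAlgClosed k] [CharZero k] [FiniteDimensional (adjoin k {t}) M]
  [IsGalois (adjoin k {t}) M] in
theorem t_fix (s : M ≃ₐ[adjoin k {t}] M) : s t = t :=
  s.commutes ⟨t, mem_adjoin_simple_self k t⟩

omit [IsAlgClosed k] [CharZero k] [FiniteDimensional (adjoin k {t}) M]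
  [IsGalois (adjoin k {t}) M] in
theorem q_fix (s : M ≃ₐ[adjoin k {t}] M) (q : k[X]) : s (aeval t q) = aeval t q := by
  have : aeval t q ∈ adjoin k {t} := by
    rw [mem_adjoin_simple_iff]
    exact ⟨q, 1, by rw [map_one, div_one]⟩
  exact s.commutes ⟨_, this⟩

omit [IsAlgClosed k] [CharZero k] [FiniteDimensional (adjoin k {t}) M]
  [IsGalois (adjoin k {t}) M] in
include ht hU hR in
theorem U_ne : U ≠ 0 := by
  rintro rfl
  rw [zero_pow hR.pos.ne'] at hU
  exact transc_ne ht hU.symm

omit [IsAlgClosed k] [CharZero k] [FiniteDimensional (adjoin k {t}) M]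
  [IsGalois (adjoin k {t}) M] in
include ht hR in
theorem q_ne : aeval t q ≠ 0 := by
  intro h2
  have h3 := (transcendental_iff.1 ht) q h2
  have h4 := hR.eval
  rw [h3, eval_zero] at h4
  exact h4 rfl

include hF ht hgen hR

include hY in
/-- the points above a value of `t` which is different from zero -/
theorem ram_value {V : Place k M} {a : k} (ha0 : a ≠ 0) (ha : V.At t a) :
    HasOrd V (t - algebraMap k M a) (if q.eval a = 0 then 2 else 1) := by
  have hM : IsCurve k M := ⟨t, ht, inferInstance⟩
  have ht' := transc_sub ht a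
  have h0 := transc_ne ht'
  have hV0 : V.At (t - algebraMap k M a) 0 := by
    rw [Place.at_zero_iff]
    exact ha
  obtain ⟨m, hm⟩ := exists_hasOrd hM V h0
  have hcard := card_gstab ht' (adjoin_sub t a) hV0 hm
  have hpos := ord_pos_of_vanishes h0 hm ha
  -- the elements of the stabilizer fix the radicals
  have hz : ∀ s : M ≃ₐ[adjoin k {t}] M, gact (adjoin k {t}) s V = V → ∀ z : M, z ^ n = t →
      s z = z := by
    intro s hs z hz
    have hz0 : z ≠ 0 := by
      rintro rfl
      rw [zero_pow hR.pos.ne'] at hz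
      exact transc_ne ht hz.symm
    obtain ⟨b, hb⟩ := exists_at hM V (mem_of_pow hR.pos (by rw [hz]; exact ha.mem))
    have hb0 : b ≠ 0 := by
      rintro rfl
      have h1 := hb.pow n
      rw [hz, zero_pow hR.pos.ne'] at h1
      exact ha0 (ha.unique h1)
    exact rad_fix hz0 hR.pos (t_fix s) hz hs hb0 hb
  have hψe : ∀ (e : ℕ), (∀ m : ℤ, m = 1 ∨ (m = 2 ∧ q.eval a = 0) → m ∣ e) →
      ∀ s : M ≃ₐ[adjoin k {t}] M, gact (adjoin k {t}) s V = V →
        ∀ ψ : F →ₐ[k] M, ψ g = t → ∀ f, (s ^ e) (ψ f) = ψ f := by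
    intro e he s hs ψ hψ f
    have hψT : ψ (g - algebraMap k F a) = t - algebraMap k M a := by
      rw [map_sub, hψ, AlgHom.commutes]
    refine psi_pow hF ht hψ (T := g - algebraMap k F a) (by rwa [hψT])
      (by rw [hψT, adjoin_sub]) (by rwa [hψT]) (fun v m hv hm _ => he m ?_) hs f
    refine hR.crit v a m ha0 ?_ hm
    rw [← comap_at hv, hψ]
    exact ha
  split_ifs with hq
  · -- the zeros of `q`
    have hle := card_le_of_pow ht (V := V) two_pos (fun s hs => hgen (s ^ 2)
      (hψe 2 (by rintro m (rfl | ⟨rfl, -⟩) <;> norm_num) s hs)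
      (fun z h => fix_iter (hz s hs z h) 2) (fun z h => by
        by_cases hz0 : z = 0
        · rw [hz0, map_zero]
        · exact rad_pow hz0 two_pos (q_fix s q) h))
    -- the order is even
    obtain ⟨r, hr⟩ := dvd_iff_isRoot.2 (show q.IsRoot a from hq)
    have hra : r.eval a ≠ 0 := by
      intro h1
      have h2 : (X - C a) * (X - C a) ∣ q := by
        obtain ⟨r', hr'⟩ := dvd_iff_isRoot.2 (show r.IsRoot a from h1)
        exact ⟨r', by rw [hr, hr']; ring⟩
      exact not_isUnit_X_sub_C a (hR.sep.squarefree _ h2)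
    have h1 : HasOrd V (aeval t q) m := by
      have h2 := ha.aeval r
      have h3 := dc_ord_mul hm h2 hra
      have h4 : aeval t q = (t - algebraMap k M a) * aeval t r := by
        conv_lhs => rw [hr]
        rw [map_mul, map_sub, aeval_X, aeval_C]
      rwa [h4]
    have hq0 : aeval t q ≠ 0 := by
      intro h2
      have h3 := (transcendental_iff.1 ht) q h2
      have h4 := hR.eval
      rw [h3, eval_zero] at h4
      exact h4 rfl
    have hY0 : Y ≠ 0 := by
      rintro rfl
      rw [zero_pow two_ne_zero] at hY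
      exact hq0 hY.symm
    obtain ⟨l, hl⟩ := exists_hasOrd hM V hY0
    have h2 := ord_pow hl 2
    rw [hY] at h2
    have h3 := hasOrd_unique hM hq0 h1 h2
    have h4 : m ≤ 2 := by
      rw [← hcard]
      exact_mod_cast hle
    have h5 : m = 2 := by
      push_cast at h3
      omega
    rwa [h5] at hm
  · have hle := card_le_of_pow ht (V := V) one_pos (fun s hs => hgen (s ^ 1)
      (hψe 1 (by rintro m (rfl | ⟨-, h⟩) <;> [norm_num; exact absurd h hq]) s hs)
      (fun z h => fix_iter (hz s hs z h) 1) (fun z h => by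
        have hz0 : z ≠ 0 := by
          rintro rfl
          rw [zero_pow two_ne_zero] at h
          have h3 := (transcendental_iff.1 ht) q h.symm
          rw [h3, eval_zero] at hq
          exact hq rfl
        obtain ⟨b, hb⟩ := exists_at hM V (mem_of_pow two_pos (by
          rw [h]
          exact (ha.aeval q).mem))
        have hb0 : b ≠ 0 := by
          rintro rfl
          have h1 := hb.pow 2
          rw [h, zero_pow two_ne_zero] at h1
          exact hq ((ha.aeval q).unique h1)
        exact fix_iter (rad_fix hz0 two_pos (q_fix s q) h hs hb0 hb) 1))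
    have h4 : m ≤ 1 := by
      rw [← hcard]
      exact_mod_cast hle
    have h5 : m = 1 := by omega
    rwa [h5] at hm

include hU

/-- the points above `t = 0` -/
theorem ram_zero {V : Place k M} (ha : V.At t 0) : HasOrd V U 1 := by
  have hM : IsCurve k M := ⟨t, ht, inferInstance⟩
  have h0 := transc_ne ht
  have hU0 := U_ne ht hU hR
  obtain ⟨m, hm⟩ := exists_hasOrd hM V h0
  have hcard := card_gstab ht rfl ha hm
  have hpos := ord_pos_of_vanishes h0 hm (Place.at_zero_iff.1 ha)
  have hle := card_le_of_pow ht (V := V) hR.pos (fun s hs => hgen (s ^ n)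
    (fun ψ hψ f => psi_pow hF ht hψ (T := g) (by rwa [hψ]) (by rw [hψ]) (by rwa [hψ])
      (fun v m hv hm _ => hR.zero v m (by rw [← comap_at hv, hψ]; exact ha) hm) hs f)
    (fun z h => by
      have hz0 : z ≠ 0 := by
        rintro rfl
        rw [zero_pow hR.pos.ne'] at h
        exact h0 h.symm
      exact rad_pow hz0 hR.pos (t_fix s) h) (fun z h => by
        have hz0 : z ≠ 0 := by
          rintro rfl
          rw [zero_pow two_ne_zero] at h
          exact q_ne ht hR h.symm
        obtain ⟨b, hb⟩ := exists_at hM V (mem_of_pow two_pos (by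
          rw [h]
          exact (ha.aeval q).mem))
        have hb0 : b ≠ 0 := by
          rintro rfl
          have h1 := hb.pow 2
          rw [h, zero_pow two_ne_zero] at h1
          exact hR.eval ((ha.aeval q).unique h1)
        exact fix_iter (rad_fix hz0 two_pos (q_fix s q) h hs hb0 hb) n))
  obtain ⟨l, hl⟩ := exists_hasOrd hM V hU0
  have h1 := ord_pow hl n
  rw [hU] at h1
  have h2 := hasOrd_unique hM h0 hm h1
  have h3 : m ≤ n := by
    rw [← hcard]
    exact_mod_cast hle
  have hn : (0 : ℤ) < n := by exact_mod_cast hR.pos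
  have h4 : l = 1 := by
    rw [h2] at h3 hpos
    have h5 : 0 < l := pos_of_mul_pos_left hpos hn.le
    have h6 : l ≤ 1 := by
      by_contra h7
      push Not at h7
      nlinarith
    omega
  rwa [h4] at hl

/-- the points above `t = ∞` -/
theorem ram_pole {V : Place k M} (ha : t ∉ V.ring) : HasOrd V U (-1) := by
  have hM : IsCurve k M := ⟨t, ht, inferInstance⟩
  have ht' : Transcendental k t⁻¹ := fun h => ht (by simpa using h.inv)
  have h0 := transc_ne ht'
  have hU0 := U_ne ht hU hR
  obtain ⟨m, hm⟩ := exists_hasOrd hM V h0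
  have hV0 := inv_at_zero ha
  have hcard := card_gstab ht' (adjoin_inv t) hV0 hm
  have hpos := ord_pos_of_vanishes h0 hm (Place.at_zero_iff.1 hV0)
  have hle := card_le_of_pow ht (V := V) hR.pos (fun s hs => hgen (s ^ n)
    (fun ψ hψ f => by
      have hψT : ψ g⁻¹ = t⁻¹ := by rw [map_inv₀, hψ]
      refine psi_pow hF ht hψ (T := g⁻¹) (by rwa [hψT]) (by rw [hψT, adjoin_inv])
        (by rwa [hψT]) (fun v m hv hm _ => ?_) hs f
      have h1 := ord_inv hm
      rw [inv_inv] at h1
      exact (neg_dvd).1 (hR.pole v (-m) (by rwa [← comap_mem hv, hψ]) h1))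
    (fun z h => by
      have hz0 : z ≠ 0 := by
        rintro rfl
        rw [zero_pow hR.pos.ne'] at h
        exact transc_ne ht h.symm
      exact rad_pow hz0 hR.pos (t_fix s) h) (fun z h => by
        have hz0 : z ≠ 0 := by
          rintro rfl
          rw [zero_pow two_ne_zero] at h
          exact q_ne ht hR h.symm
        rcases Nat.even_mul.1 hR.even with ⟨d, hd⟩ | ⟨d, hd⟩
        · rw [hd, ← two_mul, pow_mul]
          exact fix_iter (rad_pow hz0 two_pos (q_fix s q) h) d
        have htd : t ^ d ≠ 0 := pow_ne_zero _ (transc_ne ht)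
        have h1 : (z / t ^ d) ^ 2 = aeval t q / t ^ q.natDegree := by
          rw [div_pow, h, hd, ← pow_mul, mul_two]
        have h2 := aeval_div_at ha q
        have hlc : q.leadingCoeff ≠ 0 := by
          rw [ne_eq, leadingCoeff_eq_zero]
          intro h3
          have h4 := hR.eval
          rw [h3, eval_zero] at h4
          exact h4 rfl
        obtain ⟨b, hb⟩ := exists_at hM V (mem_of_pow two_pos (by
          rw [h1]
          exact h2.mem))
        have hb0 : b ≠ 0 := by
          rintro rfl
          have h3 := hb.pow 2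
          rw [h1, zero_pow two_ne_zero] at h3
          exact hlc (h2.unique h3)
        have h3 := rad_fix (div_ne_zero hz0 htd) two_pos (w := aeval t q / t ^ q.natDegree)
          (by rw [map_div₀, map_pow, q_fix, t_fix]) h1 hs hb0 hb
        rw [map_div₀, map_pow, t_fix] at h3
        exact fix_iter ((div_left_inj' htd).1 h3) n))
  obtain ⟨l, hl⟩ := exists_hasOrd hM V (inv_ne_zero hU0)
  have h1 := ord_pow hl n
  rw [inv_pow, hU] at h1
  have h2 := hasOrd_unique hM h0 hm h1
  have h3 : m ≤ n := by
    rw [← hcard]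
    exact_mod_cast hle
  have hn : (0 : ℤ) < n := by exact_mod_cast hR.pos
  have h4 : l = 1 := by
    rw [h2] at h3 hpos
    have h5 : 0 < l := pos_of_mul_pos_left hpos hn.le
    have h6 : l ≤ 1 := by
      by_contra h7
      push Not at h7
      nlinarith
    omega
  rw [h4] at hl
  have h5 := ord_inv hl
  rwa [inv_inv] at h5

end Ram

end Pool.Agent.FPZ
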