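import Pool.Agent.FPZ.Et1
import Pool.Agent.FPZ.Et4
import Pool.Agent.FPZ.Univ

/-!
# Galois étale coverings of hyperelliptic curves
-/

set_option autoImplicit false

noncomputable section

namespace Pool.Agent.FPZ

open Pool.Agent.ZCyc Pool.Agent.Dess Pool.Agent.Dess4 Pool.Agent.Rank22 Polynomial
  IntermediateField Module
open scoped Classical

/-- The curve with function field `M` is a Galois covering of the projective line with the
coordinate `u`, and an étale covering of the hyperelliptic curve `y ^ 2 = q(u)`, where the degree of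
the separable polynomial `q` is even and at least six. The covering is étale: the local parameters
`u - a` (if `q(a) ≠ 0`), `y` (if `q(a) = 0`) and `1 / u` of the hyperelliptic curve are local
parameters of the covering. -/
structure EtHyp {k M : Type} [Field k] [Field M] [Algebra k M] (q : k[X]) (u y : M) : Prop where
  curve : IsCurve k M
  transc : Transcendental k u
  eq : y ^ 2 = aeval u q
  sep : q.Separable
  even : Even q.natDegree
  genus : 6 ≤ q.natDegree
  galois : IsGalois (adjoin k {u}) M
  etale : ∀ (v : Place k M) (a : k), v.At u a → q.eval a ≠ 0 → IsUnif v (u - algebraMap k M a)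
  etale_zero : ∀ (v : Place k M) (a : k), v.At u a → q.eval a = 0 → IsUnif v y
  etale_infty : ∀ v : Place k M, u ∉ v.ring → IsUnif v u⁻¹

/-- The zero-cycle `w` on the product of the curves with function fields `L i` is the image, under a
morphism, of the zero-cycle of Faber and Pandharipande of a Galois étale covering of a
hyperelliptic curve. -/
def EtImage {k : Type} [Field k] {ι : Type} (L : ι → Type) [∀ i, Field (L i)]
    [∀ i, Algebra k (L i)] (w : (∀ i, Place k (L i)) →₀ ℤ) : Prop :=
  ∃ (M : Type) (_ : Field M) (_ : Algebra k M) (q : k[X]) (u y : M) (K : Place k M →₀ ℤ)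
    (Φ : (Bool → Place k M) → ∀ i, Place k (L i)),
    EtHyp q u y ∧ Canonical K ∧ IsMor Φ ∧ w = (fp K).mapDomain Φ

variable {k F M : Type} [Field k] [IsAlgClosed k] [CharZero k] [Field F] [Algebra k F] [Field M]
  [Algebra k M]

omit [IsAlgClosed k] [CharZero k] in
theorem unif_of_ord {v : Place k F} {g : F} (hg : g ≠ 0) (h : HasOrd v g 1) : IsUnif v g := by
  obtain ⟨π, hπ, h1, h2⟩ := h
  rw [zpow_one] at h1 h2
  refine ⟨hg, ?_, fun f hf => ?_⟩
  · have h3 := Place.Vanishes.mul v hπ.2.1 h1
    rwa [mul_div_cancel₀ _ hπ.1] at h3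
  · have h3 := mul_mem (hπ.2.2 f hf) h2
    have h4 : f / π * (g / π)⁻¹ = f / g := by
      have := hπ.1
      field_simp
    rwa [h4] at h3

omit [IsAlgClosed k] [CharZero k] in
/-- a simple zero of a polynomial -/
theorem aeval_ord {v : Place k M} {u : M} {a : k} {m : ℤ} (hu : v.At u a)
    (hm : HasOrd v (u - algebraMap k M a) m) {q : k[X]} (hq : q.Separable) (ha : q.eval a = 0) :
    HasOrd v (aeval u q) m := by
  obtain ⟨r, hr⟩ := dvd_iff_isRoot.2 (show q.IsRoot a from ha)
  have hra : r.eval a ≠ 0 := by
    intro h1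
    have h2 : (X - C a) * (X - C a) ∣ q := by
      obtain ⟨r', hr'⟩ := dvd_iff_isRoot.2 (show r.IsRoot a from h1)
      exact ⟨r', by rw [hr, hr']; ring⟩
    exact not_isUnit_X_sub_C a (hq.squarefree _ h2)
  have h3 := dc_ord_mul hm (hu.aeval r) hra
  have h4 : aeval u q = (u - algebraMap k M a) * aeval u r := by
    conv_lhs => rw [hr]
    rw [map_mul, map_sub, aeval_X, aeval_C]
  rwa [h4]

/-- **The canonical divisor of a Galois étale covering of a hyperelliptic curve.** -/
theorem EtHyp.can {q : k[X]} {u y : M} (h : EtHyp q u y) {K P : Place k M →₀ ℤ}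
    (hK : IsCan u K) (hP : ∀ v, P v = if u ∈ v.ring then 0 else 1) {e : ℕ}
    (he : q.natDegree = 2 * e) :
    unq (K - ((e : ℤ) - 2) • P) ∈ RatEq (k := k) fun _ : Unit => M := by
  have hM := h.curve
  have hq0 : aeval u q ≠ 0 := by
    intro h2
    have h3 := (transcendental_iff.1 h.transc) q h2
    have h4 := h.genus
    rw [h3, natDegree_zero] at h4
    omega
  have hy0 : y ≠ 0 := by
    intro h1
    have h2 := h.eq
    rw [h1, zero_pow two_ne_zero] at h2
    exact hq0 h2.symm
  refine unq_div_mem hM hy0 fun v => ?_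
  rw [Finsupp.sub_apply, Finsupp.smul_apply, smul_eq_mul, hP]
  rcases at_or_pole hM v u with ⟨a, ha⟩ | hp
  · rw [if_pos ha.mem, mul_zero, sub_zero]
    by_cases hq : q.eval a = 0
    · have h1 := dc_ord_unif (h.etale_zero v a ha hq)
      obtain ⟨m, hm⟩ := exists_hasOrd hM v (transc_ne (transc_sub h.transc a))
      have h2 := aeval_ord ha hm h.sep hq
      have h3 := ord_pow h1 2
      rw [h.eq] at h3
      have h4 := hasOrd_unique hM hq0 h2 h3
      rw [hK v a m (by rw [h4]; norm_num) hm, h4]
      convert h1 using 1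
      norm_num
    · have h1 := dc_ord_unif (h.etale v a ha hq)
      rw [hK v a 1 one_ne_zero h1, sub_self]
      have h2 : v.At (y ^ 2) (q.eval a) := by
        rw [h.eq]
        exact ha.aeval q
      obtain ⟨b, hb⟩ := exists_at hM v (mem_of_pow two_pos h2.mem)
      have hb0 : b ≠ 0 := by
        rintro rfl
        have h3 := hb.pow 2
        rw [zero_pow two_ne_zero] at h3
        exact hq (h2.unique h3)
      exact ord_unit_of_mem hM hb.mem (hb.inv hb0).mem
  · rw [if_neg hp, mul_one]
    have hu0 := transc_ne h.transc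
    have h1 := ord_inv (dc_ord_unif (h.etale_infty v hp))
    rw [inv_inv] at h1
    have h2 : HasOrd v (u - algebraMap k M 0) (-1) := by
      rwa [map_zero, sub_zero]
    rw [hK v 0 (-1) (by norm_num) h2]
    have h3 := aeval_div_at hp q
    have hlc : q.leadingCoeff ≠ 0 := by
      rw [ne_eq, leadingCoeff_eq_zero]
      intro h3
      rw [h3, map_zero] at hq0
      exact hq0 rfl
    have h4 := dc_ord_mul (ord_pow h1 q.natDegree) h3 hlc
    rw [mul_div_cancel₀ _ (pow_ne_zero _ hu0)] at h4
    obtain ⟨m, hm⟩ := exists_hasOrd hM v hy0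
    have h5 := ord_pow hm 2
    rw [h.eq] at h5
    have h6 := hasOrd_unique hM hq0 h4 h5
    rw [he] at h6
    push_cast at h6
    have h7 : m = -1 - 1 - ((e : ℤ) - 2) := by linarith
    rwa [h7] at hm

end Pool.Agent.FPZ
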