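import Pool.Agent.FPZ.Et5

/-!
# The Galois closure with radicals is étale over a hyperelliptic curve
-/

set_option autoImplicit false

noncomputable section

namespace Pool.Agent.FPZ

open Pool.Agent.ZCyc Pool.Agent.Dess Pool.Agent.Dess4 Pool.Agent.Rank22 Polynomial
  IntermediateField Module
open scoped Classical

variable {k F M : Type} [Field k] [IsAlgClosed k] [CharZero k] [Field F] [Algebra k F] [Field M]
  [Algebra k M]

omit [CharZero k] in
/-- separable polynomials over an algebraically closed field -/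
theorem separable_of_roots {q : k[X]} (h : ∀ a, q.eval a = 0 → q.derivative.eval a ≠ 0) :
    q.Separable := by
  rw [separable_def, isCoprime_iff_aeval_ne_zero_of_isAlgClosed k k]
  intro a
  by_contra hcon
  push Not at hcon
  obtain ⟨h1, h2⟩ := hcon
  rw [coe_aeval_eq_eval] at h1 h2
  exact h a h1 h2

omit [IsAlgClosed k] [CharZero k] in
theorem root_derivative {q : k[X]} (hq : q.Separable) {a : k} (h : q.eval a = 0) :
    q.derivative.eval a ≠ 0 := by
  intro h'
  obtain ⟨u, v, huv⟩ := hq
  have := congrArg (Polynomial.eval a) huv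
  simp [h, h'] at this

theorem expand_separable {q : k[X]} (hq : q.Separable) (h0 : q.eval 0 ≠ 0) {n : ℕ}
    (hn : 0 < n) : (expand k n q).Separable := by
  apply separable_of_roots
  intro a ha
  rw [expand_eval] at ha
  have ha0 : a ≠ 0 := by
    rintro rfl
    rw [zero_pow hn.ne'] at ha
    exact h0 ha
  rw [derivative_expand, eval_mul, expand_eval, eval_mul, eval_natCast, eval_pow, eval_X]
  exact mul_ne_zero (root_derivative hq ha)
    (mul_ne_zero (Nat.cast_ne_zero.2 hn.ne') (pow_ne_zero _ ha0))

omit [IsAlgClosed k] in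
theorem pow_sub_separable {b : k} (hb : b ≠ 0) {n : ℕ} (hn : 0 < n) :
    (X ^ n - C (b ^ n) : k[X]).Separable :=
  separable_X_pow_sub_C _ (Nat.cast_ne_zero.2 hn.ne') (pow_ne_zero n hb)

/-- **The Galois closure is a Galois étale covering of a hyperelliptic curve.** -/
theorem ethyp_of_ram {t U Y : M} (hfin : FiniteDimensional (adjoin k {t}) M)
    (hgal : IsGalois (adjoin k {t}) M) {g : F} {n : ℕ} {q : k[X]} (hF : IsCurve k F)
    (ht : Transcendental k t) (hU : U ^ n = t) (hY : Y ^ 2 = aeval t q)
    (hgen : ∀ σ : M ≃ₐ[adjoin k {t}] M, (∀ ψ : F →ₐ[k] M, ψ g = t → ∀ f, σ (ψ f) = ψ f) →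
      (∀ z : M, z ^ n = t → σ z = z) → (∀ z : M, z ^ 2 = aeval t q → σ z = z) → σ = 1)
    (hR : RamData g n q) (hdeg : 6 ≤ n * q.natDegree) : EtHyp (expand k n q) U Y := by
  have hM : IsCurve k M := ⟨t, ht, inferInstance⟩
  have hUt : Transcendental k U := by
    intro h
    apply ht
    rw [← hU]
    exact h.pow n
  have hU0 := U_ne ht hU hR
  have hY0 : Y ≠ 0 := by
    intro h
    rw [h, zero_pow two_ne_zero] at hY
    exact q_ne ht hR hY.symm
  have htU : ∀ {V : Place k M} {b : k}, V.At U b → V.At t (b ^ n) := by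
    intro V b hb
    rw [← hU]
    exact hb.pow n
  -- the order of `U - b`
  have hval : ∀ {V : Place k M} {b : k} {m : ℤ}, b ≠ 0 → V.At U b →
      HasOrd V (U - algebraMap k M b) m → HasOrd V (t - algebraMap k M (b ^ n)) m := by
    intro V b m hb0 hb hm
    have h1 := aeval_ord hb hm (pow_sub_separable hb0 hR.pos) (by
      rw [eval_sub, eval_pow, eval_X, eval_C, sub_self])
    rwa [map_sub, map_pow, aeval_X, aeval_C, hU] at h1
  refine ⟨hM, hUt, ?_, expand_separable hR.sep hR.eval hR.pos, ?_, ?_, ?_, ?_, ?_, ?_⟩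
  · rw [expand_aeval, hU, hY]
  · rw [natDegree_expand, mul_comm]
    exact hR.even
  · rw [natDegree_expand, mul_comm]
    exact hdeg
  · have hle : adjoin k {t} ≤ adjoin k {U} := by
      rw [adjoin_simple_le_iff, ← hU]
      exact pow_mem (mem_adjoin_simple_self k U) n
    let _ : Algebra (adjoin k {t}) (adjoin k {U}) := (inclusion hle).toRingHom.toAlgebra
    have : IsScalarTower (adjoin k {t}) (adjoin k {U}) M := IsScalarTower.of_algebraMap_eq' rfl
    exact IsGalois.tower_top_of_isGalois (adjoin k {t}) (adjoin k {U}) M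
  · intro V b hb hq
    rw [expand_eval] at hq
    by_cases hb0 : b = 0
    · subst hb0
      have h1 := htU hb
      rw [zero_pow hR.pos.ne'] at h1
      have h2 := ram_zero hF ht hU hgen hR h1
      rw [map_zero, sub_zero]
      exact unif_of_ord hU0 h2
    · obtain ⟨m, hm⟩ := exists_hasOrd hM V (transc_ne (transc_sub hUt b))
      have h1 := ram_value hF ht hY hgen hR (pow_ne_zero n hb0) (htU hb)
      rw [if_neg hq] at h1
      have h2 := hasOrd_unique hM (transc_ne (transc_sub ht _)) (hval hb0 hb hm) h1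
      rw [h2] at hm
      exact unif_of_ord (transc_ne (transc_sub hUt b)) hm
  · intro V b hb hq
    rw [expand_eval] at hq
    have hb0 : b ≠ 0 := by
      rintro rfl
      rw [zero_pow hR.pos.ne'] at hq
      exact hR.eval hq
    have h1 := ram_value hF ht hY hgen hR (pow_ne_zero n hb0) (htU hb)
    rw [if_pos hq] at h1
    have h2 := aeval_ord (htU hb) h1 hR.sep hq
    obtain ⟨m, hm⟩ := exists_hasOrd hM V hY0
    have h3 := ord_pow hm 2
    rw [hY] at h3
    have h4 := hasOrd_unique hM (q_ne ht hR) h3 h2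
    push_cast at h4
    have h5 : m = 1 := by linarith
    rw [h5] at hm
    exact unif_of_ord hY0 hm
  · intro V hV
    have h1 : t ∉ V.ring := by
      rw [← hU]
      exact pow_notMem hV hR.pos
    have h2 := ord_inv (ram_pole hF ht hU hgen hR h1)
    rw [neg_neg] at h2
    exact unif_of_ord (inv_ne_zero hU0) h2

end Pool.Agent.FPZ
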