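import Pool.Agent.FPZ.Et6

/-!
# Every curve is dominated by a Galois étale covering of a hyperelliptic curve
-/

set_option autoImplicit false

noncomputable section

namespace Pool.Agent.FPZ

open Pool.Agent.ZCyc Pool.Agent.Dess Pool.Agent.Dess4 Pool.Agent.Rank22 Polynomial
  IntermediateField Module
open scoped Classical

variable {k F : Type} [Field k] [IsAlgClosed k] [CharZero k] [Field F] [Algebra k F]

omit [CharZero k] in
/-- a separable polynomial of even degree with given roots -/
theorem exists_even {S : Set k} (hS : S.Finite) (h0 : (0 : k) ∉ S) :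
    ∃ q : k[X], q.Separable ∧ Even q.natDegree ∧ 6 ≤ q.natDegree ∧ q.eval 0 ≠ 0 ∧
      ∀ a ∈ S, q.eval a = 0 := by
  have : Infinite k := IsAlgClosed.instInfinite
  obtain ⟨T, hST, hT⟩ := Infinite.exists_superset_card_eq (insert 0 hS.toFinset)
    (2 * ((insert 0 hS.toFinset).card + 3) + 1) (by omega)
  have h0T : (0 : k) ∈ T := hST (Finset.mem_insert_self _ _)
  have hcard : (T.erase 0).card = 2 * ((insert 0 hS.toFinset).card + 3) := by
    rw [Finset.card_erase_of_mem h0T, hT, Nat.add_sub_cancel]
  have hdeg : (∏ a ∈ T.erase 0, (X - C a)).natDegree = (T.erase 0).card :=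
    natDegree_finsetProd_X_sub_C_eq_card (T.erase 0) (fun a => a)
  refine ⟨∏ a ∈ T.erase 0, (X - C a), ?_, ?_, ?_, ?_, ?_⟩
  · exact separable_prod_X_sub_C_iff'.2 fun a _ b _ h => h
  · rw [hdeg, hcard]
    exact even_two_mul _
  · rw [hdeg, hcard]
    omega
  · rw [eval_prod, Finset.prod_ne_zero_iff]
    intro a ha
    rw [eval_sub, eval_X, eval_C, zero_sub, neg_ne_zero]
    exact (Finset.mem_erase.1 ha).1
  · intro a ha
    rw [eval_prod]
    refine Finset.prod_eq_zero (i := a) ?_ ?_
    · rw [Finset.mem_erase]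
      refine ⟨?_, hST (Finset.mem_insert_of_mem (hS.mem_toFinset.2 ha))⟩
      rintro rfl
      exact h0 ha
    · rw [eval_sub, eval_X, eval_C, sub_self]

/-- the inverse of a function with nondegenerate critical points -/
theorem exists_ramData (hF : IsCurve k F) {p q : Place k F} {f : F}
    (hpole : ∀ v, f ∉ v.ring ↔ v = p ∨ v = q)
    (hcrit : ∀ (v : Place k F) (a : k) (m : ℤ), v.At f a → HasOrd v (f - algebraMap k F a) m →
      m = 1 ∨ m = 2) {m m' : ℕ} (hm0 : 0 < m) (hm'0 : 0 < m') (hm : HasOrd p f (-m))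
    (hm' : HasOrd q f (-m')) :
    ∃ (c : k) (r : k[X]), RamData (f - algebraMap k F c)⁻¹ (m * m') r ∧ 6 ≤ r.natDegree ∧
      (∀ v : Place k F, v.At f c → IsUnif v (f - algebraMap k F c)) := by
  have hfp : f ∉ p.ring := (hpole p).2 (Or.inl rfl)
  have hft : Transcendental k f := transc_of_notMem hfp
  have : Infinite k := IsAlgClosed.instInfinite
  obtain ⟨c, hc⟩ := (finite_crit hF hft).exists_notMem
  have hc' : ∀ v : Place k F, v.At f c → IsUnif v (f - algebraMap k F c) := by
    intro v hv
    by_contra h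
    exact hc ⟨v, hv, h⟩
  have hfc := transc_sub hft c
  have hfc0 := transc_ne hfc
  set g := (f - algebraMap k F c)⁻¹ with hg
  have hgt : Transcendental k g := fun h => hfc (by simpa [hg] using h.inv)
  have hg0 := transc_ne hgt
  obtain ⟨r, hr1, hr2, hr3, hr4, hr5⟩ := exists_even
    ((finite_crit hF hgt).subset (Set.sdiff_subset (t := {(0 : k)}))) (by simp)
  refine ⟨c, r, ⟨Nat.mul_pos hm0 hm'0, hr1, hr2.mul_left _, hr4, ?_, ?_, ?_⟩, hr3, hc'⟩
  · intro v a l ha0 ha hl
    by_cases hu : IsUnif v (g - algebraMap k F a)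
    · left
      exact hasOrd_unique hF (transc_ne (transc_sub hgt a)) hl (dc_ord_unif hu)
    · right
      have ha0' : algebraMap k F a ≠ 0 := (_root_.map_ne_zero _).2 ha0
      have h1 : v.At f (c + a⁻¹) := by
        have h2 := (Place.at_const (F := F) (v := v) c).add (ha.inv ha0)
        have h3 : algebraMap k F c + g⁻¹ = f := by
          rw [hg, inv_inv, add_sub_cancel]
        rwa [h3] at h2
      have h2 : HasOrd v (f - algebraMap k F (c + a⁻¹)) l := by
        have h3 : v.At (-(g * algebraMap k F a)⁻¹) (-(a * a)⁻¹) :=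
          ((ha.mul (Place.at_const a)).inv (mul_ne_zero ha0 ha0)).neg
        have h4 := dc_ord_mul hl h3 (neg_ne_zero.2 (inv_ne_zero (mul_ne_zero ha0 ha0)))
        have h5 : (g - algebraMap k F a) * -(g * algebraMap k F a)⁻¹ =
            f - algebraMap k F (c + a⁻¹) := by
          have h6 : f = algebraMap k F c + g⁻¹ := by
            rw [hg, inv_inv, add_sub_cancel]
          rw [h6, map_add, map_inv₀]
          field_simp
          ring
        rwa [h5] at h4
      refine ⟨?_, hr5 a ⟨⟨v, ha, hu⟩, ha0⟩⟩
      rcases hcrit v _ l h1 h2 with h3 | h3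
      · exfalso
        rw [h3] at hl
        exact hu (unif_of_ord (transc_ne (transc_sub hgt a)) hl)
      · exact h3
  · intro v l hv hl
    have h1 : f ∉ v.ring := by
      intro h2
      rw [Place.at_zero_iff, Place.vanishes_iff_or] at hv
      rcases hv with h3 | h3
      · exact hg0 h3
      · apply h3
        rw [inv_inv]
        exact sub_mem h2 (v.const_mem c)
    have key : ∀ {v : Place k F} {j : ℕ}, f ∉ v.ring → HasOrd v f (-j) → HasOrd v g j := by
      intro v j hv hj
      have h2 := ord_add_regular hj hv (neg_mem (v.const_mem c))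
      rw [← sub_eq_add_neg] at h2
      have h3 := ord_inv h2
      rwa [neg_neg] at h3
    rcases (hpole v).1 h1 with rfl | rfl
    · rw [hasOrd_unique hF hg0 hl (key h1 hm)]
      push_cast
      exact dvd_mul_right _ _
    · rw [hasOrd_unique hF hg0 hl (key h1 hm')]
      push_cast
      exact dvd_mul_left _ _
  · intro v l hv hl
    have h1 : v.At f c := by
      unfold Place.At
      rw [Place.vanishes_iff_or]
      exact Or.inr hv
    rw [hasOrd_unique hF hg0 hl (ord_inv (dc_ord_unif (hc' v h1)))]
    exact (neg_dvd).2 (one_dvd _)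

end Pool.Agent.FPZ
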