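import Pool.Agent.FPZ.Et7

/-!
# The Galois étale coverings of hyperelliptic curves are universal
-/

set_option autoImplicit false

noncomputable section

namespace Pool.Agent.FPZ

open Pool.Agent.ZCyc Pool.Agent.Dess Pool.Agent.Dess4 Pool.Agent.Rank22 Polynomial
  IntermediateField Module
open scoped Classical

variable {k F : Type} [Field k] [Field F] [Algebra k F]

/-- the image of the cycle of a Galois étale covering of a hyperelliptic curve under
`D × D → C × C` -/
def EtFP (k F : Type) [Field k] [Field F] [Algebra k F] (w : (Bool → Place k F) →₀ ℤ) : Prop :=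
  ∃ (M : Type) (_ : Field M) (_ : Algebra k M) (q : k[X]) (u y : M) (φ : F →ₐ[k] M)
    (Ψ : Place k M → Place k F) (K : Place k M →₀ ℤ), EtHyp q u y ∧
      (∀ V, (Ψ V).ring = V.ring.comap (φ : F →+* M)) ∧ Canonical K ∧
      w = (fp K).mapDomain fun a b => Ψ (a b)

/-- **The squares.** A multiple of the cycle `(p - q) × (p - q)` is the image of the cycle of a
Galois étale covering of a hyperelliptic curve. -/
theorem et_relation [IsAlgClosed k] [CharZero k] (hF : IsCurve k F) {p q : Place k F}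
    (hpq : p ≠ q) : ∃ (w : (Bool → Place k F) →₀ ℤ) (a b : ℤ), EtFP k F w ∧ a ≠ 0 ∧ b ≠ 0 ∧
      RatTor (fun _ : Bool => F) (a • w - b • square p q) := by
  obtain ⟨f, hpole, hcrit⟩ := exists_nondeg hF hpq
  have hfp : f ∉ p.ring := (hpole p).2 (Or.inl rfl)
  have hfq : f ∉ q.ring := (hpole q).2 (Or.inr rfl)
  have hft : Transcendental k f := transc_of_notMem hfp
  have hord : ∀ v : Place k F, f ∉ v.ring → ∃ m : ℕ, 0 < m ∧ HasOrd v f (-m) := by
    intro v hv
    obtain ⟨m, hm⟩ := exists_hasOrd hF v (transc_ne hft)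
    have h1 := ord_neg_of_notMem hm hv
    refine ⟨(-m).toNat, by omega, ?_⟩
    rwa [Int.toNat_of_nonneg (by omega), neg_neg]
  obtain ⟨m, hm0, hm⟩ := hord p hfp
  obtain ⟨m', hm'0, hm'⟩ := hord q hfq
  obtain ⟨c, r, hR, hdeg, hc⟩ := exists_ramData hF hpole hcrit hm0 hm'0 hm hm'
  have hfc := transc_sub hft c
  have hfc0 := transc_ne hfc
  set g := (f - algebraMap k F c)⁻¹ with hg
  have hgt : Transcendental k g := fun h => hfc (by simpa [hg] using h.inv)
  obtain ⟨Ω, _, _, tt, hΩ⟩ := exists_algFun k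
  obtain ⟨M, _, _, t, φ, U, Y, ht, hfin, hgal, hφ, hU, hY, hgen⟩ :=
    exists_galois_rad hΩ hgt (fin_adjoin hF hgt) hR.pos r
  have hE := ethyp_of_ram hfin hgal hF ht hU hY hgen hR
    (hdeg.trans (Nat.le_mul_of_pos_left _ hR.pos))
  have hM := hE.curve
  obtain ⟨π, hπ⟩ := exists_proj hF hM φ
  obtain ⟨K, hK⟩ := exists_can hM hE.transc
  obtain ⟨DU, hDU⟩ := exists_div hM (transc_ne hE.transc)
  set P : Place k M →₀ ℤ := DU.mapRange (fun n => if n < 0 then 1 else 0) (by simp) with hPdef
  have hP : ∀ v, P v = if U ∈ v.ring then 0 else 1 := by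
    intro v
    rw [hPdef, Finsupp.mapRange_apply]
    by_cases hv : U ∈ v.ring
    · have := ord_nonneg (hDU v) (transc_ne hE.transc) hv
      rw [if_neg (by omega), if_pos hv]
    · have := ord_neg_of_notMem (hDU v) hv
      rw [if_pos this, if_neg hv]
  obtain ⟨e, he⟩ := hE.even
  have hcan := hE.can hK hP (e := e) (by omega)
  have he3 : 3 ≤ e := by
    have := hE.genus
    omega
  obtain ⟨hfinR, -⟩ := galois_range (t := t) hfin hgal φ hφ
  set R := finrank φ.fieldRange M with hRdef
  have hR0 : 0 < R := finrank_pos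
  obtain ⟨Dfc, hDfc⟩ := exists_div hF hfc0
  set Y0 : Place k F →₀ ℤ := Finsupp.single p (m : ℤ) + Finsupp.single q (m' : ℤ) with hY0
  -- the push-forward of the divisor of poles
  have hpush : ((m * m' : ℕ) : ℤ) • P.mapDomain π = (R : ℤ) • (Dfc + Y0) := by
    ext v
    obtain ⟨S, hS, -⟩ := fibre_sum hF hM φ π hπ v
    rw [Finsupp.smul_apply, Finsupp.smul_apply, mapDomain_fibre π P hS, Finsupp.add_apply, hY0,
      Finsupp.add_apply, smul_eq_mul, smul_eq_mul]
    by_cases hgv : g ∈ v.ring
    · have h1 : ∑ V ∈ S, P V = 0 := by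
        apply Finset.sum_eq_zero
        intro V hV
        rw [hP, if_pos]
        apply mem_of_pow hR.pos
        rw [hU, ← hφ, comap_mem (hπ V), (hS V).1 hV]
        exact hgv
      have h2 : ∀ {v : Place k F} {j : ℕ}, f ∉ v.ring → HasOrd v f (-j) → Dfc v = -j := by
        intro v j hv hj
        have h2 := ord_add_regular hj hv (neg_mem (v.const_mem c))
        rw [← sub_eq_add_neg] at h2
        exact hasOrd_unique hF hfc0 (hDfc v) h2
      rw [h1, mul_zero]
      by_cases hvp : v = p
      · subst hvp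
        rw [h2 hfp hm, Finsupp.single_eq_same, Finsupp.single_eq_of_ne hpq]
        ring
      by_cases hvq : v = q
      · subst hvq
        rw [h2 hfq hm', Finsupp.single_eq_same, Finsupp.single_eq_of_ne hpq.symm]
        ring
      · have h3 : f ∈ v.ring := by
          by_contra h4
          rcases (hpole v).1 h4 with h5 | h5
          · exact hvp h5
          · exact hvq h5
        have h4 := hasOrd_unique hF hfc0 (hDfc v)
          (ord_unit_of_mem hF (sub_mem h3 (v.const_mem c)) hgv)
        rw [h4, Finsupp.single_eq_of_ne hvp, Finsupp.single_eq_of_ne hvq]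
        ring
    · have h1 : v.At f c := by
        unfold Place.At
        rw [Place.vanishes_iff_or]
        exact Or.inr hgv
      have hvp : v ≠ p := by
        rintro rfl
        exact hfp h1.mem
      have hvq : v ≠ q := by
        rintro rfl
        exact hfq h1.mem
      have h2 := dc_ord_unif (hc v h1)
      have hUV : ∀ V ∈ S, U ∉ V.ring := by
        intro V hV h3
        apply hgv
        rw [← (hS V).1 hV, ← comap_mem (hπ V), hφ, ← hU]
        exact pow_mem h3 _
      have h3 := sum_pull hF hM φ hπ hS hfc0 h2 (m := fun _ => ((m * m' : ℕ) : ℤ)) (by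
        intro V hV
        have h4 := ord_pow (dc_ord_unif (hE.etale_infty V (hUV V hV))) (m * m')
        have h5 : φ (f - algebraMap k F c) = U⁻¹ ^ (m * m') := by
          rw [inv_pow, hU, ← hφ, hg, map_inv₀, inv_inv]
        rwa [one_mul, ← h5] at h4)
      rw [Finset.sum_const, nsmul_eq_mul, one_mul] at h3
      have h4 : ∑ V ∈ S, P V = S.card := by
        rw [Finset.sum_congr rfl (g := fun _ => 1), Finset.sum_const, nsmul_eq_mul, mul_one]
        intro V hV
        rw [hP, if_neg (hUV V hV)]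
      rw [h4, hasOrd_unique hF hfc0 (hDfc v) h2, Finsupp.single_eq_of_ne hvp,
        Finsupp.single_eq_of_ne hvq, mul_comm, h3]
      ring
  have h1 : unq (((m * m' : ℕ) : ℤ) • P.mapDomain π - (R : ℤ) • Y0) ∈
      RatEq (k := k) fun _ : Unit => F := by
    rw [hpush, smul_add, add_sub_cancel_right, map_zsmul]
    exact zsmul_mem (unq_div_mem hF hfc0 hDfc) _
  have h2 := fp_equiv h1
  have h3 : unq ((1 : ℤ) • K - ((e : ℤ) - 2) • P) ∈ RatEq (k := k) fun _ : Unit => M := by
    rwa [one_smul]
  have h4 := fp_equiv h3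
  have hΦ : IsMor (L := fun _ : Bool => M) (L' := fun _ : Bool => F) fun a b => π (a b) :=
    fun b => Or.inr ⟨b, φ, fun a => (hπ (a b)).symm⟩
  have h5 := map_tor _ hΦ h4
  refine ⟨(fp K).mapDomain fun a b => π (a b), ((m * m' : ℕ) : ℤ) ^ 2,
    -(((e : ℤ) - 2) ^ 2 * (R : ℤ) ^ 2 * (m * m')), ⟨M, _, _, _, U, Y, φ, π, K, hE,
      fun V => (hπ V).symm, ⟨U, hE.transc, hK⟩, rfl⟩, ?_, ?_, ?_⟩
  · have : (0 : ℤ) < ((m * m' : ℕ) : ℤ) := by exact_mod_cast Nat.mul_pos hm0 hm'0
    positivity
  · have h6 : (0 : ℤ) < (e : ℤ) - 2 := by omega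
    have h7 : (0 : ℤ) < R := by exact_mod_cast hR0
    have h8 : (0 : ℤ) < m := by exact_mod_cast hm0
    have h9 : (0 : ℤ) < m' := by exact_mod_cast hm'0
    exact neg_ne_zero.2 (by positivity)
  · have h6 : ((1 : ℤ) ^ 2 • fp K - ((e : ℤ) - 2) ^ 2 • fp P).mapDomain
        (fun (a : Bool → Place k M) b => π (a b)) =
        (fp K).mapDomain (fun (a : Bool → Place k M) b => π (a b)) -
          ((e : ℤ) - 2) ^ 2 • fp (P.mapDomain π) := by
      rw [one_pow, one_smul, ← fp_map]
      change Finsupp.mapDomain.addMonoidHom _ _ = _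
      rw [map_sub, map_zsmul]
      rfl
    rw [h6] at h5
    have h7 := add_mem
      (zsmul_mem (show _ ∈ torGroup (k := k) fun _ : Bool => F from h5) (((m * m' : ℕ) : ℤ) ^ 2))
      (zsmul_mem (show _ ∈ torGroup (k := k) fun _ : Bool => F from h2) (((e : ℤ) - 2) ^ 2))
    change _ ∈ torGroup (k := k) fun _ : Bool => F
    convert h7 using 1
    rw [hY0, fp_two]
    module

end Pool.Agent.FPZ
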