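import Pool.Agent.FPZ.Et8

/-!
# The cycles of Faber and Pandharipande of the Galois étale coverings of hyperelliptic curves
-/

set_option autoImplicit false

noncomputable section

namespace Pool.Agent.FPZ

open Pool.Agent.ZCyc Pool.Agent.Dess Pool.Agent.Dess4 Polynomial
open scoped Classical

variable {k : Type} [Field k] [IsAlgClosed k] [CharZero k]

section Univ

variable {ι : Type} {L : ι → Type} [∀ i, Field (L i)] [∀ i, Algebra k (L i)]

/-- the squares are contained in every subgroup which is closed under division and contains the
images of the cycles -/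
theorem et_square {F : Type} [Field F] [Algebra k F] (hF : IsCurve k F)
    {T : AddSubgroup ((Bool → Place k F) →₀ ℤ)} (hT : RatEq (fun _ : Bool => F) ≤ T)
    (hsat : ∀ (n : ℤ) (z : (Bool → Place k F) →₀ ℤ), n ≠ 0 → n • z ∈ T → z ∈ T)
    (hall : ∀ w, EtFP k F w → w ∈ T) (p q : Place k F) : square p q ∈ T := by
  by_cases hpq : p = q
  · subst hpq
    have : square p p = 0 := by
      rw [square, sym]
      abel
    rw [this]
    exact zero_mem _
  obtain ⟨w, a, b, hw, ha, hb, m, hm, h⟩ := et_relation hF hpq
  have h1 : a • w - b • square p q ∈ T := by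
    refine hsat m _ (by exact_mod_cast hm.ne') ?_
    rw [natCast_zsmul]
    exact hT h
  have h2 := sub_mem (zsmul_mem (hall w hw) a) h1
  rw [sub_sub_cancel] at h2
  exact hsat b _ hb h2

/-- a subgroup which is closed under division and contains the cycles rationally equivalent to
zero and the images of the cycles of the Galois étale coverings of hyperelliptic curves contains
the kernel of the Albanese map -/
theorem et_mem [Fintype ι] (hL : ∀ i, IsCurve k (L i))
    {T : AddSubgroup ((∀ i, Place k (L i)) →₀ ℤ)} (hT : RatEq L ≤ T)
    (hsat : ∀ (n : ℤ) (z : (∀ i, Place k (L i)) →₀ ℤ), n ≠ 0 → n • z ∈ T → z ∈ T)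
    (hall : ∀ w, EtImage L w → w ∈ T) {z : (∀ i, Place k (L i)) →₀ ℤ} (hz : AlbKer L z) :
    z ∈ T := by
  have hsq : ∀ (M : Type) (_ : Field M) (_ : Algebra k M) (p q : Place k M)
      (Φ : (Bool → Place k M) → ∀ l, Place k (L l)), IsCurve k M → IsMor Φ →
        (square p q).mapDomain Φ ∈ T := by
    intro M _ _ p q Φ hM hΦ
    let W : ((Bool → Place k M) →₀ ℤ) →+ ((∀ i, Place k (L i)) →₀ ℤ) :=
      Finsupp.mapDomain.addMonoidHom Φ
    have h1 : square p q ∈ T.comap W := by
      refine et_square hM (T := T.comap W) ?_ ?_ ?_ p q
      · intro y hy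
        rw [AddSubgroup.mem_comap]
        exact hT (map_mem Φ hΦ hy)
      · intro n y hn hy
        rw [AddSubgroup.mem_comap, map_zsmul] at hy
        rw [AddSubgroup.mem_comap]
        exact hsat n _ hn hy
      · rintro w ⟨N, _, _, r, u, y, φ, Ψ, K, hN, hΨ, hK, rfl⟩
        rw [AddSubgroup.mem_comap]
        have hne : Nonempty (Bool → Place k N) := by
          obtain ⟨V, -⟩ := exists_ext hM hN.curve φ p
          exact ⟨fun _ => V⟩
        refine hall _ ⟨N, _, _, r, u, y, K, Φ ∘ (fun a b => Ψ (a b)), hN, hK, ?_, ?_⟩
        · exact IsMor.comp (fun b => Or.inr ⟨b, φ, fun a => hΨ (a b)⟩) hΦ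
        · change ((fp K).mapDomain _).mapDomain Φ = _
          rw [Finsupp.mapDomain_comp]
    exact h1
  refine of_symbols (T := T) hT ?_ hz
  intro i j hij a x y
  by_cases hx : a i = x
  · have h0 : Finsupp.single a (1 : ℤ) - Finsupp.single (Function.update a i x) 1 -
        Finsupp.single (Function.update a j y) 1 +
        Finsupp.single (Function.update (Function.update a i x) j y) 1 = 0 := by
      rw [← hx, Function.update_eq_self]
      abel
    rw [h0]
    exact zero_mem _
  by_cases hy : a j = y
  · have h0 : Finsupp.single a (1 : ℤ) - Finsupp.single (Function.update a i x) 1 -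
        Finsupp.single (Function.update a j y) 1 +
        Finsupp.single (Function.update (Function.update a i x) j y) 1 = 0 := by
      rw [← hy, Function.update_eq_self, Function.update_comm hij, Function.update_eq_self]
      abel
    rw [h0]
    exact zero_mem _
  obtain ⟨M, _, _, p, q, Φ, hM, hΦ, he⟩ := symbol_square hL hij a hx hy
  rw [he]
  exact hsq M _ _ p q Φ hM hΦ

/-- **The Galois étale coverings of hyperelliptic curves are universal.** Over every algebraically
closed field of characteristic zero a multiple of every cycle in the kernel of the Albanese map of a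
product of curves is a combination of images of the cycles of Faber and Pandharipande of the
Galois étale coverings of hyperelliptic curves. -/
theorem generation_et [Fintype ι] (hL : ∀ i, IsCurve k (L i))
    {z : (∀ i, Place k (L i)) →₀ ℤ} (hz : AlbKer L z) : Spanned L (EtImage L) z := by
  refine et_mem (T := sat (RatEq L ⊔ AddSubgroup.closure {w | EtImage L w})) hL
    (le_sup_left.trans (le_sat _)) (fun n z hn h => sat_of_zsmul hn h) ?_ hz
  intro w hw
  exact le_sat _ ((le_sup_right : _ ≤ RatEq L ⊔ _) (AddSubgroup.subset_closure hw))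

end Univ

/-- The zero-cycle of Faber and Pandharipande is torsion for all Galois étale coverings of
hyperelliptic curves. -/
def FPEtConj (k : Type) [Field k] : Prop :=
  ∀ (M : Type) [Field M] [Algebra k M] (q : k[X]) (u y : M), EtHyp q u y → FPTor k M

/-- **The kernel of the Albanese map is torsion for all products of curves if and only if the cycle
of Faber and Pandharipande is torsion for all Galois étale coverings of hyperelliptic curves.** -/
theorem et_iff : (∀ (ι : Type) [Fintype ι] (L : ι → Type) [∀ i, Field (L i)]
    [∀ i, Algebra k (L i)], (∀ i, IsCurve k (L i)) → ∀ z : (∀ i, Place k (L i)) →₀ ℤ,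
      AlbKer L z → RatTor L z) ↔ FPEtConj k := by
  constructor
  · intro h M _ _ q u y hE K _
    exact h Bool (fun _ => M) (fun _ => hE.curve) (fp K) (albKer_fp K)
  · intro h ι _ L _ _ hL z hz
    refine et_mem (T := torGroup L) hL ratEq_le_torGroup
      (fun n z hn h => tor_of_zsmul hn h) ?_ hz
    rintro w ⟨M, _, _, q, u, y, K, Φ, hE, hK, hΦ, rfl⟩
    exact map_tor Φ hΦ (h M q u y hE K hK)

end Pool.Agent.FPZ
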