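import Pool.Agent.FPZ.Defs
import Pool.Agent.Dess.Dede

/-!
# Galois fields of algebraic functions
-/

set_option autoImplicit false

noncomputable section

namespace Pool.Agent.FPZ

open Pool.Agent.ZCyc Pool.Agent.Dess Polynomial IntermediateField
open scoped Classical

/-- The function `t` on the curve with function field `F` is a Galois covering of the projective
line which is unramified outside `0`, `1` and `∞`. -/
structure GalBelyi {F : Type} [Field F] [Algebra QQ F] (t : F) : Prop where
  curve : IsCurve QQ F
  transc : Transcendental QQ t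
  galois : IsGalois (IntermediateField.adjoin QQ {t}) F
  unram : Unram (k := QQ) t

/-- The field `F` of algebraic functions is a finite Galois extension of the field of rational
functions of `t`, unramified outside `0`, `1` and `∞`. -/
structure GalField {Ω : Type} [Field Ω] [Algebra QQ Ω] (t : Ω) (F : IntermediateField QQ Ω) :
    Prop where
  belyi : Belyi t F
  galois : ∀ g : Ω ≃ₐ[QQ] Ω, g t = t → ∀ f ∈ F, g f ∈ F

variable {Om : Type} [Field Om] [Algebra QQ Om] {tt : Om}

/-- the subfield generated by an element of an intermediate field -/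
private def gal_equiv (F : IntermediateField QQ Om) (h : tt ∈ F) :
    adjoin QQ {(⟨tt, h⟩ : F)} ≃ₐ[QQ] adjoin QQ {tt} :=
  (liftAlgEquiv _).trans (equivOfEq (lift_adjoin_simple QQ F (⟨tt, h⟩ : F)))

private lemma gal_equiv_coe (F : IntermediateField QQ Om) (h : tt ∈ F)
    (y : adjoin QQ {(⟨tt, h⟩ : F)}) :
    ((gal_equiv F h y : adjoin QQ {tt}) : Om) = ((y : F) : Om) := rfl

/-- a stable field is a Galois extension of the field of rational functions -/
theorem galField_gal (hΩ : IsAlgFun tt) {F : IntermediateField QQ Om} (hF : GalField tt F) :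
    GalBelyi (⟨tt, hF.belyi.mem⟩ : F) := by
  have hclosed := hΩ.closed
  have htF := hF.belyi.mem
  let E : IntermediateField QQ Om := adjoin QQ {tt}
  have hEF : E ≤ F := adjoin_simple_le_iff.2 htF
  let F₁ : IntermediateField E Om := extendScalars hEF
  have ht : Transcendental QQ (⟨tt, htF⟩ : F) := by
    intro h
    apply hΩ.transc
    exact (isAlgebraic_algebraMap_iff (algebraMap F Om).injective).2 h
  have hfin := fin_adjoin hF.belyi.curve ht
  have hF₁ : FiniteDimensional E F₁ := by
    refine Module.Finite.of_equiv_equiv (A₁ := adjoin QQ {(⟨tt, htF⟩ : F)}) (B₁ := F)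
      (gal_equiv F htF).toRingEquiv (B₂ := F₁) (RingEquiv.refl F) ?_
    rfl
  have hEalg : Algebra.IsAlgebraic E Om := hΩ.alg
  have hEn : Normal E Om := by
    have : IsAlgClosure E Om := ⟨inferInstance, hEalg⟩
    exact IsAlgClosure.normal E Om
  have hn : Normal E F₁ := by
    rw [normal_iff_forall_map_le']
    rintro g _ ⟨f, hf, rfl⟩
    exact hF.galois (g.restrictScalars QQ) (g.commutes ⟨tt, mem_adjoin_simple_self QQ tt⟩) f hf
  have hg : IsGalois E F₁ := ⟨⟩
  refine ⟨hF.belyi.curve, ht, ?_, hF.belyi.unram⟩
  refine IsGalois.of_equiv_equiv (F := E) (E := F₁)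
    (f := (gal_equiv F htF).symm.toRingEquiv) (g := RingEquiv.refl F) ?_
  ext y
  have h1 := gal_equiv_coe F htF ((gal_equiv F htF).symm y)
  rw [AlgEquiv.apply_symm_apply] at h1
  exact congrArg Subtype.val (Subtype.ext h1.symm : (_ : F) = _)

/-- the fields over a Fermat curve -/
theorem fermat_gal (hΩ : IsAlgFun tt) {F : IntermediateField QQ Om} (hF : Fermat tt F) :
    GalBelyi (⟨tt, hF.belyi.mem⟩ : F) :=
  galField_gal hΩ ⟨hF.belyi, hF.galois⟩

end Pool.Agent.FPZ
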