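import Pool.Agent.FPZ.AbCov2

/-!
# The character of the stabilizer of a point
-/

set_option autoImplicit false

noncomputable section

namespace Pool.Agent.FPZ

open Pool.Agent.ZCyc Pool.Agent.Dess Pool.Agent.Dess4 IntermediateField Polynomial
open scoped Classical

variable {k F : Type} [Field k] [Field F] [Algebra k F] [IsAlgClosed k] [CharZero k] {u : F}
  [FiniteDimensional (adjoin k {u}) F] [IsGalois (adjoin k {u}) F]

/-- the character of the stabilizer on the cotangent space -/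
theorem exists_char (hu : Transcendental k u) {V : Place k F} {π : F} (hπ : IsUnif V π) :
    ∃ χ : gstab (adjoin k {u}) V →* k, Function.Injective χ ∧
      ∀ s : gstab (adjoin k {u}) V, V.At ((s : F ≃ₐ[adjoin k {u}] F) π / π) (χ s) := by
  have hF : IsCurve k F := ⟨u, hu, inferInstance⟩
  have hex : ∀ s : gstab (adjoin k {u}) V, ∃ c : k, c ≠ 0 ∧
      V.At ((s : F ≃ₐ[adjoin k {u}] F) π / π) c :=
    fun s => unif_ratio hF hπ (stab_unif s.2 hπ)
  choose c hc0 hc using hex
  have hc1 : c 1 = 1 := by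
    have h3 := hc 1
    have h4 : (((1 : gstab (adjoin k {u}) V) : F ≃ₐ[adjoin k {u}] F)) π / π = 1 := by
      rw [OneMemClass.coe_one, AlgEquiv.one_apply, div_self hπ.1]
    rw [h4] at h3
    have h5 := Place.at_const (F := F) (v := V) (1 : k)
    rw [map_one] at h5
    exact h3.unique h5
  have hcm : ∀ s t, c (s * t) = c s * c t := by
    intro s t
    have h3 := hc (s * t)
    have h4 := stab_at s.2 (hc t)
    have h5 := h4.mul (hc s)
    have h6 : ((s : F ≃ₐ[adjoin k {u}] F).restrictScalars k)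
        ((t : F ≃ₐ[adjoin k {u}] F) π / π) * ((s : F ≃ₐ[adjoin k {u}] F) π / π) =
        ((s * t : gstab (adjoin k {u}) V) : F ≃ₐ[adjoin k {u}] F) π / π := by
      rw [Subgroup.coe_mul, AlgEquiv.mul_apply, map_div₀]
      change (s : F ≃ₐ[adjoin k {u}] F) ((t : F ≃ₐ[adjoin k {u}] F) π) /
        (s : F ≃ₐ[adjoin k {u}] F) π * _ = _
      have h7 : (s : F ≃ₐ[adjoin k {u}] F) π ≠ 0 := (_root_.map_ne_zero _).2 hπ.1
      rw [div_mul_div_cancel₀ h7]
    rw [h6] at h5
    rw [h3.unique h5, mul_comm]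
  let χ : gstab (adjoin k {u}) V →* k :=
    { toFun := c
      map_one' := hc1
      map_mul' := hcm }
  refine ⟨χ, ?_, hc⟩
  rw [injective_iff_map_eq_one]
  intro s hs
  have h3 : V.At ((s : F ≃ₐ[adjoin k {u}] F) π / π) 1 := by
    have := hc s
    rwa [show c s = 1 from hs] at this
  ext f
  exact tame hu hF (AlgHom.id k F) (s : F ≃ₐ[adjoin k {u}] F) (fun f => ⟨_, rfl⟩) V s.2
    (v := V) (by rfl) hπ h3 f

omit [IsGalois (adjoin k {u}) F] in
/-- the values of `s w / w` for a function `w` of order `e` -/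
theorem stab_value (hu : Transcendental k u) {V : Place k F} {π : F} (hπ : IsUnif V π)
    {χ : gstab (adjoin k {u}) V →* k}
    (hχ : ∀ s : gstab (adjoin k {u}) V, V.At ((s : F ≃ₐ[adjoin k {u}] F) π / π) (χ s)) {w : F}
    (hw0 : w ≠ 0) {e : ℤ} (he : HasOrd V w e) (s : gstab (adjoin k {u}) V) :
    V.At ((s : F ≃ₐ[adjoin k {u}] F) w / w) (χ s ^ e) := by
  have hF : IsCurve k F := ⟨u, hu, inferInstance⟩
  obtain ⟨h1, h2⟩ := deg_ord hπ he
  have hw1 : w / π ^ e ≠ 0 := div_ne_zero hw0 (zpow_ne_zero _ hπ.1)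
  obtain ⟨c, hc, hcV⟩ := unit_value hF hw1 h1 h2
  have hs0 : χ s ≠ 0 := by
    obtain ⟨c, hc, h⟩ := unif_ratio hF hπ (stab_unif s.2 hπ)
    rw [(hχ s).unique h]
    exact hc
  have h6 := (stab_at s.2 hcV).div hcV hc
  rw [div_self hc] at h6
  have h7 := h6.mul (at_zpow (hχ s) hs0 e)
  rw [one_mul] at h7
  have h8 : ((s : F ≃ₐ[adjoin k {u}] F).restrictScalars k) (w / π ^ e) / (w / π ^ e) *
      ((s : F ≃ₐ[adjoin k {u}] F) π / π) ^ e = (s : F ≃ₐ[adjoin k {u}] F) w / w := by
    rw [map_div₀, map_zpow₀, div_zpow]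
    change (s : F ≃ₐ[adjoin k {u}] F) w / (s : F ≃ₐ[adjoin k {u}] F) π ^ e / (w / π ^ e) *
      ((s : F ≃ₐ[adjoin k {u}] F) π ^ e / π ^ e) = _
    have h9 : (s : F ≃ₐ[adjoin k {u}] F) π ^ e ≠ 0 :=
      zpow_ne_zero _ ((_root_.map_ne_zero _).2 hπ.1)
    have h10 : π ^ e ≠ 0 := zpow_ne_zero _ hπ.1
    field_simp
  rwa [h8] at h7

/-- If `w` has the order `e` and is fixed by `e` elements of the stabilizer, the value of
`s w / w` is different from one for all other elements `s` of the stabilizer. -/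
theorem stab_root (hu : Transcendental k u) {V : Place k F} {w : F} (hw0 : w ≠ 0) {e : ℕ}
    (he0 : 0 < e) (he : HasOrd V w e) {T : Finset (F ≃ₐ[adjoin k {u}] F)} (hT : T.card = e)
    (hTV : ∀ τ ∈ T, gact (adjoin k {u}) τ V = V) (hTw : ∀ τ ∈ T, τ w = w)
    {s : F ≃ₐ[adjoin k {u}] F} (hs : gact (adjoin k {u}) s V = V) (hsw : V.At (s w / w) 1) :
    s ∈ T := by
  have hF : IsCurve k F := ⟨u, hu, inferInstance⟩
  obtain ⟨π, hπ⟩ := exists_unif hF V
  obtain ⟨χ, hinj, hχ⟩ := exists_char hu hπ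
  by_contra hsT
  -- the elements of `T` and `s`, as elements of the stabilizer
  let f : {τ // τ ∈ insert s T} → k := fun τ => χ ⟨τ, by
    rcases Finset.mem_insert.1 τ.2 with h | h
    · rw [h]
      exact hs
    · exact hTV _ h⟩
  have hf : Function.Injective f := by
    intro τ τ' h
    have h1 := congrArg (Subtype.val : gstab (adjoin k {u}) V → _) (hinj h)
    exact Subtype.ext h1
  have hroot : ∀ τ, f τ ∈ (nthRoots e (1 : k)).toFinset := by
    intro τ
    rw [Multiset.mem_toFinset, mem_nthRoots he0]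
    have h1 : ∀ (τ : gstab (adjoin k {u}) V), V.At ((τ : F ≃ₐ[adjoin k {u}] F) w / w) 1 →
        χ τ ^ e = 1 := by
      intro τ h
      have h2 := stab_value hu hπ hχ hw0 he τ
      rw [zpow_natCast] at h2
      exact h2.unique h
    apply h1
    rcases Finset.mem_insert.1 τ.2 with h | h
    · change V.At ((τ : F ≃ₐ[adjoin k {u}] F) w / w) 1
      rw [h]
      exact hsw
    · change V.At ((τ : F ≃ₐ[adjoin k {u}] F) w / w) 1
      rw [hTw _ h, div_self hw0]
      have h5 := Place.at_const (F := F) (v := V) (1 : k)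
      rwa [map_one] at h5
  have h2 : Fintype.card {τ // τ ∈ insert s T} ≤ (nthRoots e (1 : k)).toFinset.card := by
    rw [← Finset.card_univ, ← Finset.card_image_of_injective _ hf]
    apply Finset.card_le_card
    intro c hc
    obtain ⟨τ, -, rfl⟩ := Finset.mem_image.1 hc
    exact hroot τ
  have h3 := (nthRoots e (1 : k)).toFinset_card_le.trans (card_nthRoots e (1 : k))
  rw [Fintype.card_coe, Finset.card_insert_of_notMem hsT, hT] at h2
  omega

end Pool.Agent.FPZ
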