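import Pool.Agent.FPZ.Hir1
import Pool.Agent.Rank22.Norm

/-!
# The points above a point, for a subfield of a Galois covering of the projective line
-/

set_option autoImplicit false

noncomputable section

namespace Pool.Agent.FPZ

open Pool.Agent.ZCyc Pool.Agent.Dess Pool.Agent.Dess4 Pool.Agent.Rank22 IntermediateField Module
open scoped Classical

variable {k F M : Type} [Field k] [IsAlgClosed k] [CharZero k] [Field F] [Algebra k F] [Field M]
  [Algebra k M]

section Range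

variable (φ : F →ₐ[k] M) [FiniteDimensional φ.fieldRange M] [IsGalois φ.fieldRange M]
  {π : Place k M → Place k F}

omit [IsAlgClosed k] [CharZero k] [FiniteDimensional φ.fieldRange M]
  [IsGalois φ.fieldRange M] in
theorem pi_gact_range (hπ : ∀ V, V.ring.comap (φ : F →+* M) = (π V).ring)
    (ρ : M ≃ₐ[φ.fieldRange] M) (V : Place k M) : π (gact φ.fieldRange ρ V) = π V := by
  apply Place.ext
  rw [← hπ, ← hπ]
  ext f
  rw [ValuationSubring.mem_comap, ValuationSubring.mem_comap, gact, Place.mem_map]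
  change ρ.symm (φ f) ∈ _ ↔ φ f ∈ _
  have h1 : ρ.symm (φ f) = φ f := ρ.symm.commutes (⟨φ f, f, rfl⟩ : φ.fieldRange)
  rw [h1]

/-- the group of the covering acts transitively on the points above a point -/
theorem range_trans (hM : IsCurve k M) (hπ : ∀ V, V.ring.comap (φ : F →+* M) = (π V).ring)
    {V W : Place k M} (h : π V = π W) :
    ∃ ρ : M ≃ₐ[φ.fieldRange] M, gact φ.fieldRange ρ V = W := by
  obtain ⟨q, hq, hqV⟩ := galois_trans hM φ.fieldRange V W (by
    rintro _ ⟨f, rfl⟩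
    change φ f ∈ _ ↔ φ f ∈ _
    rw [comap_mem (hπ V), comap_mem (hπ W), h])
  refine ⟨AlgEquiv.ofRingEquiv (f := q.toRingEquiv) fun x => hq x x.2, ?_⟩
  rw [← hqV]
  rfl

/-- the ramification index is the order of the stabilizer -/
theorem ram_orb (hF : IsCurve k F) (hM : IsCurve k M)
    (hπ : ∀ V, V.ring.comap (φ : F →+* M) = (π V).ring) (V : Place k M) {ϖ : F}
    (hϖ : IsUnif (π V) ϖ) {e : ℤ} (he : HasOrd V (φ ϖ) e) : orb φ.fieldRange V V = e := by
  obtain ⟨S, hS, hsum⟩ := fibre_sum hF hM φ π hπ (π V)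
  have hφϖ : φ ϖ ≠ 0 := (_root_.map_ne_zero φ).2 hϖ.1
  have himg : S = Finset.univ.image fun ρ : M ≃ₐ[φ.fieldRange] M =>
      gact φ.fieldRange ρ V := by
    ext W
    rw [hS, Finset.mem_image]
    constructor
    · intro h
      obtain ⟨ρ, hρ⟩ := range_trans φ hM hπ h.symm
      exact ⟨ρ, Finset.mem_univ _, hρ⟩
    · rintro ⟨ρ, -, rfl⟩
      exact pi_gact_range φ hπ ρ V
  have hfix : ∀ ρ : M ≃ₐ[φ.fieldRange] M, ρ.restrictScalars k (φ ϖ) = φ ϖ := fun ρ =>
    ρ.commutes (⟨φ ϖ, ϖ, rfl⟩ : φ.fieldRange)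
  have h1 := hsum ϖ (fun _ => e) hϖ (by
    intro W hW
    rw [himg] at hW
    obtain ⟨ρ, -, rfl⟩ := Finset.mem_image.1 hW
    exact ord_map_fix _ (hfix ρ) he)
  rw [finrank_range, Finset.sum_const, nsmul_eq_mul] at h1
  have h2 := orb_card (E := φ.fieldRange) V
  rw [← himg, ← Nat.card_eq_fintype_card, IsGalois.card_aut_eq_finrank, ← h1] at h2
  have h3 : ((S.card : ℕ) : ℤ) ≠ 0 := by
    have : 0 < S.card := Finset.card_pos.2 ⟨V, (hS V).2 rfl⟩
    exact_mod_cast this.ne'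
  exact mul_left_cancel₀ h3 h2

end Range

section Fix

variable {t : M} {φ : F →ₐ[k] M} {x : F}

/-- the elements of the Galois group which fix the subfield -/
def fixf (t : M) (φ : F →ₐ[k] M) [Fintype (M ≃ₐ[adjoin k {t}] M)] :
    Finset (M ≃ₐ[adjoin k {t}] M) :=
  Finset.univ.filter fun σ => ∀ f : F, σ (φ f) = φ f

omit [IsAlgClosed k] [CharZero k] in
theorem mem_fixf [Fintype (M ≃ₐ[adjoin k {t}] M)] {σ : M ≃ₐ[adjoin k {t}] M} :
    σ ∈ fixf t φ ↔ ∀ f : F, σ (φ f) = φ f := by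
  rw [fixf, Finset.mem_filter]
  exact and_iff_right (Finset.mem_univ _)

omit [IsAlgClosed k] [CharZero k] in
theorem adjoin_mem_range (hx : φ x = t) {f : M} (hf : f ∈ adjoin k {t}) :
    f ∈ φ.fieldRange :=
  (adjoin_simple_le_iff.2 ⟨x, hx⟩ : adjoin k {t} ≤ φ.fieldRange) hf

/-- the inclusion of the groups -/
def incl (hx : φ x = t) (ρ : M ≃ₐ[φ.fieldRange] M) : M ≃ₐ[adjoin k {t}] M :=
  AlgEquiv.ofRingEquiv (f := ρ.toRingEquiv) fun y =>
    ρ.commutes (⟨y, adjoin_mem_range hx y.2⟩ : φ.fieldRange)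

omit [IsAlgClosed k] [CharZero k] in
theorem incl_apply (hx : φ x = t) (ρ : M ≃ₐ[φ.fieldRange] M) (f : M) : incl hx ρ f = ρ f := rfl

omit [IsAlgClosed k] [CharZero k] in
theorem incl_gact (hx : φ x = t) (ρ : M ≃ₐ[φ.fieldRange] M) (V : Place k M) :
    gact (adjoin k {t}) (incl hx ρ) V = gact φ.fieldRange ρ V := rfl

omit [IsAlgClosed k] [CharZero k] in
theorem incl_inj (hx : φ x = t) : Function.Injective (incl hx) := by
  intro ρ ρ' h
  ext f
  exact DFunLike.congr_fun h f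

omit [IsAlgClosed k] [CharZero k] in
theorem incl_mem [Fintype (M ≃ₐ[adjoin k {t}] M)] (hx : φ x = t)
    (σ : M ≃ₐ[adjoin k {t}] M) : σ ∈ fixf t φ ↔ ∃ ρ, incl hx ρ = σ := by
  rw [mem_fixf]
  constructor
  · intro h
    refine ⟨AlgEquiv.ofRingEquiv (f := σ.toRingEquiv) ?_, ?_⟩
    · rintro ⟨_, f, rfl⟩
      exact h f
    · ext f
      rfl
  · rintro ⟨ρ, rfl⟩ f
    exact ρ.commutes (⟨φ f, f, rfl⟩ : φ.fieldRange)

variable [FiniteDimensional (adjoin k {t}) M] [IsGalois (adjoin k {t}) M]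
  {π : Place k M → Place k F}

omit [IsAlgClosed k] [CharZero k] in
theorem fixf_card (hx : φ x = t) : (fixf t φ).card = finrank φ.fieldRange M := by
  obtain ⟨h1, h2⟩ := galois_range (t := t) inferInstance inferInstance φ hx
  rw [← IsGalois.card_aut_eq_finrank, Nat.card_eq_fintype_card, ← Finset.card_univ,
    ← Finset.card_image_of_injective _ (incl_inj hx)]
  congr 1
  ext σ
  rw [incl_mem hx, Finset.mem_image]
  simp only [Finset.mem_univ, true_and]

omit [IsAlgClosed k] [CharZero k] [IsGalois (adjoin k {t}) M] in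
theorem fixf_pi (hx : φ x = t) (hπ : ∀ V, V.ring.comap (φ : F →+* M) = (π V).ring)
    {σ : M ≃ₐ[adjoin k {t}] M} (hσ : σ ∈ fixf t φ) (V : Place k M) :
    π (gact (adjoin k {t}) σ V) = π V := by
  obtain ⟨ρ, rfl⟩ := (incl_mem hx σ).1 hσ
  rw [incl_gact]
  exact pi_gact_range φ hπ ρ V

theorem fixf_trans (hM : IsCurve k M) (hx : φ x = t)
    (hπ : ∀ V, V.ring.comap (φ : F →+* M) = (π V).ring) {V W : Place k M} (h : π V = π W) :
    ∃ σ ∈ fixf t φ, gact (adjoin k {t}) σ V = W := by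
  obtain ⟨h1, h2⟩ := galois_range (t := t) inferInstance inferInstance φ hx
  obtain ⟨ρ, hρ⟩ := range_trans φ hM hπ h
  exact ⟨incl hx ρ, (incl_mem hx _).2 ⟨ρ, rfl⟩, hρ⟩

/-- the ramification index is the number of elements which fix the subfield and the point -/
theorem fixf_stab (hF : IsCurve k F) (hM : IsCurve k M) (hx : φ x = t)
    (hπ : ∀ V, V.ring.comap (φ : F →+* M) = (π V).ring) (V : Place k M) {ϖ : F}
    (hϖ : IsUnif (π V) ϖ) {e : ℤ} (he : HasOrd V (φ ϖ) e) :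
    (((fixf t φ).filter fun σ => gact (adjoin k {t}) σ V = V).card : ℤ) = e := by
  obtain ⟨h1, h2⟩ := galois_range (t := t) inferInstance inferInstance φ hx
  rw [← ram_orb φ hF hM hπ V hϖ he, orb_apply, ← Finset.card_image_of_injective _ (incl_inj hx)]
  congr 2
  ext σ
  rw [Finset.mem_filter, incl_mem hx, Finset.mem_image]
  constructor
  · rintro ⟨⟨ρ, rfl⟩, h⟩
    exact ⟨ρ, Finset.mem_filter.2 ⟨Finset.mem_univ _, h⟩, rfl⟩
  · rintro ⟨ρ, h, rfl⟩
    exact ⟨⟨ρ, rfl⟩, (Finset.mem_filter.1 h).2⟩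

end Fix

end Pool.Agent.FPZ
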