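import Pool.Agent.FPZ.Hir3
import Pool.Agent.FPZ.AbCov4

/-!
# The fibre product of a covering of the projective line with itself
-/

set_option autoImplicit false

noncomputable section

namespace Pool.Agent.FPZ

open Pool.Agent.ZCyc Pool.Agent.Dess Pool.Agent.Dess4 Pool.Agent.Rank22 IntermediateField Module
open scoped Classical

variable {k F M : Type} [Field k] [Field F] [Algebra k F] [Field M] [Algebra k M]

/-- the point `(π v, π (σ v))` -/
def dd (t : M) (π : Place k M → Place k F) (σ : M ≃ₐ[adjoin k {t}] M) (v : Place k M) :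
    Bool → Place k F :=
  pair (L := fun _ => F) (π v) (π (gact (adjoin k {t}) σ v))

variable {t : M} {φ : F →ₐ[k] M} {x : F} {π : Place k M → Place k F}

theorem isMor_dd (hπ : ∀ V, V.ring.comap (φ : F →+* M) = (π V).ring)
    (σ : M ≃ₐ[adjoin k {t}] M) :
    IsMor (L := fun _ : Unit => M) (L' := fun _ : Bool => F) fun a => dd t π σ (a ()) := by
  intro b
  cases b
  · exact Or.inr ⟨(), φ, fun a => (hπ (a ())).symm⟩
  · refine Or.inr ⟨(), (((σ.restrictScalars k).symm : M ≃ₐ[k] M) : M →ₐ[k] M).comp φ,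
      fun a => ?_⟩
    exact (hπ (gact (adjoin k {t}) σ (a ()))).symm

theorem isMor_pi (hπ : ∀ V, V.ring.comap (φ : F →+* M) = (π V).ring) :
    IsMor (L := fun _ : Unit => M) (L' := fun _ : Unit => F) fun a _ => π (a ()) := by
  intro _
  exact Or.inr ⟨(), φ, fun a => (hπ (a ())).symm⟩

theorem unq_dd (σ : M ≃ₐ[adjoin k {t}] M) (A : Place k M →₀ ℤ) :
    (unq A).mapDomain (fun a => dd t π σ (a ())) = A.mapDomain (dd t π σ) := by
  change (A.mapDomain fun p _ => p).mapDomain _ = _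
  rw [← Finsupp.mapDomain_comp]
  rfl

theorem unq_pi (A : Place k M →₀ ℤ) :
    (unq A).mapDomain (fun a (_ : Unit) => π (a ())) = unq (A.mapDomain π) := by
  change (A.mapDomain fun p _ => p).mapDomain _ = (A.mapDomain π).mapDomain fun p _ => p
  rw [← Finsupp.mapDomain_comp, ← Finsupp.mapDomain_comp]
  rfl

theorem dd_mem (hM : IsCurve k M) (hπ : ∀ V, V.ring.comap (φ : F →+* M) = (π V).ring)
    (σ : M ≃ₐ[adjoin k {t}] M) {h : M} (h0 : h ≠ 0) {D : Place k M →₀ ℤ}
    (hD : ∀ v, HasOrd v h (D v)) : D.mapDomain (dd t π σ) ∈ RatEq fun _ : Bool => F := by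
  have h1 := map_mem _ (isMor_dd hπ σ) (unq_div_mem hM h0 hD)
  rwa [unq_dd] at h1

theorem pi_mem (hM : IsCurve k M) (hπ : ∀ V, V.ring.comap (φ : F →+* M) = (π V).ring)
    {h : M} (h0 : h ≠ 0) {D : Place k M →₀ ℤ} (hD : ∀ v, HasOrd v h (D v)) :
    unq (D.mapDomain π) ∈ RatEq (k := k) fun _ : Unit => F := by
  have h1 := map_mem _ (isMor_pi hπ) (unq_div_mem hM h0 hD)
  rwa [unq_pi] at h1

theorem diq_pi (A : Place k M →₀ ℤ) : diq (A.mapDomain π) = A.mapDomain (dd t π 1) := by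
  change (A.mapDomain π).mapDomain _ = _
  rw [← Finsupp.mapDomain_comp]
  congr 1

/-- a divisor which is concentrated on the points with `π (σ v) = π v` -/
theorem dd_diag {σ : M ≃ₐ[adjoin k {t}] M} {A : Place k M →₀ ℤ}
    (h : ∀ v, A v ≠ 0 → π (gact (adjoin k {t}) σ v) = π v) :
    A.mapDomain (dd t π σ) = diq (A.mapDomain π) := by
  change _ = (A.mapDomain π).mapDomain _
  rw [← Finsupp.mapDomain_comp]
  apply Finsupp.mapDomain_congr
  intro v hv
  rw [dd, h v (Finsupp.mem_support_iff.1 hv)]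
  rfl

theorem sum_dd [Fintype (M ≃ₐ[adjoin k {t}] M)] (v : Place k M) :
    ∑ σ : M ≃ₐ[adjoin k {t}] M, (orb (adjoin k {t}) v).mapDomain (dd t π σ) =
      exq ((orb (adjoin k {t}) v).mapDomain π) ((orb (adjoin k {t}) v).mapDomain π) := by
  have h1 : (orb (adjoin k {t}) v).mapDomain π =
      ∑ σ : M ≃ₐ[adjoin k {t}] M, Finsupp.single (π (gact (adjoin k {t}) σ v)) 1 := by
    rw [orb, Finsupp.mapDomain_finsetSum]
    simp only [Finsupp.mapDomain_single]
  have h2 : ∀ σ : M ≃ₐ[adjoin k {t}] M, (orb (adjoin k {t}) v).mapDomain (dd t π σ) =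
      ∑ τ : M ≃ₐ[adjoin k {t}] M, Finsupp.single (pair (L := fun _ => F)
        (π (gact (adjoin k {t}) τ v)) (π (gact (adjoin k {t}) (σ * τ) v))) 1 := by
    intro σ
    rw [orb, Finsupp.mapDomain_finsetSum]
    simp only [Finsupp.mapDomain_single, dd, gact_mul]
  rw [h1, Finset.sum_congr rfl fun σ _ => h2 σ, Finset.sum_comm, map_sum exq,
    AddMonoidHom.finsetSum_apply]
  refine Finset.sum_congr rfl fun τ _ => ?_
  rw [map_sum]
  refine Fintype.sum_equiv (Equiv.mulRight τ) _ _ fun σ => ?_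
  rw [exq_single, mul_one]
  rfl

theorem dgq_pi (A : Place k M →₀ ℤ) : dgq (A.mapDomain π) = dgq A := by
  induction A using Finsupp.induction_linear with
  | zero => simp
  | add a b ha hb => rw [Finsupp.mapDomain_add, map_add, map_add, ha, hb]
  | single p m => rw [Finsupp.mapDomain_single, dgq_single, dgq_single]

/-- **The relation of the fibre product.** -/
theorem fp_fibre (hM : IsCurve k M) (hx : φ x = t)
    (hπ : ∀ V, V.ring.comap (φ : F →+* M) = (π V).ring) [FiniteDimensional (adjoin k {t}) M]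
    {V₀ : Place k M} {n : ℤ}
    {h : (M ≃ₐ[adjoin k {t}] M) → M} {D : (M ≃ₐ[adjoin k {t}] M) → Place k M →₀ ℤ}
    (h0 : ∀ σ, σ ∉ fixf t φ → h σ ≠ 0) (hD : ∀ σ, σ ∉ fixf t φ → ∀ v, HasOrd v (h σ) (D σ v))
    (hdiag : ∀ σ, σ ∉ fixf t φ → ∀ v, (D σ + n • orb (adjoin k {t}) V₀) v ≠ 0 →
      π (gact (adjoin k {t}) σ v) = π v) :
    n • fp ((orb (adjoin k {t}) V₀).mapDomain π) ∈ RatEq fun _ : Bool => F := by
  set P := orb (adjoin k {t}) V₀ with hP
  have h1 : ∀ σ : M ≃ₐ[adjoin k {t}] M,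
      n • (P.mapDomain (dd t π σ) - diq (P.mapDomain π)) ∈ RatEq fun _ : Bool => F := by
    intro σ
    by_cases hσ : σ ∈ fixf t φ
    · rw [dd_diag fun v _ => fixf_pi hx hπ hσ v, sub_self, smul_zero]
      exact zero_mem _
    · have h2 := dd_diag (hdiag σ hσ)
      rw [Finsupp.mapDomain_add, Finsupp.mapDomain_add, map_add, Finsupp.mapDomain_smul,
        Finsupp.mapDomain_smul, map_zsmul, diq_pi (t := t) (D σ)] at h2
      have h3 := dd_mem hM hπ σ (h0 σ hσ) (hD σ hσ)
      have h4 := dd_mem hM hπ (1 : M ≃ₐ[adjoin k {t}] M) (h0 σ hσ) (hD σ hσ)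
      have h5 := sub_mem h4 h3
      have h6 : (D σ).mapDomain (dd t π 1) - (D σ).mapDomain (dd t π σ) =
          n • (P.mapDomain (dd t π σ) - diq (P.mapDomain π)) := by
        rw [smul_sub, sub_eq_sub_iff_add_eq_add, ← h2]
        abel
      rwa [h6] at h5
  have h2 := sum_mem (S := RatEq fun _ : Bool => F) (t := Finset.univ) fun σ _ => h1 σ
  rw [← Finset.smul_sum, Finset.sum_sub_distrib, hP, sum_dd, Finset.sum_const, ← hP] at h2
  rw [fp_eq, dgq_pi, hP, orb_deg, ← hP, ← Finset.card_univ, natCast_zsmul]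
  exact h2

end Pool.Agent.FPZ
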