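import Pool.Agent.FPZ.Hir5
import Pool.Agent.FPZ.AbCov5

/-!
# The canonical divisor of a smooth curve on a Hirzebruch surface
-/

set_option autoImplicit false

noncomputable section

namespace Pool.Agent.FPZ

open Pool.Agent.ZCyc Pool.Agent.Dess Pool.Agent.Dess4 Pool.Agent.Rank22 IntermediateField Module
open scoped Classical

variable {k F M : Type} [Field k] [IsAlgClosed k] [CharZero k] [Field F] [Algebra k F] [Field M]
  [Algebra k M] {t : M} {φ : F →ₐ[k] M} {x : F} [FiniteDimensional (adjoin k {t}) M]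
  [IsGalois (adjoin k {t}) M] {π : Place k M → Place k F}

/-- the divisor of poles at a point -/
theorem pole_orb (hF : IsCurve k F) (ht : Transcendental k t) (hx : φ x = t)
    (hπ : ∀ V, V.ring.comap (φ : F →+* M) = (π V).ring) {K : Place k F →₀ ℤ} (hK : IsCan x K)
    {V₀ : Place k M} (hV₀ : t ∉ V₀.ring) {v : Place k M} {ϖ : F} (hϖ : IsUnif (π v) ϖ) {e : ℤ}
    (he0 : 0 < e) (he : HasOrd v (φ ϖ) e) :
    2 * orb (adjoin k {t}) V₀ v = (|K (π v) + 1| - (K (π v) + 1)) * e := by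
  have hM : IsCurve k M := ⟨t, ht, inferInstance⟩
  have hx' := transc_pre ht hx
  have ht' : Transcendental k t⁻¹ := fun h => ht (by simpa using h.inv)
  obtain ⟨D, hD⟩ := exists_div hM (transc_ne ht')
  have h1 := orb_zeros ht' (by rw [adjoin_inv]) (E := adjoin k {t}) (V := V₀)
    (inv_at_zero hV₀) hD v
  obtain ⟨m, hm0, hm, hm'⟩ := can_aux hF hx' (π v)
  rcases hm' with ⟨a, ha, hma, hpos⟩ | ⟨hp, hall, hneg⟩
  · have hKm : K (π v) + 1 = m := by
      rw [hK _ a m hm0 hma]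
      ring
    have h2 : t ∈ v.ring := by
      rw [← hx, comap_mem (hπ v)]
      exact ha.mem
    have h3 := ord_inv (hD v)
    rw [inv_inv] at h3
    have h4 := ord_nonneg h3 (transc_ne ht) h2
    rw [h1, hKm, abs_of_pos hpos, sub_self, zero_mul, max_eq_right (by omega), mul_zero]
  · have hKm : K (π v) + 1 = m := by
      rw [hK _ 0 m hm0 (hall 0)]
      ring
    have h3 : HasOrd v (φ x) (m * e) := by
      refine ord_pull (hπ v) hϖ he ?_
      have h4 := hall 0
      rwa [map_zero, sub_zero] at h4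
    rw [hx] at h3
    rw [h1, hasOrd_unique hM (transc_ne ht') (hD v) (ord_inv h3), hKm, abs_of_neg hneg,
      max_eq_left (by nlinarith)]
    ring

/-- **The canonical divisor.** -/
theorem can_fibre (hF : IsCurve k F) (ht : Transcendental k t) (hx : φ x = t)
    (hπ : ∀ V, V.ring.comap (φ : F →+* M) = (π V).ring) {K : Place k F →₀ ℤ} (hK : IsCan x K)
    {V₀ : Place k M} (hV₀ : t ∉ V₀.ring) {n : ℤ}
    {D : (M ≃ₐ[adjoin k {t}] M) → Place k M →₀ ℤ}
    (hL : ∀ σ, σ ∉ fixf t φ → ∀ (v : Place k M) (ϖ : F) (e : ℤ), IsUnif (π v) ϖ →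
      HasOrd v (φ ϖ) e → (D σ + n • orb (adjoin k {t}) V₀) v =
        if π (gact (adjoin k {t}) σ v) = π v then e else 0) :
    ((finrank φ.fieldRange M : ℤ) ^ 2) • K = (∑ σ ∈ (fixf t φ)ᶜ, (D σ).mapDomain π) +
      (n * ((fixf t φ)ᶜ.card : ℤ) - 2 * finrank φ.fieldRange M) •
        (orb (adjoin k {t}) V₀).mapDomain π := by
  have hM : IsCurve k M := ⟨t, ht, inferInstance⟩
  ext v₀
  obtain ⟨S, hS, hsum⟩ := fibre_sum hF hM φ π hπ v₀
  obtain ⟨ϖ, hϖ⟩ := exists_unif hF v₀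
  have hφϖ : φ ϖ ≠ 0 := (_root_.map_ne_zero φ).2 hϖ.1
  choose e he using fun V => exists_hasOrd hM V hφϖ
  have hepos : ∀ V ∈ S, 0 < e V := by
    intro V hV
    refine ord_pos_of_vanishes hφϖ (he V) ?_
    rw [comap_vanishes (hπ V), (hS V).1 hV]
    exact hϖ.2.1
  have hϖ' : ∀ V ∈ S, IsUnif (π V) ϖ := by
    intro V hV
    rwa [(hS V).1 hV]
  have hN := hsum ϖ e hϖ fun V _ => he V
  rw [finrank_range] at hN
  set N : ℤ := (finrank φ.fieldRange M : ℤ) with hNdef
  have hP : 2 * ∑ V ∈ S, orb (adjoin k {t}) V₀ V = (|K v₀ + 1| - (K v₀ + 1)) * N := by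
    rw [Finset.mul_sum, ← hN, Finset.mul_sum]
    refine Finset.sum_congr rfl fun V hV => ?_
    have h1 := pole_orb hF ht hx hπ hK hV₀ (hϖ' V hV) (hepos V hV) (he V)
    rwa [(hS V).1 hV] at h1
  have hDs : ∀ σ ∈ (fixf t φ)ᶜ, (D σ).mapDomain π v₀ = (∑ V ∈ S,
      if π (gact (adjoin k {t}) σ V) = π V then e V else 0) -
        n * ∑ V ∈ S, orb (adjoin k {t}) V₀ V := by
    intro σ hσ
    rw [mapDomain_fibre π (D σ) hS, Finset.mul_sum, ← Finset.sum_sub_distrib]
    refine Finset.sum_congr rfl fun V hV => ?_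
    rw [← hL σ (Finset.mem_compl.1 hσ) V ϖ (e V) (hϖ' V hV) (he V), Finsupp.add_apply,
      Finsupp.smul_apply, smul_eq_mul]
    ring
  have hcount : ∑ σ ∈ (fixf t φ)ᶜ, (∑ V ∈ S,
      if π (gact (adjoin k {t}) σ V) = π V then e V else 0) = (|K v₀ + 1| - 1) * N * N := by
    rw [Finset.sum_comm]
    have h1 : ∀ V ∈ S, (∑ σ ∈ (fixf t φ)ᶜ,
        if π (gact (adjoin k {t}) σ V) = π V then e V else 0) =
          (|K v₀ + 1| - 1) * N * e V := by
      intro V hV
      rw [← Finset.sum_filter, Finset.sum_const, nsmul_eq_mul, count_compl hF ht hx hπ hK,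
        (hS V).1 hV]
    rw [Finset.sum_congr rfl h1, ← Finset.mul_sum, hN]
  rw [Finsupp.smul_apply, Finsupp.add_apply, Finsupp.finsetSum_apply, Finsupp.smul_apply,
    Finset.sum_congr rfl hDs, Finset.sum_sub_distrib, hcount, mapDomain_fibre π _ hS,
    Finset.sum_const, nsmul_eq_mul, smul_eq_mul, smul_eq_mul]
  linear_combination N * hP

end Pool.Agent.FPZ
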