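import Pool.Agent.FPZ.Hir6

/-!
# Smooth curves on a Hirzebruch surface which do not meet the negative section
-/

set_option autoImplicit false

noncomputable section

namespace Pool.Agent.FPZ

open Pool.Agent.ZCyc Pool.Agent.Dess Pool.Agent.Dess4 Pool.Agent.Rank22 IntermediateField Module
open scoped Classical

/-- The functions `x`, `y` define an embedding of the curve with function field `F` in the
Hirzebruch surface `F_n`, such that the image does not meet the negative section: `x` is the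
coordinate of the projective line, `(x, y)` and `(1 / x, y / x ^ n)` are the coordinates on the two
parts of the complement of the negative section, and these functions are regular, separate the
points and contain a local parameter at every point. -/
structure HirEmb (k : Type) {F : Type} [Field k] [Field F] [Algebra k F] (n : ℕ) (x y : F) :
    Prop where
  curve : IsCurve k F
  transc : Transcendental k x
  gen : adjoin k {x, y} = ⊤
  reg : ∀ v : Place k F, x ∈ v.ring → y ∈ v.ring
  reg_infty : ∀ v : Place k F, x ∉ v.ring → y / x ^ n ∈ v.ring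
  inj : ∀ (v w : Place k F) (c d : k), v.At x c → w.At x c → v.At y d → w.At y d → v = w
  inj_infty : ∀ (v w : Place k F) (d : k), x ∉ v.ring → x ∉ w.ring → v.At (y / x ^ n) d →
    w.At (y / x ^ n) d → v = w
  imm : ∀ (v : Place k F) (c d : k), v.At x c → v.At y d →
    IsUnif v (x - algebraMap k F c) ∨ IsUnif v (y - algebraMap k F d)
  imm_infty : ∀ (v : Place k F) (d : k), x ∉ v.ring → v.At (y / x ^ n) d →
    IsUnif v x⁻¹ ∨ IsUnif v (y / x ^ n - algebraMap k F d)

section

variable {k F M : Type} [Field k] [IsAlgClosed k] [CharZero k] [Field F] [Algebra k F] [Field M]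
  [Algebra k M] {t : M} {φ : F →ₐ[k] M} {x : F} [FiniteDimensional (adjoin k {t}) M]
  [IsGalois (adjoin k {t}) M] {π : Place k M → Place k F}

/-- the order of the difference of two conjugates -/
theorem diff_ord_ite (hF : IsCurve k F) (ht : Transcendental k t) (hx : φ x = t)
    (hπ : ∀ V, V.ring.comap (φ : F →+* M) = (π V).ring) {σ : M ≃ₐ[adjoin k {t}] M}
    (hσ : σ ∉ fixf t φ) {V : Place k M} {T Y : F}
    (hT : ∀ τ : M ≃ₐ[adjoin k {t}] M, τ (φ T) = φ T) {d d' : k} (hd : (π V).At Y d)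
    (hd' : (π (gact (adjoin k {t}) σ V)).At Y d')
    (hinj : d = d' → π (gact (adjoin k {t}) σ V) = π V)
    (hu : IsUnif (π V) T ∨ IsUnif (π V) (Y - algebraMap k F d)) {ϖ : F} (hϖ : IsUnif (π V) ϖ)
    {e : ℤ} (he : HasOrd V (φ ϖ) e) : HasOrd V (φ Y - σ⁻¹ (φ Y))
      (if π (gact (adjoin k {t}) σ V) = π V then e else 0) := by
  have hM : IsCurve k M := ⟨t, ht, inferInstance⟩
  split_ifs with h
  · exact diff_ord hF ht hx hπ hσ h hT hu hϖ he
  · have h1 : V.At (φ Y) d := (comap_at (hπ V) Y d).2 hd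
    have h2 : (gact (adjoin k {t}) σ V).At (φ Y) d' := (comap_at (hπ _) Y d').2 hd'
    rw [gact, Place.at_map] at h2
    have h3 : V.At (φ Y - σ⁻¹ (φ Y)) (d - d') := h1.sub h2
    have h4 : d - d' ≠ 0 := sub_ne_zero.2 fun h5 => h (hinj h5)
    exact ord_unit_of_mem hM h3.mem (h3.inv h4).mem

end

variable {k F : Type} [Field k] [IsAlgClosed k] [CharZero k] [Field F] [Algebra k F]

/-- **The cycle of Faber and Pandharipande is torsion for the smooth curves on a Hirzebruch
surface which do not meet the negative section.** -/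
theorem fpTor_hir {n : ℕ} (hn : 0 < n) {x y : F} (h : HirEmb k n x y) : FPTor k F := by
  have hF := h.curve
  have hfin := fin_adjoin hF h.transc
  obtain ⟨Ω, _, _, tt, hΩ⟩ := exists_algFun k
  obtain ⟨M, _, _, t, φ, -, ht, _, _, hx, -⟩ := exists_galois hΩ h.transc h.transc hfin hfin
  have hM : IsCurve k M := ⟨t, ht, inferInstance⟩
  obtain ⟨π, hπ⟩ := exists_proj hF hM φ
  have ht' : Transcendental k t⁻¹ := fun h => ht (by simpa using h.inv)
  obtain ⟨V₀, hV₀⟩ := exists_place ht' (0 : k)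
  have hV₀t : t ∉ V₀.ring := by
    rw [Place.at_zero_iff, Place.vanishes_iff_or, inv_inv] at hV₀
    rcases hV₀ with h | h
    · exact absurd (inv_eq_zero.1 h) (transc_ne ht)
    · exact h
  have htσ : ∀ σ : M ≃ₐ[adjoin k {t}] M, σ t = t := fun σ =>
    σ.commutes ⟨t, mem_adjoin_simple_self k t⟩
  have hcσ : ∀ (σ : M ≃ₐ[adjoin k {t}] M) (c : k), σ (algebraMap k M c) = algebraMap k M c := by
    intro σ c
    rw [IsScalarTower.algebraMap_apply k (adjoin k {t}) M]
    exact σ.commutes _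
  have hmem : ∀ (σ : M ≃ₐ[adjoin k {t}] M) (v : Place k M),
      t ∈ (gact (adjoin k {t}) σ v).ring ↔ t ∈ v.ring := by
    intro σ v
    rw [gact, Place.mem_map]
    change (σ⁻¹ : M ≃ₐ[adjoin k {t}] M) t ∈ _ ↔ _
    rw [htσ]
  have hmemx : ∀ v : Place k M, x ∈ (π v).ring ↔ t ∈ v.ring := by
    intro v
    rw [← comap_mem (hπ v), hx]
  -- the functions
  have h0 : ∀ σ : M ≃ₐ[adjoin k {t}] M, σ ∉ fixf t φ → φ y - σ⁻¹ (φ y) ≠ 0 := by
    intro σ hσ h1
    apply hσ
    rw [mem_fixf]
    have h2 : σ (φ y) = φ y := by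
      have h3 := congrArg σ (sub_eq_zero.1 h1)
      rwa [← AlgEquiv.mul_apply, mul_inv_cancel, AlgEquiv.one_apply] at h3
    have h3 : ∀ f ∈ adjoin k {x, y}, σ (φ f) = φ f := by
      intro f hf
      induction hf using adjoin_induction with
      | mem z hz =>
        rcases hz with rfl | rfl
        · rw [hx, htσ]
        · exact h2
      | algebraMap c => rw [AlgHom.commutes, hcσ]
      | add a b _ _ ha hb => rw [map_add, map_add, ha, hb]
      | inv a _ ha => rw [map_inv₀, map_inv₀, ha]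
      | mul a b _ _ ha hb => rw [map_mul, map_mul, ha, hb]
    intro f
    exact h3 f (by rw [h.gen]; exact mem_top)
  have hex : ∀ σ : M ≃ₐ[adjoin k {t}] M, ∃ D : Place k M →₀ ℤ, σ ∉ fixf t φ →
      ∀ v, HasOrd v (φ y - σ⁻¹ (φ y)) (D v) := by
    intro σ
    by_cases hσ : σ ∈ fixf t φ
    · exact ⟨0, fun h => absurd hσ h⟩
    · obtain ⟨D, hD⟩ := exists_div hM (h0 σ hσ)
      exact ⟨D, fun _ => hD⟩
  choose D hD using hex
  obtain ⟨D', hD'⟩ := exists_div hM (transc_ne ht')
  have hP := orb_zeros ht' (by rw [adjoin_inv]) (E := adjoin k {t}) (V := V₀)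
    (inv_at_zero hV₀t) hD'
  have hL : ∀ σ, σ ∉ fixf t φ → ∀ (v : Place k M) (ϖ : F) (e : ℤ), IsUnif (π v) ϖ →
      HasOrd v (φ ϖ) e → (D σ + (n : ℤ) • orb (adjoin k {t}) V₀) v =
        if π (gact (adjoin k {t}) σ v) = π v then e else 0 := by
    intro σ hσ v ϖ e hϖ he
    rw [Finsupp.add_apply, Finsupp.smul_apply, smul_eq_mul]
    by_cases htv : t ∈ v.ring
    · -- the finite points
      have htw : t ∈ (gact (adjoin k {t}) σ v).ring := (hmem σ v).2 htv
      obtain ⟨c, hc⟩ := exists_at hM v htv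
      have hc1 : (π v).At x c := by
        rw [← comap_at (hπ v), hx]
        exact hc
      have hc2 : (π (gact (adjoin k {t}) σ v)).At x c := by
        rw [← comap_at (hπ _), hx, gact, Place.at_map]
        change v.At ((σ⁻¹ : M ≃ₐ[adjoin k {t}] M) t) c
        rwa [htσ]
      obtain ⟨d, hd⟩ := exists_at hF (π v) (h.reg _ hc1.mem)
      obtain ⟨d', hd'⟩ := exists_at hF (π (gact (adjoin k {t}) σ v)) (h.reg _ hc2.mem)
      have h1 := diff_ord_ite hF ht hx hπ hσ (T := x - algebraMap k F c) (fun τ => by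
        rw [map_sub, hx, AlgHom.commutes, map_sub, htσ, hcσ]) hd hd'
        (fun h2 => h.inj _ _ c d hc2 hc1 (by rwa [h2]) hd) (h.imm _ c d hc1 hd) hϖ he
      have h2 : orb (adjoin k {t}) V₀ v = 0 := by
        have h3 := ord_inv (hD' v)
        rw [inv_inv] at h3
        have h4 := ord_nonneg h3 (transc_ne ht) htv
        rw [hP, max_eq_right (by omega)]
      rw [h2, mul_zero, add_zero]
      exact hasOrd_unique hM (h0 σ hσ) (hD σ hσ v) h1
    · -- the points at infinity
      have htw : t ∉ (gact (adjoin k {t}) σ v).ring := fun h1 => htv ((hmem σ v).1 h1)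
      have hx1 : x ∉ (π v).ring := fun h1 => htv ((hmemx _).1 h1)
      have hx2 : x ∉ (π (gact (adjoin k {t}) σ v)).ring := fun h1 => htw ((hmemx _).1 h1)
      obtain ⟨d, hd⟩ := exists_at hF (π v) (h.reg_infty _ hx1)
      obtain ⟨d', hd'⟩ := exists_at hF (π (gact (adjoin k {t}) σ v)) (h.reg_infty _ hx2)
      have h1 := diff_ord_ite hF ht hx hπ hσ (T := x⁻¹) (fun τ => by
        rw [map_inv₀, hx, map_inv₀, htσ]) hd hd'
        (fun h2 => h.inj_infty _ _ d hx2 hx1 (by rwa [h2]) hd) (h.imm_infty _ d hx1 hd) hϖ he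
      have h3 := ord_inv (hD' v)
      rw [inv_inv] at h3
      have h4 := ord_neg_of_notMem h3 htv
      have h5 : orb (adjoin k {t}) V₀ v = D' v := by
        rw [hP, max_eq_left (by omega)]
      have h6 := ord_mul (ord_pow h3 n) h1
      have h7 : t ^ n * (φ (y / x ^ n) - σ⁻¹ (φ (y / x ^ n))) = φ y - σ⁻¹ (φ y) := by
        have ht0 : t ^ n ≠ 0 := pow_ne_zero _ (transc_ne ht)
        rw [map_div₀, map_pow, hx, map_div₀, map_pow, htσ, mul_sub, mul_div_cancel₀ _ ht0,
          mul_div_cancel₀ _ ht0]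
      rw [h7] at h6
      rw [h5, hasOrd_unique hM (h0 σ hσ) (hD σ hσ v) h6]
      ring
  have hdiag : ∀ σ, σ ∉ fixf t φ → ∀ v, (D σ + (n : ℤ) • orb (adjoin k {t}) V₀) v ≠ 0 →
      π (gact (adjoin k {t}) σ v) = π v := by
    intro σ hσ v hv
    obtain ⟨ϖ, hϖ⟩ := exists_unif hF (π v)
    obtain ⟨e, he⟩ := exists_hasOrd hM v ((_root_.map_ne_zero φ).2 hϖ.1)
    by_contra h1
    apply hv
    rw [hL σ hσ v ϖ e hϖ he, if_neg h1]
  obtain ⟨K, hK⟩ := exists_can hF h.transc
  have h1 := fp_fibre hM hx hπ h0 hD hdiag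
  have h2 := can_fibre hF ht hx hπ hK hV₀t hL
  set N := finrank φ.fieldRange M with hN
  set c : ℤ := n * ((fixf t φ)ᶜ.card : ℤ) - 2 * N with hc
  set PF := (orb (adjoin k {t}) V₀).mapDomain π with hPF
  have hN0 : 0 < N := by
    obtain ⟨h3, -⟩ := galois_range (t := t) inferInstance inferInstance φ hx
    exact finrank_pos
  have h3 : unq (((N : ℤ) ^ 2) • K - c • PF) ∈ RatEq (k := k) fun _ : Unit => F := by
    rw [h2, add_sub_cancel_right, map_sum]
    exact sum_mem fun σ hσ => pi_mem hM hπ (h0 σ (Finset.mem_compl.1 hσ))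
      (hD σ (Finset.mem_compl.1 hσ))
  obtain ⟨m, hm, h4⟩ := fp_equiv h3
  intro K' hK'
  refine fp_canonical hF ⟨x, h.transc, hK⟩ hK' ?_
  refine ⟨n * m * (N ^ 2) ^ 2, by positivity, ?_⟩
  have h5 : (n * m * (N ^ 2) ^ 2) • fp K =
      n • m • (((N : ℤ) ^ 2) ^ 2 • fp K - c ^ 2 • fp PF) + (m * c ^ 2) • (n : ℤ) • fp PF := by
    rw [← natCast_zsmul, ← natCast_zsmul, ← natCast_zsmul (n := m)]
    push_cast
    module
  rw [h5]
  exact add_mem (nsmul_mem h4 _) (zsmul_mem h1 _)

end Pool.Agent.FPZ
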