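import Pool.Agent.FPZ.Hir8

/-!
# The cycle of Faber and Pandharipande of a smooth curve on a Hirzebruch surface
-/

set_option autoImplicit false

noncomputable section

namespace Pool.Agent.FPZ

open Pool.Agent.ZCyc Pool.Agent.Dess Pool.Agent.Dess4 Polynomial

/-- `F` is the function field of a smooth curve on the Hirzebruch surface `F_n` which does not meet
the negative section: `y ^ a + c_1(x) y ^ (a - 1) + ... + c_a(x) = 0`, where the degree of the
polynomial `c_i` is at most `n i`. The curve is smooth: the coordinate rings `k[x, y]` and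
`k[1 / x, y / x ^ n]` of its two affine parts are integrally closed. -/
structure HirCurve (k : Type) {F : Type} [Field k] [Field F] [Algebra k F] (n : ℕ) (x y : F) :
    Prop where
  curve : IsCurve k F
  transc : Transcendental k x
  gen : IntermediateField.adjoin k {x, y} = ⊤
  eq : ∃ (a : ℕ) (c : ℕ → k[X]), (∀ i, (c i).natDegree ≤ n * i) ∧
    y ^ a + ∑ i ∈ Finset.Icc 1 a, aeval x (c i) * y ^ (a - i) = 0
  smooth : IsIntegrallyClosed (Algebra.adjoin k {x, y})
  smooth_infty : IsIntegrallyClosed (Algebra.adjoin k {x⁻¹, y / x ^ n})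

variable {k F : Type} [Field k] [IsAlgClosed k] [CharZero k] [Field F] [Algebra k F]

omit [IsAlgClosed k] [CharZero k] in
theorem aeval_mem {v : Place k F} {x : F} (hx : x ∈ v.ring) (p : k[X]) : aeval x p ∈ v.ring := by
  rw [aeval_eq_sum_range]
  apply sum_mem
  intro i _
  rw [Algebra.smul_def]
  exact mul_mem (v.const_mem _) (pow_mem hx i)

omit [IsAlgClosed k] [CharZero k] in
theorem aeval_div_mem {v : Place k F} {x : F} (hx0 : x ≠ 0) (hx : x⁻¹ ∈ v.ring) {p : k[X]}
    {m : ℕ} (hp : p.natDegree ≤ m) : aeval x p / x ^ m ∈ v.ring := by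
  rw [aeval_eq_sum_range' (Nat.lt_succ_of_le hp), Finset.sum_div]
  apply sum_mem
  intro i hi
  have hi' : i ≤ m := Nat.lt_succ_iff.1 (Finset.mem_range.1 hi)
  have h1 : p.coeff i • x ^ i / x ^ m = algebraMap k F (p.coeff i) * x⁻¹ ^ (m - i) := by
    have h2 : x ^ m = x ^ (m - i) * x ^ i := by rw [← pow_add, Nat.sub_add_cancel hi']
    rw [Algebra.smul_def, h2, inv_pow]
    have := pow_ne_zero i hx0
    field_simp
  rw [h1]
  exact mul_mem (v.const_mem _) (pow_mem hx _)

theorem HirCurve.emb {n : ℕ} {x y : F} (h : HirCurve k n x y) : HirEmb k n x y := by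
  have hF := h.curve
  have hx0 : x ≠ 0 := transc_ne h.transc
  have hxi : Transcendental k x⁻¹ := fun h1 => h.transc (by simpa using h1.inv)
  obtain ⟨a, c, hc, heq⟩ := h.eq
  have hgen' : IntermediateField.adjoin k {x⁻¹, y / x ^ n} = ⊤ := by
    rw [eq_top_iff, ← h.gen, IntermediateField.adjoin_le_iff]
    have h1 : x⁻¹ ∈ IntermediateField.adjoin k {x⁻¹, y / x ^ n} :=
      IntermediateField.subset_adjoin _ _ (by simp)
    have h2 : y / x ^ n ∈ IntermediateField.adjoin k {x⁻¹, y / x ^ n} :=
      IntermediateField.subset_adjoin _ _ (by simp)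
    have h3 : x ∈ IntermediateField.adjoin k {x⁻¹, y / x ^ n} := by
      have := inv_mem h1
      rwa [inv_inv] at this
    have h4 : y ∈ IntermediateField.adjoin k {x⁻¹, y / x ^ n} := by
      have := mul_mem h2 (pow_mem h3 n)
      rwa [div_mul_cancel₀ _ (pow_ne_zero _ hx0)] at this
    rintro z (rfl | hz)
    · exact h3
    · rw [Set.mem_singleton_iff.1 hz]
      exact h4
  have hcl : ∀ b, IsIntegral (Algebra.adjoin k {x}) b → b ∈ Algebra.adjoin k {x, y} :=
    fun b hb => closed_mem h.gen h.smooth hb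
  have hcl' : ∀ b, IsIntegral (Algebra.adjoin k {x⁻¹}) b →
      b ∈ Algebra.adjoin k {x⁻¹, y / x ^ n} :=
    fun b hb => closed_mem hgen' h.smooth_infty hb
  have hinf : ∀ v : Place k F, x ∉ v.ring → v.At x⁻¹ 0 := fun v hv => inv_at_zero hv
  refine ⟨hF, h.transc, h.gen, ?_, ?_, ?_, ?_, ?_, ?_⟩
  · intro v hv
    exact monic_mem (fun i _ => aeval_mem hv (c i)) heq
  · intro v hv
    refine monic_mem (a := a) (b := fun i => aeval x (c i) / x ^ (n * i))
      (fun i _ => aeval_div_mem hx0 (hinf v hv).mem (hc i)) ?_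
    have h1 : (y / x ^ n) ^ a + ∑ i ∈ Finset.Icc 1 a,
        aeval x (c i) / x ^ (n * i) * (y / x ^ n) ^ (a - i) =
        (y ^ a + ∑ i ∈ Finset.Icc 1 a, aeval x (c i) * y ^ (a - i)) / (x ^ n) ^ a := by
      rw [add_div, Finset.sum_div, div_pow]
      congr 1
      refine Finset.sum_congr rfl fun i hi => ?_
      rw [Finset.mem_Icc] at hi
      have h2 : (x ^ n) ^ a = x ^ (n * i) * (x ^ n) ^ (a - i) := by
        rw [pow_mul, ← pow_add, Nat.add_sub_cancel' hi.2]
      rw [h2, div_pow, div_mul_div_comm]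
    rw [h1, heq, zero_div]
  · intro v w c d h1 h2 h3 h4
    exact aff_inj hF h.transc hcl h1 h2 h3 h4
  · intro v w d h1 h2 h3 h4
    exact aff_inj hF hxi hcl' (hinf v h1) (hinf w h2) h3 h4
  · intro v c d h1 h2
    exact aff_imm hF h.transc hcl h1 h2
  · intro v d h1 h2
    have h3 := aff_imm hF hxi hcl' (hinf v h1) h2
    rwa [map_zero, sub_zero] at h3

/-- **The cycle of Faber and Pandharipande is torsion for the smooth curves on a Hirzebruch
surface which do not meet the negative section.** -/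
theorem fpTor_hirCurve {n : ℕ} (hn : 0 < n) {x y : F} (h : HirCurve k n x y) : FPTor k F :=
  fpTor_hir hn h.emb

end Pool.Agent.FPZ
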