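import Pool.Agent.FPZ.Deg
import Pool.Agent.Dess4.Local

/-!
# The push-forward of the divisor of zeros
-/

set_option autoImplicit false

noncomputable section

namespace Pool.Agent.FPZ

open Pool.Agent.ZCyc Pool.Agent.Dess Pool.Agent.Dess4 Polynomial Module
open scoped Classical

variable {k F M : Type} [Field k] [Field F] [Algebra k F] [Field M] [Algebra k M]

/-! ### orders -/

theorem ord_of_unif {v : Place k F} {π : F} (hπ : IsUnif v π) {g : F} {n : ℤ}
    (h1 : g / π ^ n ∈ v.ring) (h2 : (g / π ^ n)⁻¹ ∈ v.ring) : HasOrd v g n := ⟨π, hπ, h1, h2⟩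

/-- every function has an order -/
theorem exists_hasOrd [IsAlgClosed k] [CharZero k] (hF : IsCurve k F) (v : Place k F) {g : F}
    (hg : g ≠ 0) : ∃ n : ℤ, HasOrd v g n := by
  obtain ⟨π, hπ⟩ := exists_unif hF v
  obtain ⟨n, h1, h2⟩ := exists_ord hF v hπ hg
  exact ⟨n, π, hπ, h1, h2⟩

theorem ord_unit_of_mem [IsAlgClosed k] [CharZero k] (hF : IsCurve k F) {v : Place k F} {g : F}
    (h1 : g ∈ v.ring) (h2 : g⁻¹ ∈ v.ring) : HasOrd v g 0 := by
  obtain ⟨π, hπ⟩ := exists_unif hF v
  refine ⟨π, hπ, ?_, ?_⟩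
  · rwa [zpow_zero, div_one]
  · rwa [zpow_zero, div_one]

/-- the divisor of a function -/
theorem exists_div [IsAlgClosed k] [CharZero k] (hF : IsCurve k F) {g : F} (hg : g ≠ 0) :
    ∃ D : Place k F →₀ ℤ, ∀ v, HasOrd v g (D v) := by
  by_cases hc : ∃ c : k, g = algebraMap k F c
  · obtain ⟨c, rfl⟩ := hc
    refine ⟨0, fun v => ord_unit_of_mem hF (v.const_mem c) ?_⟩
    rw [← map_inv₀]
    exact v.const_mem _
  · push Not at hc
    have hgt : Transcendental k g := deg_transc hc
    choose n hn using fun v => exists_hasOrd hF v hg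
    have hfin : {v : Place k F | n v ≠ 0}.Finite := by
      refine ((finite_at hF hgt 0).union (finite_pole hF hgt)).subset ?_
      intro v hv
      by_contra hcon
      apply hv
      have h1 : ¬ v.At g 0 ∧ g ∈ v.ring := by
        constructor
        · exact fun h => hcon (Or.inl h)
        · by_contra h
          exact hcon (Or.inr h)
      have h2 : g⁻¹ ∈ v.ring := by
        by_contra h
        apply h1.1
        rw [Place.at_zero_iff, Place.vanishes_iff_or]
        exact Or.inr h
      exact hasOrd_unique hF hg (hn v) (ord_unit_of_mem hF h1.2 h2)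
    refine ⟨Finsupp.ofSupportFinite n hfin, fun v => ?_⟩
    exact hn v

/-- the degree of the zeros of a function is the degree of the field extension -/
theorem zeros_finrank [IsAlgClosed k] [CharZero k] (hF : IsCurve k F) {g : F} (hg : g ≠ 0)
    (hgt : Transcendental k g) {D : Place k F →₀ ℤ} (hD : ∀ v, HasOrd v g (D v))
    {S : Finset (Place k F)} (hS : ∀ v, 0 < D v → v ∈ S) :
    ∑ v ∈ S, (D v).toNat = finrank (IntermediateField.adjoin k {g}) F := by
  rw [← deg_zeros hF hg hgt (S ∪ D.support) D (fun v _ => hD v) (fun v hv => by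
    have h1 : D v = 0 := by
      by_contra h
      exact hv (Finset.mem_union_right _ (Finsupp.mem_support_iff.2 h))
    rw [← h1]
    exact hD v)]
  apply Finset.sum_subset Finset.subset_union_left
  intro v _ hv
  have : ¬ 0 < D v := fun h => hv (hS v h)
  omega

/-! ### the places above a place -/

/-- the order of the pull-back -/
theorem ord_pull {v : Place k F} {V : Place k M} {φ : F →ₐ[k] M}
    (hV : V.ring.comap (φ : F →+* M) = v.ring) {π : F} (hπ : IsUnif v π) {e : ℤ}
    (he : HasOrd V (φ π) e) {g : F} {n : ℤ} (hg : HasOrd v g n) : HasOrd V (φ g) (n * e) := by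
  obtain ⟨h1, h2⟩ := deg_ord hπ hg
  obtain ⟨ϖ, hϖ, h3, h4⟩ := he
  have hmem : ∀ x : F, x ∈ v.ring → φ x ∈ V.ring := by
    intro x hx
    rw [← hV] at hx
    exact ValuationSubring.mem_comap.1 hx
  have h5 := hmem _ h1
  have h6 := hmem _ h2
  have h7 : ∀ m : ℤ, (φ π / ϖ ^ e) ^ m ∈ V.ring := by
    intro m
    obtain ⟨l, rfl | rfl⟩ := Int.eq_nat_or_neg m
    · rw [zpow_natCast]
      exact pow_mem h3 _
    · rw [zpow_neg, zpow_natCast, ← inv_pow]
      exact pow_mem h4 _
  have hϖ0 := hϖ.1
  have hπ0 : φ π ≠ 0 := (map_ne_zero φ).2 hπ.1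
  have e1 : φ g / ϖ ^ (n * e) = φ (g / π ^ n) * (φ π / ϖ ^ e) ^ n := by
    rw [map_div₀, map_zpow₀, div_zpow, ← zpow_mul, mul_comm e n]
    have := zpow_ne_zero n hπ0
    have := zpow_ne_zero (n * e) hϖ0
    field_simp
  refine ⟨ϖ, hϖ, ?_, ?_⟩
  · rw [e1]
    exact mul_mem h5 (h7 n)
  · rw [e1, mul_inv, ← zpow_neg, ← map_inv₀]
    exact mul_mem h6 (h7 _)

/-- the tower law -/
theorem finrank_tower (φ : F →ₐ[k] M) (g : F) :
    finrank (IntermediateField.adjoin k {φ g}) M =
      finrank (IntermediateField.adjoin k {g}) F *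
        @finrank F M _ _ (φ : F →+* M).toAlgebra.toModule := by
  letI : Algebra F M := (φ : F →+* M).toAlgebra
  letI : Algebra (IntermediateField.adjoin k {g}) M :=
    ((φ : F →+* M).comp (algebraMap (IntermediateField.adjoin k {g}) F)).toAlgebra
  haveI : IsScalarTower (IntermediateField.adjoin k {g}) F M := IsScalarTower.of_algebraMap_eq'
    rfl
  have h1 := Module.finrank_mul_finrank (IntermediateField.adjoin k {g}) F M
  rw [h1]
  let e₁ : IntermediateField.adjoin k {g} ≃ₐ[k] (IntermediateField.adjoin k {g}).map φ :=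
    (IntermediateField.adjoin k {g}).equivMap φ
  have e₂ : (IntermediateField.adjoin k {g}).map φ = IntermediateField.adjoin k {φ g} := by
    rw [IntermediateField.adjoin_map, Set.image_singleton]
  let e := e₁.trans (IntermediateField.equivOfEq e₂)
  symm
  refine Algebra.finrank_eq_of_equiv_equiv e.toRingEquiv (RingEquiv.refl M) ?_
  ext y
  rfl

/-- the function `g` has a zero at `v` if and only if its order is positive -/
theorem ord_pos_iff {v : Place k F} {g : F} (hg : g ≠ 0) {n : ℤ} (h : HasOrd v g n) :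
    0 < n ↔ g⁻¹ ∉ v.ring := by
  rw [deg_sign hg h, not_le]

/-- the fibre of a point, and the sum of the ramification indices -/
theorem fibre_sum [IsAlgClosed k] [CharZero k] (hF : IsCurve k F) (hM : IsCurve k M)
    (φ : F →ₐ[k] M) (π : Place k M → Place k F)
    (hπ : ∀ V, V.ring.comap (φ : F →+* M) = (π V).ring) (v : Place k F) :
    ∃ S : Finset (Place k M), (∀ V, V ∈ S ↔ π V = v) ∧
      ∀ (ϖ : F) (e : Place k M → ℤ), IsUnif v ϖ → (∀ V ∈ S, HasOrd V (φ ϖ) (e V)) →
        ∑ V ∈ S, e V = @finrank F M _ _ (φ : F →+* M).toAlgebra.toModule := by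
  obtain ⟨w, hwt, hw⟩ := exists_single_pole hF v
  have hw0 : w ≠ 0 := by
    rintro rfl
    exact hwt isAlgebraic_zero
  have hwv : w ∉ v.ring := by
    intro h
    obtain ⟨a, ha⟩ := deg_const hF (f := w) (fun u => by
      by_cases hu : u = v
      · rw [hu]
        exact h
      · exact hw u hu)
    apply hwt
    rw [ha]
    exact isAlgebraic_algebraMap a
  have hwiff : ∀ u, w ∉ u.ring ↔ u = v := by
    intro u
    constructor
    · intro h
      by_contra hu
      exact h (hw u hu)
    · rintro rfl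
      exact hwv
  set g := w⁻¹ with hg
  have hg0 : g ≠ 0 := inv_ne_zero hw0
  have hginv : g⁻¹ = w := by rw [hg, inv_inv]
  have hgt : Transcendental k g := by
    intro h
    apply hwt
    rw [← hginv]
    exact h.inv
  have hφg0 : φ g ≠ 0 := (map_ne_zero φ).2 hg0
  have hφgt : Transcendental k (φ g) := by
    intro h
    exact hgt ((isAlgebraic_algHom_iff φ φ.injective).mp h)
  obtain ⟨D, hD⟩ := exists_div hF hg0
  obtain ⟨D', hD'⟩ := exists_div hM hφg0
  have hDpos : ∀ u, 0 < D u ↔ u = v := by
    intro u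
    rw [ord_pos_iff hg0 (hD u), hginv, hwiff]
  have hD'pos : ∀ V, 0 < D' V ↔ π V = v := by
    intro V
    rw [ord_pos_iff hφg0 (hD' V), ← map_inv₀, hginv, comap_mem (hπ V), hwiff]
  refine ⟨D'.support.filter (fun V => 0 < D' V), ?_, ?_⟩
  · intro V
    rw [Finset.mem_filter, Finsupp.mem_support_iff, ← hD'pos]
    constructor
    · exact fun h => h.2
    · exact fun h => ⟨h.ne', h⟩
  · intro ϖ e hϖ he
    have h1 := zeros_finrank hF hg0 hgt hD (S := {v}) (by
      intro u hu
      rw [Finset.mem_singleton]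
      exact (hDpos u).1 hu)
    have h2 := zeros_finrank hM hφg0 hφgt hD' (S := D'.support.filter (fun V => 0 < D' V)) (by
      intro V hV
      rw [Finset.mem_filter, Finsupp.mem_support_iff]
      exact ⟨hV.ne', hV⟩)
    rw [Finset.sum_singleton] at h1
    rw [finrank_tower, ← h1] at h2
    have hn : 0 < D v := (hDpos v).2 rfl
    have h3 : ∀ V ∈ D'.support.filter (fun V => 0 < D' V), ((D' V).toNat : ℤ) = D v * e V := by
      intro V hV
      have hV' := (Finset.mem_filter.1 hV).2
      have hVv := (hD'pos V).1 hV'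
      have h4 : HasOrd V (φ g) (D v * e V) := by
        refine ord_pull (v := v) (by rw [hπ, hVv]) hϖ (he V hV) ?_
        exact hD v
      rw [← hasOrd_unique hM hφg0 (hD' V) h4]
      omega
    have h5 : (∑ V ∈ D'.support.filter (fun V => 0 < D' V), ((D' V).toNat : ℤ)) =
        D v * ∑ V ∈ D'.support.filter (fun V => 0 < D' V), e V := by
      rw [Finset.mul_sum]
      exact Finset.sum_congr rfl h3
    have h6 : ((D v).toNat : ℤ) = D v := Int.toNat_of_nonneg hn.le
    have h7 : (∑ V ∈ D'.support.filter (fun V => 0 < D' V), ((D' V).toNat : ℤ)) =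
        ((D v).toNat : ℤ) * (@finrank F M _ _ (φ : F →+* M).toAlgebra.toModule : ℤ) := by
      exact_mod_cast h2
    rw [h6, h5] at h7
    exact mul_left_cancel₀ hn.ne' h7

end Pool.Agent.FPZ
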