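import Pool.Agent.FPZ.Can
import Pool.Agent.FPZ.Push
import Pool.Agent.FPZ.Neg
import Pool.Agent.Dess4.Bel

/-!
# Function fields of hyperelliptic curves
-/

set_option autoImplicit false

noncomputable section

namespace Pool.Agent.FPZ

open Pool.Agent.ZCyc Pool.Agent.Dess Pool.Agent.Dess4 Polynomial IntermediateField Module
open scoped Classical

section Orders

variable {k F : Type} [Field k] [Field F] [Algebra k F]

theorem ord_mul {v : Place k F} {a b : F} {m n : ℤ} (ha : HasOrd v a m) (hb : HasOrd v b n) :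
    HasOrd v (a * b) (m + n) := by
  obtain ⟨π, hπ, h1, h2⟩ := ha
  obtain ⟨h3, h4⟩ := deg_ord hπ hb
  have e : a * b / π ^ (m + n) = a / π ^ m * (b / π ^ n) := by
    rw [zpow_add₀ hπ.1, mul_div_mul_comm]
  refine ⟨π, hπ, ?_, ?_⟩
  · rw [e]
    exact mul_mem h1 h3
  · rw [e, mul_inv]
    exact mul_mem h2 h4

/-- a function of positive order vanishes -/
theorem ord_vanishes {v : Place k F} {a : F} {m : ℤ} (ha : HasOrd v a m) (hm : 0 < m) :
    v.Vanishes a := by
  obtain ⟨π, hπ, h1, h2⟩ := ha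
  obtain ⟨l, hl⟩ := Int.eq_ofNat_of_zero_le hm.le
  have hl0 : l ≠ 0 := by omega
  have e : a = π ^ l * (a / π ^ m) := by
    rw [hl, zpow_natCast]
    have := pow_ne_zero l hπ.1
    field_simp
  rw [e]
  exact (hπ.2.1.pow v hl0).mul v h1

/-- the order of a sum -/
theorem ord_add {v : Place k F} {a b : F} {m n : ℤ} (ha0 : a ≠ 0) (ha : HasOrd v a m)
    (hb : HasOrd v b n) (hmn : m < n) : HasOrd v (a + b) m := by
  have h1 : HasOrd v (b * a⁻¹) (n + -m) := ord_mul hb (ord_inv ha)
  have h2 : v.Vanishes (b * a⁻¹) := ord_vanishes h1 (by omega)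
  have h3 : v.At (1 + b * a⁻¹) (1 : k) := by
    have := (at_one (k := k) v).add (Place.at_zero_iff.2 h2)
    rwa [add_zero] at this
  have h4 : a + b = a * (1 + b * a⁻¹) := by
    field_simp
  rw [h4]
  exact ord_mul_unit ha h3.mem (h3.inv one_ne_zero).mem

end Orders

variable {k F : Type} [Field k] [IsAlgClosed k] [CharZero k] [Field F] [Algebra k F]

omit [IsAlgClosed k] [CharZero k] in
theorem aeval_mem_adj (f : k[X]) (x : F) : aeval x f ∈ adjoin k {x} :=
  algebra_adjoin_le_adjoin k {x} (aeval_mem_adjoin_singleton k x)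

namespace HypField

variable {f : k[X]} {x y : F}

omit [IsAlgClosed k] [CharZero k] in
theorem top (h : HypField f x y) : adjoin (adjoin k {x}) {y} = ⊤ := by
  have h1 := adjoin_simple_adjoin_simple k x y
  have h2 : (adjoin (adjoin k {x}) {y}).restrictScalars k = ⊤ := by
    rw [h1, h.gen]
  rw [eq_top_iff]
  intro z _
  have h3 : z ∈ (adjoin (adjoin k {x}) {y}).restrictScalars k := by
    rw [h2]
    exact mem_top
  exact h3

omit [IsAlgClosed k] [CharZero k] in
theorem notMem (h : HypField f x y) (hodd : Odd f.natDegree) : y ∉ adjoin k {x} := by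
  intro hy
  obtain ⟨r, hr⟩ := (RatFunc.algEquivOfTranscendental x h.transc).surjective ⟨y, hy⟩
  have hyr : y = aeval x r.num / aeval x r.denom := by
    have := RatFunc.algEquivOfTranscendental_apply x h.transc r
    rw [← this, hr]
  have hd0 : aeval x r.denom ≠ 0 := by
    intro h0
    exact r.denom_ne_zero ((transcendental_iff_injective.1 h.transc) (by rw [h0, map_zero]))
  have h1 : aeval x (r.num ^ 2) = aeval x (r.denom ^ 2 * f) := by
    have h2 := h.eq
    rw [hyr, div_pow, div_eq_iff (pow_ne_zero 2 hd0)] at h2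
    rw [map_pow, h2, map_mul, map_pow, mul_comm]
  have h2 : r.num ^ 2 = r.denom ^ 2 * f := (transcendental_iff_injective.1 h.transc) h1
  have hf0 : f ≠ 0 := by
    rintro rfl
    rw [natDegree_zero] at hodd
    exact (by decide : ¬ Odd 0) hodd
  have h3 := congrArg natDegree h2
  rw [natDegree_pow, natDegree_mul (pow_ne_zero 2 r.denom_ne_zero) hf0, natDegree_pow] at h3
  obtain ⟨m, hm⟩ := hodd
  omega

omit [IsAlgClosed k] [CharZero k] in
private theorem root (h : HypField f x y) :
    Polynomial.aeval y (X ^ 2 - C (⟨aeval x f, aeval_mem_adj f x⟩ : adjoin k {x})) = 0 := by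
  rw [map_sub, map_pow, aeval_X, aeval_C, h.eq]
  exact sub_self _

omit [IsAlgClosed k] [CharZero k] in
theorem finrank_eq (h : HypField f x y) (hodd : Odd f.natDegree) :
    finrank (adjoin k {x}) F = 2 := by
  have hint : IsIntegral (adjoin k {x}) y :=
    ⟨_, monic_X_pow_sub_C _ two_ne_zero, by rw [← aeval_def]; exact h.root⟩
  have h1 : (minpoly (adjoin k {x}) y).natDegree ≤ 2 := by
    have h2 := natDegree_le_of_dvd (minpoly.dvd _ _ h.root)
      (monic_X_pow_sub_C _ two_ne_zero).ne_zero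
    rwa [natDegree_X_pow_sub_C] at h2
  have h2 : 2 ≤ (minpoly (adjoin k {x}) y).natDegree := by
    rw [minpoly.two_le_natDegree_iff hint]
    rintro ⟨z, hz⟩
    apply h.notMem hodd
    rw [← hz]
    exact z.2
  have h3 := adjoin.finrank hint
  rw [h.top, finrank_top'] at h3
  omega

omit [IsAlgClosed k] in
/-- the hyperelliptic involution -/
theorem invol (h : HypField f x y) (hodd : Odd f.natDegree) :
    ∃ σ : F ≃ₐ[k] F, σ x = x ∧ σ y = -y := by
  have hq : Algebra.IsQuadraticExtension (adjoin k {x}) F := ⟨h.finrank_eq hodd⟩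
  have hg : IsGalois (adjoin k {x}) F := inferInstance
  have h1 : ∃ σ : F ≃ₐ[adjoin k {x}] F, σ y ≠ y := by
    by_contra hcon
    push Not at hcon
    have h2 := (IsGalois.mem_bot_iff_fixed (F := adjoin k {x}) y).2 hcon
    obtain ⟨z, hz⟩ := mem_bot.1 h2
    apply h.notMem hodd
    rw [← hz]
    exact z.2
  obtain ⟨σ, hσ⟩ := h1
  refine ⟨σ.restrictScalars k, σ.commutes ⟨x, mem_adjoin_simple_self k x⟩, ?_⟩
  have h2 : (σ y) ^ 2 = y ^ 2 := by
    rw [← map_pow, h.eq]
    exact σ.commutes ⟨aeval x f, aeval_mem_adj f x⟩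
  exact (sq_eq_sq_iff_eq_or_eq_neg.1 h2).resolve_left hσ

end HypField

end Pool.Agent.FPZ
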