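import Pool.Agent.FPZ.Hyp
import Pool.Agent.FPZ.Dcov

/-!
# Points and orders on a hyperelliptic curve
-/

set_option autoImplicit false

noncomputable section

namespace Pool.Agent.FPZ

open Pool.Agent.ZCyc Pool.Agent.Dess Pool.Agent.Dess4 Polynomial IntermediateField Module
open scoped Classical

section Orders

variable {k F : Type} [Field k] [Field F] [Algebra k F]

/-- a function of order at least zero is regular -/
theorem ord_mem {v : Place k F} {a : F} {m : ℤ} (ha : HasOrd v a m) (hm : 0 ≤ m) :
    a ∈ v.ring := by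
  obtain ⟨π, hπ, h1, h2⟩ := ha
  obtain ⟨l, hl⟩ := Int.eq_ofNat_of_zero_le hm
  have e : a = π ^ l * (a / π ^ m) := by
    rw [hl, zpow_natCast]
    have := pow_ne_zero l hπ.1
    field_simp
  rw [e]
  exact mul_mem (pow_mem hπ.2.1.mem _) h1

end Orders

variable {k F : Type} [Field k] [IsAlgClosed k] [CharZero k] [Field F] [Algebra k F]

omit [IsAlgClosed k] [CharZero k] in
theorem adjoin_sub (x : F) (c : k) :
    adjoin k {x - algebraMap k F c} = adjoin k {x} := by
  apply le_antisymm
  · rw [adjoin_simple_le_iff]
    exact sub_mem (mem_adjoin_simple_self k x) ((adjoin k {x}).algebraMap_mem c)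
  · rw [adjoin_simple_le_iff]
    have h1 := add_mem (mem_adjoin_simple_self k (x - algebraMap k F c))
      ((adjoin k {x - algebraMap k F c}).algebraMap_mem c)
    rwa [sub_add_cancel] at h1

omit [IsAlgClosed k] [CharZero k] in
theorem adjoin_inv (x : F) : adjoin k {x⁻¹} = adjoin k {x} := by
  apply le_antisymm
  · rw [adjoin_simple_le_iff]
    exact inv_mem (mem_adjoin_simple_self k x)
  · rw [adjoin_simple_le_iff]
    have h1 := inv_mem (mem_adjoin_simple_self k x⁻¹)
    rwa [inv_inv] at h1

namespace HypField

variable {f : k[X]} {x y : F}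

/-- the zeros of a function which generates the field of rational functions -/
theorem zero_bound (h : HypField f x y) (hodd : Odd f.natDegree) {z : F}
    (hz : adjoin k {z} = adjoin k {x}) (hzt : Transcendental k z) {n : Place k F → ℤ}
    (hn : ∀ v, HasOrd v z (n v)) (S : Finset (Place k F)) : ∑ v ∈ S, (n v).toNat ≤ 2 := by
  have hz0 := transc_ne hzt
  obtain ⟨D, hD⟩ := exists_div h.curve hz0
  have e : ∀ v, n v = D v := fun v => hasOrd_unique h.curve hz0 (hn v) (hD v)
  have h1 := zeros_finrank h.curve hz0 hzt hD (S := S ∪ D.support) (fun v hv =>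
    Finset.mem_union_right _ (Finsupp.mem_support_iff.2 hv.ne'))
  rw [hz, h.finrank_eq hodd] at h1
  rw [← h1, Finset.sum_congr rfl fun v _ => by rw [e v]]
  exact Finset.sum_le_sum_of_subset Finset.subset_union_left

theorem at_y (h : HypField f x y) {v : Place k F} {c : k} (hv : v.At x c) :
    ∃ b, v.At y b ∧ b ^ 2 = eval c f := by
  have h1 : v.At (y ^ 2) (eval c f) := by
    rw [h.eq]
    exact hv.aeval f
  have h2 : y ∈ v.ring := mem_of_pow two_pos h1.mem
  obtain ⟨b, hb⟩ := exists_at h.curve v h2
  exact ⟨b, hb, (hb.pow 2).unique h1⟩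

/-- the order of `x - c` -/
theorem ord_x (h : HypField f x y) (hodd : Odd f.natDegree) (hsep : f.Separable) {v : Place k F}
    {c : k} (hv : v.At x c) {m : ℤ} (hm : HasOrd v (x - algebraMap k F c) m) :
    (eval c f ≠ 0 ∧ m = 1) ∨ (eval c f = 0 ∧ m = 2 ∧ HasOrd v y 1) := by
  have hne : x - algebraMap k F c ≠ 0 := transc_ne (transc_sub h.transc c)
  choose n hn using fun v => exists_hasOrd h.curve v hne
  have hb := h.zero_bound hodd (adjoin_sub x c) (transc_sub h.transc c) hn
  have hmn : m = n v := hasOrd_unique h.curve hne hm (hn v)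
  have hpos : 0 < n v := ord_pos (hn v) hne hv
  obtain ⟨b, hvb, hb2⟩ := h.at_y hv
  by_cases hf : eval c f = 0
  · right
    refine ⟨hf, ?_⟩
    obtain ⟨g, hg⟩ := dvd_iff_isRoot.2 (show IsRoot f c from hf)
    have hg0 : eval c g ≠ 0 := by
      intro h0
      obtain ⟨g', hg'⟩ := dvd_iff_isRoot.2 (show IsRoot g c from h0)
      have h1 : (X - C c) * (X - C c) ∣ f := by
        rw [hg, hg']
        exact ⟨g', by ring⟩
      exact (not_isUnit_X_sub_C c) (hsep.squarefree _ h1)
    have h1 : y ^ 2 = (x - algebraMap k F c) * aeval x g := by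
      rw [h.eq, hg, map_mul, map_sub, aeval_X, aeval_C]
    have hgx : HasOrd v (aeval x g) 0 := ord_at h.curve (hv.aeval g) hg0
    have hy0 : y ≠ 0 := by
      rintro rfl
      rw [zero_pow two_ne_zero] at h1
      rcases mul_eq_zero.1 h1.symm with h2 | h2
      · exact hne h2
      · exact transc_ne h.transc (by
          exfalso
          have h3 := hv.aeval g
          rw [h2] at h3
          have h4 := v.at_const (0 : k)
          rw [map_zero] at h4
          exact hg0 (h3.unique h4))
    obtain ⟨j, hj⟩ := exists_hasOrd h.curve v hy0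
    have h2 : HasOrd v (y ^ 2) (j * (2 : ℕ)) := ord_pow hj 2
    have h3 : HasOrd v (y ^ 2) (n v + 0) := by
      rw [h1]
      exact ord_mul (hn v) hgx
    have h4 := hasOrd_unique h.curve (pow_ne_zero 2 hy0) h2 h3
    have h5 := hb {v}
    rw [Finset.sum_singleton] at h5
    have h6 : j = 1 := by
      push_cast at h4
      omega
    refine ⟨by push_cast at h4; omega, ?_⟩
    rw [← h6]
    exact hj
  · left
    refine ⟨hf, ?_⟩
    obtain ⟨σ, hσx, hσy⟩ := h.invol hodd
    have hσ : ∀ z, σ.symm (σ z) = z := σ.symm_apply_apply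
    have hx' : (v.map σ).At x c := by
      rw [Place.at_map]
      have : σ.symm x = x := by
        conv_lhs => rw [← hσx]
        rw [hσ]
      rwa [this]
    have hy' : (v.map σ).At y (-b) := by
      rw [Place.at_map]
      have : σ.symm y = -y := by
        have h1 : y = σ (-y) := by rw [map_neg, hσy, neg_neg]
        conv_lhs => rw [h1]
        rw [hσ]
      rw [this]
      exact hvb.neg
    have hb0 : b ≠ 0 := by
      rintro rfl
      apply hf
      rw [← hb2]
      norm_num
    have hvv : v ≠ v.map σ := by
      intro h1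
      rw [← h1] at hy'
      have h2 := hvb.unique hy'
      apply hb0
      have h3 : (2 : k) * b = 0 := by linear_combination h2
      exact (mul_eq_zero.1 h3).resolve_left two_ne_zero
    have hpos' : 0 < n (v.map σ) := ord_pos (hn _) hne hx'
    have h5 := hb {v, v.map σ}
    rw [Finset.sum_pair hvv] at h5
    omega

/-- a point is determined by its coordinates -/
theorem place_eq (h : HypField f x y) (hodd : Odd f.natDegree) (hsep : f.Separable)
    {v w : Place k F} {c b : k} (hv : v.At x c) (hvb : v.At y b) (hw : w.At x c)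
    (hwb : w.At y b) : v = w := by
  by_contra hvw
  have hne : x - algebraMap k F c ≠ 0 := transc_ne (transc_sub h.transc c)
  choose n hn using fun v => exists_hasOrd h.curve v hne
  have hb := h.zero_bound hodd (adjoin_sub x c) (transc_sub h.transc c) hn
  have hb2 : b ^ 2 = eval c f := by
    have h1 : v.At (y ^ 2) (eval c f) := by
      rw [h.eq]
      exact hv.aeval f
    exact (hvb.pow 2).unique h1
  by_cases hf : eval c f = 0
  · have h1 := (h.ord_x hodd hsep hv (hn v)).resolve_left (fun h1 => h1.1 hf)
    have h2 := (h.ord_x hodd hsep hw (hn w)).resolve_left (fun h1 => h1.1 hf)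
    have h5 := hb {v, w}
    rw [Finset.sum_pair hvw, h1.2.1, h2.2.1] at h5
    exact absurd h5 (by decide)
  · have h1 := (h.ord_x hodd hsep hv (hn v)).resolve_right (fun h1 => hf h1.1)
    have h2 := (h.ord_x hodd hsep hw (hn w)).resolve_right (fun h1 => hf h1.1)
    obtain ⟨σ, hσx, hσy⟩ := h.invol hodd
    have hσ : ∀ z, σ.symm (σ z) = z := σ.symm_apply_apply
    have hx' : (v.map σ).At x c := by
      rw [Place.at_map]
      have : σ.symm x = x := by
        conv_lhs => rw [← hσx]
        rw [hσ]
      rwa [this]
    have hy' : (v.map σ).At y (-b) := by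
      rw [Place.at_map]
      have : σ.symm y = -y := by
        have h1 : y = σ (-y) := by rw [map_neg, hσy, neg_neg]
        conv_lhs => rw [h1]
        rw [hσ]
      rw [this]
      exact hvb.neg
    have h3 := (h.ord_x hodd hsep hx' (hn (v.map σ))).resolve_right (fun h1 => hf h1.1)
    have hb0 : b ≠ 0 := by
      rintro rfl
      apply hf
      rw [← hb2]
      norm_num
    have hne2 : ∀ u : Place k F, u.At y b → u ≠ v.map σ := by
      intro u hu h4
      rw [← h4] at hy'
      have h2 := hu.unique hy'
      apply hb0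
      have h3 : (2 : k) * b = 0 := by linear_combination h2
      exact (mul_eq_zero.1 h3).resolve_left two_ne_zero
    have h5 := hb {v, w, v.map σ}
    rw [Finset.sum_insert, Finset.sum_pair (hne2 w hwb), h1.2, h2.2, h3.2] at h5
    · exact absurd h5 (by decide)
    · rw [Finset.mem_insert, Finset.mem_singleton, not_or]
      exact ⟨hvw, hne2 v hvb⟩

/-- the point at infinity -/
theorem ord_inf (h : HypField f x y) (hodd : Odd f.natDegree) {v : Place k F} (hv : x ∉ v.ring) :
    HasOrd v x (-2) ∧ HasOrd v y (-(f.natDegree : ℤ)) := by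
  have hx0 := transc_ne h.transc
  have hxt : Transcendental k x⁻¹ := by
    intro h1
    apply h.transc
    have := h1.inv
    rwa [inv_inv] at this
  choose n hn using fun v => exists_hasOrd h.curve v (inv_ne_zero hx0)
  have hb := h.zero_bound hodd (adjoin_inv x) hxt hn {v}
  rw [Finset.sum_singleton] at hb
  have hpos : 0 < n v := by
    by_contra h1
    push Not at h1
    apply hv
    have h2 := ord_inv (hn v)
    rw [inv_inv] at h2
    exact ord_mem h2 (by omega)
  have hxn : HasOrd v x (-(n v)) := by
    have h2 := ord_inv (hn v)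
    rwa [inv_inv] at h2
  obtain ⟨N, hN⟩ := Int.eq_ofNat_of_zero_le hpos.le
  have hN0 : 0 < N := by omega
  have hdeg : 0 < f.natDegree := hodd.pos
  rw [hN] at hxn
  have hfx := bel_ord hN0 hx0 hxn hdeg
  have hy0 : y ≠ 0 := by
    rintro rfl
    have h1 := h.eq
    rw [zero_pow two_ne_zero] at h1
    have h2 : f = 0 := (transcendental_iff_injective.1 h.transc) (by rw [← h1, map_zero])
    rw [h2, natDegree_zero] at hdeg
    exact lt_irrefl _ hdeg
  obtain ⟨j, hj⟩ := exists_hasOrd h.curve v hy0
  have h2 : HasOrd v (y ^ 2) (j * (2 : ℕ)) := ord_pow hj 2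
  rw [h.eq] at h2
  have h3 := hasOrd_unique h.curve (by rw [← h.eq]; exact pow_ne_zero 2 hy0) h2 hfx
  have h4 : N = 2 := by
    rw [hN] at hb
    have h5 : N ≤ 2 := by simpa using hb
    interval_cases N
    · exfalso
      obtain ⟨m, hm⟩ := hodd
      rw [hm] at h3
      push_cast at h3
      omega
    · rfl
  subst h4
  refine ⟨hxn, ?_⟩
  have h5 : j = -(f.natDegree : ℤ) := by
    push_cast at h3
    omega
  rw [← h5]
  exact hj

theorem inf_unique (h : HypField f x y) (hodd : Odd f.natDegree) {v w : Place k F}
    (hv : x ∉ v.ring) (hw : x ∉ w.ring) : v = w := by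
  by_contra hvw
  have hx0 := transc_ne h.transc
  have hxt : Transcendental k x⁻¹ := by
    intro h1
    apply h.transc
    have := h1.inv
    rwa [inv_inv] at this
  choose n hn using fun v => exists_hasOrd h.curve v (inv_ne_zero hx0)
  have hb := h.zero_bound hodd (adjoin_inv x) hxt hn {v, w}
  have h1 : n v = 2 := by
    have := hasOrd_unique h.curve (inv_ne_zero hx0) (hn v) (ord_inv (h.ord_inf hodd hv).1)
    rw [this, neg_neg]
  have h2 : n w = 2 := by
    have := hasOrd_unique h.curve (inv_ne_zero hx0) (hn w) (ord_inv (h.ord_inf hodd hw).1)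
    rw [this, neg_neg]
  rw [Finset.sum_pair hvw, h1, h2] at hb
  exact absurd hb (by decide)

omit [IsAlgClosed k] [CharZero k] in
theorem exists_inf (h : HypField f x y) : ∃ o : Place k F, x ∉ o.ring := by
  have hxt : Transcendental k x⁻¹ := by
    intro h1
    apply h.transc
    have := h1.inv
    rwa [inv_inv] at this
  obtain ⟨o, ho⟩ := exists_place hxt (0 : k)
  refine ⟨o, ?_⟩
  rw [Place.at_zero_iff, Place.vanishes_iff_or, inv_inv] at ho
  exact ho.resolve_left (inv_ne_zero (transc_ne h.transc))

end HypField

end Pool.Agent.FPZ
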