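import Pool.Agent.FPZ.Hyp2

/-!
# Double coverings of hyperelliptic curves branched over two given points
-/

set_option autoImplicit false

noncomputable section

namespace Pool.Agent.FPZ

open Pool.Agent.ZCyc Pool.Agent.Dess Pool.Agent.Dess4 Polynomial IntermediateField Module
open scoped Classical

/-! ### polynomials -/

section Poly

variable {k : Type} [Field k] [IsAlgClosed k]

/-- every polynomial is of the form `A ^ 2 + (X - a) B ^ 2` -/
theorem exists_norm (f : k[X]) (a : k) : ∃ A B : k[X], f = A ^ 2 + (X - C a) * B ^ 2 := by
  have hmul : ∀ g h : k[X], (∃ A B : k[X], g = A ^ 2 + (X - C a) * B ^ 2) →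
      (∃ A B : k[X], h = A ^ 2 + (X - C a) * B ^ 2) →
        ∃ A B : k[X], g * h = A ^ 2 + (X - C a) * B ^ 2 := by
    rintro g h ⟨A, B, rfl⟩ ⟨A', B', rfl⟩
    exact ⟨A * A' - (X - C a) * B * B', A * B' + A' * B, by ring⟩
  have hconst : ∀ c : k, ∃ A B : k[X], C c = A ^ 2 + (X - C a) * B ^ 2 := by
    intro c
    obtain ⟨r, hr⟩ := IsAlgClosed.exists_pow_nat_eq c two_pos
    refine ⟨C r, 0, ?_⟩
    rw [← C_pow, hr]
    ring
  have hlin : ∀ c : k, ∃ A B : k[X], X - C c = A ^ 2 + (X - C a) * B ^ 2 := by
    intro c
    obtain ⟨r, hr⟩ := IsAlgClosed.exists_pow_nat_eq (a - c) two_pos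
    refine ⟨C r, 1, ?_⟩
    rw [← C_pow, hr, C_sub]
    ring
  rw [(IsAlgClosed.splits f).eq_prod_roots]
  refine hmul _ _ (hconst _) ?_
  generalize f.roots = s
  induction s using Multiset.induction_on with
  | empty =>
    rw [Multiset.map_zero, Multiset.prod_zero]
    have := hconst 1
    rwa [C_1] at this
  | cons c s ih =>
    rw [Multiset.map_cons, Multiset.prod_cons]
    exact hmul _ _ (hlin c) ih

/-- moreover `A` has a given value at `a` -/
theorem exists_norm' {f : k[X]} {a b : k} (hb : b ^ 2 = eval a f) :
    ∃ A B : k[X], f = A ^ 2 + (X - C a) * B ^ 2 ∧ eval a A = b := by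
  obtain ⟨A, B, h⟩ := exists_norm f a
  have h1 : eval a A ^ 2 = b ^ 2 := by
    rw [hb]
    conv_rhs => rw [h]
    rw [eval_add, eval_mul, eval_sub, eval_X, eval_C, sub_self, zero_mul, add_zero, eval_pow]
  rcases sq_eq_sq_iff_eq_or_eq_neg.1 h1 with h2 | h2
  · exact ⟨A, B, h, h2⟩
  · exact ⟨-A, B, by rw [neg_sq]; exact h, by rw [eval_neg, h2, neg_neg]⟩

omit [IsAlgClosed k] in
theorem norm_degree {f A B : k[X]} {a : k} (hodd : Odd f.natDegree)
    (h : f = A ^ 2 + (X - C a) * B ^ 2) : B ≠ 0 ∧ 2 * A.natDegree < f.natDegree := by
  obtain ⟨m, hm⟩ := hodd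
  have hB : B ≠ 0 := by
    rintro rfl
    rw [zero_pow two_ne_zero, mul_zero, add_zero] at h
    rw [h, natDegree_pow] at hm
    omega
  refine ⟨hB, ?_⟩
  have h1 : (A ^ 2).natDegree = 2 * A.natDegree := natDegree_pow A 2
  have h2 : ((X - C a) * B ^ 2).natDegree = 1 + 2 * B.natDegree := by
    rw [natDegree_mul (X_sub_C_ne_zero a) (pow_ne_zero 2 hB), natDegree_X_sub_C, natDegree_pow]
  rcases lt_or_gt_of_ne (show (A ^ 2).natDegree ≠ ((X - C a) * B ^ 2).natDegree by omega)
    with h3 | h3
  · have h4 := natDegree_add_eq_right_of_natDegree_lt h3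
    rw [← h] at h4
    omega
  · have h4 := natDegree_add_eq_left_of_natDegree_lt h3
    rw [← h] at h4
    omega

end Poly

variable {k F : Type} [Field k] [IsAlgClosed k] [CharZero k] [Field F] [Algebra k F]

namespace HypField

variable {f : k[X]} {x y : F}

omit [IsAlgClosed k] [CharZero k] in
/-- a polynomial in `x` is not zero -/
theorem aeval_ne (h : HypField f x y) {A : k[X]} (hA : A ≠ 0) : aeval x A ≠ 0 := by
  intro h1
  exact hA ((transcendental_iff_injective.1 h.transc) (by rw [h1, map_zero]))

/-- for every finite point `p` there is a function whose order is odd exactly at `p` and at the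
point at infinity -/
theorem exists_half (h : HypField f x y) (hodd : Odd f.natDegree) (hsep : f.Separable)
    {p : Place k F} (hp : x ∈ p.ring) : ∃ z : F, z ≠ 0 ∧
      ∀ v n, HasOrd v z n → (Odd n ↔ v = p ∨ x ∉ v.ring) := by
  obtain ⟨a, ha⟩ := exists_at h.curve p hp
  obtain ⟨b, hb, hb2⟩ := h.at_y ha
  obtain ⟨A, B, hAB, hAa⟩ := exists_norm' hb2
  obtain ⟨hB, hdeg⟩ := norm_degree hodd hAB
  have hyn := h.notMem hodd
  have hz0 : y - aeval x A ≠ 0 := by
    intro h0
    apply hyn
    rw [sub_eq_zero.1 h0]
    exact aeval_mem_adj A x
  have hw0 : y + aeval x A ≠ 0 := by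
    intro h0
    apply hyn
    rw [eq_neg_of_add_eq_zero_left h0]
    exact neg_mem (aeval_mem_adj A x)
  have hy0 : y ≠ 0 := by
    rintro rfl
    exact hyn (zero_mem _)
  have hprod : (y - aeval x A) * (y + aeval x A) = (x - algebraMap k F a) * aeval x B ^ 2 := by
    have h1 : y ^ 2 = aeval x A ^ 2 + (x - algebraMap k F a) * aeval x B ^ 2 := by
      rw [h.eq, hAB]
      simp only [map_add, map_mul, map_pow, map_sub, aeval_X, aeval_C]
    linear_combination h1
  refine ⟨y - aeval x A, hz0, fun v n hn => ?_⟩
  by_cases hv : x ∈ v.ring
  · -- finite points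
    obtain ⟨c, hc⟩ := exists_at h.curve v hv
    obtain ⟨e, he, he2⟩ := h.at_y hc
    have hzv : v.At (y - aeval x A) (e - eval c A) := he.sub (hc.aeval A)
    have hwv : v.At (y + aeval x A) (e + eval c A) := he.add (hc.aeval A)
    simp only [hv, not_true_eq_false, or_false]
    by_cases hz : e - eval c A = 0
    · have hprodc : (c - a) * eval c B ^ 2 = 0 := by
        have h1 : eval c f = eval c A ^ 2 + (c - a) * eval c B ^ 2 := by
          conv_lhs => rw [hAB]
          rw [eval_add, eval_mul, eval_sub, eval_X, eval_C, eval_pow, eval_pow]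
        have h2 : e = eval c A := sub_eq_zero.1 hz
        rw [← he2, h2] at h1
        linear_combination -h1
      by_cases he0 : e = 0
      · -- a Weierstrass point
        have hfc : eval c f = 0 := by
          rw [← he2, he0]
          norm_num
        have hA0 : eval c A = 0 := by
          rw [he0, zero_sub, neg_eq_zero] at hz
          exact hz
        have hca : c = a := by
          by_contra hne
          have hB0 : eval c B = 0 := by
            rcases mul_eq_zero.1 hprodc with h1 | h1
            · exact absurd (sub_eq_zero.1 h1) hne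
            · exact pow_eq_zero_iff two_ne_zero |>.1 h1
          obtain ⟨A', hA'⟩ := dvd_iff_isRoot.2 (show IsRoot A c from hA0)
          obtain ⟨B', hB'⟩ := dvd_iff_isRoot.2 (show IsRoot B c from hB0)
          have h1 : (X - C c) * (X - C c) ∣ f := by
            rw [hAB, hA', hB']
            exact ⟨A' ^ 2 + (X - C a) * B' ^ 2, by ring⟩
          exact (not_isUnit_X_sub_C c) (hsep.squarefree _ h1)
        subst hca
        have hb0 : b = 0 := by
          rw [← hAa, hA0]
        have hvp : v = p := h.place_eq hodd hsep hc (he0 ▸ he) ha (hb0 ▸ hb)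
        refine ⟨fun _ => hvp, fun _ => ?_⟩
        obtain ⟨m, hm⟩ := exists_hasOrd h.curve v (transc_ne (transc_sub h.transc c))
        obtain ⟨-, hm2, hy1⟩ := (h.ord_x hodd hsep hc hm).resolve_left (fun h1 => h1.1 hfc)
        subst hm2
        have hn1 : n = 1 := by
          by_cases hA1 : A = 0
          · rw [hA1, map_zero, sub_zero] at hn
            exact hasOrd_unique h.curve hy0 hn hy1
          · obtain ⟨A', hA'⟩ := dvd_iff_isRoot.2 (show IsRoot A c from hA0)
            obtain ⟨j, hj⟩ := exists_hasOrd h.curve v (h.aeval_ne hA1)
            have hj2 : 2 ≤ j := by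
              have hA1' : A' ≠ 0 := by
                rintro rfl
                rw [mul_zero] at hA'
                exact hA1 hA'
              obtain ⟨i, hi⟩ := exists_hasOrd h.curve v (h.aeval_ne hA1')
              have hi0 : 0 ≤ i := ord_nonneg hi (h.aeval_ne hA1') (hc.aeval A').mem
              have h1 : HasOrd v (aeval x A) (2 + i) := by
                rw [hA', map_mul, map_sub, aeval_X, aeval_C]
                exact ord_mul hm hi
              have := hasOrd_unique h.curve (h.aeval_ne hA1) hj h1
              omega
            have hneg : HasOrd v (-aeval x A) j := by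
              have h1 : -aeval x A = aeval x A * (-1) := by ring
              rw [h1]
              refine ord_mul_unit hj (neg_mem v.ring.one_mem) ?_
              rw [inv_neg, inv_one]
              exact neg_mem v.ring.one_mem
            have h1 : HasOrd v (y + -aeval x A) 1 := ord_add hy0 hy1 hneg (by omega)
            rw [← sub_eq_add_neg] at h1
            exact hasOrd_unique h.curve hz0 hn h1
        rw [hn1]
        exact odd_one
      · -- not a Weierstrass point
        have hfc : eval c f ≠ 0 := by
          rw [← he2]
          exact pow_ne_zero 2 he0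
        have hw : HasOrd v (y + aeval x A) 0 := by
          refine ord_at h.curve hwv ?_
          intro h1
          apply he0
          have h2 : (2 : k) * e = 0 := by linear_combination h1 + hz
          exact (mul_eq_zero.1 h2).resolve_left two_ne_zero
        obtain ⟨m, hm⟩ := exists_hasOrd h.curve v (transc_ne (transc_sub h.transc a))
        obtain ⟨j, hj⟩ := exists_hasOrd h.curve v (h.aeval_ne hB)
        have h1 : HasOrd v ((y - aeval x A) * (y + aeval x A)) (n + 0) := ord_mul hn hw
        rw [hprod] at h1
        have h2 : HasOrd v ((x - algebraMap k F a) * aeval x B ^ 2) (m + j * (2 : ℕ)) :=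
          ord_mul hm (ord_pow hj 2)
        have h3 := hasOrd_unique h.curve
          (mul_ne_zero (transc_ne (transc_sub h.transc a)) (pow_ne_zero 2 (h.aeval_ne hB))) h1 h2
        by_cases hca : c = a
        · subst hca
          obtain ⟨-, hm1⟩ := (h.ord_x hodd hsep hc hm).resolve_right (fun h1 => hfc h1.1)
          have hvp : v = p := by
            refine h.place_eq hodd hsep hc he ha ?_
            have h4 : b = e := by
              rw [← hAa]
              exact (sub_eq_zero.1 hz).symm
            rw [← h4]
            exact hb
          refine ⟨fun _ => hvp, fun _ => ?_⟩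
          rw [hm1] at h3
          refine ⟨j, ?_⟩
          push_cast at h3
          omega
        · have hm0 : m = 0 := by
            have h4 : HasOrd v (x - algebraMap k F a) 0 := by
              refine ord_at h.curve (c := c - a) ?_ (sub_ne_zero.2 hca)
              exact hc.sub (v.at_const a)
            exact hasOrd_unique h.curve (transc_ne (transc_sub h.transc a)) hm h4
          constructor
          · rintro ⟨i, hi⟩
            exfalso
            rw [hm0] at h3
            push_cast at h3
            omega
          · rintro rfl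
            exact absurd (hc.unique ha) hca
    · have hn0 : n = 0 := hasOrd_unique h.curve hz0 hn (ord_at h.curve hzv hz)
      constructor
      · rw [hn0]
        intro h1
        exact absurd h1 (by decide)
      · rintro rfl
        exfalso
        apply hz
        have h1 : c = a := hc.unique ha
        rw [h1, hAa, he.unique hb, sub_self]
  · -- the point at infinity
    simp only [hv, not_false_eq_true, or_true, iff_true]
    obtain ⟨hx2, hyd⟩ := h.ord_inf hodd hv
    obtain ⟨m, hm⟩ := id hodd
    have hn1 : n = -(f.natDegree : ℤ) := by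
      by_cases hA1 : A = 0
      · rw [hA1, map_zero, sub_zero] at hn
        exact hasOrd_unique h.curve hy0 hn hyd
      · have hj : HasOrd v (-aeval x A) (-((A.natDegree * 2 : ℕ) : ℤ)) := by
          have h1 : HasOrd v (aeval x A) (-((A.natDegree * 2 : ℕ) : ℤ)) := by
            by_cases h0 : 0 < A.natDegree
            · exact bel_ord two_pos (transc_ne h.transc) (by exact_mod_cast hx2) h0
            · have h2 : A = C (A.coeff 0) := eq_C_of_natDegree_eq_zero (by omega)
              have h3 : A.coeff 0 ≠ 0 := by
                intro h4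
                rw [h4, C_0] at h2
                exact hA1 h2
              have h4 : A.natDegree = 0 := by omega
              rw [h4, zero_mul, Nat.cast_zero, neg_zero, h2, aeval_C]
              exact ord_at h.curve (v.at_const _) h3
          have h2 : -aeval x A = aeval x A * (-1) := by ring
          rw [h2]
          refine ord_mul_unit h1 (neg_mem v.ring.one_mem) ?_
          rw [inv_neg, inv_one]
          exact neg_mem v.ring.one_mem
        have h1 : HasOrd v (y + -aeval x A) (-(f.natDegree : ℤ)) :=
          ord_add hy0 hyd hj (by push_cast; omega)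
        rw [← sub_eq_add_neg] at h1
        exact hasOrd_unique h.curve hz0 hn h1
    rw [hn1]
    refine ⟨-(m : ℤ) - 1, ?_⟩
    rw [hm]
    push_cast
    ring

end HypField

end Pool.Agent.FPZ
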