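import Pool.Agent.FPZ.Hyp3
import Pool.Agent.FPZ.Double

/-!
# The cycle of Faber and Pandharipande of a double covering branched over two points
-/

set_option autoImplicit false

noncomputable section

namespace Pool.Agent.FPZ

open Pool.Agent.ZCyc Pool.Agent.Dess Pool.Agent.Dess4 Polynomial IntermediateField Module
open scoped Classical

section Three

variable {k F : Type} [Field k] [Field F] [Algebra k F]

theorem fp_three (o p q : Place k F) (c : ℤ) :
    fp (Finsupp.single o c + Finsupp.single p 1 + Finsupp.single q 1) =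
      -(c • square o p) - c • square o q - square p q := by
  have h : ∀ (a : Bool → Place k F) (m : ℤ), Finsupp.single a m = m • Finsupp.single a 1 := by
    intro a m
    rw [Finsupp.smul_single, smul_eq_mul, mul_one]
  rw [fp_eq, square, square, square, sym, sym, sym]
  simp only [map_add, AddMonoidHom.add_apply, exq_single, dgq_single, diq_single, mul_one, one_mul]
  rw [h _ (c * c), h (pair (L := fun _ => F) p o) c, h (pair (L := fun _ => F) q o) c,
    h (pair (L := fun _ => F) o p) c, h (pair (L := fun _ => F) o q) c, h _ c]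
  module

theorem dgq_mapDomain {M : Type} [Field M] [Algebra k M] (π : Place k M → Place k F)
    (A : Place k M →₀ ℤ) : dgq (A.mapDomain π) = dgq A := by
  induction A using Finsupp.induction_linear with
  | zero => simp
  | add a b ha hb => rw [Finsupp.mapDomain_add, map_add, map_add, ha, hb]
  | single p m => rw [Finsupp.mapDomain_single, dgq_single, dgq_single]

end Three

variable {k F : Type} [Field k] [IsAlgClosed k] [CharZero k] [Field F] [Algebra k F]

namespace HypField

variable {f : k[X]} {x y : F}

/-- the canonical divisor of a hyperelliptic curve -/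
theorem can_hyp (h : HypField f x y) (hodd : Odd f.natDegree) (hsep : f.Separable)
    {K : Place k F →₀ ℤ} (hK : IsCan x K) {o : Place k F} (ho : x ∉ o.ring) :
    unq (K - Finsupp.single o ((f.natDegree : ℤ) - 3)) ∈ RatEq (k := k) fun _ : Unit => F := by
  have hyn := h.notMem hodd
  have hy0 : y ≠ 0 := by
    rintro rfl
    exact hyn (zero_mem _)
  refine unq_div_mem h.curve hy0 fun v => ?_
  rw [Finsupp.sub_apply]
  by_cases hv : x ∈ v.ring
  · have hvo : v ≠ o := by
      rintro rfl
      exact ho hv
    rw [Finsupp.single_eq_of_ne hvo, sub_zero]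
    obtain ⟨a, ha⟩ := exists_at h.curve v hv
    obtain ⟨m, hm⟩ := exists_hasOrd h.curve v (transc_ne (transc_sub h.transc a))
    rcases h.ord_x hodd hsep ha hm with ⟨h1, h2⟩ | ⟨h1, h2, h3⟩
    · rw [hK v a m (by omega) hm, h2, sub_self]
      obtain ⟨b, hb, hb2⟩ := h.at_y ha
      refine ord_at h.curve hb ?_
      rintro rfl
      apply h1
      rw [← hb2]
      norm_num
    · rw [hK v a m (by omega) hm, h2]
      exact h3
  · have hvo : v = o := h.inf_unique hodd hv ho
    subst hvo
    obtain ⟨h1, h2⟩ := h.ord_inf hodd hv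
    have h3 : HasOrd v (x - algebraMap k F 0) (-2) := by
      rw [map_zero, sub_zero]
      exact h1
    rw [Finsupp.single_eq_same, hK v 0 (-2) (by norm_num) h3]
    have e : (-2 - 1 - ((f.natDegree : ℤ) - 3)) = -(f.natDegree : ℤ) := by ring
    rw [e]
    exact h2

omit [IsAlgClosed k] [CharZero k] in
/-- the coordinates of the image of a point under the involution -/
theorem invol_at {σ : F ≃ₐ[k] F} (hσx : σ x = x)
    (hσy : σ y = -y) {p : Place k F} {a b : k} (ha : p.At x a) (hb : p.At y b) :
    (p.map σ).At x a ∧ (p.map σ).At y (-b) := by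
  have hσ : ∀ z, σ.symm (σ z) = z := σ.symm_apply_apply
  constructor
  · rw [Place.at_map]
    have : σ.symm x = x := by
      conv_lhs => rw [← hσx]
      rw [hσ]
    rwa [this]
  · rw [Place.at_map]
    have : σ.symm y = -y := by
      have h1 : y = σ (-y) := by rw [map_neg, hσy, neg_neg]
      conv_lhs => rw [h1]
      rw [hσ]
    rw [this]
    exact hb.neg

/-- the sum of a point and its image under the involution -/
theorem invol_div (h : HypField f x y) (hodd : Odd f.natDegree) (hsep : f.Separable)
    {σ : F ≃ₐ[k] F} (hσx : σ x = x) (hσy : σ y = -y) {o p : Place k F} (ho : x ∉ o.ring)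
    (hp : x ∈ p.ring) : unq (Finsupp.single (p.map σ) 1 -
      (Finsupp.single o 2 + Finsupp.single p (-1))) ∈ RatEq (k := k) fun _ : Unit => F := by
  obtain ⟨a, ha⟩ := exists_at h.curve p hp
  obtain ⟨b, hb, hb2⟩ := h.at_y ha
  obtain ⟨hx', hy'⟩ := invol_at hσx hσy ha hb
  set p' := p.map σ with hp'
  have hpo : p ≠ o := by
    rintro rfl
    exact ho hp
  have hpo' : p' ≠ o := by
    intro h1
    rw [h1] at hx'
    exact ho hx'.mem
  refine unq_div_mem h.curve (transc_ne (transc_sub h.transc a)) fun v => ?_
  obtain ⟨m, hm⟩ := exists_hasOrd h.curve v (transc_ne (transc_sub h.transc a))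
  simp only [Finsupp.sub_apply, Finsupp.add_apply]
  by_cases hv : x ∈ v.ring
  · have hvo : v ≠ o := by
      rintro rfl
      exact ho hv
    rw [Finsupp.single_eq_of_ne hvo]
    obtain ⟨c, hc⟩ := exists_at h.curve v hv
    obtain ⟨e, he, he2⟩ := h.at_y hc
    by_cases hca : c = a
    · subst hca
      have hor : v = p ∨ v = p' := by
        have h1 : e ^ 2 = b ^ 2 := by rw [he2, hb2]
        rcases sq_eq_sq_iff_eq_or_eq_neg.1 h1 with h2 | h2
        · left
          exact h.place_eq hodd hsep hc he ha (h2 ▸ hb)
        · right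
          exact h.place_eq hodd hsep hc he hx' (h2 ▸ hy')
      rcases h.ord_x hodd hsep hc hm with ⟨h1, h2⟩ | ⟨h1, h2, -⟩
      · have hpp : p ≠ p' := by
          intro h3
          rw [← h3] at hy'
          apply h1
          have h4 : (2 : k) * b = 0 := by linear_combination hb.unique hy'
          rw [← hb2, (mul_eq_zero.1 h4).resolve_left two_ne_zero]
          norm_num
        rw [h2] at hm
        rcases hor with h3 | h3
        · rw [h3, Finsupp.single_eq_of_ne hpp, Finsupp.single_eq_same]
          rw [h3] at hm
          simpa using hm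
        · rw [h3, Finsupp.single_eq_of_ne hpp.symm, Finsupp.single_eq_same]
          rw [h3] at hm
          simpa using hm
      · have hb0 : b = 0 := by
          rw [h1] at hb2
          exact pow_eq_zero_iff two_ne_zero |>.1 hb2
        have hpp : p' = p := h.place_eq hodd hsep hx' hy' ha (by
          rw [hb0, neg_zero, ← hb0]
          exact hb)
        have hvp : v = p := by
          rcases hor with h3 | h3
          · exact h3
          · rw [h3, hpp]
        rw [hpp, hvp, Finsupp.single_eq_same, Finsupp.single_eq_same]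
        rw [h2, hvp] at hm
        have e : (1 : ℤ) - (0 + -1) = 2 := by norm_num
        rw [e]
        exact hm
    · have hvp : v ≠ p := by
        rintro rfl
        exact hca (hc.unique ha)
      have hvp' : v ≠ p' := by
        intro h1
        rw [h1] at hc
        exact hca (hc.unique hx')
      rw [Finsupp.single_eq_of_ne hvp, Finsupp.single_eq_of_ne hvp']
      have e : (0 : ℤ) - (0 + 0) = 0 := by norm_num
      rw [e]
      exact ord_at h.curve (hc.sub (v.at_const a)) (sub_ne_zero.2 hca)
  · have hvo : v = o := h.inf_unique hodd hv ho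
    rw [hvo] at hm ⊢
    rw [Finsupp.single_eq_of_ne hpo'.symm, Finsupp.single_eq_of_ne hpo.symm,
      Finsupp.single_eq_same]
    have h1 := pole_sub hm ho
    have h2 := hasOrd_unique h.curve (transc_ne h.transc) h1 (h.ord_inf hodd ho).1
    rw [h2] at hm
    simpa using hm

/-- the cycle `(o - p) × (o - p)` is torsion if `o` is the point at infinity -/
theorem square_inf (h : HypField f x y) (hodd : Odd f.natDegree) (hsep : f.Separable)
    {o p : Place k F} (ho : x ∉ o.ring) (hp : x ∈ p.ring) :
    square o p ∈ torGroup (k := k) fun _ : Bool => F := by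
  obtain ⟨σ, hσx, hσy⟩ := h.invol hodd
  set p' := p.map σ with hp'
  have h1 := fp_congr (ratEq_le_torGroup (h.invol_div hodd hsep hσx hσy ho hp))
  rw [← hp'] at h1
  have e1 : fp (Finsupp.single p' (1 : ℤ)) = 0 := by
    have := fp_two p' p' 1 0
    rw [Finsupp.single_zero, add_zero] at this
    rw [this]
    simp
  rw [e1, fp_two, zero_sub] at h1
  have h2 : (-2 : ℤ) • square o p ∈ torGroup (k := k) fun _ : Bool => F := by
    have e : -(-(2 * -1) • square o p) = (-2 : ℤ) • square o p := by
      rw [← neg_smul]
      norm_num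
    rwa [e] at h1
  exact tor_of_zsmul (by norm_num) h2

/-- the degree of the canonical divisor of a hyperelliptic curve -/
theorem deg_can (h : HypField f x y) (hodd : Odd f.natDegree) (hsep : f.Separable)
    {K : Place k F →₀ ℤ} (hK : IsCan x K) : dgq K = (f.natDegree : ℤ) - 3 := by
  obtain ⟨o, ho⟩ := h.exists_inf
  have h1 := degq_ratEq (h.can_hyp hodd hsep hK ho)
  rw [← dgq_degq, map_sub, dgq_single] at h1
  have h2 : dgq K - ((f.natDegree : ℤ) - 3) = 0 := by exact_mod_cast h1
  omega

/-- **Double coverings branched over two points.** For two different finite points `p` and `q` of a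
hyperelliptic curve `C` of genus `g` there is a double covering `D` of `C` which is branched exactly
over `p` and `q`; its genus is `2 g` and the image of the cycle of Faber and Pandharipande of `D`
is equal to `-(p - q) × (p - q)` up to torsion. -/
theorem exists_cover (h : HypField f x y) (hodd : Odd f.natDegree) (hsep : f.Separable)
    {p q : Place k F} (hpq : p ≠ q) (hp : x ∈ p.ring) (hq : x ∈ q.ring) :
    ∃ (M : Type) (_ : Field M) (_ : Algebra k M) (φ : F →ₐ[k] M) (Ψ : Place k M → Place k F)
      (K : Place k M →₀ ℤ), IsCurve k M ∧ Module.finrank φ.fieldRange M = 2 ∧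
        (∀ V, (Ψ V).ring = V.ring.comap (φ : F →+* M)) ∧ Canonical K ∧
        dgq K = 2 * f.natDegree - 4 ∧ (∀ v, (∃! V, Ψ V = v) ↔ v = p ∨ v = q) ∧
        (fp K).mapDomain (fun (a : Bool → Place k M) b => Ψ (a b)) + square p q ∈
          torGroup (k := k) fun _ : Bool => F := by
  have hF := h.curve
  obtain ⟨z, hz0, hz⟩ := h.exists_half hodd hsep hp
  obtain ⟨w, hw0, hw⟩ := h.exists_half hodd hsep hq
  have hd0 : z * w ≠ 0 := mul_ne_zero hz0 hw0
  have hodd' : ∀ v n, HasOrd v (z * w) n → (Odd n ↔ v = p ∨ v = q) := by
    intro v n hn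
    obtain ⟨a, ha⟩ := exists_hasOrd hF v hz0
    obtain ⟨b, hb⟩ := exists_hasOrd hF v hw0
    rw [hasOrd_unique hF hd0 hn (ord_mul ha hb), Int.odd_add, ← Int.not_odd_iff_even, hz v a ha,
      hw v b hb]
    by_cases hv : x ∈ v.ring
    · simp only [hv, not_true_eq_false, or_false]
      constructor
      · intro h1
        by_cases h2 : v = p
        · exact Or.inl h2
        · right
          by_contra h3
          exact h2 (h1.2 h3)
      · rintro (h1 | h1)
        · rw [h1]
          exact ⟨fun _ => hpq, fun _ => rfl⟩
        · rw [h1]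
          exact ⟨fun h2 => absurd h2.symm hpq, fun h2 => absurd rfl h2⟩
    · simp only [hv, not_false_eq_true, or_true, not_true_eq_false, iff_false]
      constructor
      · intro h1
        exact h1.elim
      · rintro (h1 | h1)
        · rw [h1] at hv
          exact absurd hp hv
        · rw [h1] at hv
          exact absurd hq hv
  have hns : ∀ s : F, s ^ 2 ≠ z * w := by
    intro s hs
    have hs0 : s ≠ 0 := by
      rintro rfl
      rw [zero_pow two_ne_zero] at hs
      exact hd0 hs.symm
    obtain ⟨m, hm⟩ := exists_hasOrd hF p hs0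
    have h2 := ord_pow hm 2
    rw [hs] at h2
    have h3 := (hodd' p _ h2).2 (Or.inl rfl)
    obtain ⟨j, hj⟩ := h3
    push_cast at hj
    omega
  obtain ⟨M, _, _, φ, s, hdbl⟩ := exists_dbl (k := k) hns
  have hM := hdbl.isCurve hF
  obtain ⟨Ψ, hΨ⟩ := exists_proj hF hM φ
  obtain ⟨K, hK⟩ := exists_can hF h.transc
  obtain ⟨K', B, hK', hpush, hB⟩ := exists_dcov hF hdbl hd0 hΨ h.transc hK
  obtain ⟨o, ho⟩ := h.exists_inf
  have hB' : B = Finsupp.single p 1 + Finsupp.single q 1 := by
    ext v
    obtain ⟨n, hn⟩ := exists_hasOrd hF v hd0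
    rw [hB v n hn, Finsupp.add_apply]
    by_cases h1 : v = p
    · rw [if_pos ((hodd' v n hn).2 (Or.inl h1)), h1, Finsupp.single_eq_same,
        Finsupp.single_eq_of_ne hpq, add_zero]
    · by_cases h2 : v = q
      · rw [if_pos ((hodd' v n hn).2 (Or.inr h2)), h2, Finsupp.single_eq_same,
          Finsupp.single_eq_of_ne hpq.symm, zero_add]
      · rw [if_neg (fun h3 => ((hodd' v n hn).1 h3).elim h1 h2), Finsupp.single_eq_of_ne h1,
          Finsupp.single_eq_of_ne h2, add_zero]
  have hx' : Transcendental k (φ x) := by
    intro h1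
    exact h.transc ((isAlgebraic_algHom_iff φ φ.injective).mp h1)
  refine ⟨M, _, _, φ, Ψ, K', hM, dbl_finrank_range hdbl hd0, fun V => (hΨ V).symm,
    ⟨φ x, hx', hK'⟩, ?_, ?_, ?_⟩
  · rw [← dgq_mapDomain Ψ K', hpush, hB', map_add, map_add, map_zsmul, dgq_single, dgq_single,
      h.deg_can hodd hsep hK, smul_eq_mul]
    ring
  · intro v
    obtain ⟨n, hn⟩ := exists_hasOrd hF v hd0
    obtain ⟨ϖ, hϖ⟩ := exists_unif hF v
    obtain ⟨S, e, hS, -, -, hcard⟩ := dbl_fibre hF hM hdbl hd0 hΨ v hn hϖ
    rw [← hodd' v n hn]
    constructor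
    · rintro ⟨V, hV, huniq⟩
      by_contra h1
      rw [if_neg h1] at hcard
      have h2 : S = {V} := by
        ext W
        rw [hS, Finset.mem_singleton]
        exact ⟨fun h3 => huniq W h3, fun h3 => by rw [h3]; exact hV⟩
      rw [h2, Finset.card_singleton] at hcard
      norm_num at hcard
    · intro h1
      rw [if_pos h1] at hcard
      obtain ⟨V, hV⟩ := Finset.card_eq_one.1 (by exact_mod_cast hcard)
      refine ⟨V, ?_, fun W hW => ?_⟩
      · change Ψ V = v
        rw [← hS, hV]
        exact Finset.mem_singleton_self V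
      · have h2 := (hS W).2 hW
        rw [hV] at h2
        exact Finset.mem_singleton.1 h2
  · rw [fp_map, hpush, hB']
    set c : ℤ := 2 * ((f.natDegree : ℤ) - 3) with hc
    have h1 : unq ((2 : ℤ) • K + (Finsupp.single p 1 + Finsupp.single q 1) -
        (Finsupp.single o c + Finsupp.single p 1 + Finsupp.single q 1)) ∈
          RatEq (k := k) fun _ : Unit => F := by
      have h2 := AddSubgroup.zsmul_mem _ (h.can_hyp hodd hsep hK ho) 2
      rw [← map_zsmul] at h2
      have e : (2 : ℤ) • (K - Finsupp.single o ((f.natDegree : ℤ) - 3)) =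
          (2 : ℤ) • K + (Finsupp.single p 1 + Finsupp.single q 1) -
            (Finsupp.single o c + Finsupp.single p 1 + Finsupp.single q 1) := by
        rw [smul_sub, Finsupp.smul_single, smul_eq_mul, ← hc]
        abel
      rwa [e] at h2
    have h2 := fp_congr (ratEq_le_torGroup h1)
    rw [fp_three] at h2
    have h3 := AddSubgroup.zsmul_mem _ (h.square_inf hodd hsep ho hp) c
    have h4 := AddSubgroup.zsmul_mem _ (h.square_inf hodd hsep ho hq) c
    have h5 := sub_mem (sub_mem h2 h3) h4
    convert h5 using 1
    abel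

end HypField

end Pool.Agent.FPZ
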