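import Pool.Agent.FPZ.Hyp4

/-!
# Double coverings branched over two points and the kernel of the Albanese map
-/

set_option autoImplicit false

noncomputable section

namespace Pool.Agent.FPZ

open Pool.Agent.ZCyc Pool.Agent.Dess Pool.Agent.Dess4 Polynomial Module
open scoped Classical

variable {k F : Type} [Field k] [Field F] [Algebra k F]

theorem dgq_sum (K : Place k F →₀ ℤ) : dgq K = K.sum fun _ m => m := by
  rw [dgq, Finsupp.liftAddHom_apply]
  rfl

/-- the symmetric part is generated by the squares -/
theorem symmetric_of_square [IsAlgClosed k] [CharZero k]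
    {T : AddSubgroup ((Bool → Place k F) →₀ ℤ)} (hT : RatEq (fun _ : Bool => F) ≤ T)
    (hsq : ∀ p q : Place k F, square p q ∈ T) {z : (Bool → Place k F) →₀ ℤ}
    (hz : AlbKer (fun _ : Bool => F) z) : z + z.mapDomain swap ∈ T := by
  let W : ((Bool → Place k F) →₀ ℤ) →+ ((Bool → Place k F) →₀ ℤ) :=
    Finsupp.mapDomain.addMonoidHom swap
  have hs : ∀ (a : Bool → Place k F) (n : ℤ), W (Finsupp.single a n) =
      Finsupp.single (swap a) n := fun a n => Finsupp.mapDomain_single
  have key : ∀ P Q p q : Place k F, ∀ D : (Bool → Place k F) →₀ ℤ,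
      (D = Finsupp.single (pair (L := fun _ => F) P Q) (1 : ℤ) -
        Finsupp.single (pair (L := fun _ => F) p Q) 1 -
        Finsupp.single (pair (L := fun _ => F) P q) 1 +
        Finsupp.single (pair (L := fun _ => F) p q) 1) → D + W D ∈ T := by
    rintro P Q p q D rfl
    rw [map_add, map_sub, map_sub, hs, hs, hs, hs, swap_pair, swap_pair, swap_pair, swap_pair]
    have e : ∀ x y : Place k F, Finsupp.single (pair (L := fun _ => F) y x) (1 : ℤ) =
        Finsupp.single (pair (L := fun _ => F) x x) 1 +
          Finsupp.single (pair (L := fun _ => F) y y) 1 - square x y -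
            Finsupp.single (pair (L := fun _ => F) x y) 1 := by
      intro x y
      rw [← pair_add_swap, add_sub_cancel_left]
    rw [e P Q, e p Q, e P q, e p q]
    have h1 := add_mem (sub_mem (sub_mem (hsq p Q) (hsq P Q)) (hsq p q)) (hsq P q)
    convert h1 using 1
    abel
  have h1 : z ∈ T.comap (AddMonoidHom.id _ + W) := by
    refine of_symbols ?_ ?_ hz
    · intro y hy
      rw [AddSubgroup.mem_comap]
      exact add_mem (hT hy) (hT (map_mem swap isMor_swap hy))
    · intro i j hij a x y
      obtain ⟨P, Q, rfl⟩ : ∃ P Q : Place k F, a = pair (L := fun _ => F) P Q := by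
        refine ⟨a false, a true, ?_⟩
        funext b
        cases b <;> rfl
      rw [AddSubgroup.mem_comap, AddMonoidHom.add_apply, AddMonoidHom.id_apply]
      cases i <;> cases j
      · exact absurd rfl hij
      · refine key P Q x y _ ?_
        rw [update_pair_false, update_pair_true, update_pair_true]
      · refine key P Q y x _ ?_
        rw [update_pair_false, update_pair_true, update_pair_false]
        abel
      · exact absurd rfl hij
  exact h1

theorem square_self (p : Place k F) : square p p = 0 := by
  rw [square, sym]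
  abel

theorem square_symm (p q : Place k F) : square p q = square q p := by
  rw [square, sym, square, sym]
  abel

namespace HypField

variable [IsAlgClosed k] [CharZero k] {f : k[X]} {x y : F}

/-- **Two points.** The cycle `(p - q) × (p - q)` is up to torsion the image of the cycle of Faber
and Pandharipande of one double covering which is branched exactly over `p` and `q`. -/
theorem square_cover (h : HypField f x y) (hodd : Odd f.natDegree) (hsep : f.Separable)
    {p q : Place k F} (hpq : p ≠ q) (hp : x ∈ p.ring) (hq : x ∈ q.ring) :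
    ∃ w, TwoPointFP k F (2 * f.natDegree - 4) w ∧
      w + square p q ∈ torGroup (k := k) fun _ : Bool => F := by
  obtain ⟨M, _, _, φ, Ψ, K, h1, h2, h3, h4, h5, h6, h7⟩ := h.exists_cover hodd hsep hpq hp hq
  refine ⟨_, ⟨M, _, _, φ, Ψ, K, p, q, h1, h2, h3, hpq, h6, h4, ?_, rfl⟩, h7⟩
  rw [← dgq_sum, h5]

/-- the squares are combinations of images of the cycles of the double coverings -/
theorem square_mem (h : HypField f x y) (hodd : Odd f.natDegree) (hsep : f.Separable)
    {T : AddSubgroup ((Bool → Place k F) →₀ ℤ)} (hT : RatEq (fun _ : Bool => F) ≤ T)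
    (hsat : ∀ (n : ℤ) (z : (Bool → Place k F) →₀ ℤ), n ≠ 0 → n • z ∈ T → z ∈ T)
    (hall : ∀ w, TwoPointFP k F (2 * f.natDegree - 4) w → w ∈ T) (p q : Place k F) :
    square p q ∈ T := by
  have htor : ∀ z, z ∈ torGroup (k := k) (fun _ : Bool => F) → z ∈ T := by
    rintro z ⟨m, hm, hz⟩
    refine hsat m z (by exact_mod_cast hm.ne') ?_
    rw [natCast_zsmul]
    exact hT hz
  by_cases hpq : p = q
  · rw [hpq, square_self]
    exact zero_mem _
  by_cases hp : x ∈ p.ring
  · by_cases hq : x ∈ q.ring
    · obtain ⟨w, hw, h1⟩ := h.square_cover hodd hsep hpq hp hq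
      have h2 := sub_mem (htor _ h1) (hall w hw)
      rwa [add_sub_cancel_left] at h2
    · rw [square_symm]
      exact htor _ (h.square_inf hodd hsep hq hp)
  · by_cases hq : x ∈ q.ring
    · exact htor _ (h.square_inf hodd hsep hp hq)
    · exact absurd (h.inf_unique hodd hp hq) hpq

/-- **Generation.** For a hyperelliptic curve `C` of genus `g` a multiple of every symmetric cycle
in the kernel of the Albanese map of `C × C` is a combination of images of the cycles of Faber and
Pandharipande of curves of genus `2 g` which are double coverings of `C` branched over two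
points. -/
theorem generation_two (h : HypField f x y) (hodd : Odd f.natDegree) (hsep : f.Separable)
    {z : (Bool → Place k F) →₀ ℤ} (hz : AlbKer (fun _ : Bool => F) z) :
    ∃ m : ℕ, 0 < m ∧ m • (z + z.mapDomain swap) ∈ RatEq (k := k) (fun _ : Bool => F) ⊔
      AddSubgroup.closure {w | TwoPointFP k F (2 * f.natDegree - 4) w} := by
  refine symmetric_of_square (T := sat (RatEq (k := k) (fun _ : Bool => F) ⊔
    AddSubgroup.closure {w | TwoPointFP k F (2 * f.natDegree - 4) w}))
      (le_sup_left.trans (le_sat _)) (h.square_mem hodd hsep (le_sup_left.trans (le_sat _))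
        (fun n z hn h => sat_of_zsmul hn h) ?_) hz
  intro w hw
  exact le_sat _ ((le_sup_right : _ ≤ RatEq (k := k) (fun _ : Bool => F) ⊔ _)
    (AddSubgroup.subset_closure hw))

omit [IsAlgClosed k] [CharZero k] in
theorem twoPoint_albKer {n : ℤ} {w : (Bool → Place k F) →₀ ℤ} (hw : TwoPointFP k F n w) :
    AlbKer (fun _ : Bool => F) w ∧ w.mapDomain swap = w := by
  obtain ⟨M, _, _, φ, Ψ, K, p, q, -, -, -, -, -, -, -, rfl⟩ := hw
  rw [fp_map]
  exact ⟨albKer_fp _, swap_fp _⟩

theorem two_iff (h : HypField f x y) (hodd : Odd f.natDegree) (hsep : f.Separable) :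
    (∀ z : (Bool → Place k F) →₀ ℤ, AlbKer (fun _ : Bool => F) z →
      RatTor (fun _ : Bool => F) (z + z.mapDomain swap)) ↔
        ∀ w : (Bool → Place k F) →₀ ℤ, TwoPointFP k F (2 * f.natDegree - 4) w →
          RatTor (fun _ : Bool => F) w := by
  constructor
  · intro h w hw
    obtain ⟨h1, h2⟩ := twoPoint_albKer hw
    have h3 := h w h1
    rw [h2, ← two_zsmul] at h3
    exact tor_of_zsmul (by norm_num) h3
  · intro h' z hz
    exact symmetric_of_square (T := torGroup fun _ : Bool => F) ratEq_le_torGroup
      (h.square_mem hodd hsep ratEq_le_torGroup (fun n z hn h => tor_of_zsmul hn h) h') hz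

/-- if the cycle of Faber and Pandharipande is torsion for all curves of genus `2 g`, then all
symmetric cycles in the kernel of the Albanese map of `C × C` are torsion for a hyperelliptic
curve `C` of genus `g` -/
theorem of_genus (h : HypField f x y) (hodd : Odd f.natDegree) (hsep : f.Separable)
    (hfp : FPGenus k (f.natDegree - 1)) {z : (Bool → Place k F) →₀ ℤ}
    (hz : AlbKer (fun _ : Bool => F) z) : RatTor (fun _ : Bool => F) (z + z.mapDomain swap) := by
  refine symmetric_of_square (T := torGroup fun _ : Bool => F) ratEq_le_torGroup ?_ hz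
  intro p q
  have htor : ∀ {p q : Place k F}, p ≠ q → x ∈ p.ring → x ∈ q.ring →
      square p q ∈ torGroup (k := k) fun _ : Bool => F := by
    intro p q hpq hp hq
    obtain ⟨M, _, _, φ, Ψ, K, hM, h2, h3, h4, h5, -, h7⟩ := h.exists_cover hodd hsep hpq hp hq
    have h8 : RatTor (fun _ : Bool => M) (fp K) := by
      refine hfp M hM K h4 ?_
      rw [← dgq_sum, h5]
      ring
    have hmor : IsMor (L := fun _ : Bool => M) (L' := fun _ : Bool => F)
        (fun (a : Bool → Place k M) b => Ψ (a b)) := fun b =>
      Or.inr ⟨b, φ, fun a => h3 (a b)⟩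
    have hne : Nonempty (Bool → Place k M) := by
      obtain ⟨t, ht, -⟩ := id hM
      obtain ⟨v, -⟩ := exists_place ht (0 : k)
      exact ⟨fun _ => v⟩
    have h9 := map_tor _ hmor h8
    have h10 := sub_mem h7 h9
    rwa [add_sub_cancel_left] at h10
  by_cases hpq : p = q
  · rw [hpq, square_self]
    exact zero_mem _
  by_cases hp : x ∈ p.ring
  · by_cases hq : x ∈ q.ring
    · exact htor hpq hp hq
    · rw [square_symm]
      exact h.square_inf hodd hsep hq hp
  · by_cases hq : x ∈ q.ring
    · exact h.square_inf hodd hsep hp hq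
    · exact absurd (h.inf_unique hodd hp hq) hpq

end HypField

end Pool.Agent.FPZ
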