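import Mathlib.RepresentationTheory.Irreducible
import Mathlib.RepresentationTheory.Maschke
import Mathlib.RingTheory.SimpleModule.IsAlgClosed
import Mathlib.LinearAlgebra.Matrix.ToLin

/-!
# Functions of two points which are invariant under a finite group
-/

set_option autoImplicit false

noncomputable section

namespace Pool.Agent.FPZ

open MonoidAlgebra
open scoped Classical

variable {k G X : Type} [Field k] [Group G] [Fintype G]

/-- the linear functional `a ↦ Σ a(c) B(x, c x)` on the group algebra -/
def phi (act : G → X → X) (B : X → X → k) (x : X) : MonoidAlgebra k G →ₗ[k] k where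
  toFun a := ∑ c, a.coeff c * B x (act c x)
  map_add' a b := by
    rw [← Finset.sum_add_distrib]
    refine Finset.sum_congr rfl fun c _ => ?_
    rw [coeff_add, Finsupp.add_apply, add_mul]
  map_smul' r a := by
    rw [RingHom.id_apply, smul_eq_mul, Finset.mul_sum]
    refine Finset.sum_congr rfl fun c _ => ?_
    rw [coeff_smul_apply, smul_eq_mul, mul_assoc]

omit [Group G] in
theorem phi_apply (act : G → X → X) (B : X → X → k) (x : X) (a : MonoidAlgebra k G) :
    phi act B x a = ∑ c, a.coeff c * B x (act c x) := rfl

theorem phi_of (act : G → X → X) (B : X → X → k) (x : X) (c : G) :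
    phi act B x (of k G c) = B x (act c x) := by
  rw [phi_apply, Finset.sum_eq_single c]
  · rw [of_apply, coeff_single, Finsupp.single_eq_same, one_mul]
  · intro b _ hb
    rw [of_apply, coeff_single, Finsupp.single_eq_of_ne hb, zero_mul]
  · intro h
    exact absurd (Finset.mem_univ c) h

omit [Fintype G] in
/-- the coefficients of a central element -/
theorem central_coeff {a : MonoidAlgebra k G} (ha : ∀ b, a * b = b * a) (g c : G) :
    a.coeff (g * c * g⁻¹) = a.coeff c := by
  have h := congrArg (fun z : MonoidAlgebra k G => z.coeff (g * c)) (ha (single g 1))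
  simp only [coeff_mul_single_apply, coeff_single_mul_apply, mul_one, one_mul] at h
  rw [h, inv_mul_cancel_left]

/-- the sum over a finite set of group elements -/
def nrm (S : Finset G) : MonoidAlgebra k G := ∑ s ∈ S, of k G s

section Blocks

variable {n : ℕ} {d : Fin n → ℕ}
  (e : MonoidAlgebra k G ≃ₐ[k] ((i : Fin n) → Matrix (Fin (d i)) (Fin (d i)) k))

/-- the central idempotents -/
def idp (i : Fin n) : MonoidAlgebra k G := e.symm (Pi.single i 1)

omit [Fintype G] in
theorem sum_idp : ∑ i, idp e i = 1 := by
  unfold idp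
  rw [← map_sum]
  have h := Finset.univ_sum_single (1 : (i : Fin n) → Matrix (Fin (d i)) (Fin (d i)) k)
  simp only [Pi.one_apply] at h
  rw [h, map_one]

omit [Fintype G] in
theorem idp_comm (i : Fin n) (b : MonoidAlgebra k G) : idp e i * b = b * idp e i := by
  apply e.injective
  rw [map_mul, map_mul, idp, AlgEquiv.apply_symm_apply]
  ext j : 1
  rw [Pi.mul_apply, Pi.mul_apply]
  by_cases h : j = i
  · subst h
    rw [Pi.single_eq_same, one_mul, mul_one]
  · rw [Pi.single_eq_of_ne h, zero_mul, mul_zero]

omit [Fintype G] in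
theorem idp_mul_zero {i : Fin n} {b : MonoidAlgebra k G} (hb : e b i = 0) : idp e i * b = 0 := by
  apply e.injective
  rw [map_mul, map_zero, idp, AlgEquiv.apply_symm_apply]
  ext j : 1
  rw [Pi.mul_apply, Pi.zero_apply]
  by_cases h : j = i
  · subst h
    rw [Pi.single_eq_same, one_mul, hb]
  · rw [Pi.single_eq_of_ne h, zero_mul]

omit [Fintype G] in
/-- an idempotent is contained in the ideals which are not zero in its block -/
theorem idp_ideal {i : Fin n} {b : MonoidAlgebra k G} (hb : e b i ≠ 0) :
    ∃ p q : Fin (d i) → MonoidAlgebra k G, idp e i = ∑ c, p c * b * q c := by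
  obtain ⟨r, s, hrs⟩ : ∃ r s, e b i r s ≠ 0 := by
    by_contra h
    push Not at h
    exact hb (Matrix.ext h)
  refine ⟨fun c => e.symm (Pi.single i (Matrix.single c r 1)),
    fun c => e.symm (Pi.single i (Matrix.single s c (e b i r s)⁻¹)), ?_⟩
  apply e.injective
  rw [map_sum, idp, AlgEquiv.apply_symm_apply]
  ext j : 1
  rw [Finset.sum_apply]
  simp only [map_mul, AlgEquiv.apply_symm_apply, Pi.mul_apply]
  by_cases h : j = i
  · subst h
    simp only [Pi.single_eq_same]
    ext x y
    rw [Matrix.sum_apply, Finset.sum_eq_single x]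
    · by_cases hxy : x = y
      · subst hxy
        rw [Matrix.one_apply_eq]
        rw [Matrix.mul_apply, Finset.sum_eq_single s]
        · rw [Matrix.mul_apply, Finset.sum_eq_single r]
          · rw [Matrix.single_apply_same, Matrix.single_apply_same, one_mul,
              mul_inv_cancel₀ hrs]
          · intro t _ ht
            rw [Matrix.single_apply_of_ne (h := by tauto), zero_mul]
          · simp
        · intro t _ ht
          rw [Matrix.single_apply_of_ne (h := by tauto), mul_zero]
        · simp
      · rw [Matrix.one_apply_ne hxy, Matrix.mul_apply, Finset.sum_eq_zero]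
        intro t _
        rw [Matrix.single_apply_of_ne (h := by tauto), mul_zero]
    · intro t _ ht
      rw [Matrix.mul_assoc, Matrix.mul_apply, Finset.sum_eq_zero]
      intro z _
      rw [Matrix.single_apply_of_ne (h := by tauto), zero_mul]
    · simp
  · simp only [Pi.single_eq_of_ne h, zero_mul, Finset.sum_const_zero]

/-- the action on the column vectors of a block -/
def blk (i : Fin n) : MonoidAlgebra k G →ₐ[k] Module.End k (Fin (d i) → k) :=
  (Matrix.toLinAlgEquiv' (R := k) (n := Fin (d i))).toAlgHom.comp
    ((Pi.evalAlgHom k (fun i => Matrix (Fin (d i)) (Fin (d i)) k) i).comp e.toAlgHom)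

omit [Fintype G] in
theorem blk_surj (i : Fin n) : Function.Surjective (blk e i) := by
  intro T
  obtain ⟨M, rfl⟩ := (Matrix.toLinAlgEquiv' (R := k) (n := Fin (d i))).surjective T
  refine ⟨e.symm (Pi.single i M), ?_⟩
  change Matrix.toLinAlgEquiv' (e (e.symm (Pi.single i M)) i) = _
  rw [AlgEquiv.apply_symm_apply, Pi.single_eq_same]

omit [Fintype G] in
theorem blk_zero {i : Fin n} {a : MonoidAlgebra k G} (h : blk e i a = 0) : e a i = 0 := by
  have h1 : Matrix.toLinAlgEquiv' (e a i) = 0 := h
  rwa [map_eq_zero_iff _ (AlgEquiv.injective _)] at h1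

/-- the representation of the group on a block -/
def rblk (i : Fin n) : Representation k G (Fin (d i) → k) :=
  ((blk e i : MonoidAlgebra k G →ₐ[k] _) : MonoidAlgebra k G →* _).comp (of k G)

omit [Fintype G] in
theorem rblk_apply (i : Fin n) (g : G) : rblk e i g = blk e i (of k G g) := rfl

omit [Fintype G] in
/-- subspaces which are invariant under the group are invariant under all endomorphisms -/
theorem rblk_inv {i : Fin n} {N : Submodule k (Fin (d i) → k)}
    (hN : ∀ g, ∀ v ∈ N, rblk e i g v ∈ N) (T : Module.End k (Fin (d i) → k)) :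
    ∀ v ∈ N, T v ∈ N := by
  obtain ⟨a, rfl⟩ := blk_surj e i T
  induction a using MonoidAlgebra.induction_on with
  | of g => exact hN g
  | add a b ha hb =>
    intro v hv
    rw [map_add, LinearMap.add_apply]
    exact add_mem (ha v hv) (hb v hv)
  | smul r a ha =>
    intro v hv
    rw [map_smul, LinearMap.smul_apply]
    exact N.smul_mem r (ha v hv)

omit [Fintype G] in
theorem rblk_irr (i : Fin n) (hd : NeZero (d i)) : (rblk e i).IsIrreducible := by
  have hne : Nontrivial (Fin (d i) → k) := by
    have : Nonempty (Fin (d i)) := ⟨⟨0, Nat.pos_of_ne_zero hd.ne⟩⟩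
    exact Function.nontrivial
  have : Nontrivial (Subrepresentation (rblk e i)) := by
    refine ⟨⊥, ⊤, fun h => ?_⟩
    have h1 := congrArg Subrepresentation.toSubmodule h
    exact bot_ne_top (α := Submodule k (Fin (d i) → k)) h1
  refine ⟨fun N => ?_⟩
  have hN := rblk_inv e (N := N.toSubmodule) N.apply_mem_toSubmodule
  by_cases h : N.toSubmodule = ⊥
  · exact Or.inl (Subrepresentation.toSubmodule_injective h)
  · right
    apply Subrepresentation.toSubmodule_injective
    obtain ⟨v, hv, hv0⟩ := (Submodule.ne_bot_iff _).1 h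
    change N.toSubmodule = ⊤
    rw [eq_top_iff]
    intro w _
    obtain ⟨j, hj⟩ := Function.ne_iff.1 hv0
    have h1 := hN ((LinearMap.proj j : (Fin (d i) → k) →ₗ[k] k).smulRight ((v j)⁻¹ • w)) v hv
    rw [LinearMap.smulRight_apply, LinearMap.proj_apply, smul_smul, mul_inv_cancel₀ hj,
      one_smul] at h1
    exact h1

end Blocks

/-- **Invariant functions of two points.** -/
theorem na_core [IsAlgClosed k] [CharZero k] {act : G → X → X} (h1 : ∀ x, act 1 x = x)
    (hmul : ∀ g h x, act (g * h) x = act g (act h x)) {B : X → X → k}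
    (hinv : ∀ g x y, B (act g x) (act g y) = B x y)
    (hcl : ∀ a : G → k, (∀ g c, a (g * c * g⁻¹) = a c) → ∀ x y,
      ∑ c, a c * B x (act c x) = ∑ c, a c * B y (act c y))
    (hV : ∀ (V : Type) [AddCommGroup V] [Module k V] [FiniteDimensional k V]
      (ρ : Representation k G V), ρ.IsIrreducible →
        (∃ x : X, ∀ v : V, (∀ s, act s x = x → ρ s v = v) → v = 0) ∨
        ∃ H : Subgroup G, (∀ x y, ∑ h with h ∈ H, B x (act h y) = 0) ∧
          ∃ v : V, v ≠ 0 ∧ ∀ h ∈ H, ρ h v = v) (x : X) : B x x = 0 := by
  obtain ⟨n, d, hd, ⟨e⟩⟩ :=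
    IsSemisimpleRing.exists_algEquiv_pi_matrix_of_isAlgClosed k (MonoidAlgebra k G)
  have e1 : B x x = phi act B x 1 := by
    rw [← map_one (of k G), phi_of, h1]
  rw [e1, ← sum_idp e, map_sum]
  refine Finset.sum_eq_zero fun i _ => ?_
  rcases hV _ (rblk e i) (rblk_irr e i (hd i)) with ⟨x₀, hx₀⟩ | ⟨H, hH, v, hv0, hv⟩
  · -- no invariants of a stabilizer
    have hc : phi act B x (idp e i) = phi act B x₀ (idp e i) :=
      hcl (fun c => (idp e i).coeff c) (fun g c => central_coeff (idp_comm e i) g c) x x₀
    rw [hc]
    set S : Finset G := Finset.univ.filter fun s => act s x₀ = x₀ with hS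
    have hmem : ∀ s, s ∈ S ↔ act s x₀ = x₀ := by
      intro s
      rw [hS, Finset.mem_filter]
      exact ⟨fun h => h.2, fun h => ⟨Finset.mem_univ s, h⟩⟩
    have e2 : blk e i (nrm S) = 0 := by
      refine LinearMap.ext fun v => ?_
      rw [LinearMap.zero_apply]
      apply hx₀
      intro s hs
      rw [rblk_apply, ← Module.End.mul_apply, ← map_mul, nrm, Finset.mul_sum]
      congr 2
      refine Finset.sum_bij (fun t _ => s * t) ?_ ?_ ?_ ?_
      · intro t ht
        rw [hmem] at ht ⊢
        rw [hmul, ht, hs]
      · intro t _ t' _ h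
        exact mul_left_cancel h
      · intro t ht
        rw [hmem] at ht
        refine ⟨s⁻¹ * t, ?_, by group⟩
        rw [hmem, hmul, ht]
        conv_lhs => rw [← hs]
        rw [← hmul, inv_mul_cancel, h1]
      · intro t _
        rw [map_mul]
    have e3 : phi act B x₀ (idp e i * nrm S) = 0 := by
      rw [idp_mul_zero e (blk_zero e e2), map_zero]
    have e4 : ∀ (a : MonoidAlgebra k G), ∀ s ∈ S,
        phi act B x₀ (a * of k G s) = phi act B x₀ a := by
      intro a s hs
      induction a using MonoidAlgebra.induction_on with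
      | of g => rw [← map_mul, phi_of, phi_of, hmul, (hmem s).1 hs]
      | add a b ha hb => rw [add_mul, map_add, map_add, ha, hb]
      | smul r a ha => rw [smul_mul_assoc, map_smul, map_smul, ha]
    rw [nrm, Finset.mul_sum, map_sum, Finset.sum_congr rfl (e4 _), Finset.sum_const,
      nsmul_eq_mul] at e3
    refine (mul_eq_zero.1 e3).resolve_left ?_
    rw [Nat.cast_eq_zero]
    exact Finset.card_ne_zero.2 ⟨1, (hmem 1).2 (h1 x₀)⟩
  · -- invariants of a subgroup
    set N : MonoidAlgebra k G := nrm (Finset.univ.filter fun g => g ∈ H) with hN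
    have e2 : e N i ≠ 0 := by
      intro h
      have e3 : blk e i N = 0 := by
        change Matrix.toLinAlgEquiv' (e N i) = 0
        rw [h, map_zero]
      have e4 : blk e i N v = ((Finset.univ.filter fun g => g ∈ H).card : k) • v := by
        rw [hN, nrm, map_sum, LinearMap.sum_apply, Nat.cast_smul_eq_nsmul, ← Finset.sum_const]
        refine Finset.sum_congr rfl fun g hg => ?_
        exact hv g (Finset.mem_filter.1 hg).2
      rw [e3, LinearMap.zero_apply] at e4
      rcases smul_eq_zero.1 e4.symm with h5 | h5
      · rw [Nat.cast_eq_zero, Finset.card_eq_zero] at h5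
        have : (1 : G) ∈ Finset.univ.filter fun g => g ∈ H :=
          Finset.mem_filter.2 ⟨Finset.mem_univ _, H.one_mem⟩
        rw [h5] at this
        exact Finset.notMem_empty _ this
      · exact hv0 h5
    have e3 : ∀ a b : MonoidAlgebra k G, phi act B x (a * N * b) = 0 := by
      intro a b
      induction a using MonoidAlgebra.induction_on with
      | add a a' ha ha' => rw [add_mul, add_mul, map_add, ha, ha', add_zero]
      | smul r a ha => rw [smul_mul_assoc, smul_mul_assoc, map_smul, ha, smul_zero]
      | of g =>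
        induction b using MonoidAlgebra.induction_on with
        | add a a' ha ha' => rw [mul_add, map_add, ha, ha', add_zero]
        | smul r a ha => rw [mul_smul_comm, map_smul, ha, smul_zero]
        | of g' =>
          rw [hN, nrm, Finset.mul_sum, Finset.sum_mul, map_sum]
          have e4 := hH (act g⁻¹ x) (act g' x)
          rw [← e4]
          refine Finset.sum_congr rfl fun h _ => ?_
          rw [← map_mul, ← map_mul, phi_of, hmul, hmul, ← hinv g (act g⁻¹ x), ← hmul g g⁻¹,
            mul_inv_cancel, h1]
    obtain ⟨p, q, hpq⟩ := idp_ideal e e2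
    rw [hpq, map_sum]
    exact Finset.sum_eq_zero fun c _ => e3 _ _

end Pool.Agent.FPZ
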