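import Pool.Agent.FPZ.AbCov5
import Pool.Agent.FPZ.Na1

/-!
# Bilinear forms which are invariant under a group of automorphisms of a curve
-/

set_option autoImplicit false

noncomputable section

namespace Pool.Agent.FPZ

open Pool.Agent.ZCyc Pool.Agent.Dess Pool.Agent.Dess4 IntermediateField
open scoped Classical

variable {k F : Type} [Field k] [Field F] [Algebra k F]

/-- the additive extension of a function of points to divisors -/
def sm (f : Place k F → ℚ) : (Place k F →₀ ℤ) →+ ℚ :=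
  Finsupp.liftAddHom fun p => (AddMonoidHom.mulRight (f p)).comp (Int.castAddHom ℚ)

theorem sm_single (f : Place k F → ℚ) (p : Place k F) (n : ℤ) :
    sm f (Finsupp.single p n) = n * f p := by
  rw [sm, Finsupp.liftAddHom_apply_single]
  rfl

theorem sm_eq (f : Place k F → ℚ) (A : Place k F →₀ ℤ) :
    sm f A = A.sum fun p n => (n : ℚ) * f p := by
  rw [sm, Finsupp.liftAddHom_apply]
  rfl

theorem sm_add (f g : Place k F → ℚ) (A : Place k F →₀ ℤ) :
    sm (fun p => f p + g p) A = sm f A + sm g A := by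
  rw [sm_eq, sm_eq, sm_eq, Finsupp.sum, Finsupp.sum, Finsupp.sum, ← Finset.sum_add_distrib]
  exact Finset.sum_congr rfl fun _ _ => mul_add _ _ _

theorem sm_sum {ι : Type} (s : Finset ι) (f : ι → Place k F → ℚ) (A : Place k F →₀ ℤ) :
    sm (fun p => ∑ i ∈ s, f i p) A = ∑ i ∈ s, sm (f i) A := by
  simp only [sm_eq, Finsupp.sum]
  rw [Finset.sum_comm]
  exact Finset.sum_congr rfl fun _ _ => Finset.mul_sum _ _ _

/-- a function of points whose additive extension vanishes on the divisors which are rationally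
equivalent to zero -/
def Lin (f : Place k F → ℚ) : Prop :=
  ∀ A : Place k F →₀ ℤ, (unq A ∈ RatEq (k := k) fun _ : Unit => F) → sm f A = 0

theorem Lin.add {f g : Place k F → ℚ} (hf : Lin f) (hg : Lin g) : Lin fun p => f p + g p :=
  fun A hA => by rw [sm_add, hf A hA, hg A hA, add_zero]

theorem Lin.sum {ι : Type} {s : Finset ι} {f : ι → Place k F → ℚ} (h : ∀ i ∈ s, Lin (f i)) :
    Lin fun p => ∑ i ∈ s, f i p :=
  fun A hA => by rw [sm_sum, Finset.sum_eq_zero fun i hi => h i hi A hA]

theorem sm_mor (l : Quo k F →+ ℚ) (Φ : (Unit → Place k F) → Bool → Place k F)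
    (A : Place k F →₀ ℤ) :
    sm (fun p => l (QuotientAddGroup.mk (Finsupp.single (Φ fun _ => p) 1))) A =
      l (QuotientAddGroup.mk ((unq A).mapDomain Φ)) := by
  induction A using Finsupp.induction_linear with
  | zero => simp
  | add a b ha hb =>
    rw [map_add, ha, hb, map_add, Finsupp.mapDomain_add, QuotientAddGroup.mk_add, map_add]
  | single p n =>
    rw [sm_single, unq_single, Finsupp.mapDomain_single]
    have h : Finsupp.single (Φ fun _ => p) n = n • Finsupp.single (Φ fun _ => p) (1 : ℤ) := by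
      rw [Finsupp.smul_single, smul_eq_mul, mul_one]
    rw [h, QuotientAddGroup.mk_zsmul, map_zsmul, zsmul_eq_mul]

theorem lin_mor (l : Quo k F →+ ℚ) {Φ : (Unit → Place k F) → Bool → Place k F}
    (hΦ : IsMor (L := fun _ : Unit => F) (L' := fun _ : Bool => F) Φ) :
    Lin fun p => l (QuotientAddGroup.mk (Finsupp.single (Φ fun _ => p) 1)) := by
  intro A hA
  rw [sm_mor]
  have h : (QuotientAddGroup.mk ((unq A).mapDomain Φ) : Quo k F) = 0 := by
    rw [QuotientAddGroup.eq_zero_iff]
    exact ratEq_le_torGroup (map_mem Φ hΦ hA)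
  rw [h, map_zero]

variable {E : IntermediateField k F}

theorem isMor_pair {α β : Place k F → Place k F}
    (hα : (∃ g : F ≃ₐ[E] F, ∀ v, α v = gact E g v) ∨ ∃ p, ∀ v, α v = p)
    (hβ : (∃ g : F ≃ₐ[E] F, ∀ v, β v = gact E g v) ∨ ∃ p, ∀ v, β v = p) :
    IsMor (L := fun _ : Unit => F) (L' := fun _ : Bool => F)
      fun a => pair (L := fun _ => F) (α (a ())) (β (a ())) := by
  have key : ∀ {γ : Place k F → Place k F},
      ((∃ g : F ≃ₐ[E] F, ∀ v, γ v = gact E g v) ∨ ∃ p, ∀ v, γ v = p) →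
      (∃ p, ∀ a : Unit → Place k F, γ (a ()) = p) ∨ ∃ (_ : Unit) (f : F →ₐ[k] F),
        ∀ a : Unit → Place k F, (γ (a ())).ring = (a ()).ring.comap (f : F →+* F) := by
    rintro γ (⟨g, hg⟩ | ⟨p, hp⟩)
    · right
      refine ⟨(), ((g.restrictScalars k).symm : F →ₐ[k] F), fun a => ?_⟩
      rw [hg]
      rfl
    · exact Or.inl ⟨p, fun a => hp _⟩
  intro b
  cases b
  · rcases key hα with ⟨p, hp⟩ | ⟨-, f, hf⟩
    · exact Or.inl ⟨p, hp⟩
    · exact Or.inr ⟨(), f, hf⟩
  · rcases key hβ with ⟨p, hp⟩ | ⟨-, f, hf⟩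
    · exact Or.inl ⟨p, hp⟩
    · exact Or.inr ⟨(), f, hf⟩

/-- A symmetric form on the points which is invariant under the group and linear with respect to
rational equivalence, also on the graphs of the elements of the group. -/
structure GForm (E : IntermediateField k F) (b : Place k F → Place k F → ℚ) : Prop where
  symm : ∀ p q, b p q = b q p
  inv : ∀ (g : F ≃ₐ[E] F) (p q : Place k F), b (gact E g p) (gact E g q) = b p q
  lin : ∀ q, Lin fun p => b p q
  diag : ∀ c : F ≃ₐ[E] F, Lin fun p => b p (gact E c p)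

theorem lin_pair (l : Quo k F →+ ℚ) {α β : Place k F → Place k F}
    (hα : (∃ g : F ≃ₐ[E] F, ∀ v, α v = gact E g v) ∨ ∃ p, ∀ v, α v = p)
    (hβ : (∃ g : F ≃ₐ[E] F, ∀ v, β v = gact E g v) ∨ ∃ p, ∀ v, β v = p) :
    Lin fun p => l (bt (α p) (β p)) := by
  have h := lin_mor l (isMor_pair (E := E) hα hβ)
  unfold bt
  exact h

variable [Fintype (F ≃ₐ[E] F)]

/-- the form which is given by a linear functional on the zero-cycles -/
def bfo (E : IntermediateField k F) [Fintype (F ≃ₐ[E] F)] (l : Quo k F →+ ℚ)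
    (p q : Place k F) : ℚ :=
  ∑ g : F ≃ₐ[E] F, (l (bt (gact E g p) (gact E g q)) + l (bt (gact E g q) (gact E g p)))

theorem bfo_form (l : Quo k F →+ ℚ) : GForm E (bfo E l) where
  symm p q := by
    unfold bfo
    exact Finset.sum_congr rfl fun g _ => add_comm _ _
  inv h p q := by
    unfold bfo
    refine Fintype.sum_equiv (Equiv.mulRight h) _ _ fun g => ?_
    rw [Equiv.coe_mulRight, gact_mul, gact_mul]
  lin q := by
    unfold bfo
    refine Lin.sum fun g _ => Lin.add ?_ ?_
    · exact lin_pair (E := E) l (α := fun p => gact E g p) (β := fun _ => gact E g q)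
        (Or.inl ⟨g, fun v => rfl⟩) (Or.inr ⟨gact E g q, fun v => rfl⟩)
    · exact lin_pair (E := E) l (α := fun _ => gact E g q) (β := fun p => gact E g p)
        (Or.inr ⟨gact E g q, fun v => rfl⟩) (Or.inl ⟨g, fun v => rfl⟩)
  diag c := by
    unfold bfo
    refine Lin.sum fun g _ => Lin.add ?_ ?_
    · exact lin_pair (E := E) l (α := fun p => gact E g p) (β := fun p => gact E g (gact E c p))
        (Or.inl ⟨g, fun v => rfl⟩) (Or.inl ⟨g * c, fun v => (gact_mul g c v).symm⟩)
    · exact lin_pair (E := E) l (α := fun p => gact E g (gact E c p)) (β := fun p => gact E g p)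
        (Or.inl ⟨g * c, fun v => (gact_mul g c v).symm⟩) (Or.inl ⟨g, fun v => rfl⟩)


/-- the value of the functional on the cycle of an orbit -/
theorem bfo_fp (l : Quo k F →+ ℚ) (v : Place k F) :
    2 * l (QuotientAddGroup.mk (fp (orb E v))) =
      ∑ c : F ≃ₐ[E] F, bfo E l v (gact E c v) - Fintype.card (F ≃ₐ[E] F) * bfo E l v v := by
  have h1 : ∀ c : F ≃ₐ[E] F, l (QuotientAddGroup.mk (orb2 E c v)) =
      ∑ g : F ≃ₐ[E] F, l (bt (gact E g v) (gact E (g * c) v)) := by
    intro c
    rw [orb2, QuotientAddGroup.mk_sum, map_sum]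
    rfl
  have h2 : ∑ c : F ≃ₐ[E] F, bfo E l v (gact E c v) =
      2 * ∑ c : F ≃ₐ[E] F, l (QuotientAddGroup.mk (orb2 E c v)) := by
    simp only [bfo, h1, Finset.sum_add_distrib, ← gact_mul]
    rw [two_mul]
    congr 1
    have h3 : ∀ c : F ≃ₐ[E] F, ∑ g : F ≃ₐ[E] F, l (bt (gact E (g * c) v) (gact E g v)) =
        ∑ g : F ≃ₐ[E] F, l (bt (gact E g v) (gact E (g * c⁻¹) v)) := by
      intro c
      refine Fintype.sum_equiv (Equiv.mulRight c) _ _ fun g => ?_
      rw [Equiv.coe_mulRight, mul_inv_cancel_right]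
    simp only [h3]
    exact Fintype.sum_equiv (Equiv.inv _) _ _ fun c => rfl
  have h3 : bfo E l v v = 2 * l (QuotientAddGroup.mk (orb2 E 1 v)) := by
    rw [h1, bfo, Finset.mul_sum]
    refine Finset.sum_congr rfl fun g _ => ?_
    rw [mul_one]
    ring
  rw [h2, h3, fp_orb, QuotientAddGroup.mk_sum, map_sum]
  simp only [QuotientAddGroup.mk_sub, map_sub, Finset.sum_sub_distrib, Finset.sum_const,
    Finset.card_univ, nsmul_eq_mul]
  ring

end Pool.Agent.FPZ
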