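import Pool.Agent.FPZ.Na2

/-!
# The value of an invariant form on the diagonal
-/

set_option autoImplicit false

noncomputable section

namespace Pool.Agent.FPZ

open Pool.Agent.ZCyc Pool.Agent.Dess Pool.Agent.Dess4 IntermediateField
open scoped Classical

variable {k F : Type} [Field k] [Field F] [Algebra k F]

theorem sm_orb {E : IntermediateField k F} [Fintype (F ≃ₐ[E] F)] (f : Place k F → ℚ)
    (V : Place k F) : sm f (orb E V) = ∑ g : F ≃ₐ[E] F, f (gact E g V) := by
  rw [orb, map_sum]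
  refine Finset.sum_congr rfl fun g _ => ?_
  rw [sm_single, Int.cast_one, one_mul]

/-- The sum of the values of an invariant form over the orbits of the subgroup `H` is the average of
the values over the orbits of the group. -/
def Good (E : IntermediateField k F) [Fintype (F ≃ₐ[E] F)] (H : Subgroup (F ≃ₐ[E] F)) : Prop :=
  ∀ b : Place k F → Place k F → ℚ, GForm E b → ∀ x y : Place k F,
    (Fintype.card (F ≃ₐ[E] F) : ℚ) * ∑ h with h ∈ H, b x (gact E h y) =
      ((Finset.univ.filter fun h => h ∈ H).card : ℚ) * ∑ g : F ≃ₐ[E] F, b x (gact E g y)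

variable [IsAlgClosed k] [CharZero k] {u : F}
  [FiniteDimensional (adjoin k {u}) F] [IsGalois (adjoin k {u}) F]

theorem lin_orb (hu : Transcendental k u) {f : Place k F → ℚ} (hf : Lin f) (V W : Place k F) :
    ∑ g : F ≃ₐ[adjoin k {u}] F, f (gact (adjoin k {u}) g V) =
      ∑ g : F ≃ₐ[adjoin k {u}] F, f (gact (adjoin k {u}) g W) := by
  have h := hf _ (orb_equiv hu rfl V W)
  rw [map_sub, sm_orb, sm_orb] at h
  linarith

/-- the average of a form does not depend on the points -/
theorem form_avg (hu : Transcendental k u) {b : Place k F → Place k F → ℚ}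
    (hb : GForm (adjoin k {u}) b) (x y x' y' : Place k F) :
    ∑ g : F ≃ₐ[adjoin k {u}] F, b x (gact (adjoin k {u}) g y) =
      ∑ g : F ≃ₐ[adjoin k {u}] F, b x' (gact (adjoin k {u}) g y') := by
  have h1 : ∀ x y y' : Place k F, ∑ g : F ≃ₐ[adjoin k {u}] F, b x (gact (adjoin k {u}) g y) =
      ∑ g : F ≃ₐ[adjoin k {u}] F, b x (gact (adjoin k {u}) g y') := by
    intro x y y'
    simp only [hb.symm x]
    exact lin_orb hu (hb.lin x) y y'
  have h2 : ∀ x y : Place k F, ∑ g : F ≃ₐ[adjoin k {u}] F, b x (gact (adjoin k {u}) g y) =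
      ∑ g : F ≃ₐ[adjoin k {u}] F, b y (gact (adjoin k {u}) g x) := by
    intro x y
    refine Fintype.sum_equiv (Equiv.inv _) _ _ fun g => ?_
    rw [Equiv.inv_apply, hb.symm y, ← hb.inv g (gact (adjoin k {u}) g⁻¹ x), ← gact_mul,
      mul_inv_cancel, gact_one]
  rw [h1 x y x', h2 x x', h1 x' x y']

/-- **The value of an invariant form on the diagonal.** -/
theorem form_value (hu : Transcendental k u) {b : Place k F → Place k F → ℚ}
    (hb : GForm (adjoin k {u}) b)
    (hV : ∀ (V : Type) [AddCommGroup V] [Module k V] [FiniteDimensional k V]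
      (ρ : Representation k (F ≃ₐ[adjoin k {u}] F) V), ρ.IsIrreducible →
        (∃ x : Place k F, ∀ v : V, (∀ s, gact (adjoin k {u}) s x = x → ρ s v = v) → v = 0) ∨
        ∃ H : Subgroup (F ≃ₐ[adjoin k {u}] F), Good (adjoin k {u}) H ∧
          ∃ v : V, v ≠ 0 ∧ ∀ h ∈ H, ρ h v = v) (x : Place k F) :
    (Fintype.card (F ≃ₐ[adjoin k {u}] F) : ℚ) * b x x =
      ∑ g : F ≃ₐ[adjoin k {u}] F, b x (gact (adjoin k {u}) g x) := by
  set n : ℚ := (Fintype.card (F ≃ₐ[adjoin k {u}] F) : ℚ) with hn
  set N : ℚ := ∑ g : F ≃ₐ[adjoin k {u}] F, b x (gact (adjoin k {u}) g x) with hN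
  have hcore := na_core (k := k) (G := F ≃ₐ[adjoin k {u}] F) (X := Place k F)
    (act := gact (adjoin k {u})) gact_one gact_mul
    (B := fun p q => ((n * b p q - N : ℚ) : k)) ?_ ?_ ?_ x
  · have h1 : n * b x x - N = 0 := by exact_mod_cast hcore
    linarith
  · intro g p q
    rw [hb.inv]
  · -- class functions
    intro a ha p q
    have key : ∀ p : Place k F, (n : k) * ∑ c : F ≃ₐ[adjoin k {u}] F,
        a c * (b p (gact (adjoin k {u}) c p) : k) =
        ∑ c : F ≃ₐ[adjoin k {u}] F, a c * ((∑ g : F ≃ₐ[adjoin k {u}] F,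
          b (gact (adjoin k {u}) g p) (gact (adjoin k {u}) c (gact (adjoin k {u}) g p)) : ℚ) :
            k) := by
      intro p
      have h1 : ∀ g : F ≃ₐ[adjoin k {u}] F, ∑ c : F ≃ₐ[adjoin k {u}] F,
          a c * (b p (gact (adjoin k {u}) c p) : k) = ∑ c : F ≃ₐ[adjoin k {u}] F,
          a c * (b (gact (adjoin k {u}) g p)
            (gact (adjoin k {u}) c (gact (adjoin k {u}) g p)) : k) := by
        intro g
        refine Fintype.sum_equiv (MulAut.conj g).toEquiv _ _ fun c => ?_
        change _ = a (g * c * g⁻¹) * _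
        rw [ha]
        congr 2
        change _ = b _ (gact _ (g * c * g⁻¹) _)
        rw [← gact_mul, inv_mul_cancel_right, gact_mul, hb.inv]
      have h2 : (n : k) * ∑ c : F ≃ₐ[adjoin k {u}] F,
          a c * (b p (gact (adjoin k {u}) c p) : k) = ∑ g : F ≃ₐ[adjoin k {u}] F,
            ∑ c : F ≃ₐ[adjoin k {u}] F, a c * (b (gact (adjoin k {u}) g p)
              (gact (adjoin k {u}) c (gact (adjoin k {u}) g p)) : k) := by
        rw [Finset.sum_congr rfl fun g _ => (h1 g).symm, Finset.sum_const, Finset.card_univ,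
          nsmul_eq_mul, hn, Rat.cast_natCast]
      rw [h2, Finset.sum_comm]
      refine Finset.sum_congr rfl fun c _ => ?_
      rw [← Finset.mul_sum, Rat.cast_sum]
    have h3 : ∀ p : Place k F, ∑ c : F ≃ₐ[adjoin k {u}] F,
        a c * ((n * b p (gact (adjoin k {u}) c p) - N : ℚ) : k) =
        (n : k) * ∑ c : F ≃ₐ[adjoin k {u}] F, a c * (b p (gact (adjoin k {u}) c p) : k) -
          (N : k) * ∑ c : F ≃ₐ[adjoin k {u}] F, a c := by
      intro p
      rw [Finset.mul_sum, Finset.mul_sum, ← Finset.sum_sub_distrib]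
      refine Finset.sum_congr rfl fun c _ => ?_
      push_cast
      ring
    rw [h3, h3, key, key]
    congr 1
    refine Finset.sum_congr rfl fun c _ => ?_
    rw [lin_orb hu (hb.diag c) p q]
  · -- the representations
    intro V _ _ _ ρ hρ
    rcases hV V ρ hρ with h | ⟨H, hH, v, hv0, hv⟩
    · exact Or.inl h
    · refine Or.inr ⟨H, fun p q => ?_, v, hv0, hv⟩
      have h1 := hH b hb p q
      rw [form_avg hu hb p q x x, ← hN, ← hn] at h1
      have h2 : ∑ h with h ∈ H, (n * b p (gact (adjoin k {u}) h q) - N) = 0 := by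
        rw [Finset.sum_sub_distrib, ← Finset.mul_sum, h1, Finset.sum_const, nsmul_eq_mul, sub_self]
      rw [← Rat.cast_sum, h2, Rat.cast_zero]

/-- **A criterion for torsion.** -/
theorem fp_good (hu : Transcendental k u)
    (hV : ∀ (V : Type) [AddCommGroup V] [Module k V] [FiniteDimensional k V]
      (ρ : Representation k (F ≃ₐ[adjoin k {u}] F) V), ρ.IsIrreducible →
        (∃ x : Place k F, ∀ v : V, (∀ s, gact (adjoin k {u}) s x = x → ρ s v = v) → v = 0) ∨
        ∃ H : Subgroup (F ≃ₐ[adjoin k {u}] F), Good (adjoin k {u}) H ∧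
          ∃ v : V, v ≠ 0 ∧ ∀ h ∈ H, ρ h v = v) : FPTor k F := by
  have hF : IsCurve k F := ⟨u, hu, inferInstance⟩
  intro K hK
  obtain ⟨K₀, hK₀⟩ := exists_can hF hu
  refine fp_canonical hF ⟨u, hu, hK₀⟩ hK ?_
  obtain ⟨V, -⟩ := exists_place hu 0
  have h0 : fp (orb (adjoin k {u}) V) ∈ torGroup (k := k) fun _ : Bool => F := by
    rw [← QuotientAddGroup.eq_zero_iff]
    by_contra hne
    obtain ⟨l, hl⟩ := exists_functional (fun n x hn hx => quo_tf (k := k) (F := F) hn hx) hne
    have h1 := form_value hu (bfo_form (E := adjoin k {u}) l) hV V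
    have h2 := bfo_fp (E := adjoin k {u}) l V
    rw [← h1, sub_self] at h2
    exact hl ((mul_eq_zero.1 h2).resolve_left two_ne_zero)
  have h1 : _ ∈ torGroup (k := k) fun _ : Bool => F :=
    fp_equiv (inv_equiv hu (can_inv hu hK₀) V)
  have h2 := add_mem h1 (zsmul_mem h0 (dgq K₀ ^ 2))
  rw [sub_add_cancel] at h2
  exact tor_of_zsmul (pow_ne_zero 2 (by exact_mod_cast Fintype.card_ne_zero)) h2

end Pool.Agent.FPZ
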