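import Pool.Agent.FPZ.Na3
import Pool.Agent.Rank22.Norm

/-!
# Intermediate coverings and invariant forms
-/

set_option autoImplicit false

noncomputable section

namespace Pool.Agent.FPZ

open Pool.Agent.ZCyc Pool.Agent.Dess Pool.Agent.Dess4 Pool.Agent.Rank22 IntermediateField Module
open scoped Classical

section Gen

variable {k F M : Type} [Field k] [Field F] [Algebra k F] [Field M] [Algebra k M]

/-- it suffices to consider the divisors of functions -/
theorem lin_of_fun [IsAlgClosed k] [CharZero k] (hF : IsCurve k F) {f : Place k F → ℚ}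
    (h : ∀ (g : F) (A : Place k F →₀ ℤ), g ≠ 0 → (∀ v, HasOrd v g (A v)) → sm f A = 0) :
    Lin f := by
  intro A hA
  obtain ⟨m, G, hm, hG0, hG⟩ := ratEq_fun hF hA
  have h1 := h G ((m : ℤ) • A) hG0 fun v => by
    have h2 := hG v
    have h3 : (unq A) (fun _ => v) = A v := by
      change (A.mapDomain fun p (_ : Unit) => p) _ = _
      exact Finsupp.mapDomain_apply (fun p q h => congrFun h ()) A v
    rw [h3] at h2
    rwa [Finsupp.smul_apply, smul_eq_mul]
  rw [map_zsmul, zsmul_eq_mul] at h1
  have h2 : ((m : ℤ) : ℚ) ≠ 0 := by exact_mod_cast hm.ne'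
  exact (mul_eq_zero.1 h1).resolve_left h2

theorem sm_map (π : Place k M → Place k F) (f : Place k F → ℚ) (A : Place k M →₀ ℤ) :
    sm f (A.mapDomain π) = sm (fun p => f (π p)) A := by
  induction A using Finsupp.induction_linear with
  | zero => simp
  | add a b ha hb => rw [Finsupp.mapDomain_add, map_add, map_add, ha, hb]
  | single p n => rw [Finsupp.mapDomain_single, sm_single, sm_single]

/-- Symmetric forms on the curve are determined by their values on the diagonal. -/
def Flat (k F : Type) [Field k] [Field F] [Algebra k F] : Prop :=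
  ∀ B : Place k F → Place k F → ℚ, (∀ p q, B p q = B q p) → (∀ q, Lin fun p => B p q) →
    (Lin fun p => B p p) → ∀ p q, 2 * B p q = B p p + B q q

end Gen

variable {k F : Type} [Field k] [Field F] [Algebra k F] [IsAlgClosed k] [CharZero k] {u : F}
  [FiniteDimensional (adjoin k {u}) F] [IsGalois (adjoin k {u}) F]
  (L : IntermediateField (adjoin k {u}) F)

/-- the inclusion of an intermediate field -/
def incl : L →ₐ[k] F := L.val.restrictScalars k

theorem exists_fix (hF : IsCurve k F) {π : Place k F → Place k L}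
    (hπ : ∀ V, V.ring.comap (incl L : L →+* F) = (π V).ring) {V W : Place k F} (h : π V = π W) :
    ∃ s ∈ L.fixingSubgroup, gact (adjoin k {u}) s V = W := by
  have h1 : FiniteDimensional (L.restrictScalars k) F := inferInstanceAs (FiniteDimensional L F)
  have h2 : IsGalois (L.restrictScalars k) F := inferInstanceAs (IsGalois L F)
  obtain ⟨q, hq, hqV⟩ := galois_trans hF (L.restrictScalars k) V W (by
    intro f hf
    have h3 : ∀ U : Place k F, f ∈ U.ring ↔ (⟨f, hf⟩ : L) ∈ (π U).ring := by
      intro U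
      rw [← hπ U]
      rfl
    rw [h3, h3, h])
  have hq' : ∀ x : adjoin k {u}, q (algebraMap _ F x) = algebraMap _ F x := fun x =>
    hq _ (L.algebraMap_mem x)
  refine ⟨AlgEquiv.ofRingEquiv (f := q.toRingEquiv) hq', ?_, ?_⟩
  · rw [IntermediateField.mem_fixingSubgroup_iff]
    intro x hx
    exact hq x hx
  · rw [← hqV]
    rfl

omit [IsAlgClosed k] [CharZero k] [IsGalois (adjoin k {u}) F] in
/-- translations of sums over a subgroup -/
theorem sum_coset (H : Subgroup (F ≃ₐ[adjoin k {u}] F)) {s : F ≃ₐ[adjoin k {u}] F} (hs : s ∈ H)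
    (φ : (F ≃ₐ[adjoin k {u}] F) → ℚ) :
    ∑ h with h ∈ H, φ (h * s) = ∑ h with h ∈ H, φ h := by
  refine Finset.sum_equiv (Equiv.mulRight s) ?_ fun h _ => rfl
  intro h
  rw [Finset.mem_filter, Finset.mem_filter, Equiv.coe_mulRight, H.mul_mem_cancel_right hs]
  simp

section Down

variable {L}

/-- the sum of the values of a function over the points above a point -/
def dn (ext : Place k L → Place k F) (f : Place k F → ℚ) (w : Place k L) : ℚ :=
  ∑ h with h ∈ L.fixingSubgroup, f (gact (adjoin k {u}) h (ext w))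

variable {π : Place k F → Place k L} {ext : Place k L → Place k F}
  (hF : IsCurve k F) (hL : IsCurve k L)
  (hπ : ∀ V, V.ring.comap (incl L : L →+* F) = (π V).ring) (hext : ∀ w, π (ext w) = w)

include hF hπ hext in
theorem dn_eq (f : Place k F → ℚ) (V : Place k F) :
    ∑ h with h ∈ L.fixingSubgroup, f (gact (adjoin k {u}) h V) = dn ext f (π V) := by
  obtain ⟨s, hs, hsV⟩ := exists_fix L hF hπ (V := V) (W := ext (π V)) (hext _).symm
  rw [dn, ← sum_coset _ hs]
  refine Finset.sum_congr rfl fun h _ => ?_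
  rw [← hsV, gact_mul]

include hF hL hπ hext in
/-- **Linear functions on the intermediate covering.** -/
theorem lin_dn {f : Place k F → ℚ} (hf : Lin f) : Lin (dn ext f) := by
  refine lin_of_fun hL fun g A hg hA => ?_
  have hφg : incl L g ≠ 0 := (_root_.map_ne_zero _).2 hg
  obtain ⟨A', hA'⟩ := exists_div hF hφg
  have e1 : ∀ h ∈ L.fixingSubgroup, A'.mapDomain (gact (adjoin k {u}) h) = A' := by
    intro h hh
    ext w
    have h2 : w = gact (adjoin k {u}) h (gact (adjoin k {u}) h⁻¹ w) := by
      rw [← gact_mul, mul_inv_cancel, gact_one]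
    have h3 : Function.Injective (gact (adjoin k {u}) h) := by
      intro a b hab
      have := congrArg (gact (adjoin k {u}) h⁻¹) hab
      rwa [← gact_mul, ← gact_mul, inv_mul_cancel, gact_one, gact_one] at this
    conv_lhs => rw [h2]
    rw [Finsupp.mapDomain_apply h3]
    have h4 : (h⁻¹ : F ≃ₐ[adjoin k {u}] F).restrictScalars k (incl L g) = incl L g :=
      (IntermediateField.mem_fixingSubgroup_iff _ _).1 (inv_mem hh) (g : F) g.2
    exact hasOrd_unique hF hφg (hA' _) (ord_map_fix _ h4 (hA' w))
  have e2 : sm f A' = 0 := hf A' (unq_div_mem hF hφg hA')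
  have e3 : sm (fun p => ∑ h with h ∈ L.fixingSubgroup, f (gact (adjoin k {u}) h p)) A' = 0 := by
    rw [sm_sum, Finset.sum_eq_zero]
    intro h hh
    rw [← sm_map, e1 h (Finset.mem_filter.1 hh).2, e2]
  have e4 : sm (dn ext f) (A'.mapDomain π) = 0 := by
    rw [sm_map, ← e3]
    congr 2
    funext p
    exact (dn_eq hF hπ hext f p).symm
  have e5 : A'.mapDomain π = (finrank (incl L).fieldRange F : ℤ) • A := by
    ext w
    obtain ⟨S, hS, -⟩ := fibre_sum hL hF (incl L) π hπ w
    rw [mapDomain_fibre π A' hS, sum_pull hL hF (incl L) hπ hS hg (hA w) fun W _ => hA' W,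
      Finsupp.smul_apply, smul_eq_mul, mul_comm]
  rw [e5, map_zsmul, zsmul_eq_mul] at e4
  refine (mul_eq_zero.1 e4).resolve_left ?_
  have h1 : FiniteDimensional (incl L).fieldRange F := by
    have hle : adjoin k {u} ≤ (incl L).fieldRange := by
      rw [adjoin_simple_le_iff]
      exact ⟨algebraMap (adjoin k {u}) L ⟨u, mem_adjoin_simple_self k u⟩, rfl⟩
    let _ : Algebra (adjoin k {u}) (incl L).fieldRange := (inclusion hle).toRingHom.toAlgebra
    have : IsScalarTower (adjoin k {u}) (incl L).fieldRange F := IsScalarTower.of_algebraMap_eq' rfl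
    exact FiniteDimensional.right (adjoin k {u}) (incl L).fieldRange F
  have h2 : 0 < finrank (incl L).fieldRange F := finrank_pos
  exact_mod_cast h2.ne'

include hF hL hπ hext in
/-- **Intermediate coverings with flat forms.** -/
theorem good_of_flat (hu : Transcendental k u) (hflat : Flat k L) :
    Good (adjoin k {u}) L.fixingSubgroup := by
  intro b hb x y
  set H := L.fixingSubgroup with hH
  set m : ℚ := ((Finset.univ.filter fun h : F ≃ₐ[adjoin k {u}] F => h ∈ H).card : ℚ) with hm
  set n : ℚ := (Fintype.card (F ≃ₐ[adjoin k {u}] F) : ℚ) with hn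
  have hm0 : m ≠ 0 := by
    rw [hm, Nat.cast_ne_zero]
    exact Finset.card_ne_zero.2 ⟨1, Finset.mem_filter.2 ⟨Finset.mem_univ _, H.one_mem⟩⟩
  have hn0 : n ≠ 0 := by
    rw [hn, Nat.cast_ne_zero]
    exact Fintype.card_ne_zero
  set N : ℚ := ∑ g : F ≃ₐ[adjoin k {u}] F, b x (gact (adjoin k {u}) g y) with hN
  -- the form on the intermediate covering
  set B : Place k L → Place k L → ℚ := fun w w' =>
    dn ext (fun p => dn ext (fun q => b p q) w') w with hB
  have hBval : ∀ p q : Place k F, B (π p) (π q) = ∑ h with h ∈ H, ∑ h' with h' ∈ H,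
      b (gact (adjoin k {u}) h p) (gact (adjoin k {u}) h' q) := by
    intro p q
    change dn ext (fun p => dn ext (fun q => b p q) (π q)) (π p) = _
    rw [← dn_eq hF hπ hext]
    refine Finset.sum_congr rfl fun h _ => ?_
    rw [← dn_eq hF hπ hext]
  have hBsymm : ∀ w w', B w w' = B w' w := by
    intro w w'
    rw [← hext w, ← hext w', hBval, hBval, Finset.sum_comm]
    exact Finset.sum_congr rfl fun h _ => Finset.sum_congr rfl fun h' _ => hb.symm _ _
  have hBlin : ∀ w', Lin fun w => B w w' := by
    intro w'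
    refine lin_dn hF hL hπ hext (f := fun p => dn ext (fun q => b p q) w') ?_
    exact Lin.sum fun h _ => hb.lin _
  set f : Place k F → ℚ := fun p => ∑ c with c ∈ H, b p (gact (adjoin k {u}) c p) with hf
  have hfl : Lin f := Lin.sum fun c _ => hb.diag c
  have hBd : ∀ p : Place k F, B (π p) (π p) = ∑ h with h ∈ H, f (gact (adjoin k {u}) h p) := by
    intro p
    rw [hBval]
    refine Finset.sum_congr rfl fun h hh => ?_
    rw [hf, ← sum_coset H (Finset.mem_filter.1 hh).2]
    refine Finset.sum_congr rfl fun c _ => ?_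
    rw [gact_mul]
  have hBdiag : Lin fun w => B w w := by
    have h1 : (fun w => B w w) = dn ext f := by
      funext w
      conv_lhs => rw [← hext w]
      rw [hBd]
      rfl
    rw [h1]
    exact lin_dn hF hL hπ hext hfl
  have hfl2 := hflat B hBsymm hBlin hBdiag
  -- one of the two sums
  have hone : ∀ p q : Place k F, B (π p) (π q) = m * ∑ h with h ∈ H,
      b p (gact (adjoin k {u}) h q) := by
    intro p q
    rw [hBval, hm, ← nsmul_eq_mul, ← Finset.sum_const]
    refine Finset.sum_congr rfl fun h hh => ?_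
    have hh' := (Finset.mem_filter.1 hh).2
    refine Finset.sum_equiv (Equiv.mulLeft h⁻¹) ?_ ?_
    · intro h'
      rw [Finset.mem_filter, Finset.mem_filter, Equiv.coe_mulLeft,
        H.mul_mem_cancel_left (inv_mem hh')]
      simp
    · intro h' _
      rw [Equiv.coe_mulLeft, gact_mul, ← hb.inv h p, ← gact_mul h, mul_inv_cancel, gact_one]
  -- averages
  have havg : ∀ p q : Place k F, ∑ g : F ≃ₐ[adjoin k {u}] F,
      b p (gact (adjoin k {u}) g q) = N := fun p q => form_avg hu hb p q x y
  have hsum : ∀ q : Place k F, ∑ g : F ≃ₐ[adjoin k {u}] F,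
      B (π (gact (adjoin k {u}) g x)) (π q) = m ^ 2 * N := by
    intro q
    simp only [hone]
    rw [← Finset.mul_sum, Finset.sum_comm, sq, mul_assoc]
    congr 1
    rw [hm, ← nsmul_eq_mul, ← Finset.sum_const]
    refine Finset.sum_congr rfl fun h _ => ?_
    rw [← havg (gact (adjoin k {u}) h q) x]
    exact Finset.sum_congr rfl fun g _ => hb.symm _ _
  have hD : ∀ q : Place k F, ∑ g : F ≃ₐ[adjoin k {u}] F,
      B (π (gact (adjoin k {u}) g q)) (π (gact (adjoin k {u}) g q)) =
      m * ∑ g : F ≃ₐ[adjoin k {u}] F, f (gact (adjoin k {u}) g q) := by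
    intro q
    simp only [hBd]
    rw [Finset.sum_comm, hm, ← nsmul_eq_mul, ← Finset.sum_const]
    refine Finset.sum_congr rfl fun h _ => ?_
    refine Fintype.sum_equiv (Equiv.mulLeft h) _ _ fun g => ?_
    rw [Equiv.coe_mulLeft, gact_mul]
  set S : ℚ := m * ∑ g : F ≃ₐ[adjoin k {u}] F, f (gact (adjoin k {u}) g x) with hS
  have hDS : ∀ q : Place k F, ∑ g : F ≃ₐ[adjoin k {u}] F,
      B (π (gact (adjoin k {u}) g q)) (π (gact (adjoin k {u}) g q)) = S := by
    intro q
    rw [hD, hS, lin_orb hu hfl q x]
  have h1 : ∀ q : Place k F, 2 * (m ^ 2 * N) = S + n * B (π q) (π q) := by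
    intro q
    rw [← hsum q, ← hDS x, Finset.mul_sum, hn, ← nsmul_eq_mul, ← Finset.card_univ,
      ← Finset.sum_const, ← Finset.sum_add_distrib]
    exact Finset.sum_congr rfl fun g _ => hfl2 _ _
  have h2 : ∀ q : Place k F, B (π q) (π q) = (2 * (m ^ 2 * N) - S) / n := by
    intro q
    rw [eq_div_iff hn0, h1 q]
    ring
  have h3 : S = 2 * (m ^ 2 * N) - S := by
    have h4 := hDS x
    simp only [h2] at h4
    rw [Finset.sum_const, Finset.card_univ, nsmul_eq_mul, ← hn, mul_div_cancel₀ _ hn0] at h4
    exact h4.symm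
  have h4 : ∀ q : Place k F, n * B (π q) (π q) = m ^ 2 * N := by
    intro q
    have := h1 q
    linarith
  have h5 := hfl2 (π x) (π y)
  have h6 : n * (m * ∑ h with h ∈ H, b x (gact (adjoin k {u}) h y)) = m ^ 2 * N := by
    rw [← hone]
    have h7 := h4 x
    have h8 := h4 y
    have h9 : 2 * (n * B (π x) (π y)) = n * B (π x) (π x) + n * B (π y) (π y) := by
      rw [← mul_add, ← h5]
      ring
    linarith
  have h7 : m * (n * ∑ h with h ∈ H, b x (gact (adjoin k {u}) h y)) = m * (m * N) := by
    rw [← mul_assoc, ← mul_assoc, mul_comm m n, mul_assoc, h6]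
    ring
  exact mul_left_cancel₀ hm0 h7

end Down

end Pool.Agent.FPZ
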