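import Pool.Agent.FPZ.Na4
import Pool.Agent.FPZ.Ell5

/-!
# Symmetric forms on curves of genus zero and one
-/

set_option autoImplicit false

noncomputable section

namespace Pool.Agent.FPZ

open Pool.Agent.ZCyc Pool.Agent.Dess Pool.Agent.Dess4 Polynomial IntermediateField Module
open scoped Classical

variable {k F : Type} [Field k] [Field F] [Algebra k F]

/-- a divisor without negative coefficients of degree one is a point -/
theorem eff_one {A : Place k F →₀ ℤ} (h0 : ∀ v, 0 ≤ A v) (h1 : dgq A = 1) :
    ∃ d, A = Finsupp.single d 1 := by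
  have hsum : ∑ v ∈ A.support, A v = 1 := by
    rw [← h1, dgq, Finsupp.liftAddHom_apply]
    rfl
  obtain ⟨d, hd⟩ : ∃ d, d ∈ A.support := by
    by_contra h
    push Not at h
    rw [Finset.eq_empty_of_forall_notMem h, Finset.sum_empty] at hsum
    exact absurd hsum (by norm_num)
  have h2 := Finset.add_sum_erase A.support (fun v => A v) hd
  rw [hsum] at h2
  have hd1 : 1 ≤ A d := by
    have := h0 d
    have := Finsupp.mem_support_iff.1 hd
    omega
  have h3 : 0 ≤ ∑ v ∈ A.support.erase d, A v := Finset.sum_nonneg fun v _ => h0 v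
  have h4 : ∑ v ∈ A.support.erase d, A v = 0 := by omega
  refine ⟨d, ?_⟩
  ext v
  by_cases hv : v = d
  · subst hv
    rw [Finsupp.single_eq_same]
    omega
  · rw [Finsupp.single_eq_of_ne hv]
    by_cases hvs : v ∈ A.support
    · exact (Finset.sum_eq_zero_iff_of_nonneg fun v _ => h0 v).1 h4 v
        (Finset.mem_erase.2 ⟨hv, hvs⟩)
    · exact Finsupp.notMem_support_iff.1 hvs

variable [IsAlgClosed k] [CharZero k]

/-- the projective line -/
theorem flat_line {t : F} (ht : Transcendental k t) (htop : adjoin k {t} = ⊤) : Flat k F := by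
  have h1 : FiniteDimensional (⊤ : IntermediateField k F) F :=
    Module.Finite.of_surjective (Algebra.linearMap (⊤ : IntermediateField k F) F)
      fun x => ⟨⟨x, mem_top⟩, rfl⟩
  have h3 : ∀ σ : F ≃ₐ[(⊤ : IntermediateField k F)] F, σ = 1 := by
    intro σ
    ext x
    exact σ.commutes ⟨x, mem_top⟩
  have h2 : IsGalois (⊤ : IntermediateField k F) F := by
    apply IsGalois.of_card_aut_eq_finrank
    have h4 : Subsingleton (F ≃ₐ[(⊤ : IntermediateField k F)] F) :=
      ⟨fun σ τ => (h3 σ).trans (h3 τ).symm⟩
    rw [Nat.card_unique, IntermediateField.finrank_top]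
  have horb : ∀ V : Place k F, orb (⊤ : IntermediateField k F) V = Finsupp.single V 1 := by
    intro V
    rw [orb, Finset.sum_eq_single 1]
    · rw [gact_one]
    · intro σ _ hσ
      exact absurd (h3 σ) hσ
    · intro h
      exact absurd (Finset.mem_univ _) h
  have hconst : ∀ {f : Place k F → ℚ}, Lin f → ∀ p q, f p = f q := by
    intro f hf p q
    have h3 := hf _ (orb_equiv ht htop p q)
    rw [horb, horb, map_sub, sm_single, sm_single] at h3
    push_cast at h3
    linarith
  intro B _ hlin hdiag p q
  rw [hconst (hlin q) p q, hconst hdiag p q]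
  ring

/-- **Addition on an elliptic curve.** -/
theorem ell_add {f : k[X]} {x y : F} (h : HypField f x y) (hdeg : f.natDegree = 3)
    (hsep : f.Separable) {o : Place k F} (ho : x ∉ o.ring) (a b : Place k F) :
    ∃ d : Place k F, unq (Finsupp.single a 1 + Finsupp.single d 1 - Finsupp.single b 1 -
      Finsupp.single o 1) ∈ RatEq (k := k) fun _ : Unit => F := by
  have hF := h.curve
  have hodd : Odd f.natDegree := by
    rw [hdeg]
    decide
  by_cases hab : a = b
  · refine ⟨o, ?_⟩
    rw [hab, add_sub_right_comm, sub_self, zero_add, sub_self, map_zero]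
    exact zero_mem _
  by_cases hao : a = o
  · refine ⟨b, ?_⟩
    rw [hao, add_sub_cancel_right, sub_self, map_zero]
    exact zero_mem _
  by_cases hbo : b = o
  · obtain ⟨σ, hσx, hσy⟩ := h.invol hodd
    refine ⟨a.map σ, ?_⟩
    have h1 := h.invol_sum hodd hsep hσx hσy ho a
    have h2 : Finsupp.single a (1 : ℤ) + Finsupp.single (a.map σ) 1 - Finsupp.single b 1 -
        Finsupp.single o 1 = Finsupp.single a 1 + Finsupp.single (a.map σ) 1 -
          Finsupp.single o 2 := by
      rw [hbo, sub_sub, ← Finsupp.single_add]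
      norm_num
    rwa [h2]
  have hxa : x ∈ a.ring := by
    by_contra h1
    exact hao (h.inf_unique hodd h1 ho)
  have hxb : x ∈ b.ring := by
    by_contra h1
    exact hbo (h.inf_unique hodd h1 ho)
  obtain ⟨xb, hb⟩ := exists_at hF b hxb
  obtain ⟨yb, hyb, hyb2⟩ := h.at_y hb
  have hxt := transc_sub h.transc xb
  have hx0 := transc_ne hxt
  have hy0 : y ≠ 0 := by
    rintro rfl
    have h1 := h.eq
    rw [zero_pow two_ne_zero] at h1
    have h2 := (transcendental_iff.1 h.transc) f h1.symm
    rw [h2, natDegree_zero] at hdeg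
    omega
  have hne : y + algebraMap k F yb ≠ 0 := by
    intro h6
    have h7 : y ∈ adjoin k {x} := by
      rw [eq_neg_of_add_eq_zero_left h6, ← map_neg]
      exact IntermediateField.algebraMap_mem _ _
    exact h.notMem hodd h7
  set w : F := (y + algebraMap k F yb) / (x - algebraMap k F xb) with hw
  have hw0 : w ≠ 0 := div_ne_zero hne hx0
  -- the pole at `o`
  have hwo : HasOrd o w (-1) := by
    obtain ⟨h1, h2⟩ := h.ord_inf hodd ho
    have hyo : y ∉ o.ring := by
      intro h3
      have h4 := ord_nonneg h2 hy0 h3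
      rw [hdeg] at h4
      norm_num at h4
    rw [hdeg] at h2
    have h3 := ord_add_regular h2 hyo (o.const_mem yb)
    have h4 := ord_add_regular h1 ho (neg_mem (o.const_mem xb))
    rw [← sub_eq_add_neg] at h4
    have h5 := ord_mul h3 (ord_inv h4)
    rw [← div_eq_mul_inv] at h5
    convert h5 using 1
    norm_num
  -- the pole at `b`
  have hwb : HasOrd b w (-1) := by
    obtain ⟨m, hm⟩ := exists_hasOrd hF b hx0
    rcases h.ord_x hodd hsep hb hm with ⟨h1, h2⟩ | ⟨h1, h2, h3⟩
    · have hyb0 : yb ≠ 0 := by
        rintro rfl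
        rw [zero_pow two_ne_zero] at hyb2
        exact h1 hyb2.symm
      have h4 : b.At (y + algebraMap k F yb) (yb + yb) := hyb.add (b.at_const yb)
      have h5 : yb + yb ≠ 0 := by
        intro h6
        apply hyb0
        have : (2 : k) * yb = 0 := by linear_combination h6
        exact (mul_eq_zero.1 this).resolve_left two_ne_zero
      have h6 := dc_ord_mul (ord_inv hm) h4 h5
      rw [h2] at h6
      rwa [hw, div_eq_mul_inv, mul_comm]
    · have hyb0 : yb = 0 := by
        rw [h1] at hyb2
        exact pow_eq_zero_iff two_ne_zero |>.1 hyb2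
      have h4 := ord_mul h3 (ord_inv hm)
      rw [h2] at h4
      rw [hw, hyb0, map_zero, add_zero, div_eq_mul_inv]
      convert h4 using 1
      norm_num
  -- the other points
  have hwr : ∀ v : Place k F, v ≠ b → v ≠ o → w ∈ v.ring := by
    intro v hvb hvo
    have hxv : x ∈ v.ring := by
      by_contra h1
      exact hvo (h.inf_unique hodd h1 ho)
    obtain ⟨c, hc⟩ := exists_at hF v hxv
    obtain ⟨e, he, he2⟩ := h.at_y hc
    by_cases hcb : c = xb
    · subst hcb
      have h1 : e ^ 2 = yb ^ 2 := by rw [he2, hyb2]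
      have h2 : e = -yb := by
        rcases sq_eq_sq_iff_eq_or_eq_neg.1 h1 with h2 | h2
        · exact absurd (h.place_eq hodd hsep hc he hb (h2 ▸ hyb)) hvb
        · exact h2
      have h3 : eval c f ≠ 0 := by
        intro h4
        have h5 : yb = 0 := by
          rw [h4] at hyb2
          exact pow_eq_zero_iff two_ne_zero |>.1 hyb2
        apply hvb
        refine h.place_eq hodd hsep hc he hb ?_
        rw [h2, h5, neg_zero, ← h5]
        exact hyb
      obtain ⟨m, hm⟩ := exists_hasOrd hF v hx0
      rcases h.ord_x hodd hsep hc hm with ⟨-, h4⟩ | ⟨h4, -, -⟩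
      · have h5 : v.At (y + algebraMap k F yb) 0 := by
          have := he.add (v.at_const yb)
          rwa [h2, neg_add_cancel] at this
        obtain ⟨j, hj⟩ := exists_hasOrd hF v hne
        have h6 : 0 < j := by
          rw [ord_pos_iff hne hj]
          rw [Place.at_zero_iff, Place.vanishes_iff_or] at h5
          exact h5.resolve_left hne
        have h7 := ord_mul hj (ord_inv hm)
        rw [← div_eq_mul_inv, ← hw] at h7
        exact ord_mem h7 (by omega)
      · exact absurd h4 h3
    · have h1 : v.At (x - algebraMap k F xb) (c - xb) := hc.sub (v.at_const xb)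
      rw [hw, div_eq_mul_inv]
      exact mul_mem (add_mem he.mem (v.const_mem yb)) (h1.inv (sub_ne_zero.2 hcb)).mem
  have hmo : w ∉ o.ring := two_notMem (n := 1) hw0 one_pos hwo
  have hmb : w ∉ b.ring := two_notMem (n := 1) hw0 one_pos hwb
  obtain ⟨c, hc⟩ := exists_at hF a (hwr a hab hao)
  have hgt := transc_sub (transc_of_notMem hmo) c
  have hg0 := transc_ne hgt
  obtain ⟨D, hD⟩ := exists_div hF hg0
  have hpole : ∀ {v : Place k F}, HasOrd v w (-1) → w ∉ v.ring → D v = -1 := by
    intro v h1 h2
    have h3 := ord_add_regular h1 h2 (neg_mem (v.const_mem c))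
    rw [← sub_eq_add_neg] at h3
    exact hasOrd_unique hF hg0 (hD v) h3
  have hDo := hpole hwo hmo
  have hDb := hpole hwb hmb
  have hDr : ∀ v, v ≠ b → v ≠ o → 0 ≤ D v := fun v h1 h2 =>
    ord_nonneg (hD v) hg0 (sub_mem (hwr v h1 h2) (v.const_mem c))
  have hDa : 0 < D a := by
    rw [ord_pos_iff hg0 (hD a)]
    have h1 : a.Vanishes (w - algebraMap k F c) := hc
    exact ((a.vanishes_iff_or _).1 h1).resolve_left hg0
  have hmem := unq_div_mem hF hg0 hD
  have hdeg0 : dgq D = 0 := by
    have h1 := degq_ratEq hmem
    rw [← dgq_degq] at h1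
    exact_mod_cast h1
  obtain ⟨d, hd⟩ := eff_one (A := D + Finsupp.single b 1 + Finsupp.single o 1 -
    Finsupp.single a 1) (by
      intro v
      simp only [Finsupp.sub_apply, Finsupp.add_apply]
      by_cases h1 : v = b
      · subst h1
        rw [hDb, Finsupp.single_eq_same, Finsupp.single_eq_of_ne hbo,
          Finsupp.single_eq_of_ne (Ne.symm hab)]
        norm_num
      by_cases h2 : v = o
      · subst h2
        rw [hDo, Finsupp.single_eq_same, Finsupp.single_eq_of_ne h1,
          Finsupp.single_eq_of_ne (Ne.symm hao)]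
        norm_num
      rw [Finsupp.single_eq_of_ne h1, Finsupp.single_eq_of_ne h2]
      by_cases h3 : v = a
      · subst h3
        rw [Finsupp.single_eq_same]
        omega
      · rw [Finsupp.single_eq_of_ne h3]
        have := hDr v h1 h2
        omega) (by
      rw [map_sub, map_add, map_add, dgq_single, dgq_single, dgq_single, hdeg0]
      norm_num)
  refine ⟨d, ?_⟩
  have h1 : Finsupp.single a (1 : ℤ) + Finsupp.single d 1 - Finsupp.single b 1 -
      Finsupp.single o 1 = D := by
    rw [← hd]
    abel
  rwa [h1]

/-- **Symmetric forms on an elliptic curve.** -/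
theorem flat_elliptic (h : Elliptic k F) : Flat k F := by
  obtain ⟨f, x, y, hdeg, hsep, h⟩ := h
  have hodd : Odd f.natDegree := by
    rw [hdeg]
    decide
  obtain ⟨o, ho⟩ := h.exists_inf
  obtain ⟨σ, hσx, hσy⟩ := h.invol hodd
  intro B hsymm hlin hdiag
  have h1 : ∀ p : Place k F, B p p = 2 * B p o - B o o := by
    intro p
    have h2 := h.invol_sum hodd hsep hσx hσy ho p
    have h3 : ∀ g : Place k F → ℚ, Lin g → g p + g (p.map σ) = 2 * g o := by
      intro g hg
      have h4 := hg _ h2
      rw [map_sub, map_add, sm_single, sm_single, sm_single] at h4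
      push_cast at h4
      linarith
    have h4 := h3 _ (hlin p)
    have h5 := h3 _ (hlin (p.map σ))
    have h6 := h3 _ hdiag
    have h7 := h3 _ (hlin o)
    have h8 := hsymm p (p.map σ)
    have h9 := hsymm o p
    have h10 := hsymm o (p.map σ)
    linarith
  intro a b
  obtain ⟨d, hd⟩ := ell_add h hdeg hsep ho a b
  have h3 : ∀ q, B a q + B d q = B b q + B o q := by
    intro q
    have h4 := hlin q _ hd
    rw [map_sub, map_sub, map_add, sm_single, sm_single, sm_single, sm_single] at h4
    push_cast at h4
    linarith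
  have e1 := h3 a
  have e2 := h3 b
  have e3 := h3 d
  have e4 := h3 o
  have e5 := h1 a
  have e6 := h1 b
  have e7 := h1 d
  have s1 := hsymm a b
  have s2 := hsymm a d
  have s3 := hsymm b d
  have s4 := hsymm a o
  have s5 := hsymm b o
  have s6 := hsymm d o
  linarith

/-- The curve with function field `F` is the projective line or an elliptic curve. -/
def GenusLeOne (k F : Type) [Field k] [Field F] [Algebra k F] : Prop :=
  (∃ t : F, Transcendental k t ∧ adjoin k {t} = ⊤) ∨ Elliptic k F

omit [IsAlgClosed k] [CharZero k] in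
theorem GenusLeOne.curve (h : GenusLeOne k F) : IsCurve k F := by
  rcases h with ⟨t, ht, htop⟩ | ⟨f, x, y, -, -, h⟩
  · refine ⟨t, ht, ?_⟩
    rw [htop]
    exact Module.Finite.of_surjective (Algebra.linearMap (⊤ : IntermediateField k F) F)
      fun x => ⟨⟨x, mem_top⟩, rfl⟩
  · exact h.curve

theorem GenusLeOne.flat (h : GenusLeOne k F) : Flat k F := by
  rcases h with ⟨t, ht, htop⟩ | h
  · exact flat_line ht htop
  · exact flat_elliptic h

/-- **Galois coverings of the projective line.** Let `D` be a Galois covering of the projective line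
with the group `G`. If for every irreducible representation `V` of `G` which is not trivial, the
stabilizer of a point of `D` has no nonzero fixed vectors in `V`, or there is an intermediate
covering `D → D' → ℙ¹` such that the genus of `D'` is at most one and the Galois group of
`D → D'` has nonzero fixed vectors in `V`, then the cycle of Faber and Pandharipande of `D` is
torsion. -/
theorem fpTor_galois {u : F} (hu : Transcendental k u) [FiniteDimensional (adjoin k {u}) F]
    [IsGalois (adjoin k {u}) F]
    (hV : ∀ (V : Type) [AddCommGroup V] [Module k V] [FiniteDimensional k V]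
      (ρ : Representation k (F ≃ₐ[adjoin k {u}] F) V), ρ.IsIrreducible → (∃ σ, ρ σ ≠ 1) →
        (∃ x : Place k F, ∀ v : V,
          (∀ σ : F ≃ₐ[adjoin k {u}] F, x.map (σ.restrictScalars k) = x → ρ σ v = v) → v = 0) ∨
        ∃ L : IntermediateField (adjoin k {u}) F, GenusLeOne k L ∧
          ∃ v : V, v ≠ 0 ∧ ∀ σ ∈ L.fixingSubgroup, ρ σ v = v) : FPTor k F := by
  have hF : IsCurve k F := ⟨u, hu, inferInstance⟩
  refine fp_good hu fun V _ _ _ ρ hρ => ?_
  by_cases htriv : ∃ σ, ρ σ ≠ 1
  · rcases hV V ρ hρ htriv with h | ⟨L, hL, v, hv0, hv⟩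
    · exact Or.inl h
    · obtain ⟨π, hπ⟩ := exists_proj hL.curve hF (incl L)
      choose ext hext using exists_ext hL.curve hF (incl L)
      refine Or.inr ⟨L.fixingSubgroup, good_of_flat hF hL.curve hπ (ext := ext) (fun w => ?_) hu
        hL.flat, v, hv0, hv⟩
      apply Place.ext
      rw [← hπ, hext]
  · push Not at htriv
    refine Or.inr ⟨⊤, fun b _ x y => ?_, ?_⟩
    · simp
    · have hne : Nontrivial V := by
        by_contra h
        rw [not_nontrivial_iff_subsingleton] at h
        have h1 : Subsingleton (Subrepresentation ρ) :=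
          ⟨fun N N' => Subrepresentation.toSubmodule_injective (Subsingleton.elim _ _)⟩
        have h2 := hρ.toNontrivial
        exact not_subsingleton _ h1
      obtain ⟨v, hv⟩ := exists_ne (0 : V)
      exact ⟨v, hv, fun σ _ => by rw [htriv σ, Module.End.one_apply]⟩

end Pool.Agent.FPZ
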