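import Pool.Agent.FPZ.Na5

/-!
# One-dimensional representations
-/

set_option autoImplicit false

noncomputable section

namespace Pool.Agent.FPZ

open Pool.Agent.ZCyc Pool.Agent.Dess Pool.Agent.Dess4 Polynomial IntermediateField Module
open scoped Classical

variable {k F : Type} [Field k] [Field F] [Algebra k F] [IsAlgClosed k] [CharZero k] {u : F}
  [FiniteDimensional (adjoin k {u}) F] [IsGalois (adjoin k {u}) F]

/-- **Characters.** A character of the group of a Galois covering of the projective line which is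
trivial on all stabilizers is trivial. -/
theorem char_stab (hu : Transcendental k u) (χ : (F ≃ₐ[adjoin k {u}] F) →* kˣ)
    (hχ : ∀ V : Place k F, ∀ s ∈ gstab (adjoin k {u}) V, χ s = 1)
    (σ₀ : F ≃ₐ[adjoin k {u}] F) : χ σ₀ = 1 := by
  have hF : IsCurve k F := ⟨u, hu, inferInstance⟩
  obtain ⟨y, hy0, hy⟩ := exists_eigen χ
  set n := Fintype.card (F ≃ₐ[adjoin k {u}] F) with hn
  have hn0 : 0 < n := Fintype.card_pos
  have h1 : y ^ n ∈ adjoin k {u} := by
    have h2 : y ^ n ∈ (⊥ : IntermediateField (adjoin k {u}) F) := by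
      rw [IsGalois.mem_bot_iff_fixed]
      intro τ
      rw [map_pow, hy, mul_pow, ← map_pow, ← Units.val_pow_eq_pow_val, ← map_pow,
        pow_card_eq_one, map_one, Units.val_one, map_one, one_mul]
    obtain ⟨x, hx⟩ := mem_bot.1 h2
    rw [← hx]
    exact x.2
  obtain ⟨r, s, hrs⟩ := (mem_adjoin_simple_iff k _).1 h1
  have hyn : y ^ n ≠ 0 := pow_ne_zero _ hy0
  have hr0 : aeval u r ≠ 0 := by
    intro h
    rw [hrs, h, zero_div] at hyn
    exact hyn rfl
  have hs0 : aeval u s ≠ 0 := by
    intro h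
    rw [hrs, h, div_zero] at hyn
    exact hyn rfl
  set Y := y * aeval u s with hY
  have hY0 : Y ≠ 0 := mul_ne_zero hy0 hs0
  have hfixu : ∀ (τ : F ≃ₐ[adjoin k {u}] F) (p : k[X]), τ (aeval u p) = aeval u p := by
    intro τ p
    have : aeval u p ∈ adjoin k {u} := by
      rw [mem_adjoin_simple_iff]
      exact ⟨p, 1, by rw [map_one, div_one]⟩
    exact τ.commutes ⟨_, this⟩
  have hYσ : ∀ τ : F ≃ₐ[adjoin k {u}] F, τ Y = algebraMap k F (χ τ) * Y := by
    intro τ
    rw [hY, map_mul, hy, hfixu, mul_assoc]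
  set P := r * s ^ (n - 1) with hP
  have hYP : Y ^ n = aeval u P := by
    have h2 : aeval u s ^ n = aeval u s * aeval u s ^ (n - 1) := by
      rw [← pow_succ', Nat.sub_add_cancel hn0]
    rw [hY, mul_pow, hrs, hP, map_mul, map_pow, h2]
    field_simp
  have hP0 : P ≠ 0 := by
    intro h
    rw [h, map_zero] at hYP
    exact pow_ne_zero _ hY0 hYP
  obtain ⟨R, hR⟩ := poly_pow hn0 (P := P) (by
    intro b _
    obtain ⟨V, hV⟩ := exists_place hu b
    have ht := transc_sub hu b
    obtain ⟨D, hD⟩ := exists_div hF (transc_ne ht)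
    have h2 := orb_zeros ht (by rw [adjoin_sub]) (E := adjoin k {u}) (V := V) (by
      rw [Place.at_zero_iff]
      exact hV) hD V
    have h3 : 0 < D V := by
      rw [ord_pos_iff (transc_ne ht) (hD V)]
      exact (V.vanishes_iff_or _ |>.1 hV).resolve_left (transc_ne ht)
    rw [max_eq_left h3.le, orb_gstab] at h2
    obtain ⟨o, ho⟩ := exists_hasOrd hF V hY0
    have h4 := stab_dvd hu (V := V) hY0 (fun τ hτ => by
      rw [hYσ, hχ V τ hτ, Units.val_one, map_one, one_mul]) ho
    obtain ⟨Q, hQ, hQb⟩ := exists_eq_pow_rootMultiplicity_mul_and_not_dvd P hP0 b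
    have h5 : aeval u P = (u - algebraMap k F b) ^ (P.rootMultiplicity b) * aeval u Q := by
      conv_lhs => rw [hQ]
      rw [map_mul, map_pow, map_sub, aeval_X, aeval_C]
    have h6 : HasOrd V (aeval u Q) 0 := by
      have h7 : V.At (aeval u Q) (eval b Q) := hV.aeval _
      have h8 : eval b Q ≠ 0 := fun h => hQb (dvd_iff_isRoot.2 h)
      exact ord_unit_of_mem hF h7.mem (h7.inv h8).mem
    have h7 := ord_mul (ord_pow (hD V) (P.rootMultiplicity b)) h6
    rw [← h5, ← hYP] at h7
    have h8 := hasOrd_unique hF (pow_ne_zero _ hY0) h7 (ord_pow ho n)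
    obtain ⟨o', ho'⟩ := h4
    rw [h2] at ho'
    have h9 : D V * (P.rootMultiplicity b : ℤ) = D V * (n * o') := by
      rw [add_zero] at h8
      rw [h8, ho']
      ring
    have h10 := mul_left_cancel₀ h3.ne' h9
    rw [← Int.natCast_dvd_natCast]
    exact ⟨o', h10⟩)
  have hRu : aeval u R ≠ 0 := by
    intro h
    rw [hR, map_pow, h, zero_pow hn0.ne'] at hYP
    exact pow_ne_zero _ hY0 hYP
  obtain ⟨c, hcc⟩ := root_const (k := k) (z := Y / aeval u R) hn0 (by
    rw [div_pow, hYP, hR, map_pow, div_self (pow_ne_zero _ hRu)])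
  have hYc : Y = algebraMap k F c * aeval u R := by
    rw [hcc, div_mul_cancel₀ _ hRu]
  have h2 : σ₀ Y = Y := by
    rw [hYc, map_mul, hfixu, IsScalarTower.algebraMap_apply k (adjoin k {u}) F,
      AlgEquiv.commutes]
  rw [hYσ] at h2
  have h3 : algebraMap k F (χ σ₀ : k) = 1 := mul_right_cancel₀ hY0 (by rw [h2, one_mul])
  ext
  rw [Units.val_one]
  apply (algebraMap k F).injective
  rw [h3, map_one]

/-- a representation of dimension one which is not trivial has no fixed vectors under a
stabilizer -/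
theorem rep_one (hu : Transcendental k u) {V : Type} [AddCommGroup V] [Module k V]
    (ρ : Representation k (F ≃ₐ[adjoin k {u}] F) V) (h1 : finrank k V = 1)
    (hne : ∃ σ, ρ σ ≠ 1) : ∃ x : Place k F, ∀ v : V,
      (∀ σ : F ≃ₐ[adjoin k {u}] F, gact (adjoin k {u}) σ x = x → ρ σ v = v) → v = 0 := by
  obtain ⟨v₀, hv₀, hspan⟩ := finrank_eq_one_iff'.1 h1
  choose c hc using fun σ => hspan (ρ σ v₀)
  have hinj : ∀ {a b : k}, a • v₀ = b • v₀ → a = b := fun h => smul_left_injective k hv₀ h
  have hact : ∀ σ v, ρ σ v = c σ • v := by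
    intro σ v
    obtain ⟨a, rfl⟩ := hspan v
    rw [map_smul, ← hc, smul_comm]
  let χ₀ : (F ≃ₐ[adjoin k {u}] F) →* k :=
    { toFun := c
      map_one' := hinj (by rw [hc, map_one, Module.End.one_apply, one_smul])
      map_mul' := fun σ τ => hinj (by
        rw [hc, map_mul, Module.End.mul_apply, hact τ, map_smul, hact σ, smul_smul, mul_comm]) }
  by_contra hcon
  push Not at hcon
  obtain ⟨σ, hσ⟩ := hne
  apply hσ
  have h2 := char_stab hu χ₀.toHomUnits (fun x s hs => by
    obtain ⟨v, hv, hv0⟩ := hcon x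
    have h3 := hv s hs
    rw [hact] at h3
    ext
    rw [MonoidHom.coe_toHomUnits, Units.val_one]
    change c s = 1
    have h4 : (c s - 1) • v = 0 := by rw [sub_smul, h3, one_smul, sub_self]
    exact sub_eq_zero.1 ((smul_eq_zero.1 h4).resolve_right hv0)) σ
  have h3 : c σ = 1 := by
    have := congrArg Units.val h2
    rwa [MonoidHom.coe_toHomUnits, Units.val_one] at this
  refine LinearMap.ext fun v => ?_
  rw [hact, h3, one_smul, Module.End.one_apply]

end Pool.Agent.FPZ
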