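import Pool.Agent.FPZ.Na6

/-!
# The cycle of Faber and Pandharipande of Galois coverings of the projective line
-/

set_option autoImplicit false

noncomputable section

namespace Pool.Agent.FPZ

open Pool.Agent.ZCyc Pool.Agent.Dess Pool.Agent.Dess4 IntermediateField Module
open scoped Classical

variable {k F : Type} [Field k] [Field F] [Algebra k F]

/-- the stabilizer of a point -/
theorem map_eq_iff (σ : F ≃ₐ[k] F) (x : Place k F) :
    x.map σ = x ↔ ∀ f, σ f ∈ x.ring ↔ f ∈ x.ring := by
  constructor
  · intro h f
    conv_lhs => rw [← h]
    rw [Place.mem_map, σ.symm_apply_apply]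
  · intro h
    apply Place.ext
    ext f
    rw [Place.mem_map, ← h, σ.apply_symm_apply]

variable [IsAlgClosed k] [CharZero k]

/-- **Galois coverings of the projective line.** Let `D` be a Galois covering of the projective line
with the group `G`. If for every irreducible representation `V` of `G` of dimension at least two the
stabilizer of some point of `D` has no fixed vectors in `V` different from zero, or there is an
intermediate covering `D → D' → ℙ¹`, where `D'` is the projective line or an elliptic curve, such that
the Galois group of `D` over `D'` has such fixed vectors, then the cycle of Faber and Pandharipande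
of `D` is torsion. -/
theorem fpTor_rep {u : F} (hu : Transcendental k u) (hfin : FiniteDimensional (adjoin k {u}) F)
    (hgal : IsGalois (adjoin k {u}) F)
    (h : ∀ (V : Type) [AddCommGroup V] [Module k V]
      (ρ : Representation k (F ≃ₐ[adjoin k {u}] F) V), ρ.IsIrreducible → 2 ≤ finrank k V →
        (∃ x : Place k F, ∀ v : V, (∀ σ : F ≃ₐ[adjoin k {u}] F,
          (∀ f, σ f ∈ x.ring ↔ f ∈ x.ring) → ρ σ v = v) → v = 0) ∨
        ∃ L : IntermediateField (adjoin k {u}) F,
          ((∃ t : L, adjoin k {t} = ⊤) ∨ Elliptic k L) ∧
            ∃ v : V, v ≠ 0 ∧ ∀ σ ∈ L.fixingSubgroup, ρ σ v = v) : FPTor k F := by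
  refine fpTor_galois hu fun V _ _ _ ρ hρ hne => ?_
  by_cases h2 : 2 ≤ finrank k V
  · rcases h V ρ hρ h2 with ⟨x, hx⟩ | ⟨L, hL, v, hv0, hv⟩
    · refine Or.inl ⟨x, fun v hv => hx v fun σ hσ => hv σ ?_⟩
      rw [map_eq_iff]
      exact hσ
    · refine Or.inr ⟨L, ?_, v, hv0, hv⟩
      rcases hL with ⟨t, ht⟩ | hL
      · refine Or.inl ⟨t, fun halg => ?_, ht⟩
        -- the constants do not generate the field
        obtain ⟨c, hc⟩ := minpoly.mem_range_of_degree_eq_one k t
          (IsAlgClosed.degree_eq_one_of_irreducible k (minpoly.irreducible halg.isIntegral))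
        have h1 : (⊤ : IntermediateField k L) = ⊥ := by
          rw [← ht, ← hc, eq_bot_iff, adjoin_simple_le_iff]
          exact IntermediateField.algebraMap_mem _ c
        have h3 : algebraMap (adjoin k {u}) L ⟨u, mem_adjoin_simple_self k u⟩ ∈
            (⊥ : IntermediateField k L) := by
          rw [← h1]
          exact mem_top
        obtain ⟨d, hd⟩ := mem_bot.1 h3
        have h4 : algebraMap k F d = u := by
          have := congrArg (incl L) hd
          rwa [AlgHom.commutes] at this
        rw [← h4] at hu
        exact hu (isAlgebraic_algebraMap d)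
      · exact Or.inr hL
  · left
    have hne' : Nontrivial V := by
      by_contra h
      rw [not_nontrivial_iff_subsingleton] at h
      have h1 : Subsingleton (Subrepresentation ρ) :=
        ⟨fun N N' => Subrepresentation.toSubmodule_injective (Subsingleton.elim _ _)⟩
      have h2 := hρ.toNontrivial
      exact not_subsingleton _ h1
    have h3 : 0 < finrank k V := finrank_pos
    exact rep_one hu ρ (by omega) hne

omit [CharZero k] in
/-- abelian coverings satisfy the condition: there are no irreducible representations of dimension
at least two -/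
theorem rep_abelian {u : F} [IsAbelianGalois (adjoin k {u}) F] {V : Type} [AddCommGroup V]
    [Module k V] (ρ : Representation k (F ≃ₐ[adjoin k {u}] F) V) (hρ : ρ.IsIrreducible) :
    ¬ 2 ≤ finrank k V := by
  intro h2
  have h3 : FiniteDimensional k V := FiniteDimensional.of_finrank_pos (by omega)
  have h1 := Representation.IsIrreducible.finrank_eq_one_of_isMulCommutative ρ
  omega

/-- the abelian case -/
theorem fpTor_abelian' {u : F} (hu : Transcendental k u) [FiniteDimensional (adjoin k {u}) F]
    [IsAbelianGalois (adjoin k {u}) F] : FPTor k F :=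
  fpTor_rep hu inferInstance inferInstance fun _ _ _ ρ hρ h2 => absurd h2 (rep_abelian ρ hρ)

end Pool.Agent.FPZ
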