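import Pool.Agent.FPZ.Main
import Pool.Agent.Dess4.Dbl

/-!
# Curves over the rational numbers
-/

set_option autoImplicit false

noncomputable section

namespace Pool.Agent.FPZ

open Pool.Agent.ZCyc Pool.Agent.Dess Pool.Agent.Dess4
open scoped Classical

section Dbl

variable {F M : Type} [Field F] [Algebra QQ F] [Field M] [Algebra QQ M] {F₀ : Subfield F}
  {φ : F →ₐ[QQ] M} {d : F} {s : M}

/-- the subfield `F₀(s)` -/
def dblSub (F₀ : Subfield F) (φ : F →ₐ[QQ] M) (s : M) : Subfield M :=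
  Subfield.closure (φ '' (F₀ : Set F) ∪ {s})

theorem mem_dblSub (h : Dbl φ d s) (hd : d ∈ F₀) (hns : ∀ b : F, b ^ 2 ≠ d) {m : M}
    (hm : m ∈ dblSub F₀ φ s) : ∃ a ∈ F₀, ∃ b ∈ F₀, m = φ a + φ b * s := by
  induction hm using Subfield.closure_induction with
  | mem x hx =>
    rcases hx with ⟨a, ha, rfl⟩ | hx
    · exact ⟨a, ha, 0, F₀.zero_mem, by rw [map_zero, zero_mul, add_zero]⟩
    · rw [Set.mem_singleton_iff] at hx
      exact ⟨0, F₀.zero_mem, 1, F₀.one_mem, by rw [hx, map_zero, map_one, one_mul, zero_add]⟩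
  | one => exact ⟨1, F₀.one_mem, 0, F₀.zero_mem, by rw [map_zero, map_one, zero_mul, add_zero]⟩
  | add x y _ _ hx hy =>
    obtain ⟨a, ha, b, hb, rfl⟩ := hx
    obtain ⟨a', ha', b', hb', rfl⟩ := hy
    exact ⟨a + a', F₀.add_mem ha ha', b + b', F₀.add_mem hb hb', by rw [map_add, map_add]; ring⟩
  | neg x _ hx =>
    obtain ⟨a, ha, b, hb, rfl⟩ := hx
    exact ⟨-a, F₀.neg_mem ha, -b, F₀.neg_mem hb, by rw [map_neg, map_neg]; ring⟩
  | mul x y _ _ hx hy =>
    obtain ⟨a, ha, b, hb, rfl⟩ := hx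
    obtain ⟨a', ha', b', hb', rfl⟩ := hy
    refine ⟨a * a' + b * b' * d, F₀.add_mem (F₀.mul_mem ha ha') (F₀.mul_mem (F₀.mul_mem hb hb') hd),
      a * b' + b * a', F₀.add_mem (F₀.mul_mem ha hb') (F₀.mul_mem hb ha'), ?_⟩
    simp only [map_add, map_mul]
    linear_combination (φ b * φ b') * h.sq
  | inv x _ hx =>
    obtain ⟨a, ha, b, hb, rfl⟩ := hx
    by_cases h0 : a ^ 2 - b ^ 2 * d = 0
    · have hb0 : b = 0 := by
        by_contra hb0
        apply hns (a / b)
        rw [div_pow, div_eq_iff (pow_ne_zero 2 hb0)]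
        linear_combination h0
      have ha0 : a = 0 := by
        rw [hb0] at h0
        have h1 : a ^ 2 = 0 := by linear_combination h0
        exact pow_eq_zero_iff two_ne_zero |>.1 h1
      refine ⟨0, F₀.zero_mem, 0, F₀.zero_mem, ?_⟩
      rw [ha0, hb0]
      simp
    · have hD : a ^ 2 - b ^ 2 * d ∈ F₀ :=
        F₀.sub_mem (F₀.pow_mem ha 2) (F₀.mul_mem (F₀.pow_mem hb 2) hd)
      refine ⟨a / (a ^ 2 - b ^ 2 * d), F₀.div_mem ha hD, -b / (a ^ 2 - b ^ 2 * d),
        F₀.div_mem (F₀.neg_mem hb) hD, ?_⟩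
      have hD0 : φ (a ^ 2 - b ^ 2 * d) ≠ 0 := (map_ne_zero φ).2 h0
      have h1 : (φ a + φ b * s) * (φ a - φ b * s) = φ (a ^ 2 - b ^ 2 * d) := by
        simp only [map_sub, map_mul, map_pow]
        linear_combination (-(φ b) ^ 2) * h.sq
      have h2 : φ a + φ b * s ≠ 0 := by
        intro h3
        rw [h3, zero_mul] at h1
        exact hD0 h1.symm
      apply inv_eq_of_mul_eq_one_right
      have h3 : φ (a / (a ^ 2 - b ^ 2 * d)) + φ (-b / (a ^ 2 - b ^ 2 * d)) * s =
          (φ a - φ b * s) / φ (a ^ 2 - b ^ 2 * d) := by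
        rw [map_div₀, map_div₀, map_neg]
        ring
      rw [h3, ← mul_div_assoc, h1, div_self hD0]

theorem overQ_dbl (h0 : OverQ F₀) (h : Dbl φ d s) (hd : d ∈ F₀) (hns : ∀ b : F, b ^ 2 ≠ d) :
    OverQ (dblSub F₀ φ s) where
  gen := by
    rw [eq_top_iff]
    intro m _
    obtain ⟨a, b, rfl⟩ := h.span m
    have hle : ∀ f : F, φ f ∈ IntermediateField.adjoin QQ (dblSub F₀ φ s : Set M) := by
      intro f
      have hf : f ∈ IntermediateField.adjoin QQ (F₀ : Set F) := by
        rw [h0.gen]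
        exact IntermediateField.mem_top
      have h1 : IntermediateField.adjoin QQ (F₀ : Set F) ≤
          (IntermediateField.adjoin QQ (dblSub F₀ φ s : Set M)).comap φ := by
        rw [IntermediateField.adjoin_le_iff]
        intro x hx
        exact IntermediateField.subset_adjoin _ _
          (Subfield.subset_closure (Or.inl ⟨x, hx, rfl⟩))
      exact h1 hf
    exact add_mem (hle a) (mul_mem (hle b) (IntermediateField.subset_adjoin _ _
      (Subfield.subset_closure (Or.inr rfl))))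
  const := by
    intro c hc
    obtain ⟨a, ha, b, hb, hab⟩ := mem_dblSub h hd hns hc
    have hc' : algebraMap QQ M c = φ (algebraMap QQ F c) := (φ.commutes c).symm
    rw [hc'] at hab
    have hb0 : b = 0 := by
      by_contra hb0
      have hb0' : φ b ≠ 0 := (map_ne_zero φ).2 hb0
      apply hns ((algebraMap QQ F c - a) / b)
      have h1 : φ ((algebraMap QQ F c - a) / b) = s := by
        rw [map_div₀, map_sub, hab, add_sub_cancel_left, mul_div_assoc, mul_comm,
          div_mul_cancel₀ _ hb0']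
      have h2 : φ (((algebraMap QQ F c - a) / b) ^ 2) = φ d := by
        rw [map_pow, h1, ← h.sq]
      exact φ.injective h2
    rw [hb0, map_zero, zero_mul, add_zero] at hab
    have h2 := φ.injective hab
    exact h0.const c (by rw [h2]; exact ha)

end Dbl

end Pool.Agent.FPZ
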