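import Pool.Agent.Dess.Fermat

/-!
# The compositum of two coverings which are unramified outside three points
-/

set_option autoImplicit false

noncomputable section

namespace Pool.Agent.FPZ

open Pool.Agent.ZCyc Pool.Agent.Dess Polynomial IntermediateField
open scoped Classical

section aux

variable {k K : Type} [Field k] [Field K] [Algebra k K]

private lemma sup_map_mem (v : Place k K) (g : K ≃ₐ[k] K) (x : K) :
    g x ∈ (v.map g).ring ↔ x ∈ v.ring := by
  rw [Place.mem_map, AlgEquiv.symm_apply_apply]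

/-- if `w` vanishes and is not a uniformizer, it is divisible by the square of a uniformizer -/
private lemma sup_sq {v : Place k K} {w π : K} (hw0 : w ≠ 0)
    (hw : v.Vanishes w) (hn : ¬ IsUnif v w) (hπ : IsUnif v π) : w / π ^ 2 ∈ v.ring := by
  have h1 := hπ.2.2 w hw
  have h2 : v.Vanishes (w / π) := by
    rw [v.vanishes_iff_or]
    right
    intro h3
    apply hn
    refine ⟨hw0, hw, fun g hg => ?_⟩
    have h4 := mul_mem (hπ.2.2 g hg) h3
    rw [inv_div] at h4
    have h5 : g / π * (π / w) = g / w := by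
      have := hπ.1
      field_simp
    rwa [h5] at h4
  have h3 := hπ.2.2 _ h2
  rw [div_div, ← sq] at h3
  exact h3

end aux

/-- an element of the stabilizer fixes every subfield for which the point below is unramified -/
private lemma sup_fix {M N : Type} [Field M] [Algebra QQ M] [Field N] [Algebra QQ N]
    (hM : IsCurve QQ M) (hN : IsCurve QQ N) (φ : M →ₐ[QQ] N) {t : N} {tM : M} (hφt : φ tM = t)
    {c : QQ} (hun : ∀ v : Place QQ M, v.At tM c → IsUnif v (tM - algebraMap QQ M c))
    {V : Place QQ N} (hV : V.At t c) {σ : N ≃ₐ[QQ] N} (hσt : σ t = t) (hσ : V.map σ = V) (f : M) :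
    σ (φ f) = φ f := by
  have e1 : ∀ c, (φ : M →+* N) (algebraMap QQ M c) = algebraMap QQ N (RingEquiv.refl QQ c) :=
    fun c => φ.commutes c
  have e2 : ∀ c, ((σ : N →+* N).comp (φ : M →+* N)) (algebraMap QQ M c) =
      algebraMap QQ N (RingEquiv.refl QQ c) := by
    intro c
    rw [RingHom.comp_apply, e1]
    exact σ.commutes c
  obtain ⟨u, hu⟩ := exists_pull hM hN (RingEquiv.refl QQ) (φ : M →+* N) e1 V
  have hu' : V.ring.comap ((σ : N →+* N).comp (φ : M →+* N)) = u.ring := by
    rw [← hu]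
    ext y
    rw [ValuationSubring.mem_comap, ValuationSubring.mem_comap]
    conv_lhs => rw [← hσ]
    exact sup_map_mem V σ (φ y)
  have hux : u.At tM c := by
    rw [Place.At, u.vanishes_iff_or, ← hu, ValuationSubring.mem_comap]
    rw [Place.At, V.vanishes_iff_or] at hV
    rcases hV with hV | hV
    · left
      apply (φ : M →+* N).injective
      rw [map_sub, map_zero, e1]
      change φ tM - _ = 0
      rw [hφt]
      exact hV
    · right
      rw [map_inv₀, map_sub, e1]
      change (φ tM - _)⁻¹ ∉ _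
      rw [hφt]
      exact hV
  have e3 := taylor hM hN (RingEquiv.refl QQ) e1 e2 hu hu' (hun u hux) (by
    rw [RingHom.comp_apply]
    change φ tM = σ (φ tM)
    rw [hφt, hσt])
  exact (congrArg (fun ψ : M →+* N => ψ f) e3).symm

/-- Unramified points of the compositum. -/
private lemma sup_unram {M M' N : Type} [Field M] [Algebra QQ M] [Field M'] [Algebra QQ M']
    [Field N] [Algebra QQ N]
    (hM : IsCurve QQ M) (hM' : IsCurve QQ M') (φ : M →ₐ[QQ] N) (φ' : M' →ₐ[QQ] N) {t : N}
    (ht : Transcendental QQ t)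
    [FiniteDimensional (adjoin QQ {t}) N] [IsGalois (adjoin QQ {t}) N] {tM : M} {tM' : M'}
    (hφt : φ tM = t) (hφt' : φ' tM' = t)
    (hgen : ∀ σ : N ≃ₐ[QQ] N, σ t = t → (∀ f, σ (φ f) = φ f) → (∀ f, σ (φ' f) = φ' f) →
      ∀ f, σ f = f) {c : QQ}
    (hun : ∀ v : Place QQ M, v.At tM c → IsUnif v (tM - algebraMap QQ M c))
    (hun' : ∀ v : Place QQ M', v.At tM' c → IsUnif v (tM' - algebraMap QQ M' c))
    (V : Place QQ N) (hV : V.At t c) : IsUnif V (t - algebraMap QQ N c) := by
  have hN : IsCurve QQ N := ⟨t, ht, inferInstance⟩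
  set s : N := t - algebraMap QQ N c with hs
  have hst : adjoin QQ {s} = adjoin QQ {t} := by
    apply le_antisymm
    · rw [adjoin_simple_le_iff, hs]
      exact sub_mem (mem_adjoin_simple_self QQ t) (IntermediateField.algebraMap_mem _ c)
    · rw [adjoin_simple_le_iff]
      have h1 : t = s + algebraMap QQ N c := by rw [hs, sub_add_cancel]
      rw [h1]
      exact add_mem (mem_adjoin_simple_self QQ s) (IntermediateField.algebraMap_mem _ c)
  have hfin : FiniteDimensional (adjoin QQ {s}) N := by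
    rw [hst]
    infer_instance
  have hgal : IsGalois (adjoin QQ {s}) N := by
    rw [hst]
    infer_instance
  have htS : t ∈ adjoin QQ {s} := by
    rw [hst]
    exact mem_adjoin_simple_self QQ t
  have hsT : Transcendental QQ s := by
    intro hal
    apply ht
    have h1 : adjoin QQ {s} ≤ algebraicClosure QQ N := by
      rw [adjoin_simple_le_iff, mem_algebraicClosure_iff]
      exact hal
    exact mem_algebraicClosure_iff.1 (h1 htS)
  have hs0 : s ≠ 0 := by
    rintro h
    rw [h] at hsT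
    exact hsT isAlgebraic_zero
  by_contra hcon
  obtain ⟨π, hπ⟩ := exists_unif hN V
  have h2 := ram_le hsT V hV hπ (sup_sq hs0 hV hcon hπ)
  have h3 : Nat.card {σ : N ≃ₐ[adjoin QQ {s}] N // V.map (σ.restrictScalars QQ) = V} ≤ 1 := by
    have h4 : ∀ σ : N ≃ₐ[adjoin QQ {s}] N, V.map (σ.restrictScalars QQ) = V → σ = 1 := by
      intro σ hσ
      have hσt : σ.restrictScalars QQ t = t := σ.commutes ⟨t, htS⟩
      exact AlgEquiv.ext fun f => hgen (σ.restrictScalars QQ) hσt
        (sup_fix hM hN φ hφt hun hV hσt hσ) (sup_fix hM' hN φ' hφt' hun' hV hσt hσ) f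
    have h5 : Subsingleton {σ : N ≃ₐ[adjoin QQ {s}] N // V.map (σ.restrictScalars QQ) = V} :=
      ⟨fun a b => Subtype.ext (by rw [h4 a.1 a.2, h4 b.1 b.2])⟩
    exact Finite.card_le_one_iff_subsingleton.2 h5
  omega

variable {Om : Type} [Field Om] [Algebra QQ Om] {tt : Om}

/-- the subfield generated by an element of an intermediate field -/
private def sup_equiv (F : IntermediateField QQ Om) (h : tt ∈ F) :
    adjoin QQ {(⟨tt, h⟩ : F)} ≃ₐ[QQ] adjoin QQ {tt} :=
  (liftAlgEquiv _).trans (equivOfEq (lift_adjoin_simple QQ F (⟨tt, h⟩ : F)))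

private lemma sup_equiv_coe (F : IntermediateField QQ Om) (h : tt ∈ F)
    (y : adjoin QQ {(⟨tt, h⟩ : F)}) :
    ((sup_equiv F h y : adjoin QQ {tt}) : Om) = ((y : F) : Om) := rfl

private lemma sup_finite (hΩ : IsAlgFun tt) {M : IntermediateField QQ Om} (hM : Belyi tt M)
    (hEM : adjoin QQ {tt} ≤ M) :
    FiniteDimensional (adjoin QQ {tt}) (extendScalars hEM : IntermediateField (adjoin QQ {tt}) Om) := by
  have ht : Transcendental QQ (⟨tt, hM.mem⟩ : M) := by
    intro h
    apply hΩ.transc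
    exact (isAlgebraic_algebraMap_iff (algebraMap M Om).injective).2 h
  have hfin := fin_adjoin hM.curve ht
  refine Module.Finite.of_equiv_equiv (A₁ := adjoin QQ {(⟨tt, hM.mem⟩ : M)}) (B₁ := M)
    (sup_equiv M hM.mem).toRingEquiv
    (B₂ := (extendScalars hEM : IntermediateField (adjoin QQ {tt}) Om)) (RingEquiv.refl M) ?_
  rfl

/-- the compositum of two Galois extensions -/
private lemma sup_field (hΩ : IsAlgFun tt) {M M' : IntermediateField QQ Om} (hM : Belyi tt M)
    (hM' : Belyi tt M') (hMg : ∀ g : Om ≃ₐ[QQ] Om, g tt = tt → ∀ f ∈ M, g f ∈ M)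
    (hMg' : ∀ g : Om ≃ₐ[QQ] Om, g tt = tt → ∀ f ∈ M', g f ∈ M') :
    ∃ N : IntermediateField QQ Om, M ≤ N ∧ M' ≤ N ∧
      (∀ g : Om ≃ₐ[QQ] Om, g tt = tt → ∀ f ∈ N, g f ∈ N) ∧
      (∀ htN : tt ∈ N, FiniteDimensional (adjoin QQ {(⟨tt, htN⟩ : N)}) N ∧
        IsGalois (adjoin QQ {(⟨tt, htN⟩ : N)}) N) ∧
      ∀ T : IntermediateField QQ Om, M ≤ T → M' ≤ T → N ≤ T := by
  have hclosed := hΩ.closed
  let E : IntermediateField QQ Om := adjoin QQ {tt}
  have hEM : E ≤ M := adjoin_simple_le_iff.2 hM.mem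
  have hEM' : E ≤ M' := adjoin_simple_le_iff.2 hM'.mem
  let M₁ : IntermediateField E Om := extendScalars hEM
  let R₁ : IntermediateField E Om := extendScalars hEM'
  have hM₁ : FiniteDimensional E M₁ := sup_finite hΩ hM hEM
  have hR₁ : FiniteDimensional E R₁ := sup_finite hΩ hM' hEM'
  have hEalg : Algebra.IsAlgebraic E Om := hΩ.alg
  have hEn : Normal E Om := by
    have : IsAlgClosure E Om := ⟨inferInstance, hEalg⟩
    exact IsAlgClosure.normal E Om
  let N₁ : IntermediateField E Om := M₁ ⊔ R₁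
  have hN₁ : FiniteDimensional E N₁ := finiteDimensional_sup M₁ R₁
  have hgt : ∀ g : Om ≃ₐ[E] Om, g tt = tt := fun g =>
    g.commutes ⟨tt, mem_adjoin_simple_self QQ tt⟩
  have hstable : ∀ g : Om ≃ₐ[E] Om, N₁.map (g : Om →ₐ[E] Om) ≤ N₁ := by
    intro g
    rw [IntermediateField.map_sup, sup_le_iff]
    constructor
    · rintro _ ⟨f, hf, rfl⟩
      exact (le_sup_left : M₁ ≤ N₁) (hMg (g.restrictScalars QQ) (hgt g) f hf)
    · rintro _ ⟨f, hf, rfl⟩
      exact (le_sup_right : R₁ ≤ N₁) (hMg' (g.restrictScalars QQ) (hgt g) f hf)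
  have hNn : Normal E N₁ := by
    rw [normal_iff_forall_map_le']
    exact hstable
  have hNg : IsGalois E N₁ := ⟨⟩
  refine ⟨N₁.restrictScalars QQ, (le_sup_left : M₁ ≤ N₁), (le_sup_right : R₁ ≤ N₁), ?_, ?_, ?_⟩
  · intro g hg f hf
    have hgE : ∀ y : E, g (y : Om) = y := by
      rintro ⟨y, hy⟩
      obtain ⟨r, s, rfl⟩ := (mem_adjoin_simple_iff QQ y).1 hy
      change g (aeval tt r / aeval tt s) = aeval tt r / aeval tt s
      rw [map_div₀, ← aeval_algHom_apply g, ← aeval_algHom_apply g, hg]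
    let g' : Om ≃ₐ[E] Om := AlgEquiv.ofRingEquiv (f := g.toRingEquiv) hgE
    exact hstable g' ⟨f, hf, rfl⟩
  · intro htN
    constructor
    · refine Module.Finite.of_equiv_equiv (A₁ := E) (B₁ := N₁)
        (sup_equiv (N₁.restrictScalars QQ) htN).symm.toRingEquiv (B₂ := N₁.restrictScalars QQ)
        (RingEquiv.refl N₁) ?_
      ext y
      have h1 := sup_equiv_coe (N₁.restrictScalars QQ) htN
        ((sup_equiv (N₁.restrictScalars QQ) htN).symm y)
      rw [AlgEquiv.apply_symm_apply] at h1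
      exact h1.symm
    · refine IsGalois.of_equiv_equiv (F := E) (E := N₁)
        (f := (sup_equiv (N₁.restrictScalars QQ) htN).symm.toRingEquiv)
        (g := RingEquiv.refl N₁) ?_
      ext y
      have h1 := sup_equiv_coe (N₁.restrictScalars QQ) htN
        ((sup_equiv (N₁.restrictScalars QQ) htN).symm y)
      rw [AlgEquiv.apply_symm_apply] at h1
      exact h1.symm
  · intro T hT hT'
    have hET : E ≤ T := hEM.trans hT
    have h1 : N₁ ≤ extendScalars hET := sup_le hT hT'
    exact h1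

/-- **The compositum.** Two coverings which are unramified outside `0`, `1`, `∞` are dominated by a
Galois covering which is unramified outside `0`, `1`, `∞`. -/
theorem belyi_sup (hΩ : IsAlgFun tt) {F F' : IntermediateField QQ Om} (hF : Belyi tt F)
    (hF' : Belyi tt F') : ∃ N : IntermediateField QQ Om, F ≤ N ∧ F' ≤ N ∧ Belyi tt N ∧
      ∀ g : Om ≃ₐ[QQ] Om, g tt = tt → ∀ f ∈ N, g f ∈ N := by
  obtain ⟨M, hFM, hM, hMg⟩ := exists_closure hΩ F hF
  obtain ⟨M', hFM', hM', hMg'⟩ := exists_closure hΩ F' hF'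
  obtain ⟨N, hMN, hMN', hNg, hNt, hNmin⟩ := sup_field hΩ hM hM' hMg hMg'
  have htN : tt ∈ N := hMN hM.mem
  let t : N := ⟨tt, htN⟩
  let φ : M →ₐ[QQ] N := inclusion hMN
  let φ' : M' →ₐ[QQ] N := inclusion hMN'
  obtain ⟨hfin, hgal⟩ := hNt htN
  have ht : Transcendental QQ t := by
    intro h
    apply hΩ.transc
    exact (isAlgebraic_algebraMap_iff (algebraMap N Om).injective).2 h
  have hgen : ∀ σ : N ≃ₐ[QQ] N, (∀ f, σ (φ f) = φ f) → (∀ f, σ (φ' f) = φ' f) →
      ∀ f, σ f = f := by
    intro σ hσM hσM' f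
    let T₀ : IntermediateField QQ N :=
      { carrier := {y | σ y = y}
        mul_mem' := by
          intro a b ha hb
          rw [Set.mem_ofPred_eq] at *
          rw [map_mul, ha, hb]
        add_mem' := by
          intro a b ha hb
          rw [Set.mem_ofPred_eq] at *
          rw [map_add, ha, hb]
        algebraMap_mem' := fun c => σ.commutes c
        inv_mem' := by
          intro a ha
          change σ a = a at ha
          change σ a⁻¹ = a⁻¹
          rw [map_inv₀, ha] }
    have h1 : N ≤ lift T₀ := by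
      refine hNmin _ (fun m hm => ?_) fun m hm => ?_
      · exact (mem_lift (φ ⟨m, hm⟩)).2 (hσM ⟨m, hm⟩)
      · exact (mem_lift (φ' ⟨m, hm⟩)).2 (hσM' ⟨m, hm⟩)
    exact (mem_lift f).1 (h1 f.2)
  refine ⟨N, hFM.trans hMN, hFM'.trans hMN', ⟨⟨t, ht, hfin⟩, htN, ?_⟩, hNg⟩
  intro V c hV hc0 hc1
  exact sup_unram hM.curve hM'.curve φ φ' ht (tM := ⟨tt, hM.mem⟩) (tM' := ⟨tt, hM'.mem⟩) rfl rfl
    (fun σ _ => hgen σ) (fun v hv => hM.unram v c hv hc0 hc1)
    (fun v hv => hM'.unram v c hv hc0 hc1) V hV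

end Pool.Agent.FPZ
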